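import Pool.Agent.K3h90.T34.Bdef

/-! The check for some representatives. -/

set_option autoImplicit false
set_option maxRecDepth 100000
set_option maxHeartbeats 4000000
set_option linter.unusedVariables false

namespace Pool.Agent.K3h90.T34
open Pool.Agent.H122R2.N6 Pool.Agent.H37R3.Pen Pool.Agent.H37R3.Cop Pool.Agent.H37R3.CopL Pool.Agent.TH983.FC

theorem gb0 : gb 0 = true := by decide +kernel
theorem gb1 : gb 1 = true := by decide +kernel
theorem gb2 : gb 2 = true := by decide +kernel
theorem gb3 : gb 3 = true := by decide +kernel
theorem gb4 : gb 4 = true := by decide +kernel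
theorem gb5 : gb 5 = true := by decide +kernel
theorem gb6 : gb 6 = true := by decide +kernel
theorem gb7 : gb 7 = true := by decide +kernel
theorem gb8 : gb 8 = true := by decide +kernel
theorem gb9 : gb 9 = true := by decide +kernel
theorem gb10 : gb 10 = true := by decide +kernel
theorem gb11 : gb 11 = true := by decide +kernel
theorem gb12 : gb 12 = true := by decide +kernel
theorem gb13 : gb 13 = true := by decide +kernel
theorem gb14 : gb 14 = true := by decide +kernel
theorem gb15 : gb 15 = true := by decide +kernel
theorem gb16 : gb 16 = true := by decide +kernel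
theorem gb17 : gb 17 = true := by decide +kernel
theorem gb18 : gb 18 = true := by decide +kernel
theorem gb19 : gb 19 = true := by decide +kernel
theorem gb20 : gb 20 = true := by decide +kernel
theorem gb21 : gb 21 = true := by decide +kernel
theorem gb22 : gb 22 = true := by decide +kernel
theorem gb23 : gb 23 = true := by decide +kernel

theorem gbs0 {k : ℕ} (h1 : 0 ≤ k) (h2 : k < 24) : gb k = true := by
  interval_cases k
  exacts [gb0, gb1, gb2, gb3, gb4, gb5, gb6, gb7, gb8, gb9, gb10, gb11, gb12, gb13, gb14, gb15, gb16, gb17, gb18, gb19, gb20, gb21, gb22, gb23]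

end Pool.Agent.K3h90.T34
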