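import Pool.Agent.K3h90.T34.Bdef

/-! The check for some representatives. -/

set_option autoImplicit false
set_option maxRecDepth 100000
set_option maxHeartbeats 4000000
set_option linter.unusedVariables false

namespace Pool.Agent.K3h90.T34
open Pool.Agent.H122R2.N6 Pool.Agent.H37R3.Pen Pool.Agent.H37R3.Cop Pool.Agent.H37R3.CopL Pool.Agent.TH983.FC

theorem gb24 : gb 24 = true := by decide +kernel
theorem gb25 : gb 25 = true := by decide +kernel
theorem gb26 : gb 26 = true := by decide +kernel
theorem gb27 : gb 27 = true := by decide +kernel
theorem gb28 : gb 28 = true := by decide +kernel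
theorem gb29 : gb 29 = true := by decide +kernel
theorem gb30 : gb 30 = true := by decide +kernel
theorem gb31 : gb 31 = true := by decide +kernel
theorem gb32 : gb 32 = true := by decide +kernel
theorem gb33 : gb 33 = true := by decide +kernel
theorem gb34 : gb 34 = true := by decide +kernel
theorem gb35 : gb 35 = true := by decide +kernel
theorem gb36 : gb 36 = true := by decide +kernel
theorem gb37 : gb 37 = true := by decide +kernel
theorem gb38 : gb 38 = true := by decide +kernel
theorem gb39 : gb 39 = true := by decide +kernel
theorem gb40 : gb 40 = true := by decide +kernel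
theorem gb41 : gb 41 = true := by decide +kernel
theorem gb42 : gb 42 = true := by decide +kernel
theorem gb43 : gb 43 = true := by decide +kernel
theorem gb44 : gb 44 = true := by decide +kernel
theorem gb45 : gb 45 = true := by decide +kernel
theorem gb46 : gb 46 = true := by decide +kernel
theorem gb47 : gb 47 = true := by decide +kernel

theorem gbs1 {k : ℕ} (h1 : 24 ≤ k) (h2 : k < 48) : gb k = true := by
  interval_cases k
  exacts [gb24, gb25, gb26, gb27, gb28, gb29, gb30, gb31, gb32, gb33, gb34, gb35, gb36, gb37, gb38, gb39, gb40, gb41, gb42, gb43, gb44, gb45, gb46, gb47]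

end Pool.Agent.K3h90.T34
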