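import Pool.Agent.K3h90.T34.Bdef

/-! The check for some representatives. -/

set_option autoImplicit false
set_option maxRecDepth 100000
set_option maxHeartbeats 4000000
set_option linter.unusedVariables false

namespace Pool.Agent.K3h90.T34
open Pool.Agent.H122R2.N6 Pool.Agent.H37R3.Pen Pool.Agent.H37R3.Cop Pool.Agent.H37R3.CopL Pool.Agent.TH983.FC

theorem gb48 : gb 48 = true := by decide +kernel
theorem gb49 : gb 49 = true := by decide +kernel
theorem gb50 : gb 50 = true := by decide +kernel
theorem gb51 : gb 51 = true := by decide +kernel
theorem gb52 : gb 52 = true := by decide +kernel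
theorem gb53 : gb 53 = true := by decide +kernel
theorem gb54 : gb 54 = true := by decide +kernel
theorem gb55 : gb 55 = true := by decide +kernel
theorem gb56 : gb 56 = true := by decide +kernel
theorem gb57 : gb 57 = true := by decide +kernel
theorem gb58 : gb 58 = true := by decide +kernel
theorem gb59 : gb 59 = true := by decide +kernel
theorem gb60 : gb 60 = true := by decide +kernel
theorem gb61 : gb 61 = true := by decide +kernel
theorem gb62 : gb 62 = true := by decide +kernel
theorem gb63 : gb 63 = true := by decide +kernel
theorem gb64 : gb 64 = true := by decide +kernel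
theorem gb65 : gb 65 = true := by decide +kernel
theorem gb66 : gb 66 = true := by decide +kernel
theorem gb67 : gb 67 = true := by decide +kernel
theorem gb68 : gb 68 = true := by decide +kernel
theorem gb69 : gb 69 = true := by decide +kernel
theorem gb70 : gb 70 = true := by decide +kernel
theorem gb71 : gb 71 = true := by decide +kernel

theorem gbs2 {k : ℕ} (h1 : 48 ≤ k) (h2 : k < 72) : gb k = true := by
  interval_cases k
  exacts [gb48, gb49, gb50, gb51, gb52, gb53, gb54, gb55, gb56, gb57, gb58, gb59, gb60, gb61, gb62, gb63, gb64, gb65, gb66, gb67, gb68, gb69, gb70, gb71]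

end Pool.Agent.K3h90.T34
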