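import Pool.Agent.K3h90.T34.Bdef

/-! The check for some representatives. -/

set_option autoImplicit false
set_option maxRecDepth 100000
set_option maxHeartbeats 4000000
set_option linter.unusedVariables false

namespace Pool.Agent.K3h90.T34
open Pool.Agent.H122R2.N6 Pool.Agent.H37R3.Pen Pool.Agent.H37R3.Cop Pool.Agent.H37R3.CopL Pool.Agent.TH983.FC

theorem gb72 : gb 72 = true := by decide +kernel
theorem gb73 : gb 73 = true := by decide +kernel
theorem gb74 : gb 74 = true := by decide +kernel
theorem gb75 : gb 75 = true := by decide +kernel
theorem gb76 : gb 76 = true := by decide +kernel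
theorem gb77 : gb 77 = true := by decide +kernel
theorem gb78 : gb 78 = true := by decide +kernel
theorem gb79 : gb 79 = true := by decide +kernel
theorem gb80 : gb 80 = true := by decide +kernel
theorem gb81 : gb 81 = true := by decide +kernel
theorem gb82 : gb 82 = true := by decide +kernel
theorem gb83 : gb 83 = true := by decide +kernel
theorem gb84 : gb 84 = true := by decide +kernel
theorem gb85 : gb 85 = true := by decide +kernel
theorem gb86 : gb 86 = true := by decide +kernel
theorem gb87 : gb 87 = true := by decide +kernel
theorem gb88 : gb 88 = true := by decide +kernel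
theorem gb89 : gb 89 = true := by decide +kernel
theorem gb90 : gb 90 = true := by decide +kernel
theorem gb91 : gb 91 = true := by decide +kernel
theorem gb92 : gb 92 = true := by decide +kernel
theorem gb93 : gb 93 = true := by decide +kernel
theorem gb94 : gb 94 = true := by decide +kernel
theorem gb95 : gb 95 = true := by decide +kernel

theorem gbs3 {k : ℕ} (h1 : 72 ≤ k) (h2 : k < 96) : gb k = true := by
  interval_cases k
  exacts [gb72, gb73, gb74, gb75, gb76, gb77, gb78, gb79, gb80, gb81, gb82, gb83, gb84, gb85, gb86, gb87, gb88, gb89, gb90, gb91, gb92, gb93, gb94, gb95]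

end Pool.Agent.K3h90.T34
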