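import Pool.Agent.K3h90.T34.Bdef

/-! The check for some representatives. -/

set_option autoImplicit false
set_option maxRecDepth 100000
set_option maxHeartbeats 4000000
set_option linter.unusedVariables false

namespace Pool.Agent.K3h90.T34
open Pool.Agent.H122R2.N6 Pool.Agent.H37R3.Pen Pool.Agent.H37R3.Cop Pool.Agent.H37R3.CopL Pool.Agent.TH983.FC

theorem gb96 : gb 96 = true := by decide +kernel
theorem gb97 : gb 97 = true := by decide +kernel
theorem gb98 : gb 98 = true := by decide +kernel
theorem gb99 : gb 99 = true := by decide +kernel
theorem gb100 : gb 100 = true := by decide +kernel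
theorem gb101 : gb 101 = true := by decide +kernel
theorem gb102 : gb 102 = true := by decide +kernel
theorem gb103 : gb 103 = true := by decide +kernel
theorem gb104 : gb 104 = true := by decide +kernel
theorem gb105 : gb 105 = true := by decide +kernel
theorem gb106 : gb 106 = true := by decide +kernel
theorem gb107 : gb 107 = true := by decide +kernel
theorem gb108 : gb 108 = true := by decide +kernel
theorem gb109 : gb 109 = true := by decide +kernel
theorem gb110 : gb 110 = true := by decide +kernel
theorem gb111 : gb 111 = true := by decide +kernel
theorem gb112 : gb 112 = true := by decide +kernel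
theorem gb113 : gb 113 = true := by decide +kernel
theorem gb114 : gb 114 = true := by decide +kernel
theorem gb115 : gb 115 = true := by decide +kernel
theorem gb116 : gb 116 = true := by decide +kernel
theorem gb117 : gb 117 = true := by decide +kernel
theorem gb118 : gb 118 = true := by decide +kernel
theorem gb119 : gb 119 = true := by decide +kernel

theorem gbs4 {k : ℕ} (h1 : 96 ≤ k) (h2 : k < 120) : gb k = true := by
  interval_cases k
  exacts [gb96, gb97, gb98, gb99, gb100, gb101, gb102, gb103, gb104, gb105, gb106, gb107, gb108, gb109, gb110, gb111, gb112, gb113, gb114, gb115, gb116, gb117, gb118, gb119]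

end Pool.Agent.K3h90.T34
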