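import Pool.Agent.K3h90.T34.Bdef

/-! The check for some representatives. -/

set_option autoImplicit false
set_option maxRecDepth 100000
set_option maxHeartbeats 4000000
set_option linter.unusedVariables false

namespace Pool.Agent.K3h90.T34
open Pool.Agent.H122R2.N6 Pool.Agent.H37R3.Pen Pool.Agent.H37R3.Cop Pool.Agent.H37R3.CopL Pool.Agent.TH983.FC

theorem gb120 : gb 120 = true := by decide +kernel
theorem gb121 : gb 121 = true := by decide +kernel
theorem gb122 : gb 122 = true := by decide +kernel
theorem gb123 : gb 123 = true := by decide +kernel
theorem gb124 : gb 124 = true := by decide +kernel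
theorem gb125 : gb 125 = true := by decide +kernel
theorem gb126 : gb 126 = true := by decide +kernel
theorem gb127 : gb 127 = true := by decide +kernel
theorem gb128 : gb 128 = true := by decide +kernel
theorem gb129 : gb 129 = true := by decide +kernel
theorem gb130 : gb 130 = true := by decide +kernel
theorem gb131 : gb 131 = true := by decide +kernel
theorem gb132 : gb 132 = true := by decide +kernel
theorem gb133 : gb 133 = true := by decide +kernel
theorem gb134 : gb 134 = true := by decide +kernel
theorem gb135 : gb 135 = true := by decide +kernel
theorem gb136 : gb 136 = true := by decide +kernel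
theorem gb137 : gb 137 = true := by decide +kernel
theorem gb138 : gb 138 = true := by decide +kernel
theorem gb139 : gb 139 = true := by decide +kernel
theorem gb140 : gb 140 = true := by decide +kernel
theorem gb141 : gb 141 = true := by decide +kernel
theorem gb142 : gb 142 = true := by decide +kernel
theorem gb143 : gb 143 = true := by decide +kernel

theorem gbs5 {k : ℕ} (h1 : 120 ≤ k) (h2 : k < 144) : gb k = true := by
  interval_cases k
  exacts [gb120, gb121, gb122, gb123, gb124, gb125, gb126, gb127, gb128, gb129, gb130, gb131, gb132, gb133, gb134, gb135, gb136, gb137, gb138, gb139, gb140, gb141, gb142, gb143]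

end Pool.Agent.K3h90.T34
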