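import Pool.Agent.K3h90.T34.Bdef
import Pool.Agent.K3h90.T34.B00

/-! The check for some representatives. -/

set_option autoImplicit false
set_option maxRecDepth 100000
set_option maxHeartbeats 4000000
set_option linter.unusedVariables false

namespace Pool.Agent.K3h90.T34
open Pool.Agent.H122R2.N6 Pool.Agent.H37R3.Pen Pool.Agent.H37R3.Cop Pool.Agent.H37R3.CopL Pool.Agent.TH983.FC

theorem gb144 : gb 144 = true := by decide +kernel
theorem gb145 : gb 145 = true := by decide +kernel
theorem gb146 : gb 146 = true := by decide +kernel
theorem gb147 : gb 147 = true := by decide +kernel
theorem gb148 : gb 148 = true := by decide +kernel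
theorem gb149 : gb 149 = true := by decide +kernel
theorem gb150 : gb 150 = true := by decide +kernel
theorem gb151 : gb 151 = true := by decide +kernel
theorem gb152 : gb 152 = true := by decide +kernel
theorem gb153 : gb 153 = true := by decide +kernel
theorem gb154 : gb 154 = true := by decide +kernel
theorem gb155 : gb 155 = true := by decide +kernel
theorem gb156 : gb 156 = true := by decide +kernel
theorem gb157 : gb 157 = true := by decide +kernel
theorem gb158 : gb 158 = true := by decide +kernel
theorem gb159 : gb 159 = true := by decide +kernel
theorem gb160 : gb 160 = true := by decide +kernel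
theorem gb161 : gb 161 = true := by decide +kernel
theorem gb162 : gb 162 = true := by decide +kernel
theorem gb163 : gb 163 = true := by decide +kernel
theorem gb164 : gb 164 = true := by decide +kernel
theorem gb165 : gb 165 = true := by decide +kernel
theorem gb166 : gb 166 = true := by decide +kernel
theorem gb167 : gb 167 = true := by decide +kernel

theorem gbs6 {k : ℕ} (h1 : 144 ≤ k) (h2 : k < 168) : gb k = true := by
  interval_cases k
  exacts [gb144, gb145, gb146, gb147, gb148, gb149, gb150, gb151, gb152, gb153, gb154, gb155, gb156, gb157, gb158, gb159, gb160, gb161, gb162, gb163, gb164, gb165, gb166, gb167]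

end Pool.Agent.K3h90.T34
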