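import Pool.Agent.K3h90.T34.Bdef
import Pool.Agent.K3h90.T34.B01

/-! The check for some representatives. -/

set_option autoImplicit false
set_option maxRecDepth 100000
set_option maxHeartbeats 4000000
set_option linter.unusedVariables false

namespace Pool.Agent.K3h90.T34
open Pool.Agent.H122R2.N6 Pool.Agent.H37R3.Pen Pool.Agent.H37R3.Cop Pool.Agent.H37R3.CopL Pool.Agent.TH983.FC

theorem gb168 : gb 168 = true := by decide +kernel
theorem gb169 : gb 169 = true := by decide +kernel
theorem gb170 : gb 170 = true := by decide +kernel
theorem gb171 : gb 171 = true := by decide +kernel
theorem gb172 : gb 172 = true := by decide +kernel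
theorem gb173 : gb 173 = true := by decide +kernel
theorem gb174 : gb 174 = true := by decide +kernel
theorem gb175 : gb 175 = true := by decide +kernel
theorem gb176 : gb 176 = true := by decide +kernel
theorem gb177 : gb 177 = true := by decide +kernel
theorem gb178 : gb 178 = true := by decide +kernel
theorem gb179 : gb 179 = true := by decide +kernel
theorem gb180 : gb 180 = true := by decide +kernel
theorem gb181 : gb 181 = true := by decide +kernel
theorem gb182 : gb 182 = true := by decide +kernel
theorem gb183 : gb 183 = true := by decide +kernel
theorem gb184 : gb 184 = true := by decide +kernel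
theorem gb185 : gb 185 = true := by decide +kernel
theorem gb186 : gb 186 = true := by decide +kernel
theorem gb187 : gb 187 = true := by decide +kernel
theorem gb188 : gb 188 = true := by decide +kernel
theorem gb189 : gb 189 = true := by decide +kernel
theorem gb190 : gb 190 = true := by decide +kernel
theorem gb191 : gb 191 = true := by decide +kernel

theorem gbs7 {k : ℕ} (h1 : 168 ≤ k) (h2 : k < 192) : gb k = true := by
  interval_cases k
  exacts [gb168, gb169, gb170, gb171, gb172, gb173, gb174, gb175, gb176, gb177, gb178, gb179, gb180, gb181, gb182, gb183, gb184, gb185, gb186, gb187, gb188, gb189, gb190, gb191]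

end Pool.Agent.K3h90.T34
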