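import Pool.Agent.K3h90.T34.Bdef
import Pool.Agent.K3h90.T34.B02

/-! The check for some representatives. -/

set_option autoImplicit false
set_option maxRecDepth 100000
set_option maxHeartbeats 4000000
set_option linter.unusedVariables false

namespace Pool.Agent.K3h90.T34
open Pool.Agent.H122R2.N6 Pool.Agent.H37R3.Pen Pool.Agent.H37R3.Cop Pool.Agent.H37R3.CopL Pool.Agent.TH983.FC

theorem gb192 : gb 192 = true := by decide +kernel
theorem gb193 : gb 193 = true := by decide +kernel
theorem gb194 : gb 194 = true := by decide +kernel
theorem gb195 : gb 195 = true := by decide +kernel
theorem gb196 : gb 196 = true := by decide +kernel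
theorem gb197 : gb 197 = true := by decide +kernel
theorem gb198 : gb 198 = true := by decide +kernel
theorem gb199 : gb 199 = true := by decide +kernel
theorem gb200 : gb 200 = true := by decide +kernel
theorem gb201 : gb 201 = true := by decide +kernel
theorem gb202 : gb 202 = true := by decide +kernel
theorem gb203 : gb 203 = true := by decide +kernel
theorem gb204 : gb 204 = true := by decide +kernel
theorem gb205 : gb 205 = true := by decide +kernel
theorem gb206 : gb 206 = true := by decide +kernel
theorem gb207 : gb 207 = true := by decide +kernel
theorem gb208 : gb 208 = true := by decide +kernel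
theorem gb209 : gb 209 = true := by decide +kernel
theorem gb210 : gb 210 = true := by decide +kernel
theorem gb211 : gb 211 = true := by decide +kernel
theorem gb212 : gb 212 = true := by decide +kernel
theorem gb213 : gb 213 = true := by decide +kernel
theorem gb214 : gb 214 = true := by decide +kernel
theorem gb215 : gb 215 = true := by decide +kernel

theorem gbs8 {k : ℕ} (h1 : 192 ≤ k) (h2 : k < 216) : gb k = true := by
  interval_cases k
  exacts [gb192, gb193, gb194, gb195, gb196, gb197, gb198, gb199, gb200, gb201, gb202, gb203, gb204, gb205, gb206, gb207, gb208, gb209, gb210, gb211, gb212, gb213, gb214, gb215]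

end Pool.Agent.K3h90.T34
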