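import Pool.Agent.K3h90.T34.Bdef
import Pool.Agent.K3h90.T34.B03

/-! The check for some representatives. -/

set_option autoImplicit false
set_option maxRecDepth 100000
set_option maxHeartbeats 4000000
set_option linter.unusedVariables false

namespace Pool.Agent.K3h90.T34
open Pool.Agent.H122R2.N6 Pool.Agent.H37R3.Pen Pool.Agent.H37R3.Cop Pool.Agent.H37R3.CopL Pool.Agent.TH983.FC

theorem gb216 : gb 216 = true := by decide +kernel
theorem gb217 : gb 217 = true := by decide +kernel
theorem gb218 : gb 218 = true := by decide +kernel
theorem gb219 : gb 219 = true := by decide +kernel
theorem gb220 : gb 220 = true := by decide +kernel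
theorem gb221 : gb 221 = true := by decide +kernel
theorem gb222 : gb 222 = true := by decide +kernel
theorem gb223 : gb 223 = true := by decide +kernel
theorem gb224 : gb 224 = true := by decide +kernel
theorem gb225 : gb 225 = true := by decide +kernel
theorem gb226 : gb 226 = true := by decide +kernel
theorem gb227 : gb 227 = true := by decide +kernel
theorem gb228 : gb 228 = true := by decide +kernel
theorem gb229 : gb 229 = true := by decide +kernel
theorem gb230 : gb 230 = true := by decide +kernel
theorem gb231 : gb 231 = true := by decide +kernel
theorem gb232 : gb 232 = true := by decide +kernel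
theorem gb233 : gb 233 = true := by decide +kernel
theorem gb234 : gb 234 = true := by decide +kernel
theorem gb235 : gb 235 = true := by decide +kernel
theorem gb236 : gb 236 = true := by decide +kernel
theorem gb237 : gb 237 = true := by decide +kernel
theorem gb238 : gb 238 = true := by decide +kernel
theorem gb239 : gb 239 = true := by decide +kernel

theorem gbs9 {k : ℕ} (h1 : 216 ≤ k) (h2 : k < 240) : gb k = true := by
  interval_cases k
  exacts [gb216, gb217, gb218, gb219, gb220, gb221, gb222, gb223, gb224, gb225, gb226, gb227, gb228, gb229, gb230, gb231, gb232, gb233, gb234, gb235, gb236, gb237, gb238, gb239]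

end Pool.Agent.K3h90.T34
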