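import Pool.Agent.K3h90.T34.Bdef
import Pool.Agent.K3h90.T34.B04

/-! The check for some representatives. -/

set_option autoImplicit false
set_option maxRecDepth 100000
set_option maxHeartbeats 4000000
set_option linter.unusedVariables false

namespace Pool.Agent.K3h90.T34
open Pool.Agent.H122R2.N6 Pool.Agent.H37R3.Pen Pool.Agent.H37R3.Cop Pool.Agent.H37R3.CopL Pool.Agent.TH983.FC

theorem gb240 : gb 240 = true := by decide +kernel
theorem gb241 : gb 241 = true := by decide +kernel
theorem gb242 : gb 242 = true := by decide +kernel
theorem gb243 : gb 243 = true := by decide +kernel
theorem gb244 : gb 244 = true := by decide +kernel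
theorem gb245 : gb 245 = true := by decide +kernel
theorem gb246 : gb 246 = true := by decide +kernel
theorem gb247 : gb 247 = true := by decide +kernel
theorem gb248 : gb 248 = true := by decide +kernel
theorem gb249 : gb 249 = true := by decide +kernel
theorem gb250 : gb 250 = true := by decide +kernel
theorem gb251 : gb 251 = true := by decide +kernel
theorem gb252 : gb 252 = true := by decide +kernel
theorem gb253 : gb 253 = true := by decide +kernel
theorem gb254 : gb 254 = true := by decide +kernel
theorem gb255 : gb 255 = true := by decide +kernel
theorem gb256 : gb 256 = true := by decide +kernel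
theorem gb257 : gb 257 = true := by decide +kernel
theorem gb258 : gb 258 = true := by decide +kernel
theorem gb259 : gb 259 = true := by decide +kernel
theorem gb260 : gb 260 = true := by decide +kernel
theorem gb261 : gb 261 = true := by decide +kernel
theorem gb262 : gb 262 = true := by decide +kernel
theorem gb263 : gb 263 = true := by decide +kernel

theorem gbs10 {k : ℕ} (h1 : 240 ≤ k) (h2 : k < 264) : gb k = true := by
  interval_cases k
  exacts [gb240, gb241, gb242, gb243, gb244, gb245, gb246, gb247, gb248, gb249, gb250, gb251, gb252, gb253, gb254, gb255, gb256, gb257, gb258, gb259, gb260, gb261, gb262, gb263]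

end Pool.Agent.K3h90.T34
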