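import Pool.Agent.K3h90.T34.Bdef
import Pool.Agent.K3h90.T34.B05

/-! The check for some representatives. -/

set_option autoImplicit false
set_option maxRecDepth 100000
set_option maxHeartbeats 4000000
set_option linter.unusedVariables false

namespace Pool.Agent.K3h90.T34
open Pool.Agent.H122R2.N6 Pool.Agent.H37R3.Pen Pool.Agent.H37R3.Cop Pool.Agent.H37R3.CopL Pool.Agent.TH983.FC

theorem gb264 : gb 264 = true := by decide +kernel
theorem gb265 : gb 265 = true := by decide +kernel
theorem gb266 : gb 266 = true := by decide +kernel
theorem gb267 : gb 267 = true := by decide +kernel
theorem gb268 : gb 268 = true := by decide +kernel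
theorem gb269 : gb 269 = true := by decide +kernel
theorem gb270 : gb 270 = true := by decide +kernel
theorem gb271 : gb 271 = true := by decide +kernel
theorem gb272 : gb 272 = true := by decide +kernel
theorem gb273 : gb 273 = true := by decide +kernel
theorem gb274 : gb 274 = true := by decide +kernel
theorem gb275 : gb 275 = true := by decide +kernel
theorem gb276 : gb 276 = true := by decide +kernel
theorem gb277 : gb 277 = true := by decide +kernel
theorem gb278 : gb 278 = true := by decide +kernel
theorem gb279 : gb 279 = true := by decide +kernel
theorem gb280 : gb 280 = true := by decide +kernel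
theorem gb281 : gb 281 = true := by decide +kernel
theorem gb282 : gb 282 = true := by decide +kernel
theorem gb283 : gb 283 = true := by decide +kernel
theorem gb284 : gb 284 = true := by decide +kernel
theorem gb285 : gb 285 = true := by decide +kernel
theorem gb286 : gb 286 = true := by decide +kernel
theorem gb287 : gb 287 = true := by decide +kernel

theorem gbs11 {k : ℕ} (h1 : 264 ≤ k) (h2 : k < 288) : gb k = true := by
  interval_cases k
  exacts [gb264, gb265, gb266, gb267, gb268, gb269, gb270, gb271, gb272, gb273, gb274, gb275, gb276, gb277, gb278, gb279, gb280, gb281, gb282, gb283, gb284, gb285, gb286, gb287]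

end Pool.Agent.K3h90.T34
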