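import Pool.Agent.K3h90.T34.Bdef
import Pool.Agent.K3h90.T34.B06

/-! The check for some representatives. -/

set_option autoImplicit false
set_option maxRecDepth 100000
set_option maxHeartbeats 4000000
set_option linter.unusedVariables false

namespace Pool.Agent.K3h90.T34
open Pool.Agent.H122R2.N6 Pool.Agent.H37R3.Pen Pool.Agent.H37R3.Cop Pool.Agent.H37R3.CopL Pool.Agent.TH983.FC

theorem gb288 : gb 288 = true := by decide +kernel
theorem gb289 : gb 289 = true := by decide +kernel
theorem gb290 : gb 290 = true := by decide +kernel
theorem gb291 : gb 291 = true := by decide +kernel
theorem gb292 : gb 292 = true := by decide +kernel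
theorem gb293 : gb 293 = true := by decide +kernel
theorem gb294 : gb 294 = true := by decide +kernel
theorem gb295 : gb 295 = true := by decide +kernel
theorem gb296 : gb 296 = true := by decide +kernel
theorem gb297 : gb 297 = true := by decide +kernel
theorem gb298 : gb 298 = true := by decide +kernel
theorem gb299 : gb 299 = true := by decide +kernel
theorem gb300 : gb 300 = true := by decide +kernel
theorem gb301 : gb 301 = true := by decide +kernel
theorem gb302 : gb 302 = true := by decide +kernel
theorem gb303 : gb 303 = true := by decide +kernel
theorem gb304 : gb 304 = true := by decide +kernel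
theorem gb305 : gb 305 = true := by decide +kernel
theorem gb306 : gb 306 = true := by decide +kernel
theorem gb307 : gb 307 = true := by decide +kernel
theorem gb308 : gb 308 = true := by decide +kernel
theorem gb309 : gb 309 = true := by decide +kernel
theorem gb310 : gb 310 = true := by decide +kernel
theorem gb311 : gb 311 = true := by decide +kernel

theorem gbs12 {k : ℕ} (h1 : 288 ≤ k) (h2 : k < 312) : gb k = true := by
  interval_cases k
  exacts [gb288, gb289, gb290, gb291, gb292, gb293, gb294, gb295, gb296, gb297, gb298, gb299, gb300, gb301, gb302, gb303, gb304, gb305, gb306, gb307, gb308, gb309, gb310, gb311]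

end Pool.Agent.K3h90.T34
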