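import Pool.Agent.K3h90.T34.Bdef
import Pool.Agent.K3h90.T34.B07

/-! The check for some representatives. -/

set_option autoImplicit false
set_option maxRecDepth 100000
set_option maxHeartbeats 4000000
set_option linter.unusedVariables false

namespace Pool.Agent.K3h90.T34
open Pool.Agent.H122R2.N6 Pool.Agent.H37R3.Pen Pool.Agent.H37R3.Cop Pool.Agent.H37R3.CopL Pool.Agent.TH983.FC

theorem gb312 : gb 312 = true := by decide +kernel
theorem gb313 : gb 313 = true := by decide +kernel
theorem gb314 : gb 314 = true := by decide +kernel
theorem gb315 : gb 315 = true := by decide +kernel
theorem gb316 : gb 316 = true := by decide +kernel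
theorem gb317 : gb 317 = true := by decide +kernel
theorem gb318 : gb 318 = true := by decide +kernel
theorem gb319 : gb 319 = true := by decide +kernel
theorem gb320 : gb 320 = true := by decide +kernel
theorem gb321 : gb 321 = true := by decide +kernel
theorem gb322 : gb 322 = true := by decide +kernel
theorem gb323 : gb 323 = true := by decide +kernel
theorem gb324 : gb 324 = true := by decide +kernel
theorem gb325 : gb 325 = true := by decide +kernel
theorem gb326 : gb 326 = true := by decide +kernel
theorem gb327 : gb 327 = true := by decide +kernel
theorem gb328 : gb 328 = true := by decide +kernel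
theorem gb329 : gb 329 = true := by decide +kernel
theorem gb330 : gb 330 = true := by decide +kernel
theorem gb331 : gb 331 = true := by decide +kernel
theorem gb332 : gb 332 = true := by decide +kernel
theorem gb333 : gb 333 = true := by decide +kernel
theorem gb334 : gb 334 = true := by decide +kernel
theorem gb335 : gb 335 = true := by decide +kernel

theorem gbs13 {k : ℕ} (h1 : 312 ≤ k) (h2 : k < 336) : gb k = true := by
  interval_cases k
  exacts [gb312, gb313, gb314, gb315, gb316, gb317, gb318, gb319, gb320, gb321, gb322, gb323, gb324, gb325, gb326, gb327, gb328, gb329, gb330, gb331, gb332, gb333, gb334, gb335]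

end Pool.Agent.K3h90.T34
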