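import Pool.Agent.K3h90.T34.Bdef
import Pool.Agent.K3h90.T34.B08

/-! The check for some representatives. -/

set_option autoImplicit false
set_option maxRecDepth 100000
set_option maxHeartbeats 4000000
set_option linter.unusedVariables false

namespace Pool.Agent.K3h90.T34
open Pool.Agent.H122R2.N6 Pool.Agent.H37R3.Pen Pool.Agent.H37R3.Cop Pool.Agent.H37R3.CopL Pool.Agent.TH983.FC

theorem gb336 : gb 336 = true := by decide +kernel
theorem gb337 : gb 337 = true := by decide +kernel
theorem gb338 : gb 338 = true := by decide +kernel
theorem gb339 : gb 339 = true := by decide +kernel
theorem gb340 : gb 340 = true := by decide +kernel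
theorem gb341 : gb 341 = true := by decide +kernel
theorem gb342 : gb 342 = true := by decide +kernel
theorem gb343 : gb 343 = true := by decide +kernel
theorem gb344 : gb 344 = true := by decide +kernel
theorem gb345 : gb 345 = true := by decide +kernel
theorem gb346 : gb 346 = true := by decide +kernel
theorem gb347 : gb 347 = true := by decide +kernel
theorem gb348 : gb 348 = true := by decide +kernel
theorem gb349 : gb 349 = true := by decide +kernel
theorem gb350 : gb 350 = true := by decide +kernel
theorem gb351 : gb 351 = true := by decide +kernel
theorem gb352 : gb 352 = true := by decide +kernel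
theorem gb353 : gb 353 = true := by decide +kernel
theorem gb354 : gb 354 = true := by decide +kernel
theorem gb355 : gb 355 = true := by decide +kernel
theorem gb356 : gb 356 = true := by decide +kernel
theorem gb357 : gb 357 = true := by decide +kernel
theorem gb358 : gb 358 = true := by decide +kernel
theorem gb359 : gb 359 = true := by decide +kernel

theorem gbs14 {k : ℕ} (h1 : 336 ≤ k) (h2 : k < 360) : gb k = true := by
  interval_cases k
  exacts [gb336, gb337, gb338, gb339, gb340, gb341, gb342, gb343, gb344, gb345, gb346, gb347, gb348, gb349, gb350, gb351, gb352, gb353, gb354, gb355, gb356, gb357, gb358, gb359]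

end Pool.Agent.K3h90.T34
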