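import Pool.Agent.K3h90.T34.Bdef
import Pool.Agent.K3h90.T34.B09

/-! The check for some representatives. -/

set_option autoImplicit false
set_option maxRecDepth 100000
set_option maxHeartbeats 4000000
set_option linter.unusedVariables false

namespace Pool.Agent.K3h90.T34
open Pool.Agent.H122R2.N6 Pool.Agent.H37R3.Pen Pool.Agent.H37R3.Cop Pool.Agent.H37R3.CopL Pool.Agent.TH983.FC

theorem gb360 : gb 360 = true := by decide +kernel
theorem gb361 : gb 361 = true := by decide +kernel
theorem gb362 : gb 362 = true := by decide +kernel
theorem gb363 : gb 363 = true := by decide +kernel
theorem gb364 : gb 364 = true := by decide +kernel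
theorem gb365 : gb 365 = true := by decide +kernel
theorem gb366 : gb 366 = true := by decide +kernel
theorem gb367 : gb 367 = true := by decide +kernel
theorem gb368 : gb 368 = true := by decide +kernel
theorem gb369 : gb 369 = true := by decide +kernel
theorem gb370 : gb 370 = true := by decide +kernel
theorem gb371 : gb 371 = true := by decide +kernel
theorem gb372 : gb 372 = true := by decide +kernel
theorem gb373 : gb 373 = true := by decide +kernel
theorem gb374 : gb 374 = true := by decide +kernel
theorem gb375 : gb 375 = true := by decide +kernel
theorem gb376 : gb 376 = true := by decide +kernel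
theorem gb377 : gb 377 = true := by decide +kernel
theorem gb378 : gb 378 = true := by decide +kernel
theorem gb379 : gb 379 = true := by decide +kernel
theorem gb380 : gb 380 = true := by decide +kernel
theorem gb381 : gb 381 = true := by decide +kernel
theorem gb382 : gb 382 = true := by decide +kernel
theorem gb383 : gb 383 = true := by decide +kernel

theorem gbs15 {k : ℕ} (h1 : 360 ≤ k) (h2 : k < 384) : gb k = true := by
  interval_cases k
  exacts [gb360, gb361, gb362, gb363, gb364, gb365, gb366, gb367, gb368, gb369, gb370, gb371, gb372, gb373, gb374, gb375, gb376, gb377, gb378, gb379, gb380, gb381, gb382, gb383]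

end Pool.Agent.K3h90.T34
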