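import Pool.Agent.K3h90.T34.Bdef
import Pool.Agent.K3h90.T34.B10

/-! The check for some representatives. -/

set_option autoImplicit false
set_option maxRecDepth 100000
set_option maxHeartbeats 4000000
set_option linter.unusedVariables false

namespace Pool.Agent.K3h90.T34
open Pool.Agent.H122R2.N6 Pool.Agent.H37R3.Pen Pool.Agent.H37R3.Cop Pool.Agent.H37R3.CopL Pool.Agent.TH983.FC

theorem gb384 : gb 384 = true := by decide +kernel
theorem gb385 : gb 385 = true := by decide +kernel
theorem gb386 : gb 386 = true := by decide +kernel
theorem gb387 : gb 387 = true := by decide +kernel
theorem gb388 : gb 388 = true := by decide +kernel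
theorem gb389 : gb 389 = true := by decide +kernel
theorem gb390 : gb 390 = true := by decide +kernel
theorem gb391 : gb 391 = true := by decide +kernel
theorem gb392 : gb 392 = true := by decide +kernel
theorem gb393 : gb 393 = true := by decide +kernel
theorem gb394 : gb 394 = true := by decide +kernel
theorem gb395 : gb 395 = true := by decide +kernel
theorem gb396 : gb 396 = true := by decide +kernel
theorem gb397 : gb 397 = true := by decide +kernel
theorem gb398 : gb 398 = true := by decide +kernel
theorem gb399 : gb 399 = true := by decide +kernel
theorem gb400 : gb 400 = true := by decide +kernel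
theorem gb401 : gb 401 = true := by decide +kernel
theorem gb402 : gb 402 = true := by decide +kernel
theorem gb403 : gb 403 = true := by decide +kernel
theorem gb404 : gb 404 = true := by decide +kernel
theorem gb405 : gb 405 = true := by decide +kernel
theorem gb406 : gb 406 = true := by decide +kernel
theorem gb407 : gb 407 = true := by decide +kernel

theorem gbs16 {k : ℕ} (h1 : 384 ≤ k) (h2 : k < 408) : gb k = true := by
  interval_cases k
  exacts [gb384, gb385, gb386, gb387, gb388, gb389, gb390, gb391, gb392, gb393, gb394, gb395, gb396, gb397, gb398, gb399, gb400, gb401, gb402, gb403, gb404, gb405, gb406, gb407]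

end Pool.Agent.K3h90.T34
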