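import Pool.Agent.K3h90.T34.Bdef
import Pool.Agent.K3h90.T34.B11

/-! The check for some representatives. -/

set_option autoImplicit false
set_option maxRecDepth 100000
set_option maxHeartbeats 4000000
set_option linter.unusedVariables false

namespace Pool.Agent.K3h90.T34
open Pool.Agent.H122R2.N6 Pool.Agent.H37R3.Pen Pool.Agent.H37R3.Cop Pool.Agent.H37R3.CopL Pool.Agent.TH983.FC

theorem gb408 : gb 408 = true := by decide +kernel
theorem gb409 : gb 409 = true := by decide +kernel
theorem gb410 : gb 410 = true := by decide +kernel
theorem gb411 : gb 411 = true := by decide +kernel
theorem gb412 : gb 412 = true := by decide +kernel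
theorem gb413 : gb 413 = true := by decide +kernel
theorem gb414 : gb 414 = true := by decide +kernel
theorem gb415 : gb 415 = true := by decide +kernel
theorem gb416 : gb 416 = true := by decide +kernel
theorem gb417 : gb 417 = true := by decide +kernel
theorem gb418 : gb 418 = true := by decide +kernel
theorem gb419 : gb 419 = true := by decide +kernel
theorem gb420 : gb 420 = true := by decide +kernel
theorem gb421 : gb 421 = true := by decide +kernel
theorem gb422 : gb 422 = true := by decide +kernel
theorem gb423 : gb 423 = true := by decide +kernel
theorem gb424 : gb 424 = true := by decide +kernel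
theorem gb425 : gb 425 = true := by decide +kernel
theorem gb426 : gb 426 = true := by decide +kernel
theorem gb427 : gb 427 = true := by decide +kernel
theorem gb428 : gb 428 = true := by decide +kernel
theorem gb429 : gb 429 = true := by decide +kernel
theorem gb430 : gb 430 = true := by decide +kernel
theorem gb431 : gb 431 = true := by decide +kernel

theorem gbs17 {k : ℕ} (h1 : 408 ≤ k) (h2 : k < 432) : gb k = true := by
  interval_cases k
  exacts [gb408, gb409, gb410, gb411, gb412, gb413, gb414, gb415, gb416, gb417, gb418, gb419, gb420, gb421, gb422, gb423, gb424, gb425, gb426, gb427, gb428, gb429, gb430, gb431]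

end Pool.Agent.K3h90.T34
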