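import Pool.Agent.K3h90.T34.Bdef
import Pool.Agent.K3h90.T34.B12

/-! The check for some representatives. -/

set_option autoImplicit false
set_option maxRecDepth 100000
set_option maxHeartbeats 4000000
set_option linter.unusedVariables false

namespace Pool.Agent.K3h90.T34
open Pool.Agent.H122R2.N6 Pool.Agent.H37R3.Pen Pool.Agent.H37R3.Cop Pool.Agent.H37R3.CopL Pool.Agent.TH983.FC

theorem gb432 : gb 432 = true := by decide +kernel
theorem gb433 : gb 433 = true := by decide +kernel
theorem gb434 : gb 434 = true := by decide +kernel
theorem gb435 : gb 435 = true := by decide +kernel
theorem gb436 : gb 436 = true := by decide +kernel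
theorem gb437 : gb 437 = true := by decide +kernel
theorem gb438 : gb 438 = true := by decide +kernel
theorem gb439 : gb 439 = true := by decide +kernel
theorem gb440 : gb 440 = true := by decide +kernel
theorem gb441 : gb 441 = true := by decide +kernel
theorem gb442 : gb 442 = true := by decide +kernel
theorem gb443 : gb 443 = true := by decide +kernel
theorem gb444 : gb 444 = true := by decide +kernel
theorem gb445 : gb 445 = true := by decide +kernel
theorem gb446 : gb 446 = true := by decide +kernel
theorem gb447 : gb 447 = true := by decide +kernel
theorem gb448 : gb 448 = true := by decide +kernel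
theorem gb449 : gb 449 = true := by decide +kernel
theorem gb450 : gb 450 = true := by decide +kernel
theorem gb451 : gb 451 = true := by decide +kernel
theorem gb452 : gb 452 = true := by decide +kernel
theorem gb453 : gb 453 = true := by decide +kernel
theorem gb454 : gb 454 = true := by decide +kernel
theorem gb455 : gb 455 = true := by decide +kernel

theorem gbs18 {k : ℕ} (h1 : 432 ≤ k) (h2 : k < 456) : gb k = true := by
  interval_cases k
  exacts [gb432, gb433, gb434, gb435, gb436, gb437, gb438, gb439, gb440, gb441, gb442, gb443, gb444, gb445, gb446, gb447, gb448, gb449, gb450, gb451, gb452, gb453, gb454, gb455]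

end Pool.Agent.K3h90.T34
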