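import Pool.Agent.K3h90.T34.Bdef
import Pool.Agent.K3h90.T34.B13

/-! The check for some representatives. -/

set_option autoImplicit false
set_option maxRecDepth 100000
set_option maxHeartbeats 4000000
set_option linter.unusedVariables false

namespace Pool.Agent.K3h90.T34
open Pool.Agent.H122R2.N6 Pool.Agent.H37R3.Pen Pool.Agent.H37R3.Cop Pool.Agent.H37R3.CopL Pool.Agent.TH983.FC

theorem gb456 : gb 456 = true := by decide +kernel
theorem gb457 : gb 457 = true := by decide +kernel
theorem gb458 : gb 458 = true := by decide +kernel
theorem gb459 : gb 459 = true := by decide +kernel
theorem gb460 : gb 460 = true := by decide +kernel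
theorem gb461 : gb 461 = true := by decide +kernel
theorem gb462 : gb 462 = true := by decide +kernel
theorem gb463 : gb 463 = true := by decide +kernel
theorem gb464 : gb 464 = true := by decide +kernel
theorem gb465 : gb 465 = true := by decide +kernel
theorem gb466 : gb 466 = true := by decide +kernel
theorem gb467 : gb 467 = true := by decide +kernel
theorem gb468 : gb 468 = true := by decide +kernel
theorem gb469 : gb 469 = true := by decide +kernel
theorem gb470 : gb 470 = true := by decide +kernel
theorem gb471 : gb 471 = true := by decide +kernel
theorem gb472 : gb 472 = true := by decide +kernel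
theorem gb473 : gb 473 = true := by decide +kernel
theorem gb474 : gb 474 = true := by decide +kernel
theorem gb475 : gb 475 = true := by decide +kernel
theorem gb476 : gb 476 = true := by decide +kernel
theorem gb477 : gb 477 = true := by decide +kernel
theorem gb478 : gb 478 = true := by decide +kernel
theorem gb479 : gb 479 = true := by decide +kernel

theorem gbs19 {k : ℕ} (h1 : 456 ≤ k) (h2 : k < 480) : gb k = true := by
  interval_cases k
  exacts [gb456, gb457, gb458, gb459, gb460, gb461, gb462, gb463, gb464, gb465, gb466, gb467, gb468, gb469, gb470, gb471, gb472, gb473, gb474, gb475, gb476, gb477, gb478, gb479]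

end Pool.Agent.K3h90.T34
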