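import Pool.Agent.K3h90.T34.Bdef
import Pool.Agent.K3h90.T34.B14

/-! The check for some representatives. -/

set_option autoImplicit false
set_option maxRecDepth 100000
set_option maxHeartbeats 4000000
set_option linter.unusedVariables false

namespace Pool.Agent.K3h90.T34
open Pool.Agent.H122R2.N6 Pool.Agent.H37R3.Pen Pool.Agent.H37R3.Cop Pool.Agent.H37R3.CopL Pool.Agent.TH983.FC

theorem gb480 : gb 480 = true := by decide +kernel
theorem gb481 : gb 481 = true := by decide +kernel
theorem gb482 : gb 482 = true := by decide +kernel
theorem gb483 : gb 483 = true := by decide +kernel
theorem gb484 : gb 484 = true := by decide +kernel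
theorem gb485 : gb 485 = true := by decide +kernel
theorem gb486 : gb 486 = true := by decide +kernel
theorem gb487 : gb 487 = true := by decide +kernel
theorem gb488 : gb 488 = true := by decide +kernel
theorem gb489 : gb 489 = true := by decide +kernel
theorem gb490 : gb 490 = true := by decide +kernel
theorem gb491 : gb 491 = true := by decide +kernel
theorem gb492 : gb 492 = true := by decide +kernel
theorem gb493 : gb 493 = true := by decide +kernel
theorem gb494 : gb 494 = true := by decide +kernel
theorem gb495 : gb 495 = true := by decide +kernel
theorem gb496 : gb 496 = true := by decide +kernel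
theorem gb497 : gb 497 = true := by decide +kernel
theorem gb498 : gb 498 = true := by decide +kernel
theorem gb499 : gb 499 = true := by decide +kernel
theorem gb500 : gb 500 = true := by decide +kernel
theorem gb501 : gb 501 = true := by decide +kernel
theorem gb502 : gb 502 = true := by decide +kernel
theorem gb503 : gb 503 = true := by decide +kernel

theorem gbs20 {k : ℕ} (h1 : 480 ≤ k) (h2 : k < 504) : gb k = true := by
  interval_cases k
  exacts [gb480, gb481, gb482, gb483, gb484, gb485, gb486, gb487, gb488, gb489, gb490, gb491, gb492, gb493, gb494, gb495, gb496, gb497, gb498, gb499, gb500, gb501, gb502, gb503]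

end Pool.Agent.K3h90.T34
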