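import Pool.Agent.K3h90.T34.Bdef
import Pool.Agent.K3h90.T34.B15

/-! The check for some representatives. -/

set_option autoImplicit false
set_option maxRecDepth 100000
set_option maxHeartbeats 4000000
set_option linter.unusedVariables false

namespace Pool.Agent.K3h90.T34
open Pool.Agent.H122R2.N6 Pool.Agent.H37R3.Pen Pool.Agent.H37R3.Cop Pool.Agent.H37R3.CopL Pool.Agent.TH983.FC

theorem gb504 : gb 504 = true := by decide +kernel
theorem gb505 : gb 505 = true := by decide +kernel
theorem gb506 : gb 506 = true := by decide +kernel
theorem gb507 : gb 507 = true := by decide +kernel
theorem gb508 : gb 508 = true := by decide +kernel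
theorem gb509 : gb 509 = true := by decide +kernel
theorem gb510 : gb 510 = true := by decide +kernel
theorem gb511 : gb 511 = true := by decide +kernel
theorem gb512 : gb 512 = true := by decide +kernel
theorem gb513 : gb 513 = true := by decide +kernel
theorem gb514 : gb 514 = true := by decide +kernel
theorem gb515 : gb 515 = true := by decide +kernel
theorem gb516 : gb 516 = true := by decide +kernel
theorem gb517 : gb 517 = true := by decide +kernel
theorem gb518 : gb 518 = true := by decide +kernel
theorem gb519 : gb 519 = true := by decide +kernel
theorem gb520 : gb 520 = true := by decide +kernel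
theorem gb521 : gb 521 = true := by decide +kernel
theorem gb522 : gb 522 = true := by decide +kernel
theorem gb523 : gb 523 = true := by decide +kernel
theorem gb524 : gb 524 = true := by decide +kernel
theorem gb525 : gb 525 = true := by decide +kernel
theorem gb526 : gb 526 = true := by decide +kernel
theorem gb527 : gb 527 = true := by decide +kernel

theorem gbs21 {k : ℕ} (h1 : 504 ≤ k) (h2 : k < 528) : gb k = true := by
  interval_cases k
  exacts [gb504, gb505, gb506, gb507, gb508, gb509, gb510, gb511, gb512, gb513, gb514, gb515, gb516, gb517, gb518, gb519, gb520, gb521, gb522, gb523, gb524, gb525, gb526, gb527]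

end Pool.Agent.K3h90.T34
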