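import Pool.Agent.K3h90.T34.Bdef
import Pool.Agent.K3h90.T34.B16

/-! The check for some representatives. -/

set_option autoImplicit false
set_option maxRecDepth 100000
set_option maxHeartbeats 4000000
set_option linter.unusedVariables false

namespace Pool.Agent.K3h90.T34
open Pool.Agent.H122R2.N6 Pool.Agent.H37R3.Pen Pool.Agent.H37R3.Cop Pool.Agent.H37R3.CopL Pool.Agent.TH983.FC

theorem gb528 : gb 528 = true := by decide +kernel
theorem gb529 : gb 529 = true := by decide +kernel
theorem gb530 : gb 530 = true := by decide +kernel
theorem gb531 : gb 531 = true := by decide +kernel
theorem gb532 : gb 532 = true := by decide +kernel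
theorem gb533 : gb 533 = true := by decide +kernel
theorem gb534 : gb 534 = true := by decide +kernel
theorem gb535 : gb 535 = true := by decide +kernel
theorem gb536 : gb 536 = true := by decide +kernel
theorem gb537 : gb 537 = true := by decide +kernel
theorem gb538 : gb 538 = true := by decide +kernel
theorem gb539 : gb 539 = true := by decide +kernel
theorem gb540 : gb 540 = true := by decide +kernel
theorem gb541 : gb 541 = true := by decide +kernel
theorem gb542 : gb 542 = true := by decide +kernel
theorem gb543 : gb 543 = true := by decide +kernel
theorem gb544 : gb 544 = true := by decide +kernel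
theorem gb545 : gb 545 = true := by decide +kernel
theorem gb546 : gb 546 = true := by decide +kernel
theorem gb547 : gb 547 = true := by decide +kernel
theorem gb548 : gb 548 = true := by decide +kernel
theorem gb549 : gb 549 = true := by decide +kernel
theorem gb550 : gb 550 = true := by decide +kernel
theorem gb551 : gb 551 = true := by decide +kernel

theorem gbs22 {k : ℕ} (h1 : 528 ≤ k) (h2 : k < 552) : gb k = true := by
  interval_cases k
  exacts [gb528, gb529, gb530, gb531, gb532, gb533, gb534, gb535, gb536, gb537, gb538, gb539, gb540, gb541, gb542, gb543, gb544, gb545, gb546, gb547, gb548, gb549, gb550, gb551]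

end Pool.Agent.K3h90.T34
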