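import Pool.Agent.K3h90.T34.Bdef
import Pool.Agent.K3h90.T34.B17

/-! The check for some representatives. -/

set_option autoImplicit false
set_option maxRecDepth 100000
set_option maxHeartbeats 4000000
set_option linter.unusedVariables false

namespace Pool.Agent.K3h90.T34
open Pool.Agent.H122R2.N6 Pool.Agent.H37R3.Pen Pool.Agent.H37R3.Cop Pool.Agent.H37R3.CopL Pool.Agent.TH983.FC

theorem gb552 : gb 552 = true := by decide +kernel
theorem gb553 : gb 553 = true := by decide +kernel
theorem gb554 : gb 554 = true := by decide +kernel
theorem gb555 : gb 555 = true := by decide +kernel
theorem gb556 : gb 556 = true := by decide +kernel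
theorem gb557 : gb 557 = true := by decide +kernel
theorem gb558 : gb 558 = true := by decide +kernel
theorem gb559 : gb 559 = true := by decide +kernel
theorem gb560 : gb 560 = true := by decide +kernel
theorem gb561 : gb 561 = true := by decide +kernel
theorem gb562 : gb 562 = true := by decide +kernel
theorem gb563 : gb 563 = true := by decide +kernel
theorem gb564 : gb 564 = true := by decide +kernel
theorem gb565 : gb 565 = true := by decide +kernel
theorem gb566 : gb 566 = true := by decide +kernel
theorem gb567 : gb 567 = true := by decide +kernel
theorem gb568 : gb 568 = true := by decide +kernel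
theorem gb569 : gb 569 = true := by decide +kernel
theorem gb570 : gb 570 = true := by decide +kernel
theorem gb571 : gb 571 = true := by decide +kernel
theorem gb572 : gb 572 = true := by decide +kernel
theorem gb573 : gb 573 = true := by decide +kernel
theorem gb574 : gb 574 = true := by decide +kernel
theorem gb575 : gb 575 = true := by decide +kernel

theorem gbs23 {k : ℕ} (h1 : 552 ≤ k) (h2 : k < 576) : gb k = true := by
  interval_cases k
  exacts [gb552, gb553, gb554, gb555, gb556, gb557, gb558, gb559, gb560, gb561, gb562, gb563, gb564, gb565, gb566, gb567, gb568, gb569, gb570, gb571, gb572, gb573, gb574, gb575]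

end Pool.Agent.K3h90.T34
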