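import Pool.Agent.K3h90.T34.Bdef
import Pool.Agent.K3h90.T34.B18

/-! The check for some representatives. -/

set_option autoImplicit false
set_option maxRecDepth 100000
set_option maxHeartbeats 4000000
set_option linter.unusedVariables false

namespace Pool.Agent.K3h90.T34
open Pool.Agent.H122R2.N6 Pool.Agent.H37R3.Pen Pool.Agent.H37R3.Cop Pool.Agent.H37R3.CopL Pool.Agent.TH983.FC

theorem gb576 : gb 576 = true := by decide +kernel
theorem gb577 : gb 577 = true := by decide +kernel
theorem gb578 : gb 578 = true := by decide +kernel
theorem gb579 : gb 579 = true := by decide +kernel
theorem gb580 : gb 580 = true := by decide +kernel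
theorem gb581 : gb 581 = true := by decide +kernel
theorem gb582 : gb 582 = true := by decide +kernel
theorem gb583 : gb 583 = true := by decide +kernel
theorem gb584 : gb 584 = true := by decide +kernel
theorem gb585 : gb 585 = true := by decide +kernel
theorem gb586 : gb 586 = true := by decide +kernel
theorem gb587 : gb 587 = true := by decide +kernel
theorem gb588 : gb 588 = true := by decide +kernel
theorem gb589 : gb 589 = true := by decide +kernel
theorem gb590 : gb 590 = true := by decide +kernel
theorem gb591 : gb 591 = true := by decide +kernel
theorem gb592 : gb 592 = true := by decide +kernel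
theorem gb593 : gb 593 = true := by decide +kernel
theorem gb594 : gb 594 = true := by decide +kernel
theorem gb595 : gb 595 = true := by decide +kernel
theorem gb596 : gb 596 = true := by decide +kernel
theorem gb597 : gb 597 = true := by decide +kernel
theorem gb598 : gb 598 = true := by decide +kernel
theorem gb599 : gb 599 = true := by decide +kernel

theorem gbs24 {k : ℕ} (h1 : 576 ≤ k) (h2 : k < 600) : gb k = true := by
  interval_cases k
  exacts [gb576, gb577, gb578, gb579, gb580, gb581, gb582, gb583, gb584, gb585, gb586, gb587, gb588, gb589, gb590, gb591, gb592, gb593, gb594, gb595, gb596, gb597, gb598, gb599]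

end Pool.Agent.K3h90.T34
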