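import Pool.Agent.K3h90.T34.Bdef
import Pool.Agent.K3h90.T34.B19

/-! The check for some representatives. -/

set_option autoImplicit false
set_option maxRecDepth 100000
set_option maxHeartbeats 4000000
set_option linter.unusedVariables false

namespace Pool.Agent.K3h90.T34
open Pool.Agent.H122R2.N6 Pool.Agent.H37R3.Pen Pool.Agent.H37R3.Cop Pool.Agent.H37R3.CopL Pool.Agent.TH983.FC

theorem gb600 : gb 600 = true := by decide +kernel
theorem gb601 : gb 601 = true := by decide +kernel
theorem gb602 : gb 602 = true := by decide +kernel
theorem gb603 : gb 603 = true := by decide +kernel
theorem gb604 : gb 604 = true := by decide +kernel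
theorem gb605 : gb 605 = true := by decide +kernel
theorem gb606 : gb 606 = true := by decide +kernel
theorem gb607 : gb 607 = true := by decide +kernel
theorem gb608 : gb 608 = true := by decide +kernel
theorem gb609 : gb 609 = true := by decide +kernel
theorem gb610 : gb 610 = true := by decide +kernel
theorem gb611 : gb 611 = true := by decide +kernel
theorem gb612 : gb 612 = true := by decide +kernel
theorem gb613 : gb 613 = true := by decide +kernel
theorem gb614 : gb 614 = true := by decide +kernel
theorem gb615 : gb 615 = true := by decide +kernel
theorem gb616 : gb 616 = true := by decide +kernel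
theorem gb617 : gb 617 = true := by decide +kernel
theorem gb618 : gb 618 = true := by decide +kernel
theorem gb619 : gb 619 = true := by decide +kernel
theorem gb620 : gb 620 = true := by decide +kernel
theorem gb621 : gb 621 = true := by decide +kernel
theorem gb622 : gb 622 = true := by decide +kernel
theorem gb623 : gb 623 = true := by decide +kernel

theorem gbs25 {k : ℕ} (h1 : 600 ≤ k) (h2 : k < 624) : gb k = true := by
  interval_cases k
  exacts [gb600, gb601, gb602, gb603, gb604, gb605, gb606, gb607, gb608, gb609, gb610, gb611, gb612, gb613, gb614, gb615, gb616, gb617, gb618, gb619, gb620, gb621, gb622, gb623]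

end Pool.Agent.K3h90.T34
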