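import Pool.Agent.K3h90.T34.Bdef
import Pool.Agent.K3h90.T34.B20

/-! The check for some representatives. -/

set_option autoImplicit false
set_option maxRecDepth 100000
set_option maxHeartbeats 4000000
set_option linter.unusedVariables false

namespace Pool.Agent.K3h90.T34
open Pool.Agent.H122R2.N6 Pool.Agent.H37R3.Pen Pool.Agent.H37R3.Cop Pool.Agent.H37R3.CopL Pool.Agent.TH983.FC

theorem gb624 : gb 624 = true := by decide +kernel
theorem gb625 : gb 625 = true := by decide +kernel
theorem gb626 : gb 626 = true := by decide +kernel
theorem gb627 : gb 627 = true := by decide +kernel
theorem gb628 : gb 628 = true := by decide +kernel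
theorem gb629 : gb 629 = true := by decide +kernel
theorem gb630 : gb 630 = true := by decide +kernel
theorem gb631 : gb 631 = true := by decide +kernel
theorem gb632 : gb 632 = true := by decide +kernel
theorem gb633 : gb 633 = true := by decide +kernel
theorem gb634 : gb 634 = true := by decide +kernel
theorem gb635 : gb 635 = true := by decide +kernel
theorem gb636 : gb 636 = true := by decide +kernel
theorem gb637 : gb 637 = true := by decide +kernel
theorem gb638 : gb 638 = true := by decide +kernel
theorem gb639 : gb 639 = true := by decide +kernel
theorem gb640 : gb 640 = true := by decide +kernel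
theorem gb641 : gb 641 = true := by decide +kernel
theorem gb642 : gb 642 = true := by decide +kernel
theorem gb643 : gb 643 = true := by decide +kernel
theorem gb644 : gb 644 = true := by decide +kernel
theorem gb645 : gb 645 = true := by decide +kernel
theorem gb646 : gb 646 = true := by decide +kernel
theorem gb647 : gb 647 = true := by decide +kernel

theorem gbs26 {k : ℕ} (h1 : 624 ≤ k) (h2 : k < 648) : gb k = true := by
  interval_cases k
  exacts [gb624, gb625, gb626, gb627, gb628, gb629, gb630, gb631, gb632, gb633, gb634, gb635, gb636, gb637, gb638, gb639, gb640, gb641, gb642, gb643, gb644, gb645, gb646, gb647]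

end Pool.Agent.K3h90.T34
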