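import Pool.Agent.K3h90.T34.Bdef
import Pool.Agent.K3h90.T34.B21

/-! The check for some representatives. -/

set_option autoImplicit false
set_option maxRecDepth 100000
set_option maxHeartbeats 4000000
set_option linter.unusedVariables false

namespace Pool.Agent.K3h90.T34
open Pool.Agent.H122R2.N6 Pool.Agent.H37R3.Pen Pool.Agent.H37R3.Cop Pool.Agent.H37R3.CopL Pool.Agent.TH983.FC

theorem gb648 : gb 648 = true := by decide +kernel
theorem gb649 : gb 649 = true := by decide +kernel
theorem gb650 : gb 650 = true := by decide +kernel
theorem gb651 : gb 651 = true := by decide +kernel
theorem gb652 : gb 652 = true := by decide +kernel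
theorem gb653 : gb 653 = true := by decide +kernel
theorem gb654 : gb 654 = true := by decide +kernel
theorem gb655 : gb 655 = true := by decide +kernel
theorem gb656 : gb 656 = true := by decide +kernel
theorem gb657 : gb 657 = true := by decide +kernel
theorem gb658 : gb 658 = true := by decide +kernel
theorem gb659 : gb 659 = true := by decide +kernel
theorem gb660 : gb 660 = true := by decide +kernel
theorem gb661 : gb 661 = true := by decide +kernel
theorem gb662 : gb 662 = true := by decide +kernel
theorem gb663 : gb 663 = true := by decide +kernel
theorem gb664 : gb 664 = true := by decide +kernel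
theorem gb665 : gb 665 = true := by decide +kernel
theorem gb666 : gb 666 = true := by decide +kernel
theorem gb667 : gb 667 = true := by decide +kernel
theorem gb668 : gb 668 = true := by decide +kernel
theorem gb669 : gb 669 = true := by decide +kernel
theorem gb670 : gb 670 = true := by decide +kernel
theorem gb671 : gb 671 = true := by decide +kernel

theorem gbs27 {k : ℕ} (h1 : 648 ≤ k) (h2 : k < 672) : gb k = true := by
  interval_cases k
  exacts [gb648, gb649, gb650, gb651, gb652, gb653, gb654, gb655, gb656, gb657, gb658, gb659, gb660, gb661, gb662, gb663, gb664, gb665, gb666, gb667, gb668, gb669, gb670, gb671]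

end Pool.Agent.K3h90.T34
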