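import Pool.Agent.K3h90.T34.Bdef
import Pool.Agent.K3h90.T34.B22

/-! The check for some representatives. -/

set_option autoImplicit false
set_option maxRecDepth 100000
set_option maxHeartbeats 4000000
set_option linter.unusedVariables false

namespace Pool.Agent.K3h90.T34
open Pool.Agent.H122R2.N6 Pool.Agent.H37R3.Pen Pool.Agent.H37R3.Cop Pool.Agent.H37R3.CopL Pool.Agent.TH983.FC

theorem gb672 : gb 672 = true := by decide +kernel
theorem gb673 : gb 673 = true := by decide +kernel
theorem gb674 : gb 674 = true := by decide +kernel
theorem gb675 : gb 675 = true := by decide +kernel
theorem gb676 : gb 676 = true := by decide +kernel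
theorem gb677 : gb 677 = true := by decide +kernel
theorem gb678 : gb 678 = true := by decide +kernel
theorem gb679 : gb 679 = true := by decide +kernel
theorem gb680 : gb 680 = true := by decide +kernel
theorem gb681 : gb 681 = true := by decide +kernel
theorem gb682 : gb 682 = true := by decide +kernel
theorem gb683 : gb 683 = true := by decide +kernel
theorem gb684 : gb 684 = true := by decide +kernel
theorem gb685 : gb 685 = true := by decide +kernel
theorem gb686 : gb 686 = true := by decide +kernel
theorem gb687 : gb 687 = true := by decide +kernel
theorem gb688 : gb 688 = true := by decide +kernel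
theorem gb689 : gb 689 = true := by decide +kernel
theorem gb690 : gb 690 = true := by decide +kernel
theorem gb691 : gb 691 = true := by decide +kernel
theorem gb692 : gb 692 = true := by decide +kernel
theorem gb693 : gb 693 = true := by decide +kernel
theorem gb694 : gb 694 = true := by decide +kernel
theorem gb695 : gb 695 = true := by decide +kernel

theorem gbs28 {k : ℕ} (h1 : 672 ≤ k) (h2 : k < 696) : gb k = true := by
  interval_cases k
  exacts [gb672, gb673, gb674, gb675, gb676, gb677, gb678, gb679, gb680, gb681, gb682, gb683, gb684, gb685, gb686, gb687, gb688, gb689, gb690, gb691, gb692, gb693, gb694, gb695]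

end Pool.Agent.K3h90.T34
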