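import Pool.Agent.K3h90.T34.Bdef
import Pool.Agent.K3h90.T34.B23

/-! The check for some representatives. -/

set_option autoImplicit false
set_option maxRecDepth 100000
set_option maxHeartbeats 4000000
set_option linter.unusedVariables false

namespace Pool.Agent.K3h90.T34
open Pool.Agent.H122R2.N6 Pool.Agent.H37R3.Pen Pool.Agent.H37R3.Cop Pool.Agent.H37R3.CopL Pool.Agent.TH983.FC

theorem gb696 : gb 696 = true := by decide +kernel
theorem gb697 : gb 697 = true := by decide +kernel
theorem gb698 : gb 698 = true := by decide +kernel
theorem gb699 : gb 699 = true := by decide +kernel
theorem gb700 : gb 700 = true := by decide +kernel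
theorem gb701 : gb 701 = true := by decide +kernel
theorem gb702 : gb 702 = true := by decide +kernel
theorem gb703 : gb 703 = true := by decide +kernel
theorem gb704 : gb 704 = true := by decide +kernel
theorem gb705 : gb 705 = true := by decide +kernel
theorem gb706 : gb 706 = true := by decide +kernel
theorem gb707 : gb 707 = true := by decide +kernel
theorem gb708 : gb 708 = true := by decide +kernel
theorem gb709 : gb 709 = true := by decide +kernel
theorem gb710 : gb 710 = true := by decide +kernel
theorem gb711 : gb 711 = true := by decide +kernel
theorem gb712 : gb 712 = true := by decide +kernel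
theorem gb713 : gb 713 = true := by decide +kernel
theorem gb714 : gb 714 = true := by decide +kernel
theorem gb715 : gb 715 = true := by decide +kernel
theorem gb716 : gb 716 = true := by decide +kernel
theorem gb717 : gb 717 = true := by decide +kernel
theorem gb718 : gb 718 = true := by decide +kernel
theorem gb719 : gb 719 = true := by decide +kernel

theorem gbs29 {k : ℕ} (h1 : 696 ≤ k) (h2 : k < 720) : gb k = true := by
  interval_cases k
  exacts [gb696, gb697, gb698, gb699, gb700, gb701, gb702, gb703, gb704, gb705, gb706, gb707, gb708, gb709, gb710, gb711, gb712, gb713, gb714, gb715, gb716, gb717, gb718, gb719]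

end Pool.Agent.K3h90.T34
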