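import Pool.Agent.K3h90.T34.Bdef
import Pool.Agent.K3h90.T34.B24

/-! The check for some representatives. -/

set_option autoImplicit false
set_option maxRecDepth 100000
set_option maxHeartbeats 4000000
set_option linter.unusedVariables false

namespace Pool.Agent.K3h90.T34
open Pool.Agent.H122R2.N6 Pool.Agent.H37R3.Pen Pool.Agent.H37R3.Cop Pool.Agent.H37R3.CopL Pool.Agent.TH983.FC

theorem gb720 : gb 720 = true := by decide +kernel
theorem gb721 : gb 721 = true := by decide +kernel
theorem gb722 : gb 722 = true := by decide +kernel
theorem gb723 : gb 723 = true := by decide +kernel
theorem gb724 : gb 724 = true := by decide +kernel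
theorem gb725 : gb 725 = true := by decide +kernel
theorem gb726 : gb 726 = true := by decide +kernel
theorem gb727 : gb 727 = true := by decide +kernel
theorem gb728 : gb 728 = true := by decide +kernel
theorem gb729 : gb 729 = true := by decide +kernel
theorem gb730 : gb 730 = true := by decide +kernel
theorem gb731 : gb 731 = true := by decide +kernel
theorem gb732 : gb 732 = true := by decide +kernel
theorem gb733 : gb 733 = true := by decide +kernel
theorem gb734 : gb 734 = true := by decide +kernel
theorem gb735 : gb 735 = true := by decide +kernel
theorem gb736 : gb 736 = true := by decide +kernel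
theorem gb737 : gb 737 = true := by decide +kernel
theorem gb738 : gb 738 = true := by decide +kernel
theorem gb739 : gb 739 = true := by decide +kernel
theorem gb740 : gb 740 = true := by decide +kernel
theorem gb741 : gb 741 = true := by decide +kernel
theorem gb742 : gb 742 = true := by decide +kernel
theorem gb743 : gb 743 = true := by decide +kernel

theorem gbs30 {k : ℕ} (h1 : 720 ≤ k) (h2 : k < 744) : gb k = true := by
  interval_cases k
  exacts [gb720, gb721, gb722, gb723, gb724, gb725, gb726, gb727, gb728, gb729, gb730, gb731, gb732, gb733, gb734, gb735, gb736, gb737, gb738, gb739, gb740, gb741, gb742, gb743]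

end Pool.Agent.K3h90.T34
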