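import Pool.Agent.K3h90.T34.Bdef
import Pool.Agent.K3h90.T34.B25

/-! The check for some representatives. -/

set_option autoImplicit false
set_option maxRecDepth 100000
set_option maxHeartbeats 4000000
set_option linter.unusedVariables false

namespace Pool.Agent.K3h90.T34
open Pool.Agent.H122R2.N6 Pool.Agent.H37R3.Pen Pool.Agent.H37R3.Cop Pool.Agent.H37R3.CopL Pool.Agent.TH983.FC

theorem gb744 : gb 744 = true := by decide +kernel
theorem gb745 : gb 745 = true := by decide +kernel
theorem gb746 : gb 746 = true := by decide +kernel
theorem gb747 : gb 747 = true := by decide +kernel
theorem gb748 : gb 748 = true := by decide +kernel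
theorem gb749 : gb 749 = true := by decide +kernel
theorem gb750 : gb 750 = true := by decide +kernel
theorem gb751 : gb 751 = true := by decide +kernel
theorem gb752 : gb 752 = true := by decide +kernel
theorem gb753 : gb 753 = true := by decide +kernel
theorem gb754 : gb 754 = true := by decide +kernel
theorem gb755 : gb 755 = true := by decide +kernel
theorem gb756 : gb 756 = true := by decide +kernel
theorem gb757 : gb 757 = true := by decide +kernel
theorem gb758 : gb 758 = true := by decide +kernel
theorem gb759 : gb 759 = true := by decide +kernel
theorem gb760 : gb 760 = true := by decide +kernel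
theorem gb761 : gb 761 = true := by decide +kernel
theorem gb762 : gb 762 = true := by decide +kernel
theorem gb763 : gb 763 = true := by decide +kernel
theorem gb764 : gb 764 = true := by decide +kernel
theorem gb765 : gb 765 = true := by decide +kernel
theorem gb766 : gb 766 = true := by decide +kernel
theorem gb767 : gb 767 = true := by decide +kernel

theorem gbs31 {k : ℕ} (h1 : 744 ≤ k) (h2 : k < 768) : gb k = true := by
  interval_cases k
  exacts [gb744, gb745, gb746, gb747, gb748, gb749, gb750, gb751, gb752, gb753, gb754, gb755, gb756, gb757, gb758, gb759, gb760, gb761, gb762, gb763, gb764, gb765, gb766, gb767]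

end Pool.Agent.K3h90.T34
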