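import Pool.Agent.K3h90.T34.Bdef
import Pool.Agent.K3h90.T34.B26

/-! The check for some representatives. -/

set_option autoImplicit false
set_option maxRecDepth 100000
set_option maxHeartbeats 4000000
set_option linter.unusedVariables false

namespace Pool.Agent.K3h90.T34
open Pool.Agent.H122R2.N6 Pool.Agent.H37R3.Pen Pool.Agent.H37R3.Cop Pool.Agent.H37R3.CopL Pool.Agent.TH983.FC

theorem gb768 : gb 768 = true := by decide +kernel
theorem gb769 : gb 769 = true := by decide +kernel
theorem gb770 : gb 770 = true := by decide +kernel
theorem gb771 : gb 771 = true := by decide +kernel
theorem gb772 : gb 772 = true := by decide +kernel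
theorem gb773 : gb 773 = true := by decide +kernel
theorem gb774 : gb 774 = true := by decide +kernel
theorem gb775 : gb 775 = true := by decide +kernel
theorem gb776 : gb 776 = true := by decide +kernel
theorem gb777 : gb 777 = true := by decide +kernel
theorem gb778 : gb 778 = true := by decide +kernel
theorem gb779 : gb 779 = true := by decide +kernel
theorem gb780 : gb 780 = true := by decide +kernel
theorem gb781 : gb 781 = true := by decide +kernel
theorem gb782 : gb 782 = true := by decide +kernel
theorem gb783 : gb 783 = true := by decide +kernel
theorem gb784 : gb 784 = true := by decide +kernel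
theorem gb785 : gb 785 = true := by decide +kernel
theorem gb786 : gb 786 = true := by decide +kernel
theorem gb787 : gb 787 = true := by decide +kernel
theorem gb788 : gb 788 = true := by decide +kernel
theorem gb789 : gb 789 = true := by decide +kernel
theorem gb790 : gb 790 = true := by decide +kernel
theorem gb791 : gb 791 = true := by decide +kernel

theorem gbs32 {k : ℕ} (h1 : 768 ≤ k) (h2 : k < 792) : gb k = true := by
  interval_cases k
  exacts [gb768, gb769, gb770, gb771, gb772, gb773, gb774, gb775, gb776, gb777, gb778, gb779, gb780, gb781, gb782, gb783, gb784, gb785, gb786, gb787, gb788, gb789, gb790, gb791]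

end Pool.Agent.K3h90.T34
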