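import Pool.Agent.K3h90.T34.Bdef
import Pool.Agent.K3h90.T34.B27

/-! The check for some representatives. -/

set_option autoImplicit false
set_option maxRecDepth 100000
set_option maxHeartbeats 4000000
set_option linter.unusedVariables false

namespace Pool.Agent.K3h90.T34
open Pool.Agent.H122R2.N6 Pool.Agent.H37R3.Pen Pool.Agent.H37R3.Cop Pool.Agent.H37R3.CopL Pool.Agent.TH983.FC

theorem gb792 : gb 792 = true := by decide +kernel
theorem gb793 : gb 793 = true := by decide +kernel
theorem gb794 : gb 794 = true := by decide +kernel
theorem gb795 : gb 795 = true := by decide +kernel
theorem gb796 : gb 796 = true := by decide +kernel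
theorem gb797 : gb 797 = true := by decide +kernel
theorem gb798 : gb 798 = true := by decide +kernel
theorem gb799 : gb 799 = true := by decide +kernel
theorem gb800 : gb 800 = true := by decide +kernel
theorem gb801 : gb 801 = true := by decide +kernel
theorem gb802 : gb 802 = true := by decide +kernel
theorem gb803 : gb 803 = true := by decide +kernel
theorem gb804 : gb 804 = true := by decide +kernel
theorem gb805 : gb 805 = true := by decide +kernel
theorem gb806 : gb 806 = true := by decide +kernel
theorem gb807 : gb 807 = true := by decide +kernel
theorem gb808 : gb 808 = true := by decide +kernel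
theorem gb809 : gb 809 = true := by decide +kernel
theorem gb810 : gb 810 = true := by decide +kernel
theorem gb811 : gb 811 = true := by decide +kernel
theorem gb812 : gb 812 = true := by decide +kernel
theorem gb813 : gb 813 = true := by decide +kernel
theorem gb814 : gb 814 = true := by decide +kernel
theorem gb815 : gb 815 = true := by decide +kernel

theorem gbs33 {k : ℕ} (h1 : 792 ≤ k) (h2 : k < 816) : gb k = true := by
  interval_cases k
  exacts [gb792, gb793, gb794, gb795, gb796, gb797, gb798, gb799, gb800, gb801, gb802, gb803, gb804, gb805, gb806, gb807, gb808, gb809, gb810, gb811, gb812, gb813, gb814, gb815]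

end Pool.Agent.K3h90.T34
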