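import Pool.Agent.K3h90.T34.Bdef
import Pool.Agent.K3h90.T34.B28

/-! The check for some representatives. -/

set_option autoImplicit false
set_option maxRecDepth 100000
set_option maxHeartbeats 4000000
set_option linter.unusedVariables false

namespace Pool.Agent.K3h90.T34
open Pool.Agent.H122R2.N6 Pool.Agent.H37R3.Pen Pool.Agent.H37R3.Cop Pool.Agent.H37R3.CopL Pool.Agent.TH983.FC

theorem gb816 : gb 816 = true := by decide +kernel
theorem gb817 : gb 817 = true := by decide +kernel
theorem gb818 : gb 818 = true := by decide +kernel
theorem gb819 : gb 819 = true := by decide +kernel
theorem gb820 : gb 820 = true := by decide +kernel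
theorem gb821 : gb 821 = true := by decide +kernel
theorem gb822 : gb 822 = true := by decide +kernel
theorem gb823 : gb 823 = true := by decide +kernel
theorem gb824 : gb 824 = true := by decide +kernel
theorem gb825 : gb 825 = true := by decide +kernel
theorem gb826 : gb 826 = true := by decide +kernel
theorem gb827 : gb 827 = true := by decide +kernel
theorem gb828 : gb 828 = true := by decide +kernel
theorem gb829 : gb 829 = true := by decide +kernel
theorem gb830 : gb 830 = true := by decide +kernel
theorem gb831 : gb 831 = true := by decide +kernel
theorem gb832 : gb 832 = true := by decide +kernel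
theorem gb833 : gb 833 = true := by decide +kernel
theorem gb834 : gb 834 = true := by decide +kernel
theorem gb835 : gb 835 = true := by decide +kernel
theorem gb836 : gb 836 = true := by decide +kernel
theorem gb837 : gb 837 = true := by decide +kernel
theorem gb838 : gb 838 = true := by decide +kernel
theorem gb839 : gb 839 = true := by decide +kernel

theorem gbs34 {k : ℕ} (h1 : 816 ≤ k) (h2 : k < 840) : gb k = true := by
  interval_cases k
  exacts [gb816, gb817, gb818, gb819, gb820, gb821, gb822, gb823, gb824, gb825, gb826, gb827, gb828, gb829, gb830, gb831, gb832, gb833, gb834, gb835, gb836, gb837, gb838, gb839]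

end Pool.Agent.K3h90.T34
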