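import Pool.Agent.K3h90.T34.Bdef
import Pool.Agent.K3h90.T34.B29

/-! The check for some representatives. -/

set_option autoImplicit false
set_option maxRecDepth 100000
set_option maxHeartbeats 4000000
set_option linter.unusedVariables false

namespace Pool.Agent.K3h90.T34
open Pool.Agent.H122R2.N6 Pool.Agent.H37R3.Pen Pool.Agent.H37R3.Cop Pool.Agent.H37R3.CopL Pool.Agent.TH983.FC

theorem gb840 : gb 840 = true := by decide +kernel
theorem gb841 : gb 841 = true := by decide +kernel
theorem gb842 : gb 842 = true := by decide +kernel
theorem gb843 : gb 843 = true := by decide +kernel
theorem gb844 : gb 844 = true := by decide +kernel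
theorem gb845 : gb 845 = true := by decide +kernel
theorem gb846 : gb 846 = true := by decide +kernel
theorem gb847 : gb 847 = true := by decide +kernel
theorem gb848 : gb 848 = true := by decide +kernel
theorem gb849 : gb 849 = true := by decide +kernel
theorem gb850 : gb 850 = true := by decide +kernel
theorem gb851 : gb 851 = true := by decide +kernel
theorem gb852 : gb 852 = true := by decide +kernel
theorem gb853 : gb 853 = true := by decide +kernel
theorem gb854 : gb 854 = true := by decide +kernel
theorem gb855 : gb 855 = true := by decide +kernel
theorem gb856 : gb 856 = true := by decide +kernel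
theorem gb857 : gb 857 = true := by decide +kernel
theorem gb858 : gb 858 = true := by decide +kernel
theorem gb859 : gb 859 = true := by decide +kernel
theorem gb860 : gb 860 = true := by decide +kernel
theorem gb861 : gb 861 = true := by decide +kernel
theorem gb862 : gb 862 = true := by decide +kernel
theorem gb863 : gb 863 = true := by decide +kernel

theorem gbs35 {k : ℕ} (h1 : 840 ≤ k) (h2 : k < 864) : gb k = true := by
  interval_cases k
  exacts [gb840, gb841, gb842, gb843, gb844, gb845, gb846, gb847, gb848, gb849, gb850, gb851, gb852, gb853, gb854, gb855, gb856, gb857, gb858, gb859, gb860, gb861, gb862, gb863]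

end Pool.Agent.K3h90.T34
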