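import Pool.Agent.K3h90.T34.Bdef
import Pool.Agent.K3h90.T34.B30

/-! The check for some representatives. -/

set_option autoImplicit false
set_option maxRecDepth 100000
set_option maxHeartbeats 4000000
set_option linter.unusedVariables false

namespace Pool.Agent.K3h90.T34
open Pool.Agent.H122R2.N6 Pool.Agent.H37R3.Pen Pool.Agent.H37R3.Cop Pool.Agent.H37R3.CopL Pool.Agent.TH983.FC

theorem gb864 : gb 864 = true := by decide +kernel
theorem gb865 : gb 865 = true := by decide +kernel
theorem gb866 : gb 866 = true := by decide +kernel
theorem gb867 : gb 867 = true := by decide +kernel
theorem gb868 : gb 868 = true := by decide +kernel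
theorem gb869 : gb 869 = true := by decide +kernel
theorem gb870 : gb 870 = true := by decide +kernel
theorem gb871 : gb 871 = true := by decide +kernel
theorem gb872 : gb 872 = true := by decide +kernel
theorem gb873 : gb 873 = true := by decide +kernel
theorem gb874 : gb 874 = true := by decide +kernel
theorem gb875 : gb 875 = true := by decide +kernel
theorem gb876 : gb 876 = true := by decide +kernel
theorem gb877 : gb 877 = true := by decide +kernel
theorem gb878 : gb 878 = true := by decide +kernel
theorem gb879 : gb 879 = true := by decide +kernel
theorem gb880 : gb 880 = true := by decide +kernel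
theorem gb881 : gb 881 = true := by decide +kernel
theorem gb882 : gb 882 = true := by decide +kernel
theorem gb883 : gb 883 = true := by decide +kernel
theorem gb884 : gb 884 = true := by decide +kernel
theorem gb885 : gb 885 = true := by decide +kernel
theorem gb886 : gb 886 = true := by decide +kernel
theorem gb887 : gb 887 = true := by decide +kernel

theorem gbs36 {k : ℕ} (h1 : 864 ≤ k) (h2 : k < 888) : gb k = true := by
  interval_cases k
  exacts [gb864, gb865, gb866, gb867, gb868, gb869, gb870, gb871, gb872, gb873, gb874, gb875, gb876, gb877, gb878, gb879, gb880, gb881, gb882, gb883, gb884, gb885, gb886, gb887]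

end Pool.Agent.K3h90.T34
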