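import Pool.Agent.K3h90.T34.Bdef
import Pool.Agent.K3h90.T34.B31

/-! The check for some representatives. -/

set_option autoImplicit false
set_option maxRecDepth 100000
set_option maxHeartbeats 4000000
set_option linter.unusedVariables false

namespace Pool.Agent.K3h90.T34
open Pool.Agent.H122R2.N6 Pool.Agent.H37R3.Pen Pool.Agent.H37R3.Cop Pool.Agent.H37R3.CopL Pool.Agent.TH983.FC

theorem gb888 : gb 888 = true := by decide +kernel
theorem gb889 : gb 889 = true := by decide +kernel
theorem gb890 : gb 890 = true := by decide +kernel
theorem gb891 : gb 891 = true := by decide +kernel
theorem gb892 : gb 892 = true := by decide +kernel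
theorem gb893 : gb 893 = true := by decide +kernel
theorem gb894 : gb 894 = true := by decide +kernel
theorem gb895 : gb 895 = true := by decide +kernel
theorem gb896 : gb 896 = true := by decide +kernel
theorem gb897 : gb 897 = true := by decide +kernel
theorem gb898 : gb 898 = true := by decide +kernel
theorem gb899 : gb 899 = true := by decide +kernel
theorem gb900 : gb 900 = true := by decide +kernel
theorem gb901 : gb 901 = true := by decide +kernel
theorem gb902 : gb 902 = true := by decide +kernel
theorem gb903 : gb 903 = true := by decide +kernel
theorem gb904 : gb 904 = true := by decide +kernel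
theorem gb905 : gb 905 = true := by decide +kernel
theorem gb906 : gb 906 = true := by decide +kernel
theorem gb907 : gb 907 = true := by decide +kernel
theorem gb908 : gb 908 = true := by decide +kernel
theorem gb909 : gb 909 = true := by decide +kernel
theorem gb910 : gb 910 = true := by decide +kernel
theorem gb911 : gb 911 = true := by decide +kernel

theorem gbs37 {k : ℕ} (h1 : 888 ≤ k) (h2 : k < 912) : gb k = true := by
  interval_cases k
  exacts [gb888, gb889, gb890, gb891, gb892, gb893, gb894, gb895, gb896, gb897, gb898, gb899, gb900, gb901, gb902, gb903, gb904, gb905, gb906, gb907, gb908, gb909, gb910, gb911]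

end Pool.Agent.K3h90.T34
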