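import Pool.Agent.K3h90.T34.Bdef
import Pool.Agent.K3h90.T34.B32

/-! The check for some representatives. -/

set_option autoImplicit false
set_option maxRecDepth 100000
set_option maxHeartbeats 4000000
set_option linter.unusedVariables false

namespace Pool.Agent.K3h90.T34
open Pool.Agent.H122R2.N6 Pool.Agent.H37R3.Pen Pool.Agent.H37R3.Cop Pool.Agent.H37R3.CopL Pool.Agent.TH983.FC

theorem gb912 : gb 912 = true := by decide +kernel
theorem gb913 : gb 913 = true := by decide +kernel
theorem gb914 : gb 914 = true := by decide +kernel
theorem gb915 : gb 915 = true := by decide +kernel
theorem gb916 : gb 916 = true := by decide +kernel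
theorem gb917 : gb 917 = true := by decide +kernel
theorem gb918 : gb 918 = true := by decide +kernel
theorem gb919 : gb 919 = true := by decide +kernel
theorem gb920 : gb 920 = true := by decide +kernel
theorem gb921 : gb 921 = true := by decide +kernel
theorem gb922 : gb 922 = true := by decide +kernel
theorem gb923 : gb 923 = true := by decide +kernel
theorem gb924 : gb 924 = true := by decide +kernel
theorem gb925 : gb 925 = true := by decide +kernel
theorem gb926 : gb 926 = true := by decide +kernel
theorem gb927 : gb 927 = true := by decide +kernel
theorem gb928 : gb 928 = true := by decide +kernel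
theorem gb929 : gb 929 = true := by decide +kernel
theorem gb930 : gb 930 = true := by decide +kernel
theorem gb931 : gb 931 = true := by decide +kernel
theorem gb932 : gb 932 = true := by decide +kernel
theorem gb933 : gb 933 = true := by decide +kernel
theorem gb934 : gb 934 = true := by decide +kernel
theorem gb935 : gb 935 = true := by decide +kernel

theorem gbs38 {k : ℕ} (h1 : 912 ≤ k) (h2 : k < 936) : gb k = true := by
  interval_cases k
  exacts [gb912, gb913, gb914, gb915, gb916, gb917, gb918, gb919, gb920, gb921, gb922, gb923, gb924, gb925, gb926, gb927, gb928, gb929, gb930, gb931, gb932, gb933, gb934, gb935]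

end Pool.Agent.K3h90.T34
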