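import Pool.Agent.K3h90.T34.Bdef
import Pool.Agent.K3h90.T34.B33

/-! The check for some representatives. -/

set_option autoImplicit false
set_option maxRecDepth 100000
set_option maxHeartbeats 4000000
set_option linter.unusedVariables false

namespace Pool.Agent.K3h90.T34
open Pool.Agent.H122R2.N6 Pool.Agent.H37R3.Pen Pool.Agent.H37R3.Cop Pool.Agent.H37R3.CopL Pool.Agent.TH983.FC

theorem gb936 : gb 936 = true := by decide +kernel
theorem gb937 : gb 937 = true := by decide +kernel
theorem gb938 : gb 938 = true := by decide +kernel
theorem gb939 : gb 939 = true := by decide +kernel
theorem gb940 : gb 940 = true := by decide +kernel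
theorem gb941 : gb 941 = true := by decide +kernel
theorem gb942 : gb 942 = true := by decide +kernel
theorem gb943 : gb 943 = true := by decide +kernel
theorem gb944 : gb 944 = true := by decide +kernel
theorem gb945 : gb 945 = true := by decide +kernel
theorem gb946 : gb 946 = true := by decide +kernel
theorem gb947 : gb 947 = true := by decide +kernel
theorem gb948 : gb 948 = true := by decide +kernel
theorem gb949 : gb 949 = true := by decide +kernel
theorem gb950 : gb 950 = true := by decide +kernel
theorem gb951 : gb 951 = true := by decide +kernel
theorem gb952 : gb 952 = true := by decide +kernel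
theorem gb953 : gb 953 = true := by decide +kernel
theorem gb954 : gb 954 = true := by decide +kernel
theorem gb955 : gb 955 = true := by decide +kernel
theorem gb956 : gb 956 = true := by decide +kernel
theorem gb957 : gb 957 = true := by decide +kernel
theorem gb958 : gb 958 = true := by decide +kernel
theorem gb959 : gb 959 = true := by decide +kernel

theorem gbs39 {k : ℕ} (h1 : 936 ≤ k) (h2 : k < 960) : gb k = true := by
  interval_cases k
  exacts [gb936, gb937, gb938, gb939, gb940, gb941, gb942, gb943, gb944, gb945, gb946, gb947, gb948, gb949, gb950, gb951, gb952, gb953, gb954, gb955, gb956, gb957, gb958, gb959]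

end Pool.Agent.K3h90.T34
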