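import Pool.Agent.K3h90.T34.Bdef
import Pool.Agent.K3h90.T34.B34

/-! The check for some representatives. -/

set_option autoImplicit false
set_option maxRecDepth 100000
set_option maxHeartbeats 4000000
set_option linter.unusedVariables false

namespace Pool.Agent.K3h90.T34
open Pool.Agent.H122R2.N6 Pool.Agent.H37R3.Pen Pool.Agent.H37R3.Cop Pool.Agent.H37R3.CopL Pool.Agent.TH983.FC

theorem gb960 : gb 960 = true := by decide +kernel
theorem gb961 : gb 961 = true := by decide +kernel
theorem gb962 : gb 962 = true := by decide +kernel
theorem gb963 : gb 963 = true := by decide +kernel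

theorem gbs40 {k : ℕ} (h1 : 960 ≤ k) (h2 : k < 964) : gb k = true := by
  interval_cases k
  exacts [gb960, gb961, gb962, gb963]

end Pool.Agent.K3h90.T34
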