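import Pool.Agent.K3h90.T34.B00
import Pool.Agent.K3h90.T34.B01
import Pool.Agent.K3h90.T34.B02
import Pool.Agent.K3h90.T34.B03
import Pool.Agent.K3h90.T34.B04
import Pool.Agent.K3h90.T34.B05
import Pool.Agent.K3h90.T34.B06
import Pool.Agent.K3h90.T34.B07
import Pool.Agent.K3h90.T34.B08
import Pool.Agent.K3h90.T34.B09
import Pool.Agent.K3h90.T34.B10
import Pool.Agent.K3h90.T34.B11
import Pool.Agent.K3h90.T34.B12
import Pool.Agent.K3h90.T34.B13
import Pool.Agent.K3h90.T34.B14
import Pool.Agent.K3h90.T34.B15
import Pool.Agent.K3h90.T34.B16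
import Pool.Agent.K3h90.T34.B17
import Pool.Agent.K3h90.T34.B18
import Pool.Agent.K3h90.T34.B19
import Pool.Agent.K3h90.T34.B20
import Pool.Agent.K3h90.T34.B21
import Pool.Agent.K3h90.T34.B22
import Pool.Agent.K3h90.T34.B23
import Pool.Agent.K3h90.T34.B24
import Pool.Agent.K3h90.T34.B25
import Pool.Agent.K3h90.T34.B26
import Pool.Agent.K3h90.T34.B27
import Pool.Agent.K3h90.T34.B28
import Pool.Agent.K3h90.T34.B29
import Pool.Agent.K3h90.T34.B30
import Pool.Agent.K3h90.T34.B31
import Pool.Agent.K3h90.T34.B32
import Pool.Agent.K3h90.T34.B33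
import Pool.Agent.K3h90.T34.B34
import Pool.Agent.K3h90.T34.B35
import Pool.Agent.K3h90.T34.B36
import Pool.Agent.K3h90.T34.B37
import Pool.Agent.K3h90.T34.B38
import Pool.Agent.K3h90.T34.B39
import Pool.Agent.K3h90.T34.B40

/-! The check for all representatives. -/

set_option autoImplicit false
set_option maxRecDepth 100000
set_option maxHeartbeats 4000000
set_option linter.unusedVariables false

namespace Pool.Agent.K3h90.T34
open Pool.Agent.H122R2.N6 Pool.Agent.H37R3.Pen Pool.Agent.H37R3.Cop Pool.Agent.H37R3.CopL Pool.Agent.TH983.FC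

theorem gb_all {k : ℕ} (hk : k < 964) : gb k = true := by
  rcases Nat.lt_or_ge k 24 with h | h
  · exact gbs0 (by omega) (by omega)
  rcases Nat.lt_or_ge k 48 with h | h
  · exact gbs1 (by omega) (by omega)
  rcases Nat.lt_or_ge k 72 with h | h
  · exact gbs2 (by omega) (by omega)
  rcases Nat.lt_or_ge k 96 with h | h
  · exact gbs3 (by omega) (by omega)
  rcases Nat.lt_or_ge k 120 with h | h
  · exact gbs4 (by omega) (by omega)
  rcases Nat.lt_or_ge k 144 with h | h
  · exact gbs5 (by omega) (by omega)
  rcases Nat.lt_or_ge k 168 with h | h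
  · exact gbs6 (by omega) (by omega)
  rcases Nat.lt_or_ge k 192 with h | h
  · exact gbs7 (by omega) (by omega)
  rcases Nat.lt_or_ge k 216 with h | h
  · exact gbs8 (by omega) (by omega)
  rcases Nat.lt_or_ge k 240 with h | h
  · exact gbs9 (by omega) (by omega)
  rcases Nat.lt_or_ge k 264 with h | h
  · exact gbs10 (by omega) (by omega)
  rcases Nat.lt_or_ge k 288 with h | h
  · exact gbs11 (by omega) (by omega)
  rcases Nat.lt_or_ge k 312 with h | h
  · exact gbs12 (by omega) (by omega)
  rcases Nat.lt_or_ge k 336 with h | h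
  · exact gbs13 (by omega) (by omega)
  rcases Nat.lt_or_ge k 360 with h | h
  · exact gbs14 (by omega) (by omega)
  rcases Nat.lt_or_ge k 384 with h | h
  · exact gbs15 (by omega) (by omega)
  rcases Nat.lt_or_ge k 408 with h | h
  · exact gbs16 (by omega) (by omega)
  rcases Nat.lt_or_ge k 432 with h | h
  · exact gbs17 (by omega) (by omega)
  rcases Nat.lt_or_ge k 456 with h | h
  · exact gbs18 (by omega) (by omega)
  rcases Nat.lt_or_ge k 480 with h | h
  · exact gbs19 (by omega) (by omega)
  rcases Nat.lt_or_ge k 504 with h | h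
  · exact gbs20 (by omega) (by omega)
  rcases Nat.lt_or_ge k 528 with h | h
  · exact gbs21 (by omega) (by omega)
  rcases Nat.lt_or_ge k 552 with h | h
  · exact gbs22 (by omega) (by omega)
  rcases Nat.lt_or_ge k 576 with h | h
  · exact gbs23 (by omega) (by omega)
  rcases Nat.lt_or_ge k 600 with h | h
  · exact gbs24 (by omega) (by omega)
  rcases Nat.lt_or_ge k 624 with h | h
  · exact gbs25 (by omega) (by omega)
  rcases Nat.lt_or_ge k 648 with h | h
  · exact gbs26 (by omega) (by omega)
  rcases Nat.lt_or_ge k 672 with h | h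
  · exact gbs27 (by omega) (by omega)
  rcases Nat.lt_or_ge k 696 with h | h
  · exact gbs28 (by omega) (by omega)
  rcases Nat.lt_or_ge k 720 with h | h
  · exact gbs29 (by omega) (by omega)
  rcases Nat.lt_or_ge k 744 with h | h
  · exact gbs30 (by omega) (by omega)
  rcases Nat.lt_or_ge k 768 with h | h
  · exact gbs31 (by omega) (by omega)
  rcases Nat.lt_or_ge k 792 with h | h
  · exact gbs32 (by omega) (by omega)
  rcases Nat.lt_or_ge k 816 with h | h
  · exact gbs33 (by omega) (by omega)
  rcases Nat.lt_or_ge k 840 with h | h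
  · exact gbs34 (by omega) (by omega)
  rcases Nat.lt_or_ge k 864 with h | h
  · exact gbs35 (by omega) (by omega)
  rcases Nat.lt_or_ge k 888 with h | h
  · exact gbs36 (by omega) (by omega)
  rcases Nat.lt_or_ge k 912 with h | h
  · exact gbs37 (by omega) (by omega)
  rcases Nat.lt_or_ge k 936 with h | h
  · exact gbs38 (by omega) (by omega)
  rcases Nat.lt_or_ge k 960 with h | h
  · exact gbs39 (by omega) (by omega)
  exact gbs40 (by omega) (by omega)

end Pool.Agent.K3h90.T34
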