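import Pool.Agent.K3h90.T34.T3
import Pool.Agent.K3h90.T34.Rw0
import Pool.Agent.K3h90.T34.Rw1
import Pool.Agent.K3h90.T34.Rw2
import Pool.Agent.K3h90.T34.Rw3
import Pool.Agent.K3h90.T34.Rw4
import Pool.Agent.K3h90.T34.Rw5
import Pool.Agent.K3h90.T34.Rw6

/-! Rows of the table of flags. -/

set_option autoImplicit false
set_option maxRecDepth 100000
set_option maxHeartbeats 4000000
set_option linter.unusedVariables false

namespace Pool.Agent.K3h90.T34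
open Pool.Agent.H122R2.N6

def RT0 (i : ℕ) : ℕ :=
  (cond (Nat.ble 118 i) (cond (Nat.ble 177 i) (cond (Nat.ble 207 i) (cond (Nat.ble 222 i) (cond (Nat.ble 229 i) (cond (Nat.ble 233 i) (cond (Nat.ble 235 i) (cond (Nat.ble 236 i) R0_236 R0_235) (cond (Nat.ble 234 i) R0_234 R0_233)) (cond (Nat.ble 231 i) (cond (Nat.ble 232 i) R0_232 R0_231) (cond (Nat.ble 230 i) R0_230 R0_229))) (cond (Nat.ble 225 i) (cond (Nat.ble 227 i) (cond (Nat.ble 228 i) R0_228 R0_227) (cond (Nat.ble 226 i) R0_226 R0_225)) (cond (Nat.ble 223 i) (cond (Nat.ble 224 i) R0_224 R0_223) R0_222))) (cond (Nat.ble 214 i) (cond (Nat.ble 218 i) (cond (Nat.ble 220 i) (cond (Nat.ble 221 i) R0_221 R0_220) (cond (Nat.ble 219 i) R0_219 R0_218)) (cond (Nat.ble 216 i) (cond (Nat.ble 217 i) R0_217 R0_216) (cond (Nat.ble 215 i) R0_215 R0_214))) (cond (Nat.ble 210 i) (cond (Nat.ble 212 i) (cond (Nat.ble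 213 i) R0_213 R0_212) (cond (Nat.ble 211 i) R0_211 R0_210)) (cond (Nat.ble 208 i) (cond (Nat.ble 209 i) R0_209 R0_208) R0_207)))) (cond (Nat.ble 192 i) (cond (Nat.ble 199 i) (cond (Nat.ble 203 i) (cond (Nat.ble 205 i) (cond (Nat.ble 206 i) R0_206 R0_205) (cond (Nat.ble 204 i) R0_204 R0_203)) (cond (Nat.ble 201 i) (cond (Nat.ble 202 i) R0_202 R0_201) (cond (Nat.ble 200 i) R0_200 R0_199))) (cond (Nat.ble 195 i) (cond (Nat.ble 197 i) (cond (Nat.ble 198 i) R0_198 R0_197) (cond (Nat.ble 196 i) R0_196 R0_195)) (cond (Nat.ble 193 i) (cond (Nat.ble 194 i) R0_194 R0_193) R0_192))) (cond (Nat.ble 184 i) (cond (Nat.ble 188 i) (cond (Nat.ble 190 i) (cond (Nat.ble 191 i) R0_191 R0_190) (cond (Nat.ble 189 i) R0_189 R0_188)) (cond (Nat.ble 186 i) (cond (Nat.ble 187 i) R0_187 R0_186) (cond (Nat.ble 185 i) R0_185 R0_184))) (cond (Nat.ble 180 i) (cond (Nat.ble 182 i)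 (cond (Nat.ble 183 i) R0_183 R0_182) (cond (Nat.ble 181 i) R0_181 R0_180)) (cond (Nat.ble 178 i) (cond (Nat.ble 179 i) R0_179 R0_178) R0_177))))) (cond (Nat.ble 147 i) (cond (Nat.ble 162 i) (cond (Nat.ble 169 i) (cond (Nat.ble 173 i) (cond (Nat.ble 175 i) (cond (Nat.ble 176 i) R0_176 R0_175) (cond (Nat.ble 174 i) R0_174 R0_173)) (cond (Nat.ble 171 i) (cond (Nat.ble 172 i) R0_172 R0_171) (cond (Nat.ble 170 i) R0_170 R0_169))) (cond (Nat.ble 165 i) (cond (Nat.ble 167 i) (cond (Nat.ble 168 i) R0_168 R0_167) (cond (Nat.ble 166 i) R0_166 R0_165)) (cond (Nat.ble 163 i) (cond (Nat.ble 164 i) R0_164 R0_163) R0_162))) (cond (Nat.ble 154 i) (cond (Nat.ble 158 i) (cond (Nat.ble 160 i) (cond (Nat.ble 161 i) R0_161 R0_160) (cond (Nat.ble 159 i) R0_159 R0_158)) (cond (Nat.ble 156 i) (cond (Nat.ble 157 i) R0_157 R0_156) (cond (Nat.ble 155 i) R0_155 R0_154))) (cond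 (Nat.ble 150 i) (cond (Nat.ble 152 i) (cond (Nat.ble 153 i) R0_153 R0_152) (cond (Nat.ble 151 i) R0_151 R0_150)) (cond (Nat.ble 148 i) (cond (Nat.ble 149 i) R0_149 R0_148) R0_147)))) (cond (Nat.ble 132 i) (cond (Nat.ble 139 i) (cond (Nat.ble 143 i) (cond (Nat.ble 145 i) (cond (Nat.ble 146 i) R0_146 R0_145) (cond (Nat.ble 144 i) R0_144 R0_143)) (cond (Nat.ble 141 i) (cond (Nat.ble 142 i) R0_142 R0_141) (cond (Nat.ble 140 i) R0_140 R0_139))) (cond (Nat.ble 135 i) (cond (Nat.ble 137 i) (cond (Nat.ble 138 i) R0_138 R0_137) (cond (Nat.ble 136 i) R0_136 R0_135)) (cond (Nat.ble 133 i) (cond (Nat.ble 134 i) R0_134 R0_133) R0_132))) (cond (Nat.ble 125 i) (cond (Nat.ble 128 i) (cond (Nat.ble 130 i) (cond (Nat.ble 131 i) R0_131 R0_130) (cond (Nat.ble 129 i) R0_129 R0_128)) (cond (Nat.ble 126 i) (cond (Nat.ble 127 i) R0_127 R0_126) R0_125)) (cond (Nat.ble 121 i)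 (cond (Nat.ble 123 i) (cond (Nat.ble 124 i) R0_124 R0_123) (cond (Nat.ble 122 i) R0_122 R0_121)) (cond (Nat.ble 119 i) (cond (Nat.ble 120 i) R0_120 R0_119) R0_118)))))) (cond (Nat.ble 59 i) (cond (Nat.ble 88 i) (cond (Nat.ble 103 i) (cond (Nat.ble 110 i) (cond (Nat.ble 114 i) (cond (Nat.ble 116 i) (cond (Nat.ble 117 i) R0_117 R0_116) (cond (Nat.ble 115 i) R0_115 R0_114)) (cond (Nat.ble 112 i) (cond (Nat.ble 113 i) R0_113 R0_112) (cond (Nat.ble 111 i) R0_111 R0_110))) (cond (Nat.ble 106 i) (cond (Nat.ble 108 i) (cond (Nat.ble 109 i) R0_109 R0_108) (cond (Nat.ble 107 i) R0_107 R0_106)) (cond (Nat.ble 104 i) (cond (Nat.ble 105 i) R0_105 R0_104) R0_103))) (cond (Nat.ble 95 i) (cond (Nat.ble 99 i) (cond (Nat.ble 101 i) (cond (Nat.ble 102 i) R0_102 R0_101) (cond (Nat.ble 100 i) R0_100 R0_99)) (cond (Nat.ble 97 i) (cond (Nat.ble 98 i) R0_98 R0_97) (cond (Nat.ble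 96 i) R0_96 R0_95))) (cond (Nat.ble 91 i) (cond (Nat.ble 93 i) (cond (Nat.ble 94 i) R0_94 R0_93) (cond (Nat.ble 92 i) R0_92 R0_91)) (cond (Nat.ble 89 i) (cond (Nat.ble 90 i) R0_90 R0_89) R0_88)))) (cond (Nat.ble 73 i) (cond (Nat.ble 80 i) (cond (Nat.ble 84 i) (cond (Nat.ble 86 i) (cond (Nat.ble 87 i) R0_87 R0_86) (cond (Nat.ble 85 i) R0_85 R0_84)) (cond (Nat.ble 82 i) (cond (Nat.ble 83 i) R0_83 R0_82) (cond (Nat.ble 81 i) R0_81 R0_80))) (cond (Nat.ble 76 i) (cond (Nat.ble 78 i) (cond (Nat.ble 79 i) R0_79 R0_78) (cond (Nat.ble 77 i) R0_77 R0_76)) (cond (Nat.ble 74 i) (cond (Nat.ble 75 i) R0_75 R0_74) R0_73))) (cond (Nat.ble 66 i) (cond (Nat.ble 69 i) (cond (Nat.ble 71 i) (cond (Nat.ble 72 i) R0_72 R0_71) (cond (Nat.ble 70 i) R0_70 R0_69)) (cond (Nat.ble 67 i) (cond (Nat.ble 68 i) R0_68 R0_67) R0_66)) (cond (Nat.ble 62 i) (cond (Nat.ble 64 i) (cond (Nat.ble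 65 i) R0_65 R0_64) (cond (Nat.ble 63 i) R0_63 R0_62)) (cond (Nat.ble 60 i) (cond (Nat.ble 61 i) R0_61 R0_60) R0_59))))) (cond (Nat.ble 29 i) (cond (Nat.ble 44 i) (cond (Nat.ble 51 i) (cond (Nat.ble 55 i) (cond (Nat.ble 57 i) (cond (Nat.ble 58 i) R0_58 R0_57) (cond (Nat.ble 56 i) R0_56 R0_55)) (cond (Nat.ble 53 i) (cond (Nat.ble 54 i) R0_54 R0_53) (cond (Nat.ble 52 i) R0_52 R0_51))) (cond (Nat.ble 47 i) (cond (Nat.ble 49 i) (cond (Nat.ble 50 i) R0_50 R0_49) (cond (Nat.ble 48 i) R0_48 R0_47)) (cond (Nat.ble 45 i) (cond (Nat.ble 46 i) R0_46 R0_45) R0_44))) (cond (Nat.ble 36 i) (cond (Nat.ble 40 i) (cond (Nat.ble 42 i) (cond (Nat.ble 43 i) R0_43 R0_42) (cond (Nat.ble 41 i) R0_41 R0_40)) (cond (Nat.ble 38 i) (cond (Nat.ble 39 i) R0_39 R0_38) (cond (Nat.ble 37 i) R0_37 R0_36))) (cond (Nat.ble 32 i) (cond (Nat.ble 34 i) (cond (Nat.ble 35 i) R0_35 R0_34) (cond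 (Nat.ble 33 i) R0_33 R0_32)) (cond (Nat.ble 30 i) (cond (Nat.ble 31 i) R0_31 R0_30) R0_29)))) (cond (Nat.ble 14 i) (cond (Nat.ble 21 i) (cond (Nat.ble 25 i) (cond (Nat.ble 27 i) (cond (Nat.ble 28 i) R0_28 R0_27) (cond (Nat.ble 26 i) R0_26 R0_25)) (cond (Nat.ble 23 i) (cond (Nat.ble 24 i) R0_24 R0_23) (cond (Nat.ble 22 i) R0_22 R0_21))) (cond (Nat.ble 17 i) (cond (Nat.ble 19 i) (cond (Nat.ble 20 i) R0_20 R0_19) (cond (Nat.ble 18 i) R0_18 R0_17)) (cond (Nat.ble 15 i) (cond (Nat.ble 16 i) R0_16 R0_15) R0_14))) (cond (Nat.ble 7 i) (cond (Nat.ble 10 i) (cond (Nat.ble 12 i) (cond (Nat.ble 13 i) R0_13 R0_12) (cond (Nat.ble 11 i) R0_11 R0_10)) (cond (Nat.ble 8 i) (cond (Nat.ble 9 i) R0_9 R0_8) R0_7)) (cond (Nat.ble 3 i) (cond (Nat.ble 5 i) (cond (Nat.ble 6 i) R0_6 R0_5) (cond (Nat.ble 4 i) R0_4 R0_3)) (cond (Nat.ble 1 i) (cond (Nat.ble 2 i) R0_2 R0_1) R0_0)))))))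

def RT1 (i : ℕ) : ℕ :=
  (cond (Nat.ble 96 i) (cond (Nat.ble 144 i) (cond (Nat.ble 168 i) (cond (Nat.ble 180 i) (cond (Nat.ble 186 i) (cond (Nat.ble 189 i) (cond (Nat.ble 190 i) (cond (Nat.ble 191 i) R1_191 R1_190) R1_189) (cond (Nat.ble 187 i) (cond (Nat.ble 188 i) R1_188 R1_187) R1_186)) (cond (Nat.ble 183 i) (cond (Nat.ble 184 i) (cond (Nat.ble 185 i) R1_185 R1_184) R1_183) (cond (Nat.ble 181 i) (cond (Nat.ble 182 i) R1_182 R1_181) R1_180))) (cond (Nat.ble 174 i) (cond (Nat.ble 177 i) (cond (Nat.ble 178 i) (cond (Nat.ble 179 i) R1_179 R1_178) R1_177) (cond (Nat.ble 175 i) (cond (Nat.ble 176 i) R1_176 R1_175) R1_174)) (cond (Nat.ble 171 i) (cond (Nat.ble 172 i) (cond (Nat.ble 173 i) R1_173 R1_172) R1_171) (cond (Nat.ble 169 i) (cond (Nat.ble 170 i) R1_170 R1_169) R1_168)))) (cond (Nat.ble 156 i) (cond (Nat.ble 162 i) (cond (Nat.ble 165 i) (cond (Nat.ble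 166 i) (cond (Nat.ble 167 i) R1_167 R1_166) R1_165) (cond (Nat.ble 163 i) (cond (Nat.ble 164 i) R1_164 R1_163) R1_162)) (cond (Nat.ble 159 i) (cond (Nat.ble 160 i) (cond (Nat.ble 161 i) R1_161 R1_160) R1_159) (cond (Nat.ble 157 i) (cond (Nat.ble 158 i) R1_158 R1_157) R1_156))) (cond (Nat.ble 150 i) (cond (Nat.ble 153 i) (cond (Nat.ble 154 i) (cond (Nat.ble 155 i) R1_155 R1_154) R1_153) (cond (Nat.ble 151 i) (cond (Nat.ble 152 i) R1_152 R1_151) R1_150)) (cond (Nat.ble 147 i) (cond (Nat.ble 148 i) (cond (Nat.ble 149 i) R1_149 R1_148) R1_147) (cond (Nat.ble 145 i) (cond (Nat.ble 146 i) R1_146 R1_145) R1_144))))) (cond (Nat.ble 120 i) (cond (Nat.ble 132 i) (cond (Nat.ble 138 i) (cond (Nat.ble 141 i) (cond (Nat.ble 142 i) (cond (Nat.ble 143 i) R1_143 R1_142) R1_141) (cond (Nat.ble 139 i) (cond (Nat.ble 140 i) R1_140 R1_139) R1_138)) (cond (Nat.ble 135 i)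 (cond (Nat.ble 136 i) (cond (Nat.ble 137 i) R1_137 R1_136) R1_135) (cond (Nat.ble 133 i) (cond (Nat.ble 134 i) R1_134 R1_133) R1_132))) (cond (Nat.ble 126 i) (cond (Nat.ble 129 i) (cond (Nat.ble 130 i) (cond (Nat.ble 131 i) R1_131 R1_130) R1_129) (cond (Nat.ble 127 i) (cond (Nat.ble 128 i) R1_128 R1_127) R1_126)) (cond (Nat.ble 123 i) (cond (Nat.ble 124 i) (cond (Nat.ble 125 i) R1_125 R1_124) R1_123) (cond (Nat.ble 121 i) (cond (Nat.ble 122 i) R1_122 R1_121) R1_120)))) (cond (Nat.ble 108 i) (cond (Nat.ble 114 i) (cond (Nat.ble 117 i) (cond (Nat.ble 118 i) (cond (Nat.ble 119 i) R1_119 R1_118) R1_117) (cond (Nat.ble 115 i) (cond (Nat.ble 116 i) R1_116 R1_115) R1_114)) (cond (Nat.ble 111 i) (cond (Nat.ble 112 i) (cond (Nat.ble 113 i) R1_113 R1_112) R1_111) (cond (Nat.ble 109 i) (cond (Nat.ble 110 i) R1_110 R1_109) R1_108))) (cond (Nat.ble 102 i) (cond (Nat.ble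 105 i) (cond (Nat.ble 106 i) (cond (Nat.ble 107 i) R1_107 R1_106) R1_105) (cond (Nat.ble 103 i) (cond (Nat.ble 104 i) R1_104 R1_103) R1_102)) (cond (Nat.ble 99 i) (cond (Nat.ble 100 i) (cond (Nat.ble 101 i) R1_101 R1_100) R1_99) (cond (Nat.ble 97 i) (cond (Nat.ble 98 i) R1_98 R1_97) R1_96)))))) (cond (Nat.ble 48 i) (cond (Nat.ble 72 i) (cond (Nat.ble 84 i) (cond (Nat.ble 90 i) (cond (Nat.ble 93 i) (cond (Nat.ble 94 i) (cond (Nat.ble 95 i) R1_95 R1_94) R1_93) (cond (Nat.ble 91 i) (cond (Nat.ble 92 i) R1_92 R1_91) R1_90)) (cond (Nat.ble 87 i) (cond (Nat.ble 88 i) (cond (Nat.ble 89 i) R1_89 R1_88) R1_87) (cond (Nat.ble 85 i) (cond (Nat.ble 86 i) R1_86 R1_85) R1_84))) (cond (Nat.ble 78 i) (cond (Nat.ble 81 i) (cond (Nat.ble 82 i) (cond (Nat.ble 83 i) R1_83 R1_82) R1_81) (cond (Nat.ble 79 i) (cond (Nat.ble 80 i) R1_80 R1_79) R1_78)) (cond (Nat.ble 75 i) (cond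 (Nat.ble 76 i) (cond (Nat.ble 77 i) R1_77 R1_76) R1_75) (cond (Nat.ble 73 i) (cond (Nat.ble 74 i) R1_74 R1_73) R1_72)))) (cond (Nat.ble 60 i) (cond (Nat.ble 66 i) (cond (Nat.ble 69 i) (cond (Nat.ble 70 i) (cond (Nat.ble 71 i) R1_71 R1_70) R1_69) (cond (Nat.ble 67 i) (cond (Nat.ble 68 i) R1_68 R1_67) R1_66)) (cond (Nat.ble 63 i) (cond (Nat.ble 64 i) (cond (Nat.ble 65 i) R1_65 R1_64) R1_63) (cond (Nat.ble 61 i) (cond (Nat.ble 62 i) R1_62 R1_61) R1_60))) (cond (Nat.ble 54 i) (cond (Nat.ble 57 i) (cond (Nat.ble 58 i) (cond (Nat.ble 59 i) R1_59 R1_58) R1_57) (cond (Nat.ble 55 i) (cond (Nat.ble 56 i) R1_56 R1_55) R1_54)) (cond (Nat.ble 51 i) (cond (Nat.ble 52 i) (cond (Nat.ble 53 i) R1_53 R1_52) R1_51) (cond (Nat.ble 49 i) (cond (Nat.ble 50 i) R1_50 R1_49) R1_48))))) (cond (Nat.ble 24 i) (cond (Nat.ble 36 i) (cond (Nat.ble 42 i) (cond (Nat.ble 45 i) (cond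 (Nat.ble 46 i) (cond (Nat.ble 47 i) R1_47 R1_46) R1_45) (cond (Nat.ble 43 i) (cond (Nat.ble 44 i) R1_44 R1_43) R1_42)) (cond (Nat.ble 39 i) (cond (Nat.ble 40 i) (cond (Nat.ble 41 i) R1_41 R1_40) R1_39) (cond (Nat.ble 37 i) (cond (Nat.ble 38 i) R1_38 R1_37) R1_36))) (cond (Nat.ble 30 i) (cond (Nat.ble 33 i) (cond (Nat.ble 34 i) (cond (Nat.ble 35 i) R1_35 R1_34) R1_33) (cond (Nat.ble 31 i) (cond (Nat.ble 32 i) R1_32 R1_31) R1_30)) (cond (Nat.ble 27 i) (cond (Nat.ble 28 i) (cond (Nat.ble 29 i) R1_29 R1_28) R1_27) (cond (Nat.ble 25 i) (cond (Nat.ble 26 i) R1_26 R1_25) R1_24)))) (cond (Nat.ble 12 i) (cond (Nat.ble 18 i) (cond (Nat.ble 21 i) (cond (Nat.ble 22 i) (cond (Nat.ble 23 i) R1_23 R1_22) R1_21) (cond (Nat.ble 19 i) (cond (Nat.ble 20 i) R1_20 R1_19) R1_18)) (cond (Nat.ble 15 i) (cond (Nat.ble 16 i) (cond (Nat.ble 17 i) R1_17 R1_16) R1_15) (cond (Nat.ble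 13 i) (cond (Nat.ble 14 i) R1_14 R1_13) R1_12))) (cond (Nat.ble 6 i) (cond (Nat.ble 9 i) (cond (Nat.ble 10 i) (cond (Nat.ble 11 i) R1_11 R1_10) R1_9) (cond (Nat.ble 7 i) (cond (Nat.ble 8 i) R1_8 R1_7) R1_6)) (cond (Nat.ble 3 i) (cond (Nat.ble 4 i) (cond (Nat.ble 5 i) R1_5 R1_4) R1_3) (cond (Nat.ble 1 i) (cond (Nat.ble 2 i) R1_2 R1_1) R1_0)))))))

def RT (t i : ℕ) : ℕ := cond (Nat.beq t 1) (RT1 i) (RT0 i)

def RW (t k : ℕ) : ℕ := RT t (kd t k)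

/-- the rows, computed from the classes -/
def rwc (t i : ℕ) : ℕ := C2 8 fun x2 => C2 7 fun x1 => C2 6 fun x0 => C2 5 fun s2 => C2 4 fun s1 =>
  C2 3 fun s0 => C2 2 fun y2 => C2 1 fun y1 => C2 0 fun y0 => cq t i (kd t (cd9 x0 x1 x2 y0 y1 y2 s0 s1 s2))

end Pool.Agent.K3h90.T34
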