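import Pool.Agent.K3h90.T34.Chk
import Pool.Agent.K3h90.T34.Rows
import Pool.Agent.K3h90.T34.Qfs
import Pool.Agent.K3h90.T34.Tr
import Pool.Agent.K3h90.T34.Red

/-! The check for all representatives. -/

set_option autoImplicit false
set_option maxRecDepth 100000
set_option maxHeartbeats 4000000
set_option linter.unusedVariables false

namespace Pool.Agent.K3h90.T34
open Pool.Agent.H122R2.N6 Pool.Agent.H37R3.Pen Pool.Agent.H37R3.Cop Pool.Agent.H37R3.CopL Pool.Agent.TH983.FC


def chm (m : ℕ) : Bool := chk7 TR RW QF DD (bt m 0) (bt m 1) (bt m 2) (bt m 3) (bt m 4) (bt m 5) (bt m 6) (bt m 7) (bt m 8) (bt m 9) (bt m 10) (bt m 11) (bt m 12) (bt m 13) (bt m 14) (bt m 15) (bt m 16) (bt m 17) (bt m 18) (bt m 19)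

/-- the check for the representative `k` -/
def gb (k : ℕ) : Bool := chm (BL k)

end Pool.Agent.K3h90.T34
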