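import Pool.Agent.K3h90.T34.Mask

/-! Building packed vectors from values, and cutting them into halves. -/

set_option autoImplicit false

namespace Pool.Agent.K3h90.T34
open Pool.Agent.H122R2.N6

def C2 (n : ℕ) (g : ℕ → ℕ) : ℕ := cat n (g 0) (g 1)

theorem Wb.C2 {n M : ℕ} {g : ℕ → ℕ} (h : ∀ b, Bt b → Wb n (g b) M) : Wb (n + 1) (C2 n g) M :=
  (h 0 (Or.inl rfl)).cat (h 1 (Or.inr rfl))

theorem W.C2 {n M v b : ℕ} {g : ℕ → ℕ} {l : List ℕ} (h : ∀ b, Bt b → Wb n (g b) M) (hb : Bt b)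
    (hv : W n (g b) l v M) : W (n + 1) (C2 n g) (l ++ [b]) v M := by
  rcases hb with rfl | rfl
  · exact W.cat0 hv (h 1 (Or.inr rfl))
  · exact W.cat1 (h 0 (Or.inl rfl)) hv

theorem Wb.leaf {v M : ℕ} (hv : v ≤ M) (hM : M < 2 ^ 32) : Wb 0 v M := by
  refine ⟨by simpa using lt_of_le_of_lt hv hM, fun i => ?_⟩
  rcases Nat.eq_zero_or_pos i with rfl | hi
  · rw [ln_zero_of_lt (lt_of_le_of_lt hv hM)]; exact hv
  · rw [ln_of_lt (m := 1) (by simpa using lt_of_le_of_lt hv hM) hi]; exact Nat.zero_le _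

theorem W.leaf {v M : ℕ} (hv : v ≤ M) (hM : M < 2 ^ 32) : W 0 v [] v M := by
  refine ⟨Wb.leaf hv hM, rfl, ?_⟩
  change v ≤ ln v 0
  rw [ln_zero_of_lt (lt_of_le_of_lt hv hM)]

/-- the lower (`b = 0`) or upper (`b = 1`) half of a vector with `2 ^ (n + 1)` lanes -/
def hf (n b x : ℕ) : ℕ := cond (Nat.beq b 1) (Nat.shiftRight x (Nat.mul 32 (Nat.pow 2 n)))
  (Nat.mod x (Nat.pow 2 (Nat.mul 32 (Nat.pow 2 n))))

theorem ln_mod {n x i : ℕ} (hi : i < 2 ^ n) : ln (x % 2 ^ (32 * 2 ^ n)) i = ln x i := by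
  rw [ln_eq', ln_eq']
  have e : 2 ^ (32 * 2 ^ n) = 2 ^ (32 * i) * 2 ^ (32 * (2 ^ n - i)) := by
    rw [← pow_add]; congr 1; omega
  rw [e, Nat.mod_mul_right_div_self]
  exact Nat.mod_mod_of_dvd _ (pow_dvd_pow 2 (by omega))

theorem hf_zero_lt (n x : ℕ) : hf n 0 x < 2 ^ (32 * 2 ^ n) := by
  change x % 2 ^ (32 * 2 ^ n) < _
  exact Nat.mod_lt _ (by positivity)

theorem ln_hf1 {n x i : ℕ} : ln (hf n 1 x) i = ln x (2 ^ n + i) := by
  change ln (x >>> (32 * 2 ^ n)) i = _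
  rw [ln_shr, Nat.add_comm]

theorem ln_hf0 {n x i : ℕ} (hi : i < 2 ^ n) : ln (hf n 0 x) i = ln x i := by
  change ln (x % 2 ^ (32 * 2 ^ n)) i = _
  exact ln_mod hi

theorem Wb.hf {n x M b : ℕ} (hx : Wb (n + 1) x M) (hb : Bt b) : Wb n (hf n b x) M := by
  rcases hb with rfl | rfl
  · refine ⟨hf_zero_lt n x, fun i => ?_⟩
    by_cases hi : i < 2 ^ n
    · rw [ln_hf0 hi]; exact hx.hi i
    · rw [ln_of_lt (hf_zero_lt n x) (by omega)]
      exact Nat.zero_le _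
  · refine ⟨?_, fun i => ?_⟩
    · change x >>> (32 * 2 ^ n) < _
      rw [Nat.shiftRight_eq_div_pow, Nat.div_lt_iff_lt_mul (by positivity), ← pow_add]
      have e : 32 * 2 ^ n + 32 * 2 ^ n = 32 * 2 ^ (n + 1) := by ring
      rw [e]; exact hx.lt
    · rw [ln_hf1]; exact hx.hi _

theorem W.hf {n x M b g : ℕ} {l : List ℕ} (hx : W (n + 1) x (l ++ [b]) g M) (hl : l.length = n)
    (hb : Bt b) : W n (hf n b x) l g M := by
  refine ⟨hx.toWb.hf hb, hl, ?_⟩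
  have h := hx.lo
  rw [idx, idx_cb_append hl, cb_append_last hl] at h
  have hlt := idx_lt (cb l) n
  rcases hb with rfl | rfl
  · rw [ln_hf0 hlt]
    exact h
  · rw [ln_hf1]
    simpa [Nat.add_comm] using h

theorem W.du {n x M g : ℕ} {l : List ℕ} (hx : W n x l g M) (c : ℕ) :
    W (n + 1) (du n x) (l ++ [c]) g M := hx.dup c

/-- the lanes of a word, tested one half after the other, dominate -/
theorem W.zero {x M g : ℕ} (hx : Wb 0 x M) (h : g ≤ x) : W 0 x [] g M := by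
  refine ⟨hx, rfl, ?_⟩
  change g ≤ ln x 0
  have : x < 2 ^ 32 := by simpa using hx.lt
  rw [ln_zero_of_lt this]
  exact h

theorem W.of_hf {n x M b g : ℕ} {l : List ℕ} (hx : Wb (n + 1) x M) (hb : Bt b)
    (h : W n (T34.hf n b x) l g M) : W (n + 1) x (l ++ [b]) g M := by
  refine ⟨hx, by simp [h.len], ?_⟩
  have hlo := h.lo
  rw [idx, idx_cb_append h.len, cb_append_last h.len]
  have hlt := idx_lt (cb l) n
  rcases hb with rfl | rfl
  · rw [ln_hf0 hlt] at hlo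
    exact hlo
  · rw [ln_hf1] at hlo
    simpa [Nat.add_comm] using hlo

end Pool.Agent.K3h90.T34
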