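import Pool.Agent.K3h90.T34.Loc

/-! The packed check for all links of a given six-vertex structure. -/

set_option autoImplicit false
set_option maxRecDepth 100000
set_option maxHeartbeats 4000000
set_option linter.unusedVariables false

namespace Pool.Agent.K3h90.T34
open Pool.Agent.H122R2.N6

theorem h321 {V : Type} {E : V → V → V → ℕ} (hE : Sy E) (x y z : V) : E z y x = E x y z := by
  rw [hE.h132, hE.h312]

def UV5 (TR : ℕ → ℕ) (RW : ℕ → ℕ → ℕ) (b012 b013 b023 b123 b014 b024 b124 b034 b134 b234 b015 b025 b125 b035 b135 b235 b045 b145 b245 b345 : ℕ) : ℕ :=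
  Nat.add (e04 (Nat.add (e14 (Nat.add (e24 (Nat.add (e34 (Nat.add (TV TR b012 b013 b023 b123 b014 b024 b124 b034 b134 b234)
    (d4 (V6 RW b012 b013 b023 b123 b014 b024 b124 b034 b134 b234 b015 b025 b125 b035 b135 b235 b045 b145 b245 b345))))
    (d4 (V6 RW b012 b014 b024 b124 b013 b023 b123 b034 b134 b234 b015 b025 b125 b045 b145 b245 b035 b135 b235 b345))))
    (d4 (V6 RW b013 b014 b034 b134 b012 b023 b123 b024 b124 b234 b015 b035 b135 b045 b145 b345 b025 b125 b235 b245))))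
    (d4 (V6 RW b023 b024 b034 b234 b012 b013 b123 b014 b124 b134 b025 b035 b235 b045 b245 b345 b015 b125 b135 b145))))
    (d4 (V6 RW b123 b124 b134 b234 b012 b013 b023 b014 b024 b034 b125 b135 b235 b145 b245 b345 b015 b025 b035 b045))

def UV4 (TR : ℕ → ℕ) (RW : ℕ → ℕ → ℕ) (b012 b013 b023 b123 b014 b024 b124 b034 b134 b234 b015 b025 b125 b035 b135 b235 b045 b145 b245 b345 : ℕ) : ℕ :=
  Nat.add (e04 (Nat.add (e14 (Nat.add (e24 (Nat.add (e34 (TV TR b012 b013 b023 b123 b015 b025 b125 b035 b135 b235))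
    (d4 (V6 RW b012 b015 b025 b125 b013 b023 b123 b035 b135 b235 b014 b024 b124 b045 b145 b245 b034 b134 b234 b345))))
    (d4 (V6 RW b013 b015 b035 b135 b012 b023 b123 b025 b125 b235 b014 b034 b134 b045 b145 b345 b024 b124 b234 b245))))
    (d4 (V6 RW b023 b025 b035 b235 b012 b013 b123 b015 b125 b135 b024 b034 b234 b045 b245 b345 b014 b124 b134 b145))))
    (d4 (V6 RW b123 b125 b135 b235 b012 b013 b023 b015 b025 b035 b124 b134 b234 b145 b245 b345 b014 b024 b034 b045))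

def UV3 (TR : ℕ → ℕ) (RW : ℕ → ℕ → ℕ) (b012 b013 b023 b123 b014 b024 b124 b034 b134 b234 b015 b025 b125 b035 b135 b235 b045 b145 b245 b345 : ℕ) : ℕ :=
  Nat.add (e04 (Nat.add (e14 (Nat.add (e24 (e34 (TV TR b012 b014 b024 b124 b015 b025 b125 b045 b145 b245)))
    (d4 (V6 RW b014 b015 b045 b145 b012 b024 b124 b025 b125 b245 b013 b034 b134 b035 b135 b345 b023 b123 b234 b235))))
    (d4 (V6 RW b024 b025 b045 b245 b012 b014 b124 b015 b125 b145 b023 b034 b234 b035 b235 b345 b013 b123 b134 b135))))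
    (d4 (V6 RW b124 b125 b145 b245 b012 b014 b024 b015 b025 b045 b123 b134 b234 b135 b235 b345 b013 b023 b034 b035))

def UV2 (TR : ℕ → ℕ) (RW : ℕ → ℕ → ℕ) (b012 b013 b023 b123 b014 b024 b124 b034 b134 b234 b015 b025 b125 b035 b135 b235 b045 b145 b245 b345 : ℕ) : ℕ :=
  Nat.add (e04 (Nat.add (e14 (e24 (e34 (TV TR b013 b014 b034 b134 b015 b035 b135 b045 b145 b345))))
    (d4 (V6 RW b034 b035 b045 b345 b013 b014 b134 b015 b135 b145 b023 b024 b234 b025 b235 b245 b012 b123 b124 b125))))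
    (d4 (V6 RW b134 b135 b145 b345 b013 b014 b034 b015 b035 b045 b123 b124 b234 b125 b235 b245 b012 b023 b024 b025))

def UV1 (TR : ℕ → ℕ) (RW : ℕ → ℕ → ℕ) (b012 b013 b023 b123 b014 b024 b124 b034 b134 b234 b015 b025 b125 b035 b135 b235 b045 b145 b245 b345 : ℕ) : ℕ :=
  Nat.add (e04 (e14 (e24 (e34 (TV TR b023 b024 b034 b234 b025 b035 b235 b045 b245 b345)))))
    (d4 (V6 RW b234 b235 b245 b345 b023 b024 b034 b025 b035 b045 b123 b124 b134 b125 b135 b145 b012 b013 b014 b015))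

def UV0 (TR : ℕ → ℕ) (RW : ℕ → ℕ → ℕ) (b012 b013 b023 b123 b014 b024 b124 b034 b134 b234 b015 b025 b125 b035 b135 b235 b045 b145 b245 b345 : ℕ) : ℕ :=
  e04 (e14 (e24 (e34 (TV TR b123 b124 b134 b234 b125 b135 b235 b145 b245 b345))))

def TT (TR : ℕ → ℕ) (RW : ℕ → ℕ → ℕ) (b012 b013 b023 b123 b014 b024 b124 b034 b134 b234 b015 b025 b125 b035 b135 b235 b045 b145 b245 b345 : ℕ) : ℕ :=
  Nat.add (g45 (Nat.add (g05 (Nat.add (g15 (Nat.add (g25 (Nat.add (g35 (d5 (UV5 TR RW b012 b013 b023 b123 b014 b024 b124 b034 b134 b234 b015 b025 b125 b035 b135 b235 b045 b145 b245 b345)))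
    (d5 (UV4 TR RW b012 b013 b023 b123 b014 b024 b124 b034 b134 b234 b015 b025 b125 b035 b135 b235 b045 b145 b245 b345))))
    (d5 (UV3 TR RW b012 b013 b023 b123 b014 b024 b124 b034 b134 b234 b015 b025 b125 b035 b135 b235 b045 b145 b245 b345))))
    (d5 (UV2 TR RW b012 b013 b023 b123 b014 b024 b124 b034 b134 b234 b015 b025 b125 b035 b135 b235 b045 b145 b245 b345))))
    (d5 (UV1 TR RW b012 b013 b023 b123 b014 b024 b124 b034 b134 b234 b015 b025 b125 b035 b135 b235 b045 b145 b245 b345))))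
    (d5 (UV0 TR RW b012 b013 b023 b123 b014 b024 b124 b034 b134 b234 b015 b025 b125 b035 b135 b235 b045 b145 b245 b345))

def LL (TR : ℕ → ℕ) (RW QF : ℕ → ℕ → ℕ) (b012 b013 b023 b123 b014 b024 b124 b034 b134 b234 b015 b025 b125 b035 b135 b235 b045 b145 b245 b345 : ℕ) : ℕ :=
  Nat.add (p04 (Nat.add (p12 (Nat.add (p02 (Nat.add (p15 (Nat.add (p04 (Nat.add (p12 (Nat.add (p03 (Nat.add (p02 (Nat.add (p15 (Nat.add (p03 (Nat.add (p12 (Nat.add (p04 (Nat.add (p03 (Nat.add (p02 (Nat.add (cvl (TT TR RW b012 b013 b023 b123 b014 b024 b124 b034 b134 b234 b015 b025 b125 b035 b135 b235 b045 b145 b245 b345))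
    (FL QF b345 b134 b034 b234 b135 b145 b023 b024 b035 b045 b123 b124 b235 b245 b013 b014)))
    (FL QF b345 b145 b045 b245 b135 b134 b025 b024 b035 b034 b125 b124 b235 b234 b015 b014)))
    (FL QF b134 b145 b014 b124 b135 b345 b012 b024 b013 b034 b125 b245 b123 b234 b015 b045)))
    (FL QF b034 b045 b014 b024 b035 b345 b012 b124 b013 b134 b025 b245 b023 b234 b015 b145)))
    (FL QF b034 b035 b013 b023 b045 b345 b012 b123 b014 b134 b025 b235 b024 b234 b015 b135)))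
    (FL QF b345 b035 b135 b235 b045 b034 b125 b123 b145 b134 b025 b023 b245 b234 b015 b013)))
    (FL QF b245 b025 b125 b235 b045 b024 b135 b123 b145 b124 b035 b023 b345 b234 b015 b012)))
    (FL QF b245 b024 b124 b234 b045 b025 b134 b123 b145 b125 b034 b023 b345 b235 b014 b012)))
    (FL QF b025 b024 b012 b023 b045 b245 b013 b123 b015 b125 b034 b234 b035 b235 b014 b124)))
    (FL QF b025 b045 b015 b035 b024 b245 b013 b135 b012 b125 b034 b345 b023 b235 b014 b145)))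
    (FL QF b125 b145 b015 b135 b124 b245 b013 b035 b012 b025 b134 b345 b123 b235 b014 b045)))
    (FL QF b123 b134 b013 b135 b124 b234 b015 b035 b012 b023 b145 b345 b125 b235 b014 b034)))
    (FL QF b123 b234 b023 b235 b124 b134 b025 b035 b012 b013 b245 b345 b125 b135 b024 b034)))
    (FL QF b123 b124 b012 b125 b234 b134 b025 b015 b023 b013 b245 b145 b235 b135 b024 b014)))
    (FL QF b013 b014 b012 b015 b034 b134 b025 b125 b023 b123 b045 b145 b035 b135 b024 b124)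

/-- the check -/
def chk7 (TR : ℕ → ℕ) (RW QF : ℕ → ℕ → ℕ) (D : ℕ) (b012 b013 b023 b123 b014 b024 b124 b034 b134 b234 b015 b025 b125 b035 b135 b235 b045 b145 b245 b345 : ℕ) : Bool :=
  Nat.beq (Nat.land (Nat.add (LL TR RW QF b012 b013 b023 b123 b014 b024 b124 b034 b134 b234 b015 b025 b125 b035 b135 b235 b045 b145 b245 b345)
    (rep (Nat.add D (ln (TV TR b012 b013 b023 b123 b014 b024 b124 b034 b134 b234) (cd10 b015 b025 b125 b035 b135 b235 b045 b145 b245 b345))) 15)) (rep 2147483648 15)) 0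

theorem idx_cd10 {l0 l1 l2 l3 l4 l5 l6 l7 l8 l9 : ℕ} (h0 : Bt l0) (h1 : Bt l1) (h2 : Bt l2) (h3 : Bt l3)
    (h4 : Bt l4) (h5 : Bt l5) (h6 : Bt l6) (h7 : Bt l7) (h8 : Bt l8) (h9 : Bt l9) :
    idx (cb [l0, l1, l2, l3, l4, l5, l6, l7, l8, l9]) 10 = cd10 l0 l1 l2 l3 l4 l5 l6 l7 l8 l9 := by
  have e : idx (cb [l0, l1, l2, l3, l4, l5, l6, l7, l8, l9]) 10 =
    0 + cond (Nat.beq l0 1) (2 ^ 0) 0 + cond (Nat.beq l1 1) (2 ^ 1) 0 + cond (Nat.beq l2 1) (2 ^ 2) 0 +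
    cond (Nat.beq l3 1) (2 ^ 3) 0 + cond (Nat.beq l4 1) (2 ^ 4) 0 + cond (Nat.beq l5 1) (2 ^ 5) 0 +
    cond (Nat.beq l6 1) (2 ^ 6) 0 + cond (Nat.beq l7 1) (2 ^ 7) 0 + cond (Nat.beq l8 1) (2 ^ 8) 0 +
    cond (Nat.beq l9 1) (2 ^ 9) 0 := rfl
  rw [e, bt_cond h0, bt_cond h1, bt_cond h2, bt_cond h3, bt_cond h4, bt_cond h5, bt_cond h6,
    bt_cond h7, bt_cond h8, bt_cond h9]
  change _ = l0 + (2 * l1 + (4 * l2 + (8 * l3 + (16 * l4 + (32 * l5 + (64 * l6 + (128 * l7 +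
    (256 * l8 + 512 * l9))))))))
  norm_num
  ring

section
variable {V : Type} {E : V → V → V → ℕ} {q4 : ℕ → ℕ → ℕ → ℕ} {q2 : ℕ → ℕ → ℕ} {q3 : ℕ → ℕ → ℕ → ℕ} {s OF : ℕ}

theorem UV5_W (hE : Sy E) (hK : NoK4 E) (s4 : sym4 q4 = true) (s2 : sym2 q2 = true)
    (h3 : Sym3 q3) {TR : ℕ → ℕ} {RW QF : ℕ → ℕ → ℕ} {MT MQ : ℕ}
    (hr : ∀ b012 b013 b023 b123 b014 b024 b124 b034 b134 b234 : ℕ, tg b012 b013 b023 b123 b014 b024 b124 b034 b134 b234 = 4 →
      TG E q4 q2 s OF MT (TR (cd10 b012 b013 b023 b123 b014 b024 b124 b034 b134 b234)) b012 b013 b023 b123 b014 b024 b124 b034 b134 b234)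
    (hR : RWok q3 RW MQ) (hQ : QFok q3 QF MQ) (hM : 7 * MT + 105 * MQ < 2 ^ 32) (a b c d e f v : V) :
    W 10 (UV5 TR RW (E a b c) (E a b d) (E a c d) (E b c d) (E a b e) (E a c e) (E b c e) (E a d e) (E b d e) (E c d e) (E a b f) (E a c f) (E b c f) (E a d f) (E b d f) (E c d f) (E a e f) (E b e f) (E c e f) (E d e f))
      [E b c v, E b d v, E c d v, E b e v, E c e v, E d e v, E a b v, E a c v, E a d v, E a e v]
      ((((((gS E q4 q2 s OF a b c d e v + P3 E q3 a b c d e f v) + P3 E q3 a b c e d f v) + P3 E q3 a b d e c f v) + P3 E q3 a c d e b f v) + P3 E q3 b c d e a f v)) ((((((MT + 4 * MQ) + 4 * MQ) + 4 * MQ) + 4 * MQ) + 4 * MQ)) := by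
  have x0 := TV_W hE hK s4 s2 hr a b c d e v
  have v45 := V6_W hE hR (by omega) a b c d e f v
  have x1 := W.add x0 (d4_W v45 (E a e v) (E b e v) (E c e v) (E d e v)) (by omega)
  have x2 := e34_W x1
  have v35 := V6_W hE hR (by omega) a b c e d f v
  rw [hE.h132 a d e, hE.h132 b d e, hE.h132 c d e, hE.h213 d e f] at v35
  have x3 := W.add x2 (d4_W v35 (E a d v) (E b d v) (E c d v) (E d e v)) (by omega)
  have x4 := e24_W x3
  have v25 := V6_W hE hR (by omega) a b d e c f v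
  rw [hE.h132 a c d, hE.h132 b c d, hE.h132 a c e, hE.h132 b c e, hE.h231 c d e, hE.h213 c d f, hE.h213 c e f] at v25
  have x5 := W.add x4 (d4_W v25 (E a c v) (E b c v) (E c d v) (E c e v)) (by omega)
  have x6 := e14_W x5
  have v15 := V6_W hE hR (by omega) a c d e b f v
  rw [hE.h132 a b c, hE.h132 a b d, hE.h231 b c d, hE.h132 a b e, hE.h231 b c e, hE.h231 b d e, hE.h213 b c f, hE.h213 b d f, hE.h213 b e f] at v15
  have x7 := W.add x6 (d4_W v15 (E a b v) (E b c v) (E b d v) (E b e v)) (by omega)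
  have x8 := e04_W x7
  have v05 := V6_W hE hR (by omega) b c d e a f v
  rw [hE.h231 a b c, hE.h231 a b d, hE.h231 a c d, hE.h231 a b e, hE.h231 a c e, hE.h231 a d e, hE.h213 a b f, hE.h213 a c f, hE.h213 a d f, hE.h213 a e f] at v05
  have x9 := W.add x8 (d4_W v05 (E a b v) (E a c v) (E a d v) (E a e v)) (by omega)
  exact x9

theorem UV4_W (hE : Sy E) (hK : NoK4 E) (s4 : sym4 q4 = true) (s2 : sym2 q2 = true)
    (h3 : Sym3 q3) {TR : ℕ → ℕ} {RW QF : ℕ → ℕ → ℕ} {MT MQ : ℕ}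
    (hr : ∀ b012 b013 b023 b123 b014 b024 b124 b034 b134 b234 : ℕ, tg b012 b013 b023 b123 b014 b024 b124 b034 b134 b234 = 4 →
      TG E q4 q2 s OF MT (TR (cd10 b012 b013 b023 b123 b014 b024 b124 b034 b134 b234)) b012 b013 b023 b123 b014 b024 b124 b034 b134 b234)
    (hR : RWok q3 RW MQ) (hQ : QFok q3 QF MQ) (hM : 7 * MT + 105 * MQ < 2 ^ 32) (a b c d e f v : V) :
    W 10 (UV4 TR RW (E a b c) (E a b d) (E a c d) (E b c d) (E a b e) (E a c e) (E b c e) (E a d e) (E b d e) (E c d e) (E a b f) (E a c f) (E b c f) (E a d f) (E b d f) (E c d f) (E a e f) (E b e f) (E c e f) (E d e f))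
      [E b c v, E b d v, E c d v, E b f v, E c f v, E d f v, E a b v, E a c v, E a d v, E a f v]
      (((((gS E q4 q2 s OF a b c d f v + P3 E q3 a b c f d e v) + P3 E q3 a b d f c e v) + P3 E q3 a c d f b e v) + P3 E q3 b c d f a e v)) (((((MT + 4 * MQ) + 4 * MQ) + 4 * MQ) + 4 * MQ)) := by
  have x0 := TV_W hE hK s4 s2 hr a b c d f v
  have x1 := e34_W x0
  have v34 := V6_W hE hR (by omega) a b c f d e v
  rw [hE.h132 a d f, hE.h132 b d f, hE.h132 c d f, hE.h132 a e f, hE.h132 b e f, hE.h132 c e f, hE.h312 d e f] at v34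
  have x2 := W.add x1 (d4_W v34 (E a d v) (E b d v) (E c d v) (E d f v)) (by omega)
  have x3 := e24_W x2
  have v24 := V6_W hE hR (by omega) a b d f c e v
  rw [hE.h132 a c d, hE.h132 b c d, hE.h132 a c f, hE.h132 b c f, hE.h231 c d f, hE.h132 a e f, hE.h132 b e f, hE.h132 d e f, hE.h213 c d e, hE.h312 c e f] at v24
  have x4 := W.add x3 (d4_W v24 (E a c v) (E b c v) (E c d v) (E c f v)) (by omega)
  have x5 := e14_W x4
  have v14 := V6_W hE hR (by omega) a c d f b e v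
  rw [hE.h132 a b c, hE.h132 a b d, hE.h231 b c d, hE.h132 a b f, hE.h231 b c f, hE.h231 b d f, hE.h132 a e f, hE.h132 c e f, hE.h132 d e f, hE.h213 b c e, hE.h213 b d e, hE.h312 b e f] at v14
  have x6 := W.add x5 (d4_W v14 (E a b v) (E b c v) (E b d v) (E b f v)) (by omega)
  have x7 := e04_W x6
  have v04 := V6_W hE hR (by omega) b c d f a e v
  rw [hE.h231 a b c, hE.h231 a b d, hE.h231 a c d, hE.h231 a b f, hE.h231 a c f, hE.h231 a d f, hE.h132 b e f, hE.h132 c e f, hE.h132 d e f, hE.h213 a b e, hE.h213 a c e, hE.h213 a d e, hE.h312 a e f] at v04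
  have x8 := W.add x7 (d4_W v04 (E a b v) (E a c v) (E a d v) (E a f v)) (by omega)
  exact x8

theorem UV3_W (hE : Sy E) (hK : NoK4 E) (s4 : sym4 q4 = true) (s2 : sym2 q2 = true)
    (h3 : Sym3 q3) {TR : ℕ → ℕ} {RW QF : ℕ → ℕ → ℕ} {MT MQ : ℕ}
    (hr : ∀ b012 b013 b023 b123 b014 b024 b124 b034 b134 b234 : ℕ, tg b012 b013 b023 b123 b014 b024 b124 b034 b134 b234 = 4 →
      TG E q4 q2 s OF MT (TR (cd10 b012 b013 b023 b123 b014 b024 b124 b034 b134 b234)) b012 b013 b023 b123 b014 b024 b124 b034 b134 b234)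
    (hR : RWok q3 RW MQ) (hQ : QFok q3 QF MQ) (hM : 7 * MT + 105 * MQ < 2 ^ 32) (a b c d e f v : V) :
    W 10 (UV3 TR RW (E a b c) (E a b d) (E a c d) (E b c d) (E a b e) (E a c e) (E b c e) (E a d e) (E b d e) (E c d e) (E a b f) (E a c f) (E b c f) (E a d f) (E b d f) (E c d f) (E a e f) (E b e f) (E c e f) (E d e f))
      [E b c v, E b e v, E c e v, E b f v, E c f v, E e f v, E a b v, E a c v, E a e v, E a f v]
      ((((gS E q4 q2 s OF a b c e f v + P3 E q3 a b e f c d v) + P3 E q3 a c e f b d v) + P3 E q3 b c e f a d v)) ((((MT + 4 * MQ) + 4 * MQ) + 4 * MQ)) := by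
  have x0 := TV_W hE hK s4 s2 hr a b c e f v
  have x1 := e34_W x0
  have x2 := e24_W x1
  have v23 := V6_W hE hR (by omega) a b e f c d v
  rw [hE.h132 a c e, hE.h132 b c e, hE.h132 a c f, hE.h132 b c f, hE.h231 c e f, hE.h132 a d e, hE.h132 b d e, hE.h132 a d f, hE.h132 b d f, hE.h231 d e f, hE.h312 c d e, hE.h312 c d f] at v23
  have x3 := W.add x2 (d4_W v23 (E a c v) (E b c v) (E c e v) (E c f v)) (by omega)
  have x4 := e14_W x3
  have v13 := V6_W hE hR (by omega) a c e f b d v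
  rw [hE.h132 a b c, hE.h132 a b e, hE.h231 b c e, hE.h132 a b f, hE.h231 b c f, hE.h231 b e f, hE.h132 a d e, hE.h132 c d e, hE.h132 a d f, hE.h132 c d f, hE.h231 d e f, hE.h213 b c d, hE.h312 b d e, hE.h312 b d f] at v13
  have x5 := W.add x4 (d4_W v13 (E a b v) (E b c v) (E b e v) (E b f v)) (by omega)
  have x6 := e04_W x5
  have v03 := V6_W hE hR (by omega) b c e f a d v
  rw [hE.h231 a b c, hE.h231 a b e, hE.h231 a c e, hE.h231 a b f, hE.h231 a c f, hE.h231 a e f, hE.h132 b d e, hE.h132 c d e, hE.h132 b d f, hE.h132 c d f, hE.h231 d e f, hE.h213 a b d, hE.h213 a c d, hE.h312 a d e, hE.h312 a d f] at v03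
  have x7 := W.add x6 (d4_W v03 (E a b v) (E a c v) (E a e v) (E a f v)) (by omega)
  exact x7

theorem UV2_W (hE : Sy E) (hK : NoK4 E) (s4 : sym4 q4 = true) (s2 : sym2 q2 = true)
    (h3 : Sym3 q3) {TR : ℕ → ℕ} {RW QF : ℕ → ℕ → ℕ} {MT MQ : ℕ}
    (hr : ∀ b012 b013 b023 b123 b014 b024 b124 b034 b134 b234 : ℕ, tg b012 b013 b023 b123 b014 b024 b124 b034 b134 b234 = 4 →
      TG E q4 q2 s OF MT (TR (cd10 b012 b013 b023 b123 b014 b024 b124 b034 b134 b234)) b012 b013 b023 b123 b014 b024 b124 b034 b134 b234)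
    (hR : RWok q3 RW MQ) (hQ : QFok q3 QF MQ) (hM : 7 * MT + 105 * MQ < 2 ^ 32) (a b c d e f v : V) :
    W 10 (UV2 TR RW (E a b c) (E a b d) (E a c d) (E b c d) (E a b e) (E a c e) (E b c e) (E a d e) (E b d e) (E c d e) (E a b f) (E a c f) (E b c f) (E a d f) (E b d f) (E c d f) (E a e f) (E b e f) (E c e f) (E d e f))
      [E b d v, E b e v, E d e v, E b f v, E d f v, E e f v, E a b v, E a d v, E a e v, E a f v]
      (((gS E q4 q2 s OF a b d e f v + P3 E q3 a d e f b c v) + P3 E q3 b d e f a c v)) (((MT + 4 * MQ) + 4 * MQ)) := by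
  have x0 := TV_W hE hK s4 s2 hr a b d e f v
  have x1 := e34_W x0
  have x2 := e24_W x1
  have x3 := e14_W x2
  have v12 := V6_W hE hR (by omega) a d e f b c v
  rw [hE.h132 a b d, hE.h132 a b e, hE.h231 b d e, hE.h132 a b f, hE.h231 b d f, hE.h231 b e f, hE.h132 a c d, hE.h132 a c e, hE.h231 c d e, hE.h132 a c f, hE.h231 c d f, hE.h231 c e f, hE.h312 b c d, hE.h312 b c e, hE.h312 b c f] at v12
  have x4 := W.add x3 (d4_W v12 (E a b v) (E b d v) (E b e v) (E b f v)) (by omega)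
  have x5 := e04_W x4
  have v02 := V6_W hE hR (by omega) b d e f a c v
  rw [hE.h231 a b d, hE.h231 a b e, hE.h231 a d e, hE.h231 a b f, hE.h231 a d f, hE.h231 a e f, hE.h132 b c d, hE.h132 b c e, hE.h231 c d e, hE.h132 b c f, hE.h231 c d f, hE.h231 c e f, hE.h213 a b c, hE.h312 a c d, hE.h312 a c e, hE.h312 a c f] at v02
  have x6 := W.add x5 (d4_W v02 (E a b v) (E a d v) (E a e v) (E a f v)) (by omega)
  exact x6

theorem UV1_W (hE : Sy E) (hK : NoK4 E) (s4 : sym4 q4 = true) (s2 : sym2 q2 = true)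
    (h3 : Sym3 q3) {TR : ℕ → ℕ} {RW QF : ℕ → ℕ → ℕ} {MT MQ : ℕ}
    (hr : ∀ b012 b013 b023 b123 b014 b024 b124 b034 b134 b234 : ℕ, tg b012 b013 b023 b123 b014 b024 b124 b034 b134 b234 = 4 →
      TG E q4 q2 s OF MT (TR (cd10 b012 b013 b023 b123 b014 b024 b124 b034 b134 b234)) b012 b013 b023 b123 b014 b024 b124 b034 b134 b234)
    (hR : RWok q3 RW MQ) (hQ : QFok q3 QF MQ) (hM : 7 * MT + 105 * MQ < 2 ^ 32) (a b c d e f v : V) :
    W 10 (UV1 TR RW (E a b c) (E a b d) (E a c d) (E b c d) (E a b e) (E a c e) (E b c e) (E a d e) (E b d e) (E c d e) (E a b f) (E a c f) (E b c f) (E a d f) (E b d f) (E c d f) (E a e f) (E b e f) (E c e f) (E d e f))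
      [E c d v, E c e v, E d e v, E c f v, E d f v, E e f v, E a c v, E a d v, E a e v, E a f v]
      ((gS E q4 q2 s OF a c d e f v + P3 E q3 c d e f a b v)) ((MT + 4 * MQ)) := by
  have x0 := TV_W hE hK s4 s2 hr a c d e f v
  have x1 := e34_W x0
  have x2 := e24_W x1
  have x3 := e14_W x2
  have x4 := e04_W x3
  have v01 := V6_W hE hR (by omega) c d e f a b v
  rw [hE.h231 a c d, hE.h231 a c e, hE.h231 a d e, hE.h231 a c f, hE.h231 a d f, hE.h231 a e f, hE.h231 b c d, hE.h231 b c e, hE.h231 b d e, hE.h231 b c f, hE.h231 b d f, hE.h231 b e f, hE.h312 a b c, hE.h312 a b d, hE.h312 a b e, hE.h312 a b f] at v01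
  have x5 := W.add x4 (d4_W v01 (E a c v) (E a d v) (E a e v) (E a f v)) (by omega)
  exact x5

theorem UV0_W (hE : Sy E) (hK : NoK4 E) (s4 : sym4 q4 = true) (s2 : sym2 q2 = true)
    (h3 : Sym3 q3) {TR : ℕ → ℕ} {RW QF : ℕ → ℕ → ℕ} {MT MQ : ℕ}
    (hr : ∀ b012 b013 b023 b123 b014 b024 b124 b034 b134 b234 : ℕ, tg b012 b013 b023 b123 b014 b024 b124 b034 b134 b234 = 4 →
      TG E q4 q2 s OF MT (TR (cd10 b012 b013 b023 b123 b014 b024 b124 b034 b134 b234)) b012 b013 b023 b123 b014 b024 b124 b034 b134 b234)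
    (hR : RWok q3 RW MQ) (hQ : QFok q3 QF MQ) (hM : 7 * MT + 105 * MQ < 2 ^ 32) (a b c d e f v : V) :
    W 10 (UV0 TR RW (E a b c) (E a b d) (E a c d) (E b c d) (E a b e) (E a c e) (E b c e) (E a d e) (E b d e) (E c d e) (E a b f) (E a c f) (E b c f) (E a d f) (E b d f) (E c d f) (E a e f) (E b e f) (E c e f) (E d e f))
      [E c d v, E c e v, E d e v, E c f v, E d f v, E e f v, E b c v, E b d v, E b e v, E b f v]
      (gS E q4 q2 s OF b c d e f v) (MT) := by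
  have x0 := TV_W hE hK s4 s2 hr b c d e f v
  have x1 := e34_W x0
  have x2 := e24_W x1
  have x3 := e14_W x2
  have x4 := e04_W x3
  exact x4

theorem TT_W (hE : Sy E) (hK : NoK4 E) (s4 : sym4 q4 = true) (s2 : sym2 q2 = true)
    (h3 : Sym3 q3) {TR : ℕ → ℕ} {RW QF : ℕ → ℕ → ℕ} {MT MQ : ℕ}
    (hr : ∀ b012 b013 b023 b123 b014 b024 b124 b034 b134 b234 : ℕ, tg b012 b013 b023 b123 b014 b024 b124 b034 b134 b234 = 4 →
      TG E q4 q2 s OF MT (TR (cd10 b012 b013 b023 b123 b014 b024 b124 b034 b134 b234)) b012 b013 b023 b123 b014 b024 b124 b034 b134 b234)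
    (hR : RWok q3 RW MQ) (hQ : QFok q3 QF MQ) (hM : 7 * MT + 105 * MQ < 2 ^ 32) (a b c d e f v : V) :
    W 15 (TT TR RW (E a b c) (E a b d) (E a c d) (E b c d) (E a b e) (E a c e) (E b c e) (E a d e) (E b d e) (E c d e) (E a b f) (E a c f) (E b c f) (E a d f) (E b d f) (E c d f) (E a e f) (E b e f) (E c e f) (E d e f))
      [E c d v, E c e v, E d e v, E c f v, E d f v, E e f v, E b c v, E b d v, E b e v, E b f v, E a c v, E a d v, E a e v, E a f v, E a b v]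
      (((((((((((gS E q4 q2 s OF a b c d e v + P3 E q3 a b c d e f v) + P3 E q3 a b c e d f v) + P3 E q3 a b d e c f v) + P3 E q3 a c d e b f v) + P3 E q3 b c d e a f v) + ((((gS E q4 q2 s OF a b c d f v + P3 E q3 a b c f d e v) + P3 E q3 a b d f c e v) + P3 E q3 a c d f b e v) + P3 E q3 b c d f a e v)) + (((gS E q4 q2 s OF a b c e f v + P3 E q3 a b e f c d v) + P3 E q3 a c e f b d v) + P3 E q3 b c e f a d v)) + ((gS E q4 q2 s OF a b d e f v + P3 E q3 a d e f b c v) + P3 E q3 b d e f a c v)) + (gS E q4 q2 s OF a c d e f v + P3 E q3 c d e f a b v)) + gS E q4 q2 s OF b c d e f v)) (((((((((((MT + 4 * MQ) + 4 * MQ) + 4 * MQ) + 4 * MQ) + 4 * MQ) + ((((MT + 4 * MQ) + 4 * MQ) + 4 * MQ) + 4 * MQ)) + (((MT + 4 * MQ) + 4 * MQ) + 4 * MQ)) + ((MT + 4 * MQ) + 4 * MQ)) + (MT + 4 * MQ)) + MT)) := by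
  have y5 := d5_W (UV5_W hE hK s4 s2 h3 hr hR hQ hM a b c d e f v) (E b f v) (E c f v) (E d f v) (E e f v) (E a f v)
  have z4 := g35_W y5
  have w4 := d5_W (UV4_W hE hK s4 s2 h3 hr hR hQ hM a b c d e f v) (E b e v) (E c e v) (E d e v) (E e f v) (E a e v)
  have y4 := W.add z4 w4 (by omega)
  have z3 := g25_W y4
  have w3 := d5_W (UV3_W hE hK s4 s2 h3 hr hR hQ hM a b c d e f v) (E b d v) (E c d v) (E d e v) (E d f v) (E a d v)
  have y3 := W.add z3 w3 (by omega)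
  have z2 := g15_W y3
  have w2 := d5_W (UV2_W hE hK s4 s2 h3 hr hR hQ hM a b c d e f v) (E b c v) (E c d v) (E c e v) (E c f v) (E a c v)
  have y2 := W.add z2 w2 (by omega)
  have z1 := g05_W y2
  have w1 := d5_W (UV1_W hE hK s4 s2 h3 hr hR hQ hM a b c d e f v) (E b c v) (E b d v) (E b e v) (E b f v) (E a b v)
  have y1 := W.add z1 w1 (by omega)
  have z0 := g45_W y1
  have w0 := d5_W (UV0_W hE hK s4 s2 h3 hr hR hQ hM a b c d e f v) (E a c v) (E a d v) (E a e v) (E a f v) (E a b v)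
  have y0 := W.add z0 w0 (by omega)
  exact y0

theorem arith0 (MT MQ : ℕ) : (((((((((((((((((((((((((MT + 4 * MQ) + 4 * MQ) + 4 * MQ) + 4 * MQ) + 4 * MQ) + ((((MT + 4 * MQ) + 4 * MQ) + 4 * MQ) + 4 * MQ)) + (((MT + 4 * MQ) + 4 * MQ) + 4 * MQ)) + ((MT + 4 * MQ) + 4 * MQ)) + (MT + 4 * MQ)) + MT) + 3 * MQ) + 3 * MQ) + 3 * MQ) + 3 * MQ) + 3 * MQ) + 3 * MQ) + 3 * MQ) + 3 * MQ) + 3 * MQ) + 3 * MQ) + 3 * MQ) + 3 * MQ) + 3 * MQ) + 3 * MQ) + 3 * MQ) =
    6 * MT + 105 * MQ := by omega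

theorem arith1 (g0 g1 g2 g3 g4 g5 p01 p02 p03 p04 p05 p12 p13 p14 p15 p23 p24 p25 p34 p35 p45 r01 r02 r03 r04 r05 r12 r13 r14 r15 r23 r24 r25 r34 r35 r45 : ℕ) : (((((((((((((((((((((((((g5 + p45) + p35) + p25) + p15) + p05) + ((((g4 + p34) + p24) + p14) + p04)) + (((g3 + p23) + p13) + p03)) + ((g2 + p12) + p02)) + (g1 + p01)) + g0) + r34) + r45) + r14) + r04) + r03) + r35) + r25) + r24) + r02) + r05) + r15) + r13) + r23) + r12) + r01) =
    (g0 + (g1 + (g2 + (g3 + (g4 + (g5)))))) + (p01 + (r01 + (p02 + (r02 + (p03 + (r03 + (p04 + (r04 + (p05 + (r05 + (p12 + (r12 + (p13 + (r13 + (p14 + (r14 + (p15 + (r15 + (p23 + (r23 + (p24 + (r24 + (p25 + (r25 + (p34 + (r34 + (p35 + (r35 + (p45 + r45))))))))))))))))))))))))))))) := by omega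

theorem LL_W (hE : Sy E) (hK : NoK4 E) (s4 : sym4 q4 = true) (s2 : sym2 q2 = true)
    (h3 : Sym3 q3) {TR : ℕ → ℕ} {RW QF : ℕ → ℕ → ℕ} {MT MQ : ℕ}
    (hr : ∀ b012 b013 b023 b123 b014 b024 b124 b034 b134 b234 : ℕ, tg b012 b013 b023 b123 b014 b024 b124 b034 b134 b234 = 4 →
      TG E q4 q2 s OF MT (TR (cd10 b012 b013 b023 b123 b014 b024 b124 b034 b134 b234)) b012 b013 b023 b123 b014 b024 b124 b034 b134 b234)
    (hR : RWok q3 RW MQ) (hQ : QFok q3 QF MQ) (hM : 7 * MT + 105 * MQ < 2 ^ 32) (a b c d e f v : V) :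
    W 15 (LL TR RW QF (E a b c) (E a b d) (E a c d) (E b c d) (E a b e) (E a c e) (E b c e) (E a d e) (E b d e) (E c d e) (E a b f) (E a c f) (E b c f) (E a d f) (E b d f) (E c d f) (E a e f) (E b e f) (E c e f) (E d e f))
      [E a f v, E b f v, E c f v, E a c v, E b c v, E a d v, E b d v, E a e v, E b e v, E d e v, E a b v, E c d v, E e f v, E d f v, E c e v]
      ((gS E q4 q2 s OF b c d e f v + (gS E q4 q2 s OF a c d e f v + (gS E q4 q2 s OF a b d e f v + (gS E q4 q2 s OF a b c e f v + (gS E q4 q2 s OF a b c d f v + (gS E q4 q2 s OF a b c d e v)))))) + L3 E q3 a b c d e f v) (6 * MT + 105 * MQ) := by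
  have c0 := cvl_W (TT_W hE hK s4 s2 h3 hr hR hQ hM a b c d e f v)
  have f0 := FL_W hE hQ (by omega) d e f b a c v
  rw [hE.h231 b d e, hE.h231 a d e, hE.h231 c d e, hE.h231 b d f, hE.h231 b e f, hE.h312 a c d, hE.h312 a c e, hE.h231 a d f, hE.h231 a e f, hE.h312 b c d, hE.h312 b c e, hE.h231 c d f, hE.h231 c e f, h321 hE a b d, h321 hE a b e, hE.h213 c d v, hE.h213 c e v, hE.h213 a d v, hE.h213 a e v, hE.h213 b d v, hE.h213 b e v, hE.h213 b f v, hE.h213 a f v, hE.h213 c f v, hE.h213 a b v, R3_s2 hE h3 d e b f a c v, R3_s3 hE h3 d e b a f c v, R3_s4 hE h3 d e b a c f v, R3_s2 hE h3 d e a b c f v] at f0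
  have y0 := W.add c0 f0 (by omega)
  have c1 := p02_W y0
  have f1 := FL_W hE hQ (by omega) f e d b a c v
  rw [h321 hE d e f, h321 hE b e f, h321 hE a e f, h321 hE c e f, h321 hE b d f, h321 hE b d e, hE.h312 a c f, hE.h312 a c e, h321 hE a d f, h321 hE a d e, hE.h312 b c f, hE.h312 b c e, h321 hE c d f, h321 hE c d e, h321 hE a b f, h321 hE a b e, hE.h213 c f v, hE.h213 c e v, hE.h213 a f v, hE.h213 a e v, hE.h213 d f v, hE.h213 d e v, hE.h213 b f v, hE.h213 b e v, hE.h213 b d v, hE.h213 e f v, hE.h213 a d v, hE.h213 c d v, hE.h213 a b v, R3_s0 hE h3 e f d b a c v, R3_s2 hE h3 e f b d a c v, R3_s3 hE h3 e f b a d c v, R3_s4 hE h3 e f b a c d v, R3_s2 hE h3 e f a b c d v] at f1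
  have y1 := W.add c1 f1 (by omega)
  have c2 := p03_W y1
  have f2 := FL_W hE hQ (by omega) b e d f a c v
  rw [hE.h132 b d e, hE.h231 a b e, hE.h132 b c e, hE.h213 d e f, hE.h213 a b c, hE.h312 a c e, hE.h231 a b d, h321 hE a d e, hE.h132 b c f, hE.h231 c e f, hE.h132 b c d, h321 hE c d e, hE.h231 a b f, hE.h231 a e f, hE.h213 c e v, hE.h213 a b v, hE.h213 a e v, hE.h213 d e v, hE.h213 a d v, hE.h213 c f v, hE.h213 c d v, hE.h213 a f v, R3_s3 hE h3 b e d a f c v, R3_s4 hE h3 b e d a c f v, R3_s2 hE h3 b e a d c f v, R3_s3 hE h3 b e a c d f v] at f2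
  have y2 := W.add c2 f2 (by omega)
  have c3 := p04_W y2
  have f3 := FL_W hE hQ (by omega) a e d f b c v
  rw [hE.h132 a d e, hE.h132 a b e, hE.h132 a c e, hE.h213 d e f, hE.h312 b c e, hE.h132 a b d, h321 hE b d e, hE.h132 a c f, hE.h231 c e f, hE.h132 a c d, h321 hE c d e, hE.h132 a b f, hE.h231 b e f, hE.h213 c e v, hE.h213 b e v, hE.h213 d e v, hE.h213 b d v, hE.h213 c f v, hE.h213 c d v, hE.h213 b f v, R3_s3 hE h3 a e d b f c v, R3_s4 hE h3 a e d b c f v, R3_s2 hE h3 a e b d c f v, R3_s3 hE h3 a e b c d f v] at f3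
  have y3 := W.add c3 f3 (by omega)
  have c4 := p12_W y3
  have f4 := FL_W hE hQ (by omega) a d e f b c v
  rw [hE.h132 a b d, hE.h132 a c d, hE.h312 b c d, hE.h132 a b e, hE.h231 b d e, hE.h132 a c f, hE.h231 c d f, hE.h132 a c e, hE.h231 c d e, hE.h132 a b f, hE.h231 b d f, hE.h213 c d v, hE.h213 b d v, hE.h213 b e v, hE.h213 c f v, hE.h213 c e v, hE.h213 b f v, R3_s3 hE h3 a d e b f c v, R3_s4 hE h3 a d e b c f v, R3_s2 hE h3 a d b e c f v, R3_s3 hE h3 a d b c e f v] at f4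
  have y4 := W.add c4 f4 (by omega)
  have c5 := p03_W y4
  have f5 := FL_W hE hQ (by omega) f d e a b c v
  rw [hE.h312 d e f, h321 hE a d f, h321 hE b d f, h321 hE c d f, h321 hE a e f, hE.h231 a d e, hE.h312 b c f, hE.h312 b c d, h321 hE b e f, hE.h231 b d e, hE.h312 a c f, hE.h312 a c d, h321 hE c e f, hE.h231 c d e, hE.h312 a b f, hE.h312 a b d, hE.h213 c f v, hE.h213 c d v, hE.h213 b f v, hE.h213 b d v, hE.h213 e f v, hE.h213 a f v, hE.h213 a d v, hE.h213 a e v, hE.h213 d f v, hE.h213 b e v, hE.h213 c e v, R3_s0 hE h3 d f e a b c v, R3_s2 hE h3 d f a e b c v, R3_s3 hE h3 d f a b e c v, R3_s4 hE h3 d f a b c e v] at f5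
  have y5 := W.add c5 f5 (by omega)
  have c6 := p15_W y5
  have f6 := FL_W hE hQ (by omega) f c e a b d v
  rw [hE.h312 c e f, h321 hE a c f, h321 hE b c f, hE.h312 c d f, h321 hE a e f, hE.h231 a c e, hE.h312 b d f, hE.h213 b c d, h321 hE b e f, hE.h231 b c e, hE.h312 a d f, hE.h213 a c d, h321 hE d e f, hE.h132 c d e, hE.h312 a b f, hE.h312 a b c, hE.h213 d f v, hE.h213 b f v, hE.h213 b c v, hE.h213 e f v, hE.h213 a f v, hE.h213 a c v, hE.h213 a e v, hE.h213 c f v, hE.h213 b e v, hE.h213 d e v, R3_s0 hE h3 c f e a b d v, R3_s2 hE h3 c f a e b d v, R3_s3 hE h3 c f a b e d v, R3_s4 hE h3 c f a b d e v] at f6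
  have y6 := W.add c6 f6 (by omega)
  have c7 := p02_W y6
  have f7 := FL_W hE hQ (by omega) e c f a b d v
  rw [hE.h213 c e f, h321 hE a c e, h321 hE b c e, hE.h312 c d e, hE.h231 a e f, hE.h231 a c f, hE.h312 b d e, hE.h213 b c d, hE.h231 b e f, hE.h231 b c f, hE.h312 a d e, hE.h213 a c d, hE.h231 d e f, hE.h132 c d f, hE.h312 a b e, hE.h312 a b c, hE.h213 d e v, hE.h213 b e v, hE.h213 b c v, hE.h213 a e v, hE.h213 a c v, hE.h213 a f v, hE.h213 c e v, hE.h213 b f v, hE.h213 d f v, R3_s0 hE h3 c e f a b d v, R3_s2 hE h3 c e a f b d v, R3_s3 hE h3 c e a b f d v, R3_s4 hE h3 c e a b d f v] at f7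
  have y7 := W.add c7 f7 (by omega)
  have c8 := p03_W y7
  have f8 := FL_W hE hQ (by omega) a c f e b d v
  rw [hE.h132 a b c, hE.h132 a e f, hE.h132 c e f, hE.h213 b c d, hE.h132 a b f, hE.h231 b c f, hE.h132 a d e, hE.h132 c d e, hE.h132 a d f, hE.h132 c d f, hE.h132 a b e, hE.h231 b c e, hE.h213 b c v, hE.h213 e f v, hE.h213 b f v, hE.h213 d e v, hE.h213 d f v, hE.h213 b e v, R3_s2 hE h3 a c e f b d v, R3_s3 hE h3 a c e b f d v, R3_s4 hE h3 a c e b d f v, R3_s2 hE h3 a c b e d f v, R3_s3 hE h3 a c b d e f v] at f8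
  have y8 := W.add c8 f8 (by omega)
  have c9 := p12_W y8
  have f9 := FL_W hE hQ (by omega) a f c e b d v
  rw [hE.h132 a c f, hE.h132 a e f, hE.h132 a b f, hE.h132 a d f, hE.h312 c e f, hE.h312 b d f, hE.h132 a b c, h321 hE b c f, hE.h132 a d e, h321 hE d e f, hE.h312 c d f, hE.h132 a b e, h321 hE b e f, hE.h213 d f v, hE.h213 b f v, hE.h213 c f v, hE.h213 e f v, hE.h213 b c v, hE.h213 d e v, hE.h213 b e v, R3_s3 hE h3 a f c b e d v, R3_s4 hE h3 a f c b d e v, R3_s2 hE h3 a f b c d e v] at f9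
  have y9 := W.add c9 f9 (by omega)
  have c10 := p04_W y9
  have f10 := FL_W hE hQ (by omega) b f c e a d v
  rw [hE.h132 b c f, hE.h132 b e f, hE.h231 a b f, hE.h132 b d f, hE.h312 c e f, hE.h213 a b d, hE.h312 a d f, hE.h231 a b c, h321 hE a c f, hE.h132 b d e, h321 hE d e f, hE.h312 c d f, hE.h231 a b e, h321 hE a e f, hE.h213 d f v, hE.h213 a b v, hE.h213 a f v, hE.h213 c f v, hE.h213 e f v, hE.h213 a c v, hE.h213 d e v, hE.h213 a e v, R3_s3 hE h3 b f c a e d v, R3_s4 hE h3 b f c a d e v, R3_s2 hE h3 b f a c d e v] at f10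
  have y10 := W.add c10 f10 (by omega)
  have c11 := p15_W y10
  have f11 := FL_W hE hQ (by omega) b d c e a f v
  rw [hE.h132 b c d, hE.h231 a b d, hE.h213 c d e, hE.h213 a b f, hE.h213 a d f, hE.h231 a b c, h321 hE a c d, hE.h213 c d f, hE.h231 a b e, hE.h231 a d e, hE.h213 a b v, hE.h213 a d v, hE.h213 c d v, hE.h213 a c v, hE.h213 a e v, R3_s3 hE h3 b d c a e f v, R3_s2 hE h3 b d a c e f v] at f11
  have y11 := W.add c11 f11 (by omega)
  have c12 := p02_W y11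
  have f12 := FL_W hE hQ (by omega) c d b e a f v
  rw [hE.h231 b c d, hE.h231 a c d, hE.h213 b c e, hE.h213 b d e, hE.h213 a c f, hE.h213 a d f, h321 hE a b c, h321 hE a b d, hE.h213 b c f, hE.h213 b d f, hE.h231 a c e, hE.h231 a d e, hE.h213 a c v, hE.h213 a d v, hE.h213 b c v, hE.h213 b d v, hE.h213 a b v, hE.h213 a e v, R3_s3 hE h3 c d b a e f v, R3_s2 hE h3 c d a b e f v] at f12
  have y12 := W.add c12 f12 (by omega)
  have c13 := p12_W y12
  have f13 := FL_W hE hQ (by omega) c b d e a f v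
  rw [hE.h213 b c d, hE.h213 b c e, h321 hE a b c, hE.h213 b c f, hE.h213 a c f, hE.h213 a b f, hE.h231 a c d, hE.h231 a b d, hE.h231 a c e, hE.h231 a b e, hE.h213 a c v, hE.h213 a b v, hE.h213 b c v, hE.h213 a d v, hE.h213 a e v, R3_s0 hE h3 b c d e a f v, R3_s3 hE h3 b c d a e f v, R3_s2 hE h3 b c a d e f v] at f13
  have y13 := W.add c13 f13 (by omega)
  have c14 := p04_W y13
  have f14 := FL_W hE hQ (by omega) a b d e c f v
  rw [hE.h132 a c d, hE.h132 b c d, hE.h132 a c e, hE.h132 b c e, hE.h213 c d v, hE.h213 c e v, R3_s3 hE h3 a b d c e f v, R3_s2 hE h3 a b c d e f v] at f14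
  have y14 := W.add c14 f14 (by omega)
  have eg : (((((((((((((((((((((((((gS E q4 q2 s OF a b c d e v + P3 E q3 a b c d e f v) + P3 E q3 a b c e d f v) + P3 E q3 a b d e c f v) + P3 E q3 a c d e b f v) + P3 E q3 b c d e a f v) + ((((gS E q4 q2 s OF a b c d f v + P3 E q3 a b c f d e v) + P3 E q3 a b d f c e v) + P3 E q3 a c d f b e v) + P3 E q3 b c d f a e v)) + (((gS E q4 q2 s OF a b c e f v + P3 E q3 a b e f c d v) + P3 E q3 a c e f b d v) + P3 E q3 b c e f a d v)) + ((gS E q4 q2 s OF a b d e f v + P3 E q3 a d e f b c v) + P3 E q3 b d e f a c v)) + (gS E q4 q2 s OF a c d e f v + P3 E q3 c d e f a b v)) + gS E q4 q2 s OF b c d e f v) + R3 E q3 d e a b c f v) + R3 E q3 e f a b c d v) + R3 E q3 b e a c d f v) + R3 E q3 a e b c d f v) + R3 E q3 a d b c e f v) + R3 E q3 d f a b c e v) + R3 E q3 c f a b d e v) + R3 E q3 c e a b d f v) + R3 E q3 a c b d e f v) + R3 E q3 a f b c d e v) + R3 E q3 b f a c d e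 v) + R3 E q3 b d a c e f v) + R3 E q3 c d a b e f v) + R3 E q3 b c a d e f v) + R3 E q3 a b c d e f v) = (gS E q4 q2 s OF b c d e f v + (gS E q4 q2 s OF a c d e f v + (gS E q4 q2 s OF a b d e f v + (gS E q4 q2 s OF a b c e f v + (gS E q4 q2 s OF a b c d f v + (gS E q4 q2 s OF a b c d e v)))))) + L3 E q3 a b c d e f v :=
    arith1 (gS E q4 q2 s OF b c d e f v) (gS E q4 q2 s OF a c d e f v) (gS E q4 q2 s OF a b d e f v) (gS E q4 q2 s OF a b c e f v) (gS E q4 q2 s OF a b c d f v) (gS E q4 q2 s OF a b c d e v) (P3 E q3 c d e f a b v) (P3 E q3 b d e f a c v) (P3 E q3 b c e f a d v) (P3 E q3 b c d f a e v) (P3 E q3 b c d e a f v) (P3 E q3 a d e f b c v) (P3 E q3 a c e f b d v) (P3 E q3 a c d f b e v) (P3 E q3 a c d e b f v) (P3 E q3 a b e f c d v) (P3 E q3 a b d f c e v) (P3 E q3 a b d e c f v) (P3 E q3 a b c f d e v) (P3 E q3 a b c e d f v) (P3 E q3 a b c d e f v) (R3 E q3 a b c d e f v) (R3 E q3 a c b d e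 f v) (R3 E q3 a d b c e f v) (R3 E q3 a e b c d f v) (R3 E q3 a f b c d e v) (R3 E q3 b c a d e f v) (R3 E q3 b d a c e f v) (R3 E q3 b e a c d f v) (R3 E q3 b f a c d e v) (R3 E q3 c d a b e f v) (R3 E q3 c e a b d f v) (R3 E q3 c f a b d e v) (R3 E q3 d e a b c f v) (R3 E q3 d f a b c e v) (R3 E q3 e f a b c d v)
  have em : (((((((((((((((((((((((((MT + 4 * MQ) + 4 * MQ) + 4 * MQ) + 4 * MQ) + 4 * MQ) + ((((MT + 4 * MQ) + 4 * MQ) + 4 * MQ) + 4 * MQ)) + (((MT + 4 * MQ) + 4 * MQ) + 4 * MQ)) + ((MT + 4 * MQ) + 4 * MQ)) + (MT + 4 * MQ)) + MT) + 3 * MQ) + 3 * MQ) + 3 * MQ) + 3 * MQ) + 3 * MQ) + 3 * MQ) + 3 * MQ) + 3 * MQ) + 3 * MQ) + 3 * MQ) + 3 * MQ) + 3 * MQ) + 3 * MQ) + 3 * MQ) + 3 * MQ) = 6 * MT + 105 * MQ := arith0 _ _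
  rw [eg, em] at y14
  exact y14

theorem arith2 {g0 G c0 D K : ℕ} (h2 : g0 ≤ c0) (hD : D + K = 2147483647) (h : G + (D + c0) < 2147483648) :
    g0 + G ≤ K := by omega

theorem arith3 {S0 S1 S2 S3 S4 S5 S6 g0 g1 g2 g3 g4 g5 g6 L s OF K : ℕ} (t0 : S0 ≤ s * g0 + OF)
    (t1 : S1 ≤ s * g1 + OF) (t2 : S2 ≤ s * g2 + OF) (t3 : S3 ≤ s * g3 + OF) (t4 : S4 ≤ s * g4 + OF)
    (t5 : S5 ≤ s * g5 + OF) (t6 : S6 ≤ s * g6 + OF)
    (k : s * (g0 + ((g1 + (g2 + (g3 + (g4 + (g5 + g6))))) + L)) ≤ s * K) :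
    S0 + (S1 + (S2 + (S3 + (S4 + (S5 + S6))))) + s * L ≤ s * K + 7 * OF := by
  simp only [Nat.mul_add] at k
  omega

theorem chk7_sound (hE : Sy E) (hK : NoK4 E) (s4 : sym4 q4 = true) (s2 : sym2 q2 = true)
    (h3 : Sym3 q3) {TR : ℕ → ℕ} {RW QF : ℕ → ℕ → ℕ} {MT MQ : ℕ}
    (hr : ∀ b012 b013 b023 b123 b014 b024 b124 b034 b134 b234 : ℕ, tg b012 b013 b023 b123 b014 b024 b124 b034 b134 b234 = 4 →
      TG E q4 q2 s OF MT (TR (cd10 b012 b013 b023 b123 b014 b024 b124 b034 b134 b234)) b012 b013 b023 b123 b014 b024 b124 b034 b134 b234)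
    (hR : RWok q3 RW MQ) (hQ : QFok q3 QF MQ) (hM : 7 * MT + 105 * MQ < 2 ^ 32) {D K : ℕ} (hs : 0 < s) (hD : D + K = 2147483647)
    (hM2 : 7 * MT + 105 * MQ + D < 2 ^ 32) (a b c d e f v : V)
    (h : chk7 TR RW QF D (E a b c) (E a b d) (E a c d) (E b c d) (E a b e) (E a c e) (E b c e) (E a d e) (E b d e) (E c d e) (E a b f) (E a c f) (E b c f) (E a d f) (E b d f) (E c d f) (E a e f) (E b e f) (E c e f) (E d e f) = true) :
    G7 E q4 q2 q3 s a b c d e f v ≤ s * K + 7 * OF := by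
  have h0 := TV_W hE hK s4 s2 hr a b c d e f
  have h1 := LL_W hE hK s4 s2 h3 hr hR hQ hM a b c d e f v
  set c0 := ln (TV TR (E a b c) (E a b d) (E a c d) (E b c d) (E a b e) (E a c e) (E b c e) (E a d e)
    (E b d e) (E c d e)) (cd10 (E a b f) (E a c f) (E b c f) (E a d f) (E b d f) (E c d f) (E a e f)
    (E b e f) (E c e f) (E d e f)) with hc0
  have h2 : gS E q4 q2 s OF a b c d e f ≤ c0 := by
    have := h0.lo
    rwa [idx_cd10 (hE.b _ _ _) (hE.b _ _ _) (hE.b _ _ _) (hE.b _ _ _) (hE.b _ _ _) (hE.b _ _ _)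
      (hE.b _ _ _) (hE.b _ _ _) (hE.b _ _ _) (hE.b _ _ _)] at this
  have h3' : c0 ≤ MT := h0.hi _
  have h4 := W.rep (n := 15) (c := D + c0) (by omega) [E a f v, E b f v, E c f v, E a c v, E b c v, E a d v, E b d v, E a e v, E b e v, E d e v, E a b v, E c d v, E e f v, E d f v, E c e v] rfl
  have h5 := W.add h1 h4 (by omega)
  have h6 := W.test h5 (Nat.eq_of_beq_eq_true h)
  have h7 := h6
  have key : gS E q4 q2 s OF a b c d e f + ((gS E q4 q2 s OF b c d e f v + (gS E q4 q2 s OF a c d e f v + (gS E q4 q2 s OF a b d e f v + (gS E q4 q2 s OF a b c e f v + (gS E q4 q2 s OF a b c d f v + (gS E q4 q2 s OF a b c d e v)))))) + L3 E q3 a b c d e f v) ≤ K :=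
    arith2 h2 hD h6
  have t0 := S6_le_gS (E := E) (q4 := q4) (q2 := q2) (OF := OF) hs a b c d e f

  have t1 := S6_le_gS (E := E) (q4 := q4) (q2 := q2) (OF := OF) hs b c d e f v
  have t2 := S6_le_gS (E := E) (q4 := q4) (q2 := q2) (OF := OF) hs a c d e f v
  have t3 := S6_le_gS (E := E) (q4 := q4) (q2 := q2) (OF := OF) hs a b d e f v
  have t4 := S6_le_gS (E := E) (q4 := q4) (q2 := q2) (OF := OF) hs a b c e f v
  have t5 := S6_le_gS (E := E) (q4 := q4) (q2 := q2) (OF := OF) hs a b c d f v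
  have t6 := S6_le_gS (E := E) (q4 := q4) (q2 := q2) (OF := OF) hs a b c d e v
  have k2 := Nat.mul_le_mul_left s key
  unfold G7
  exact arith3 t0 t1 t2 t3 t4 t5 t6 k2

end
end Pool.Agent.K3h90.T34
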