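import Pool.Agent.K3h90.T34.Leaf7

/-! The bound for the edge density. -/

set_option autoImplicit false
set_option maxRecDepth 100000
set_option maxHeartbeats 4000000
set_option linter.unusedVariables false

namespace Pool.Agent.K3h90.T34
open Pool.Agent.H122R2.N6 Pool.Agent.H37R3.Pen Pool.Agent.H37R3.Cop Pool.Agent.H37R3.CopL Pool.Agent.TH983.FC


open Finset

/-- the edge density of a 3-graph without a complete 3-graph on four vertices -/
theorem dens {V : Type} [Fintype V] {E : V → V → V → ℕ} (hE : Sy E) (hK : NoK4 E) :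
    56448000000 * (Fintype.card V : ℤ) ^ 4 * (∑ a, ∑ b, ∑ c, (E a b c : ℤ)) ≤ 31560461824 * (Fintype.card V : ℤ) ^ 7 := by
  have h4 := lower4' hE 7 q4 (fun c i k => l4 (rho c) (pc c i) k) ((16777216 : ℕ) : ℤ) ((2147483648 : ℕ) : ℤ)
    ((cO4 : ℕ) : ℤ) (by norm_num) hq4
  have h2 := lower2' hE 0 q2 l2 ((16777216 : ℕ) : ℤ) ((2147483648 : ℕ) : ℤ) ((cO2 : ℕ) : ℤ) ((tau : ℕ) : ℤ)
    (by norm_num) hq2
  have h3 := lower3 hE 37 q3 l3 ((4294967296 : ℕ) : ℤ) ((2147483648 : ℕ) : ℤ) ((cO3 : ℕ) : ℤ) (by norm_num) hq3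
  have h := bound7 hE q4 q2 q3 sc ((cO4 : ℕ) : ℤ) ((cO2 : ℕ) : ℤ) ((cO3 : ℕ) : ℤ) ((tau : ℕ) : ℤ) ((CC : ℕ) : ℤ)
    h4 h2 h3 (fun a b c d e f v => by exact_mod_cast leaf7 hE hK a b c d e f v)
  have e1 : ((tau : ℕ) : ℤ) = 44800000 := by unfold tau; norm_num
  have e2 : ((cO4 : ℕ) : ℤ) = 637254715 := by unfold cO4; norm_num
  have e3 : ((cO2 : ℕ) : ℤ) = 0 := by unfold cO2; norm_num
  have e4 : ((cO3 : ℕ) : ℤ) = 7218664 := by unfold cO3; norm_num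
  have e5 : ((CC : ℕ) : ℤ) = 292509895219 := by unfold CC sc KB OF; norm_num
  have e6 : ((sc : ℕ) : ℤ) = 256 := by unfold sc; norm_num
  rw [e1, e2, e3, e4, e5, e6] at h
  norm_num at h
  linarith

end Pool.Agent.K3h90.T34
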