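import Pool.Agent.H122R2.N6.Leaf

/-! Seven-vertex flags with three labelled vertices. -/

set_option autoImplicit false
set_option maxRecDepth 100000
set_option maxHeartbeats 4000000
open Finset

namespace Pool.Agent.K3h90.T34
open Pool.Agent.H122R2.N6

def cd3 (x y z : ℕ) : ℕ := Nat.add x (Nat.add (Nat.mul 2 y) (Nat.mul 4 z))

/-- the code of a pair of vertices at three labelled ones -/
def cd9 (x0 x1 x2 y0 y1 y2 s0 s1 s2 : ℕ) : ℕ :=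
  Nat.add (cd3 x0 x1 x2) (Nat.add (Nat.mul 8 (cd3 y0 y1 y2)) (Nat.mul 64 (cd3 s0 s1 s2)))

/-- invariance of a table -/
structure Sym3 (q3 : ℕ → ℕ → ℕ → ℕ) : Prop where
  s1 : ∀ t x0 x1 x2 y0 y1 y2 s0 s1 s2 z0 z1 z2 w0 w1 w2 r0 r1 r2 : ℕ, Bt t → Bt x0 → Bt x1 → Bt x2 → Bt y0 → Bt y1 → Bt y2 → Bt s0 → Bt s1 → Bt s2 → Bt z0 → Bt z1 → Bt z2 → Bt w0 → Bt w1 → Bt w2 → Bt r0 → Bt r1 → Bt r2 →
    q3 t (cd9 x0 x2 x1 y0 y2 y1 s1 s0 s2) (cd9 z0 z2 z1 w0 w2 w1 r1 r0 r2) = q3 t (cd9 x0 x1 x2 y0 y1 y2 s0 s1 s2) (cd9 z0 z1 z2 w0 w1 w2 r0 r1 r2)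
  s2 : ∀ t x0 x1 x2 y0 y1 y2 s0 s1 s2 z0 z1 z2 w0 w1 w2 r0 r1 r2 : ℕ, Bt t → Bt x0 → Bt x1 → Bt x2 → Bt y0 → Bt y1 → Bt y2 → Bt s0 → Bt s1 → Bt s2 → Bt z0 → Bt z1 → Bt z2 → Bt w0 → Bt w1 → Bt w2 → Bt r0 → Bt r1 → Bt r2 →
    q3 t (cd9 x1 x0 x2 y1 y0 y2 s0 s2 s1) (cd9 z1 z0 z2 w1 w0 w2 r0 r2 r1) = q3 t (cd9 x0 x1 x2 y0 y1 y2 s0 s1 s2) (cd9 z0 z1 z2 w0 w1 w2 r0 r1 r2)
  s3 : ∀ t x0 x1 x2 y0 y1 y2 s0 s1 s2 z0 z1 z2 w0 w1 w2 r0 r1 r2 : ℕ, Bt t → Bt x0 → Bt x1 → Bt x2 → Bt y0 → Bt y1 → Bt y2 → Bt s0 → Bt s1 → Bt s2 → Bt z0 → Bt z1 → Bt z2 → Bt w0 → Bt w1 → Bt w2 → Bt r0 → Bt r1 → Bt r2 →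
    q3 t (cd9 y0 y1 y2 x0 x1 x2 s0 s1 s2) (cd9 z0 z1 z2 w0 w1 w2 r0 r1 r2) = q3 t (cd9 x0 x1 x2 y0 y1 y2 s0 s1 s2) (cd9 z0 z1 z2 w0 w1 w2 r0 r1 r2)
  s4 : ∀ t x0 x1 x2 y0 y1 y2 s0 s1 s2 z0 z1 z2 w0 w1 w2 r0 r1 r2 : ℕ, Bt t → Bt x0 → Bt x1 → Bt x2 → Bt y0 → Bt y1 → Bt y2 → Bt s0 → Bt s1 → Bt s2 → Bt z0 → Bt z1 → Bt z2 → Bt w0 → Bt w1 → Bt w2 → Bt r0 → Bt r1 → Bt r2 →
    q3 t (cd9 z0 z1 z2 w0 w1 w2 r0 r1 r2) (cd9 x0 x1 x2 y0 y1 y2 s0 s1 s2) = q3 t (cd9 x0 x1 x2 y0 y1 y2 s0 s1 s2) (cd9 z0 z1 z2 w0 w1 w2 r0 r1 r2)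

section
variable {V : Type} (E : V → V → V → ℕ)

def F3 (q3 : ℕ → ℕ → ℕ → ℕ) (a b c x y z w : V) : ℕ :=
  q3 (E a b c)
    (cd9 (E a b x) (E a c x) (E b c x) (E a b y) (E a c y) (E b c y) (E a x y) (E b x y) (E c x y))
    (cd9 (E a b z) (E a c z) (E b c z) (E a b w) (E a c w) (E b c w) (E a z w) (E b z w) (E c z w))

/-- the four terms in which `v` is unlabelled and meets the four vertices `a b c z` -/
def P3 (q3 : ℕ → ℕ → ℕ → ℕ) (a b c z x y v : V) : ℕ :=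
  F3 E q3 a b c x y z v + (F3 E q3 a b z x y c v + (F3 E q3 a c z x y b v + F3 E q3 b c z x y a v))

/-- the three terms with labelled vertices `a b v` -/
def R3 (q3 : ℕ → ℕ → ℕ → ℕ) (a b x y z w v : V) : ℕ :=
  F3 E q3 a b v x y z w + (F3 E q3 a b v x z y w + F3 E q3 a b v x w z y)

/-- the six-vertex functional -/
def S6 (q4 : ℕ → ℕ → ℕ → ℕ) (q2 : ℕ → ℕ → ℕ) (a b c d e f : V) : ℕ :=
  L4 E q4 a b c d e f + L2 E q2 a b c d e f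

def L3 (q3 : ℕ → ℕ → ℕ → ℕ) (a b c d e f v : V) : ℕ :=
    P3 E q3 c d e f a b v +
    (R3 E q3 a b c d e f v +
    (P3 E q3 b d e f a c v +
    (R3 E q3 a c b d e f v +
    (P3 E q3 b c e f a d v +
    (R3 E q3 a d b c e f v +
    (P3 E q3 b c d f a e v +
    (R3 E q3 a e b c d f v +
    (P3 E q3 b c d e a f v +
    (R3 E q3 a f b c d e v +
    (P3 E q3 a d e f b c v +
    (R3 E q3 b c a d e f v +
    (P3 E q3 a c e f b d v +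
    (R3 E q3 b d a c e f v +
    (P3 E q3 a c d f b e v +
    (R3 E q3 b e a c d f v +
    (P3 E q3 a c d e b f v +
    (R3 E q3 b f a c d e v +
    (P3 E q3 a b e f c d v +
    (R3 E q3 c d a b e f v +
    (P3 E q3 a b d f c e v +
    (R3 E q3 c e a b d f v +
    (P3 E q3 a b d e c f v +
    (R3 E q3 c f a b d e v +
    (P3 E q3 a b c f d e v +
    (R3 E q3 d e a b c f v +
    (P3 E q3 a b c e d f v +
    (R3 E q3 d f a b c e v +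
    (P3 E q3 a b c d e f v +
    (R3 E q3 e f a b c d v)))))))))))))))))))))))))))))

/-- all terms but the six-vertex one without `v` -/
def G7 (q4 : ℕ → ℕ → ℕ → ℕ) (q2 : ℕ → ℕ → ℕ) (q3 : ℕ → ℕ → ℕ → ℕ) (s : ℕ) (a b c d e f v : V) : ℕ :=
  S6 E q4 q2 a b c d e f + (S6 E q4 q2 b c d e f v + (S6 E q4 q2 a c d e f v + (S6 E q4 q2 a b d e f v +
    (S6 E q4 q2 a b c e f v + (S6 E q4 q2 a b c d f v + S6 E q4 q2 a b c d e v))))) +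
    s * L3 E q3 a b c d e f v

variable {E} (hE : Sy E)
include hE

theorem L4_sw4 {q4 : ℕ → ℕ → ℕ → ℕ} (hs : sym4 q4 = true) (a b c d e f : V) :
    L4 E q4 a b c d f e = L4 E q4 a b c d e f := by
  unfold L4
  rw [F4_s4 hE hs a b c d e f, F4_s3 hE hs a b e f c d, F4_s3 hE hs a c e f b d, F4_s3 hE hs a d e f b c, F4_s3 hE hs b c e f a d, F4_s3 hE hs b d e f a c, F4_s3 hE hs c d e f a b]
  ring

theorem L2_sw4 {q2 : ℕ → ℕ → ℕ} (hs : sym2 q2 = true) (a b c d e f : V) :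
    L2 E q2 a b c d f e = L2 E q2 a b c d e f := by
  unfold L2
  rw [F2_s4 hE hs a b c d e f, F2_s4 hE hs a c b d e f, F2_s4 hE hs a d b c e f, F2_s4 hE hs b c a d e f, F2_s4 hE hs b d a c e f, F2_s4 hE hs c d a b e f, F2_s1 hE hs e f a b c d, F2_s1 hE hs e f a c b d, F2_s1 hE hs e f a d b c]
  ring

theorem S6_sw0 {q4 : ℕ → ℕ → ℕ → ℕ} {q2 : ℕ → ℕ → ℕ} (h4 : sym4 q4 = true) (h2 : sym2 q2 = true)
    (a b c d e f : V) : S6 E q4 q2 b a c d e f = S6 E q4 q2 a b c d e f := by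
  unfold S6
  rw [L4_sw0 hE h4, L2_sw0 hE h2]

theorem S6_sw1 {q4 : ℕ → ℕ → ℕ → ℕ} {q2 : ℕ → ℕ → ℕ} (h4 : sym4 q4 = true) (h2 : sym2 q2 = true)
    (a b c d e f : V) : S6 E q4 q2 a c b d e f = S6 E q4 q2 a b c d e f := by
  unfold S6
  rw [L4_sw1 hE h4, L2_sw1 hE h2]

theorem S6_sw2 {q4 : ℕ → ℕ → ℕ → ℕ} {q2 : ℕ → ℕ → ℕ} (h4 : sym4 q4 = true) (h2 : sym2 q2 = true)
    (a b c d e f : V) : S6 E q4 q2 a b d c e f = S6 E q4 q2 a b c d e f := by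
  unfold S6
  rw [L4_sw2 hE h4, L2_sw2 hE h2]

theorem S6_sw3 {q4 : ℕ → ℕ → ℕ → ℕ} {q2 : ℕ → ℕ → ℕ} (h4 : sym4 q4 = true) (h2 : sym2 q2 = true)
    (a b c d e f : V) : S6 E q4 q2 a b c e d f = S6 E q4 q2 a b c d e f := by
  unfold S6
  rw [L4_sw3 hE h4, L2_sw3 hE h2]

theorem S6_sw4 {q4 : ℕ → ℕ → ℕ → ℕ} {q2 : ℕ → ℕ → ℕ} (h4 : sym4 q4 = true) (h2 : sym2 q2 = true)
    (a b c d e f : V) : S6 E q4 q2 a b c d f e = S6 E q4 q2 a b c d e f := by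
  unfold S6
  rw [L4_sw4 hE h4, L2_sw4 hE h2]

variable {q3 : ℕ → ℕ → ℕ → ℕ} (hs : Sym3 q3)
include hs

theorem F3_s1 (a b c x y z w : V) : F3 E q3 b a c x y z w = F3 E q3 a b c x y z w := by
  have h := hs.s1 (E a b c) (E a b x) (E a c x) (E b c x) (E a b y) (E a c y) (E b c y) (E a x y) (E b x y) (E c x y)
    (E a b z) (E a c z) (E b c z) (E a b w) (E a c w) (E b c w) (E a z w) (E b z w) (E c z w)
    (hE.b _ _ _) (hE.b _ _ _) (hE.b _ _ _) (hE.b _ _ _) (hE.b _ _ _) (hE.b _ _ _) (hE.b _ _ _) (hE.b _ _ _) (hE.b _ _ _) (hE.b _ _ _) (hE.b _ _ _) (hE.b _ _ _) (hE.b _ _ _) (hE.b _ _ _) (hE.b _ _ _) (hE.b _ _ _) (hE.b _ _ _) (hE.b _ _ _) (hE.b _ _ _) 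
  unfold F3
  rw [← h, hE.h213 a b c, hE.h213 a b x, hE.h213 a b y, hE.h213 a b z, hE.h213 a b w]

theorem F3_s2 (a b c x y z w : V) : F3 E q3 a c b x y z w = F3 E q3 a b c x y z w := by
  have h := hs.s2 (E a b c) (E a b x) (E a c x) (E b c x) (E a b y) (E a c y) (E b c y) (E a x y) (E b x y) (E c x y)
    (E a b z) (E a c z) (E b c z) (E a b w) (E a c w) (E b c w) (E a z w) (E b z w) (E c z w)
    (hE.b _ _ _) (hE.b _ _ _) (hE.b _ _ _) (hE.b _ _ _) (hE.b _ _ _) (hE.b _ _ _) (hE.b _ _ _) (hE.b _ _ _) (hE.b _ _ _) (hE.b _ _ _) (hE.b _ _ _) (hE.b _ _ _) (hE.b _ _ _) (hE.b _ _ _) (hE.b _ _ _) (hE.b _ _ _) (hE.b _ _ _) (hE.b _ _ _) (hE.b _ _ _) 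
  unfold F3
  rw [← h, hE.h132 a b c, hE.h213 b c x, hE.h213 b c y, hE.h213 b c z, hE.h213 b c w]

theorem F3_s3 (a b c x y z w : V) : F3 E q3 a b c y x z w = F3 E q3 a b c x y z w := by
  have h := hs.s3 (E a b c) (E a b x) (E a c x) (E b c x) (E a b y) (E a c y) (E b c y) (E a x y) (E b x y) (E c x y)
    (E a b z) (E a c z) (E b c z) (E a b w) (E a c w) (E b c w) (E a z w) (E b z w) (E c z w)
    (hE.b _ _ _) (hE.b _ _ _) (hE.b _ _ _) (hE.b _ _ _) (hE.b _ _ _) (hE.b _ _ _) (hE.b _ _ _) (hE.b _ _ _) (hE.b _ _ _) (hE.b _ _ _) (hE.b _ _ _) (hE.b _ _ _) (hE.b _ _ _) (hE.b _ _ _) (hE.b _ _ _) (hE.b _ _ _) (hE.b _ _ _) (hE.b _ _ _) (hE.b _ _ _) 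
  unfold F3
  rw [← h, hE.h132 a x y, hE.h132 b x y, hE.h132 c x y]

theorem F3_s4 (a b c x y z w : V) : F3 E q3 a b c z w x y = F3 E q3 a b c x y z w := by
  have h := hs.s4 (E a b c) (E a b x) (E a c x) (E b c x) (E a b y) (E a c y) (E b c y) (E a x y) (E b x y) (E c x y)
    (E a b z) (E a c z) (E b c z) (E a b w) (E a c w) (E b c w) (E a z w) (E b z w) (E c z w)
    (hE.b _ _ _) (hE.b _ _ _) (hE.b _ _ _) (hE.b _ _ _) (hE.b _ _ _) (hE.b _ _ _) (hE.b _ _ _) (hE.b _ _ _) (hE.b _ _ _) (hE.b _ _ _) (hE.b _ _ _) (hE.b _ _ _) (hE.b _ _ _) (hE.b _ _ _) (hE.b _ _ _) (hE.b _ _ _) (hE.b _ _ _) (hE.b _ _ _) (hE.b _ _ _) 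
  unfold F3
  rw [← h]

theorem F3_s5 (a b c x y z w : V) : F3 E q3 a b c x y w z = F3 E q3 a b c x y z w := by
  rw [← F3_s4 hE hs a b c x y w z, F3_s3 hE hs a b c z w x y, F3_s4 hE hs a b c x y z w]

theorem P3_s0 (a b c z x y v : V) : P3 E q3 b a c z x y v = P3 E q3 a b c z x y v := by
  unfold P3
  rw [F3_s1 hE hs a b c x y z v, F3_s1 hE hs a b z x y c v]
  ring

theorem P3_s1 (a b c z x y v : V) : P3 E q3 a c b z x y v = P3 E q3 a b c z x y v := by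
  unfold P3
  rw [F3_s2 hE hs a b c x y z v, F3_s1 hE hs b c z x y a v]
  ring

theorem P3_s2 (a b c z x y v : V) : P3 E q3 a b z c x y v = P3 E q3 a b c z x y v := by
  unfold P3
  rw [F3_s2 hE hs a c z x y b v, F3_s2 hE hs b c z x y a v]
  ring

theorem P3_s4 (a b c z x y v : V) : P3 E q3 a b c z y x v = P3 E q3 a b c z x y v := by
  unfold P3
  rw [F3_s3 hE hs a b c x y z v, F3_s3 hE hs a b z x y c v, F3_s3 hE hs a c z x y b v,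
    F3_s3 hE hs b c z x y a v]

theorem R3_s0 (a b x y z w v : V) : R3 E q3 b a x y z w v = R3 E q3 a b x y z w v := by
  unfold R3
  rw [F3_s1 hE hs a b v x y z w, F3_s1 hE hs a b v x z y w, F3_s1 hE hs a b v x w z y]

theorem R3_s2 (a b x y z w v : V) : R3 E q3 a b y x z w v = R3 E q3 a b x y z w v := by
  unfold R3
  rw [F3_s3 hE hs a b v x y z w, ← F3_s4 hE hs a b v y z x w, ← F3_s5 hE hs a b v x w y z,
    ← F3_s4 hE hs a b v y w z x, F3_s3 hE hs a b v x z y w]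
  ring

theorem R3_s3 (a b x y z w v : V) : R3 E q3 a b x z y w v = R3 E q3 a b x y z w v := by
  unfold R3
  rw [F3_s5 hE hs a b v x w z y]
  ring

theorem R3_s4 (a b x y z w v : V) : R3 E q3 a b x y w z v = R3 E q3 a b x y z w v := by
  unfold R3
  rw [F3_s5 hE hs a b v x y z w, F3_s5 hE hs a b v x w z y, F3_s5 hE hs a b v x z y w]
  ring

theorem L3_sw0 (a b c d e f v : V) : L3 E q3 b a c d e f v = L3 E q3 a b c d e f v := by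
  unfold L3
  rw [P3_s4 hE hs c d e f a b v, R3_s0 hE hs a b c d e f v, P3_s0 hE hs a b e f c d v, R3_s2 hE hs c d a b e f v, P3_s0 hE hs a b d f c e v, R3_s2 hE hs c e a b d f v, P3_s0 hE hs a b d e c f v, R3_s2 hE hs c f a b d e v, P3_s0 hE hs a b c f d e v, R3_s2 hE hs d e a b c f v, P3_s0 hE hs a b c e d f v, R3_s2 hE hs d f a b c e v, P3_s0 hE hs a b c d e f v, R3_s2 hE hs e f a b c d v]
  ring

theorem L3_sw1 (a b c d e f v : V) : L3 E q3 a c b d e f v = L3 E q3 a b c d e f v := by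
  unfold L3
  rw [P3_s0 hE hs b c e f a d v, R3_s2 hE hs a d b c e f v, P3_s0 hE hs b c d f a e v, R3_s2 hE hs a e b c d f v, P3_s0 hE hs b c d e a f v, R3_s2 hE hs a f b c d e v, P3_s4 hE hs a d e f b c v, R3_s0 hE hs b c a d e f v, P3_s1 hE hs a b c f d e v, R3_s3 hE hs d e a b c f v, P3_s1 hE hs a b c e d f v, R3_s3 hE hs d f a b c e v, P3_s1 hE hs a b c d e f v, R3_s3 hE hs e f a b c d v]
  ring

theorem L3_sw2 (a b c d e f v : V) : L3 E q3 a b d c e f v = L3 E q3 a b c d e f v := by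
  unfold L3
  rw [P3_s0 hE hs c d e f a b v, R3_s2 hE hs a b c d e f v, P3_s1 hE hs b c d f a e v, R3_s3 hE hs a e b c d f v, P3_s1 hE hs b c d e a f v, R3_s3 hE hs a f b c d e v, P3_s1 hE hs a c d f b e v, R3_s3 hE hs b e a c d f v, P3_s1 hE hs a c d e b f v, R3_s3 hE hs b f a c d e v, P3_s4 hE hs a b e f c d v, R3_s0 hE hs c d a b e f v, P3_s2 hE hs a b c d e f v, R3_s4 hE hs e f a b c d v]
  ring

theorem L3_sw3 (a b c d e f v : V) : L3 E q3 a b c e d f v = L3 E q3 a b c d e f v := by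
  unfold L3
  rw [P3_s1 hE hs c d e f a b v, R3_s3 hE hs a b c d e f v, P3_s1 hE hs b d e f a c v, R3_s3 hE hs a c b d e f v, P3_s2 hE hs b c d e a f v, R3_s4 hE hs a f b c d e v, P3_s1 hE hs a d e f b c v, R3_s3 hE hs b c a d e f v, P3_s2 hE hs a c d e b f v, R3_s4 hE hs b f a c d e v, P3_s2 hE hs a b d e c f v, R3_s4 hE hs c f a b d e v, P3_s4 hE hs a b c f d e v, R3_s0 hE hs d e a b c f v]
  ring

theorem L3_sw4 (a b c d e f v : V) : L3 E q3 a b c d f e v = L3 E q3 a b c d e f v := by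
  unfold L3
  rw [P3_s2 hE hs c d e f a b v, R3_s4 hE hs a b c d e f v, P3_s2 hE hs b d e f a c v, R3_s4 hE hs a c b d e f v, P3_s2 hE hs b c e f a d v, R3_s4 hE hs a d b c e f v, P3_s2 hE hs a d e f b c v, R3_s4 hE hs b c a d e f v, P3_s2 hE hs a c e f b d v, R3_s4 hE hs b d a c e f v, P3_s2 hE hs a b e f c d v, R3_s4 hE hs c d a b e f v, P3_s4 hE hs a b c d e f v, R3_s0 hE hs e f a b c d v]
  ring

theorem G7_sw0 {q4 : ℕ → ℕ → ℕ → ℕ} {q2 : ℕ → ℕ → ℕ} (h4 : sym4 q4 = true) (h2 : sym2 q2 = true) (s : ℕ) (a b c d e f v : V) : G7 E q4 q2 q3 s b a c d e f v = G7 E q4 q2 q3 s a b c d e f v := by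
  unfold G7
  rw [S6_sw0 hE h4 h2 a b c d e f, S6_sw0 hE h4 h2 a b d e f v, S6_sw0 hE h4 h2 a b c e f v, S6_sw0 hE h4 h2 a b c d f v, S6_sw0 hE h4 h2 a b c d e v, L3_sw0 hE hs a b c d e f v]
  ring

theorem G7_sw1 {q4 : ℕ → ℕ → ℕ → ℕ} {q2 : ℕ → ℕ → ℕ} (h4 : sym4 q4 = true) (h2 : sym2 q2 = true) (s : ℕ) (a b c d e f v : V) : G7 E q4 q2 q3 s a c b d e f v = G7 E q4 q2 q3 s a b c d e f v := by
  unfold G7
  rw [S6_sw1 hE h4 h2 a b c d e f, S6_sw0 hE h4 h2 b c d e f v, S6_sw1 hE h4 h2 a b c e f v, S6_sw1 hE h4 h2 a b c d f v, S6_sw1 hE h4 h2 a b c d e v, L3_sw1 hE hs a b c d e f v]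
  ring

theorem G7_sw2 {q4 : ℕ → ℕ → ℕ → ℕ} {q2 : ℕ → ℕ → ℕ} (h4 : sym4 q4 = true) (h2 : sym2 q2 = true) (s : ℕ) (a b c d e f v : V) : G7 E q4 q2 q3 s a b d c e f v = G7 E q4 q2 q3 s a b c d e f v := by
  unfold G7
  rw [S6_sw2 hE h4 h2 a b c d e f, S6_sw1 hE h4 h2 b c d e f v, S6_sw1 hE h4 h2 a c d e f v, S6_sw2 hE h4 h2 a b c d f v, S6_sw2 hE h4 h2 a b c d e v, L3_sw2 hE hs a b c d e f v]
  ring

theorem G7_sw3 {q4 : ℕ → ℕ → ℕ → ℕ} {q2 : ℕ → ℕ → ℕ} (h4 : sym4 q4 = true) (h2 : sym2 q2 = true) (s : ℕ) (a b c d e f v : V) : G7 E q4 q2 q3 s a b c e d f v = G7 E q4 q2 q3 s a b c d e f v := by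
  unfold G7
  rw [S6_sw3 hE h4 h2 a b c d e f, S6_sw2 hE h4 h2 b c d e f v, S6_sw2 hE h4 h2 a c d e f v, S6_sw2 hE h4 h2 a b d e f v, S6_sw3 hE h4 h2 a b c d e v, L3_sw3 hE hs a b c d e f v]
  ring

theorem G7_sw4 {q4 : ℕ → ℕ → ℕ → ℕ} {q2 : ℕ → ℕ → ℕ} (h4 : sym4 q4 = true) (h2 : sym2 q2 = true) (s : ℕ) (a b c d e f v : V) : G7 E q4 q2 q3 s a b c d f e v = G7 E q4 q2 q3 s a b c d e f v := by
  unfold G7
  rw [S6_sw4 hE h4 h2 a b c d e f, S6_sw3 hE h4 h2 b c d e f v, S6_sw3 hE h4 h2 a c d e f v, S6_sw3 hE h4 h2 a b d e f v, S6_sw3 hE h4 h2 a b c e f v, L3_sw4 hE hs a b c d e f v]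
  ring

end
end Pool.Agent.K3h90.T34
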