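import Pool.Agent.K3h90.T34.RedC

/-! Reduction to representatives. -/

set_option autoImplicit false
set_option maxRecDepth 100000
set_option maxHeartbeats 4000000
set_option linter.unusedVariables false

namespace Pool.Agent.K3h90.T34
open Pool.Agent.H122R2.N6 Pool.Agent.H37R3.Pen Pool.Agent.H37R3.Cop Pool.Agent.H37R3.CopL Pool.Agent.TH983.FC


/-- the seven-vertex inequality holds for all copies of a five-vertex structure -/
def G5 {V : Type} (E : V → V → V → ℕ) (q4 : ℕ → ℕ → ℕ → ℕ) (q2 : ℕ → ℕ → ℕ) (q3 : ℕ → ℕ → ℕ → ℕ) (s C : ℕ)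
    (b012 b013 b023 b123 b014 b024 b124 b034 b134 b234 : ℕ) : Prop :=
  ∀ a b c d e f v : V, E a b c = b012 → E a b d = b013 → E a c d = b023 → E b c d = b123 → E a b e = b014 → E a c e = b024 → E b c e = b124 → E a d e = b034 → E b d e = b134 → E c d e = b234 →
    G7 E q4 q2 q3 s a b c d e f v ≤ C

section
variable {V : Type} {E : V → V → V → ℕ} {q4 : ℕ → ℕ → ℕ → ℕ} {q2 : ℕ → ℕ → ℕ} {q3 : ℕ → ℕ → ℕ → ℕ} {s C : ℕ}

theorem G5_sw0 (hE : Sy E) (s3 : Sym3 q3) (s4 : sym4 q4 = true) (s2 : sym2 q2 = true) {b012 b013 b023 b123 b014 b024 b124 b034 b134 b234 : ℕ}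
    (h : G5 E q4 q2 q3 s C b012 b013 b123 b023 b014 b124 b024 b134 b034 b234) : G5 E q4 q2 q3 s C b012 b013 b023 b123 b014 b024 b124 b034 b134 b234 := by
  intro a b c d e f v h0 h1 h2 h3 h4 h5 h6 h7 h8 h9
  have h' := h b a c d e f v ((hE.h213 _ _ _).trans h0) ((hE.h213 _ _ _).trans h1) h3 h2 ((hE.h213 _ _ _).trans h4) h6 h5 h8 h7 h9
  rwa [G7_sw0 hE s3 s4 s2] at h'

theorem G5_sw1 (hE : Sy E) (s3 : Sym3 q3) (s4 : sym4 q4 = true) (s2 : sym2 q2 = true) {b012 b013 b023 b123 b014 b024 b124 b034 b134 b234 : ℕ}
    (h : G5 E q4 q2 q3 s C b012 b023 b013 b123 b024 b014 b124 b034 b234 b134) : G5 E q4 q2 q3 s C b012 b013 b023 b123 b014 b024 b124 b034 b134 b234 := by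
  intro a b c d e f v h0 h1 h2 h3 h4 h5 h6 h7 h8 h9
  have h' := h a c b d e f v ((hE.h132 _ _ _).trans h0) h2 h1 ((hE.h213 _ _ _).trans h3) h5 h4 ((hE.h213 _ _ _).trans h6) h7 h9 h8
  rwa [G7_sw1 hE s3 s4 s2] at h'

theorem G5_sw2 (hE : Sy E) (s3 : Sym3 q3) (s4 : sym4 q4 = true) (s2 : sym2 q2 = true) {b012 b013 b023 b123 b014 b024 b124 b034 b134 b234 : ℕ}
    (h : G5 E q4 q2 q3 s C b013 b012 b023 b123 b014 b034 b134 b024 b124 b234) : G5 E q4 q2 q3 s C b012 b013 b023 b123 b014 b024 b124 b034 b134 b234 := by
  intro a b c d e f v h0 h1 h2 h3 h4 h5 h6 h7 h8 h9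
  have h' := h a b d c e f v h1 h0 ((hE.h132 _ _ _).trans h2) ((hE.h132 _ _ _).trans h3) h4 h7 h8 h5 h6 ((hE.h213 _ _ _).trans h9)
  rwa [G7_sw2 hE s3 s4 s2] at h'

theorem G5_sw3 (hE : Sy E) (s3 : Sym3 q3) (s4 : sym4 q4 = true) (s2 : sym2 q2 = true) {b012 b013 b023 b123 b014 b024 b124 b034 b134 b234 : ℕ}
    (h : G5 E q4 q2 q3 s C b012 b014 b024 b124 b013 b023 b123 b034 b134 b234) : G5 E q4 q2 q3 s C b012 b013 b023 b123 b014 b024 b124 b034 b134 b234 := by
  intro a b c d e f v h0 h1 h2 h3 h4 h5 h6 h7 h8 h9
  have h' := h a b c e d f v h0 h4 h5 h6 h1 h2 h3 ((hE.h132 _ _ _).trans h7) ((hE.h132 _ _ _).trans h8) ((hE.h132 _ _ _).trans h9)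
  rwa [G7_sw3 hE s3 s4 s2] at h'

theorem walk_G5 (hE : Sy E) (s3 : Sym3 q3) (s4 : sym4 q4 = true) (s2 : sym2 q2 = true)
    (hr : ∀ b012 b013 b023 b123 b014 b024 b124 b034 b134 b234 : ℕ, tg b012 b013 b023 b123 b014 b024 b124 b034 b134 b234 = 4 → G5 E q4 q2 q3 s C b012 b013 b023 b123 b014 b024 b124 b034 b134 b234) (n : ℕ) :
    ∀ b012 b013 b023 b123 b014 b024 b124 b034 b134 b234 : ℕ, walk n b012 b013 b023 b123 b014 b024 b124 b034 b134 b234 = true → G5 E q4 q2 q3 s C b012 b013 b023 b123 b014 b024 b124 b034 b134 b234 := by
  induction n with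
  | zero =>
    intro b012 b013 b023 b123 b014 b024 b124 b034 b134 b234 h
    exact hr _ _ _ _ _ _ _ _ _ _ (Nat.eq_of_beq_eq_true h)
  | succ n ih =>
    intro b012 b013 b023 b123 b014 b024 b124 b034 b134 b234 h
    change (cond (Nat.beq (tg b012 b013 b023 b123 b014 b024 b124 b034 b134 b234) 4) true
      (cond (Nat.beq (tg b012 b013 b023 b123 b014 b024 b124 b034 b134 b234) 0) (walk n b012 b013 b123 b023 b014 b124 b024 b134 b034 b234)
      (cond (Nat.beq (tg b012 b013 b023 b123 b014 b024 b124 b034 b134 b234) 1) (walk n b012 b023 b013 b123 b024 b014 b124 b034 b234 b134)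
      (cond (Nat.beq (tg b012 b013 b023 b123 b014 b024 b124 b034 b134 b234) 2) (walk n b013 b012 b023 b123 b014 b034 b134 b024 b124 b234)
      (cond (Nat.beq (tg b012 b013 b023 b123 b014 b024 b124 b034 b134 b234) 3) (walk n b012 b014 b024 b124 b013 b023 b123 b034 b134 b234) false))))) = true at h
    cases c4 : Nat.beq (tg b012 b013 b023 b123 b014 b024 b124 b034 b134 b234) 4 with
    | true => exact hr _ _ _ _ _ _ _ _ _ _ (Nat.eq_of_beq_eq_true c4)
    | false =>
    rw [c4] at h
    cases c0 : Nat.beq (tg b012 b013 b023 b123 b014 b024 b124 b034 b134 b234) 0 with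
    | true => rw [c0] at h; exact G5_sw0 hE s3 s4 s2 (ih _ _ _ _ _ _ _ _ _ _ h)
    | false =>
    rw [c0] at h
    cases c1 : Nat.beq (tg b012 b013 b023 b123 b014 b024 b124 b034 b134 b234) 1 with
    | true => rw [c1] at h; exact G5_sw1 hE s3 s4 s2 (ih _ _ _ _ _ _ _ _ _ _ h)
    | false =>
    rw [c1] at h
    cases c2 : Nat.beq (tg b012 b013 b023 b123 b014 b024 b124 b034 b134 b234) 2 with
    | true => rw [c2] at h; exact G5_sw2 hE s3 s4 s2 (ih _ _ _ _ _ _ _ _ _ _ h)
    | false =>
    rw [c2] at h
    cases c3 : Nat.beq (tg b012 b013 b023 b123 b014 b024 b124 b034 b134 b234) 3 with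
    | true => rw [c3] at h; exact G5_sw3 hE s3 s4 s2 (ih _ _ _ _ _ _ _ _ _ _ h)
    | false => rw [c3] at h; simp at h

end

/-- the number with the given binary digits -/
def mkl : List ℕ → ℕ
  | [] => 0
  | b :: l => b + 2 * mkl l

theorem bt_mkl : ∀ (l : List ℕ) (i : ℕ), (∀ b ∈ l, Bt b) → i < l.length → bt (mkl l) i = l.getD i 0
  | [], i, _, hi => by simp at hi
  | b :: l, 0, h, _ => by
    have hb := h b (by simp)
    change (b + 2 * mkl l) >>> 0 % 2 = b
    rw [Nat.shiftRight_zero]
    rcases hb with rfl | rfl <;> omega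
  | b :: l, i + 1, h, hi => by
    have ih := bt_mkl l i (fun c hc => h c (by simp [hc])) (by simpa using hi)
    have hb := h b (by simp)
    change (b + 2 * mkl l) >>> (i + 1) % 2 = l.getD i 0
    rw [Nat.add_comm i 1, Nat.shiftRight_add]
    have e : (b + 2 * mkl l) >>> 1 = mkl l := by
      rw [Nat.shiftRight_eq_div_pow]
      rcases hb with rfl | rfl <;> omega
    rw [e]
    exact ih

theorem mk20_eq (b012 b013 b023 b123 b014 b024 b124 b034 b134 b234 b015 b025 b125 b035 b135 b235 b045 b145 b245 b345 : ℕ) : mk20 b012 b013 b023 b123 b014 b024 b124 b034 b134 b234 b015 b025 b125 b035 b135 b235 b045 b145 b245 b345 = mkl [b012, b013, b023, b123, b014, b024, b124, b034, b134, b234, b015, b025, b125, b035, b135, b235, b045, b145, b245, b345] := rfl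

section
variable {V : Type} {E : V → V → V → ℕ}

theorem copy_mk20 (hE : Sy E) (a b c d e f : V) : Copy E (mk20 (E a b c) (E a b d) (E a c d) (E b c d) (E a b e) (E a c e) (E b c e) (E a d e) (E b d e) (E c d e) (E a b f) (E a c f) (E b c f) (E a d f) (E b d f) (E c d f) (E a e f) (E b e f) (E c e f) (E d e f)) ![a, b, c, d, e, f] := by
  have hB : ∀ x ∈ [E a b c, E a b d, E a c d, E b c d, E a b e, E a c e, E b c e, E a d e, E b d e, E c d e, E a b f, E a c f, E b c f, E a d f, E b d f, E c d f, E a e f, E b e f, E c e f, E d e f], Bt x := by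
    intro x hx
    simp only [List.mem_cons, List.not_mem_nil, or_false] at hx
    rcases hx with rfl | rfl | rfl | rfl | rfl | rfl | rfl | rfl | rfl | rfl | rfl | rfl | rfl | rfl | rfl | rfl | rfl | rfl | rfl | rfl <;> exact hE.b _ _ _
  have key : ∀ i, i < 20 → bt (mk20 (E a b c) (E a b d) (E a c d) (E b c d) (E a b e) (E a c e) (E b c e) (E a d e) (E b d e) (E c d e) (E a b f) (E a c f) (E b c f) (E a d f) (E b d f) (E c d f) (E a e f) (E b e f) (E c e f) (E d e f)) i = [E a b c, E a b d, E a c d, E b c d, E a b e, E a c e, E b c e, E a d e, E b d e, E c d e, E a b f, E a c f, E b c f, E a d f, E b d f, E c d f, E a e f, E b e f, E c e f, E d e f].getD i 0 :=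
    fun i hi => (congrArg (fun m => bt m i) (mk20_eq _ _ _ _ _ _ _ _ _ _ _ _ _ _ _ _ _ _ _ _)).trans
      (bt_mkl _ i hB hi)
  have e0 : E a b c = bt (mk20 (E a b c) (E a b d) (E a c d) (E b c d) (E a b e) (E a c e) (E b c e) (E a d e) (E b d e) (E c d e) (E a b f) (E a c f) (E b c f) (E a d f) (E b d f) (E c d f) (E a e f) (E b e f) (E c e f) (E d e f)) 0 := (key 0 (by norm_num)).symm
  have e1 : E a b d = bt (mk20 (E a b c) (E a b d) (E a c d) (E b c d) (E a b e) (E a c e) (E b c e) (E a d e) (E b d e) (E c d e) (E a b f) (E a c f) (E b c f) (E a d f) (E b d f) (E c d f) (E a e f) (E b e f) (E c e f) (E d e f)) 1 := (key 1 (by norm_num)).symm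
  have e2 : E a c d = bt (mk20 (E a b c) (E a b d) (E a c d) (E b c d) (E a b e) (E a c e) (E b c e) (E a d e) (E b d e) (E c d e) (E a b f) (E a c f) (E b c f) (E a d f) (E b d f) (E c d f) (E a e f) (E b e f) (E c e f) (E d e f)) 2 := (key 2 (by norm_num)).symm
  have e3 : E b c d = bt (mk20 (E a b c) (E a b d) (E a c d) (E b c d) (E a b e) (E a c e) (E b c e) (E a d e) (E b d e) (E c d e) (E a b f) (E a c f) (E b c f) (E a d f) (E b d f) (E c d f) (E a e f) (E b e f) (E c e f) (E d e f)) 3 := (key 3 (by norm_num)).symm
  have e4 : E a b e = bt (mk20 (E a b c) (E a b d) (E a c d) (E b c d) (E a b e) (E a c e) (E b c e) (E a d e) (E b d e) (E c d e) (E a b f) (E a c f) (E b c f) (E a d f) (E b d f) (E c d f) (E a e f) (E b e f) (E c e f) (E d e f)) 4 := (key 4 (by norm_num)).symm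
  have e5 : E a c e = bt (mk20 (E a b c) (E a b d) (E a c d) (E b c d) (E a b e) (E a c e) (E b c e) (E a d e) (E b d e) (E c d e) (E a b f) (E a c f) (E b c f) (E a d f) (E b d f) (E c d f) (E a e f) (E b e f) (E c e f) (E d e f)) 5 := (key 5 (by norm_num)).symm
  have e6 : E b c e = bt (mk20 (E a b c) (E a b d) (E a c d) (E b c d) (E a b e) (E a c e) (E b c e) (E a d e) (E b d e) (E c d e) (E a b f) (E a c f) (E b c f) (E a d f) (E b d f) (E c d f) (E a e f) (E b e f) (E c e f) (E d e f)) 6 := (key 6 (by norm_num)).symm
  have e7 : E a d e = bt (mk20 (E a b c) (E a b d) (E a c d) (E b c d) (E a b e) (E a c e) (E b c e) (E a d e) (E b d e) (E c d e) (E a b f) (E a c f) (E b c f) (E a d f) (E b d f) (E c d f) (E a e f) (E b e f) (E c e f) (E d e f)) 7 := (key 7 (by norm_num)).symm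
  have e8 : E b d e = bt (mk20 (E a b c) (E a b d) (E a c d) (E b c d) (E a b e) (E a c e) (E b c e) (E a d e) (E b d e) (E c d e) (E a b f) (E a c f) (E b c f) (E a d f) (E b d f) (E c d f) (E a e f) (E b e f) (E c e f) (E d e f)) 8 := (key 8 (by norm_num)).symm
  have e9 : E c d e = bt (mk20 (E a b c) (E a b d) (E a c d) (E b c d) (E a b e) (E a c e) (E b c e) (E a d e) (E b d e) (E c d e) (E a b f) (E a c f) (E b c f) (E a d f) (E b d f) (E c d f) (E a e f) (E b e f) (E c e f) (E d e f)) 9 := (key 9 (by norm_num)).symm
  have e10 : E a b f = bt (mk20 (E a b c) (E a b d) (E a c d) (E b c d) (E a b e) (E a c e) (E b c e) (E a d e) (E b d e) (E c d e) (E a b f) (E a c f) (E b c f) (E a d f) (E b d f) (E c d f) (E a e f) (E b e f) (E c e f) (E d e f)) 10 := (key 10 (by norm_num)).symm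
  have e11 : E a c f = bt (mk20 (E a b c) (E a b d) (E a c d) (E b c d) (E a b e) (E a c e) (E b c e) (E a d e) (E b d e) (E c d e) (E a b f) (E a c f) (E b c f) (E a d f) (E b d f) (E c d f) (E a e f) (E b e f) (E c e f) (E d e f)) 11 := (key 11 (by norm_num)).symm
  have e12 : E b c f = bt (mk20 (E a b c) (E a b d) (E a c d) (E b c d) (E a b e) (E a c e) (E b c e) (E a d e) (E b d e) (E c d e) (E a b f) (E a c f) (E b c f) (E a d f) (E b d f) (E c d f) (E a e f) (E b e f) (E c e f) (E d e f)) 12 := (key 12 (by norm_num)).symm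
  have e13 : E a d f = bt (mk20 (E a b c) (E a b d) (E a c d) (E b c d) (E a b e) (E a c e) (E b c e) (E a d e) (E b d e) (E c d e) (E a b f) (E a c f) (E b c f) (E a d f) (E b d f) (E c d f) (E a e f) (E b e f) (E c e f) (E d e f)) 13 := (key 13 (by norm_num)).symm
  have e14 : E b d f = bt (mk20 (E a b c) (E a b d) (E a c d) (E b c d) (E a b e) (E a c e) (E b c e) (E a d e) (E b d e) (E c d e) (E a b f) (E a c f) (E b c f) (E a d f) (E b d f) (E c d f) (E a e f) (E b e f) (E c e f) (E d e f)) 14 := (key 14 (by norm_num)).symm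
  have e15 : E c d f = bt (mk20 (E a b c) (E a b d) (E a c d) (E b c d) (E a b e) (E a c e) (E b c e) (E a d e) (E b d e) (E c d e) (E a b f) (E a c f) (E b c f) (E a d f) (E b d f) (E c d f) (E a e f) (E b e f) (E c e f) (E d e f)) 15 := (key 15 (by norm_num)).symm
  have e16 : E a e f = bt (mk20 (E a b c) (E a b d) (E a c d) (E b c d) (E a b e) (E a c e) (E b c e) (E a d e) (E b d e) (E c d e) (E a b f) (E a c f) (E b c f) (E a d f) (E b d f) (E c d f) (E a e f) (E b e f) (E c e f) (E d e f)) 16 := (key 16 (by norm_num)).symm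
  have e17 : E b e f = bt (mk20 (E a b c) (E a b d) (E a c d) (E b c d) (E a b e) (E a c e) (E b c e) (E a d e) (E b d e) (E c d e) (E a b f) (E a c f) (E b c f) (E a d f) (E b d f) (E c d f) (E a e f) (E b e f) (E c e f) (E d e f)) 17 := (key 17 (by norm_num)).symm
  have e18 : E c e f = bt (mk20 (E a b c) (E a b d) (E a c d) (E b c d) (E a b e) (E a c e) (E b c e) (E a d e) (E b d e) (E c d e) (E a b f) (E a c f) (E b c f) (E a d f) (E b d f) (E c d f) (E a e f) (E b e f) (E c e f) (E d e f)) 18 := (key 18 (by norm_num)).symm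
  have e19 : E d e f = bt (mk20 (E a b c) (E a b d) (E a c d) (E b c d) (E a b e) (E a c e) (E b c e) (E a d e) (E b d e) (E c d e) (E a b f) (E a c f) (E b c f) (E a d f) (E b d f) (E c d f) (E a e f) (E b e f) (E c e f) (E d e f)) 19 := (key 19 (by norm_num)).symm
  generalize mk20 (E a b c) (E a b d) (E a c d) (E b c d) (E a b e) (E a c e) (E b c e) (E a d e) (E b d e) (E c d e) (E a b f) (E a c f) (E b c f) (E a d f) (E b d f) (E c d f) (E a e f) (E b e f) (E c e f) (E d e f) = m at *
  intro i j k hij hjk
  fin_cases i <;> fin_cases j <;> fin_cases k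
  · exact absurd hij (by decide)
  · exact absurd hij (by decide)
  · exact absurd hij (by decide)
  · exact absurd hij (by decide)
  · exact absurd hij (by decide)
  · exact absurd hij (by decide)
  · exact absurd hjk (by decide)
  · exact absurd hjk (by decide)
  · exact e0
  · exact e1
  · exact e4
  · exact e10
  · exact absurd hjk (by decide)
  · exact absurd hjk (by decide)
  · exact absurd hjk (by decide)
  · exact e2
  · exact e5
  · exact e11
  · exact absurd hjk (by decide)
  · exact absurd hjk (by decide)
  · exact absurd hjk (by decide)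
  · exact absurd hjk (by decide)
  · exact e7
  · exact e13
  · exact absurd hjk (by decide)
  · exact absurd hjk (by decide)
  · exact absurd hjk (by decide)
  · exact absurd hjk (by decide)
  · exact absurd hjk (by decide)
  · exact e16
  · exact absurd hjk (by decide)
  · exact absurd hjk (by decide)
  · exact absurd hjk (by decide)
  · exact absurd hjk (by decide)
  · exact absurd hjk (by decide)
  · exact absurd hjk (by decide)
  · exact absurd hij (by decide)
  · exact absurd hij (by decide)
  · exact absurd hij (by decide)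
  · exact absurd hij (by decide)
  · exact absurd hij (by decide)
  · exact absurd hij (by decide)
  · exact absurd hij (by decide)
  · exact absurd hij (by decide)
  · exact absurd hij (by decide)
  · exact absurd hij (by decide)
  · exact absurd hij (by decide)
  · exact absurd hij (by decide)
  · exact absurd hjk (by decide)
  · exact absurd hjk (by decide)
  · exact absurd hjk (by decide)
  · exact e3
  · exact e6
  · exact e12
  · exact absurd hjk (by decide)
  · exact absurd hjk (by decide)
  · exact absurd hjk (by decide)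
  · exact absurd hjk (by decide)
  · exact e8
  · exact e14
  · exact absurd hjk (by decide)
  · exact absurd hjk (by decide)
  · exact absurd hjk (by decide)
  · exact absurd hjk (by decide)
  · exact absurd hjk (by decide)
  · exact e17
  · exact absurd hjk (by decide)
  · exact absurd hjk (by decide)
  · exact absurd hjk (by decide)
  · exact absurd hjk (by decide)
  · exact absurd hjk (by decide)
  · exact absurd hjk (by decide)
  · exact absurd hij (by decide)
  · exact absurd hij (by decide)
  · exact absurd hij (by decide)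
  · exact absurd hij (by decide)
  · exact absurd hij (by decide)
  · exact absurd hij (by decide)
  · exact absurd hij (by decide)
  · exact absurd hij (by decide)
  · exact absurd hij (by decide)
  · exact absurd hij (by decide)
  · exact absurd hij (by decide)
  · exact absurd hij (by decide)
  · exact absurd hij (by decide)
  · exact absurd hij (by decide)
  · exact absurd hij (by decide)
  · exact absurd hij (by decide)
  · exact absurd hij (by decide)
  · exact absurd hij (by decide)
  · exact absurd hjk (by decide)
  · exact absurd hjk (by decide)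
  · exact absurd hjk (by decide)
  · exact absurd hjk (by decide)
  · exact e9
  · exact e15
  · exact absurd hjk (by decide)
  · exact absurd hjk (by decide)
  · exact absurd hjk (by decide)
  · exact absurd hjk (by decide)
  · exact absurd hjk (by decide)
  · exact e18
  · exact absurd hjk (by decide)
  · exact absurd hjk (by decide)
  · exact absurd hjk (by decide)
  · exact absurd hjk (by decide)
  · exact absurd hjk (by decide)
  · exact absurd hjk (by decide)
  · exact absurd hij (by decide)
  · exact absurd hij (by decide)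
  · exact absurd hij (by decide)
  · exact absurd hij (by decide)
  · exact absurd hij (by decide)
  · exact absurd hij (by decide)
  · exact absurd hij (by decide)
  · exact absurd hij (by decide)
  · exact absurd hij (by decide)
  · exact absurd hij (by decide)
  · exact absurd hij (by decide)
  · exact absurd hij (by decide)
  · exact absurd hij (by decide)
  · exact absurd hij (by decide)
  · exact absurd hij (by decide)
  · exact absurd hij (by decide)
  · exact absurd hij (by decide)
  · exact absurd hij (by decide)
  · exact absurd hij (by decide)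
  · exact absurd hij (by decide)
  · exact absurd hij (by decide)
  · exact absurd hij (by decide)
  · exact absurd hij (by decide)
  · exact absurd hij (by decide)
  · exact absurd hjk (by decide)
  · exact absurd hjk (by decide)
  · exact absurd hjk (by decide)
  · exact absurd hjk (by decide)
  · exact absurd hjk (by decide)
  · exact e19
  · exact absurd hjk (by decide)
  · exact absurd hjk (by decide)
  · exact absurd hjk (by decide)
  · exact absurd hjk (by decide)
  · exact absurd hjk (by decide)
  · exact absurd hjk (by decide)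
  · exact absurd hij (by decide)
  · exact absurd hij (by decide)
  · exact absurd hij (by decide)
  · exact absurd hij (by decide)
  · exact absurd hij (by decide)
  · exact absurd hij (by decide)
  · exact absurd hij (by decide)
  · exact absurd hij (by decide)
  · exact absurd hij (by decide)
  · exact absurd hij (by decide)
  · exact absurd hij (by decide)
  · exact absurd hij (by decide)
  · exact absurd hij (by decide)
  · exact absurd hij (by decide)
  · exact absurd hij (by decide)
  · exact absurd hij (by decide)
  · exact absurd hij (by decide)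
  · exact absurd hij (by decide)
  · exact absurd hij (by decide)
  · exact absurd hij (by decide)
  · exact absurd hij (by decide)
  · exact absurd hij (by decide)
  · exact absurd hij (by decide)
  · exact absurd hij (by decide)
  · exact absurd hij (by decide)
  · exact absurd hij (by decide)
  · exact absurd hij (by decide)
  · exact absurd hij (by decide)
  · exact absurd hij (by decide)
  · exact absurd hij (by decide)
  · exact absurd hjk (by decide)
  · exact absurd hjk (by decide)
  · exact absurd hjk (by decide)
  · exact absurd hjk (by decide)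
  · exact absurd hjk (by decide)
  · exact absurd hjk (by decide)
  · exact absurd hij (by decide)
  · exact absurd hij (by decide)
  · exact absurd hij (by decide)
  · exact absurd hij (by decide)
  · exact absurd hij (by decide)
  · exact absurd hij (by decide)
  · exact absurd hij (by decide)
  · exact absurd hij (by decide)
  · exact absurd hij (by decide)
  · exact absurd hij (by decide)
  · exact absurd hij (by decide)
  · exact absurd hij (by decide)
  · exact absurd hij (by decide)
  · exact absurd hij (by decide)
  · exact absurd hij (by decide)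
  · exact absurd hij (by decide)
  · exact absurd hij (by decide)
  · exact absurd hij (by decide)
  · exact absurd hij (by decide)
  · exact absurd hij (by decide)
  · exact absurd hij (by decide)
  · exact absurd hij (by decide)
  · exact absurd hij (by decide)
  · exact absurd hij (by decide)
  · exact absurd hij (by decide)
  · exact absurd hij (by decide)
  · exact absurd hij (by decide)
  · exact absurd hij (by decide)
  · exact absurd hij (by decide)
  · exact absurd hij (by decide)
  · exact absurd hij (by decide)
  · exact absurd hij (by decide)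
  · exact absurd hij (by decide)
  · exact absurd hij (by decide)
  · exact absurd hij (by decide)
  · exact absurd hij (by decide)

end

end Pool.Agent.K3h90.T34
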