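import Pool.Agent.K3h90.T34.Sum7
import Pool.Agent.K3h90.T34.C2

/-! Inequalities between sums. -/

set_option autoImplicit false
set_option maxRecDepth 100000
set_option maxHeartbeats 4000000
set_option linter.unusedVariables false

namespace Pool.Agent.K3h90.T34
open Finset
open Pool.Agent.H122R2.N6


/-- a loop over `n` consecutive numbers -/
def nrg (lo n : ℕ) (f : ℕ → Bool) : Bool := nall n fun k => f (Nat.add lo k)

theorem nrg_true {lo n : ℕ} {f : ℕ → Bool} (h : nrg lo n f = true) {k : ℕ} (h1 : lo ≤ k) (h2 : k < lo + n) :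
    f k = true := by
  have h3 := nall_true h (k - lo) (by omega)
  have e : Nat.add lo (k - lo) = k := by
    change lo + (k - lo) = k
    omega
  rw [e] at h3
  exact h3

theorem ineq_of (K : ℕ) (u v : ℕ → ℕ) (B M q O : ℕ)
    (h : nsum K (fun k => Nat.mul (u k) (v k)) + (K * B ^ 2 + M * O) ≤ M * q + B * (nsum K u + nsum K v)) :
    ∑ k ∈ range K, ((u k : ℤ) - B) * ((v k : ℤ) - B) ≤ M * ((q : ℤ) - O) := by
  have e : ∑ k ∈ range K, ((u k : ℤ) - B) * ((v k : ℤ) - B) =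
      ∑ k ∈ range K, (u k : ℤ) * (v k : ℤ) + K * B ^ 2
        - B * (∑ k ∈ range K, (u k : ℤ) + ∑ k ∈ range K, (v k : ℤ)) := by
    have e1 : (K : ℤ) * B ^ 2 = ∑ _k ∈ range K, (B : ℤ) ^ 2 := by simp
    rw [e1, mul_add, mul_sum, mul_sum, ← sum_add_distrib, ← sum_add_distrib, ← sum_sub_distrib]
    exact sum_congr rfl fun k _ => by ring
  rw [nsum_eq, nsum_eq, nsum_eq] at h
  have h' : ((∑ k ∈ range K, Nat.mul (u k) (v k) : ℕ) : ℤ) + (K * B ^ 2 + M * O) ≤
      M * q + B * (((∑ k ∈ range K, u k : ℕ) : ℤ) + ((∑ k ∈ range K, v k : ℕ) : ℤ)) := by exact_mod_cast h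
  have e2 : ((∑ k ∈ range K, Nat.mul (u k) (v k) : ℕ) : ℤ) = ∑ k ∈ range K, (u k : ℤ) * (v k : ℤ) := by
    rw [Nat.cast_sum]
    exact sum_congr rfl fun k _ => Nat.cast_mul _ _
  rw [e2, Nat.cast_sum, Nat.cast_sum] at h'
  rw [e, mul_sub]
  linarith

end Pool.Agent.K3h90.T34
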