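import Pool.Agent.K3h90.T34.K3def

/-! Checks for flags with three labelled vertices. -/

set_option autoImplicit false
set_option maxRecDepth 100000
set_option maxHeartbeats 4000000
set_option linter.unusedVariables false

namespace Pool.Agent.K3h90.T34
open Finset
open Pool.Agent.H122R2.N6

theorem ps0_0 : psb 0 0 71 = true := by decide +kernel
theorem ps0_71 : psb 0 71 30 = true := by decide +kernel
theorem ps0_101 : psb 0 101 23 = true := by decide +kernel
theorem ps0_124 : psb 0 124 19 = true := by decide +kernel
theorem ps0_143 : psb 0 143 17 = true := by decide +kernel
theorem ps0_160 : psb 0 160 15 = true := by decide +kernel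
theorem ps0_175 : psb 0 175 14 = true := by decide +kernel
theorem ps0_189 : psb 0 189 13 = true := by decide +kernel
end Pool.Agent.K3h90.T34
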