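import Pool.Agent.K3h90.T34.K3def

/-! Checks for flags with three labelled vertices. -/

set_option autoImplicit false
set_option maxRecDepth 100000
set_option maxHeartbeats 4000000
set_option linter.unusedVariables false

namespace Pool.Agent.K3h90.T34
open Finset
open Pool.Agent.H122R2.N6

theorem ps0_202 : psb 0 202 12 = true := by decide +kernel
theorem ps0_214 : psb 0 214 12 = true := by decide +kernel
theorem ps0_226 : psb 0 226 11 = true := by decide +kernel
theorem ps1_0 : psb 1 0 71 = true := by decide +kernel
theorem ps1_71 : psb 1 71 30 = true := by decide +kernel
theorem ps1_101 : psb 1 101 23 = true := by decide +kernel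
theorem ps1_124 : psb 1 124 19 = true := by decide +kernel
theorem ps1_143 : psb 1 143 17 = true := by decide +kernel
end Pool.Agent.K3h90.T34
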