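import Pool.Agent.K3h90.T34.K3def

/-! Checks for flags with three labelled vertices. -/

set_option autoImplicit false
set_option maxRecDepth 100000
set_option maxHeartbeats 4000000
set_option linter.unusedVariables false

namespace Pool.Agent.K3h90.T34
open Finset
open Pool.Agent.H122R2.N6

theorem ps1_160 : psb 1 160 15 = true := by decide +kernel
theorem ps1_175 : psb 1 175 14 = true := by decide +kernel
theorem ps1_189 : psb 1 189 3 = true := by decide +kernel
end Pool.Agent.K3h90.T34
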