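import Pool.Agent.K3h90.T34.K3def

/-! Checks for flags with three labelled vertices. -/

set_option autoImplicit false
set_option maxRecDepth 100000
set_option maxHeartbeats 4000000
set_option linter.unusedVariables false

namespace Pool.Agent.K3h90.T34
open Finset
open Pool.Agent.H122R2.N6

theorem sy1_0 : syb 1 0 15 = true := by decide +kernel
theorem sy1_15 : syb 1 15 15 = true := by decide +kernel
theorem sy1_30 : syb 1 30 15 = true := by decide +kernel
theorem sy1_45 : syb 1 45 15 = true := by decide +kernel
theorem sy1_60 : syb 1 60 15 = true := by decide +kernel
theorem sy1_75 : syb 1 75 15 = true := by decide +kernel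
theorem sy1_90 : syb 1 90 15 = true := by decide +kernel
theorem sy1_105 : syb 1 105 15 = true := by decide +kernel
end Pool.Agent.K3h90.T34
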