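import Pool.Agent.K3h90.T34.K3def
import Pool.Agent.K3h90.T34.K3p0
import Pool.Agent.K3h90.T34.K3p1
import Pool.Agent.K3h90.T34.K3p2
import Pool.Agent.K3h90.T34.K3s0
import Pool.Agent.K3h90.T34.K3s1
import Pool.Agent.K3h90.T34.K3s2
import Pool.Agent.K3h90.T34.K3s3

/-! Checks for flags with three labelled vertices. -/

set_option autoImplicit false
set_option maxRecDepth 100000
set_option maxHeartbeats 4000000
set_option linter.unusedVariables false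

namespace Pool.Agent.K3h90.T34
open Finset
open Pool.Agent.H122R2.N6

theorem ps_0 {i : ℕ} (hi : i < 237) : (nall (Nat.succ i) fun j => g3 0 i j) = true := by
  rcases Nat.lt_or_ge i 71 with h | h
  · exact nrg_true ps0_0 (by omega) (by omega)
  rcases Nat.lt_or_ge i 101 with h | h
  · exact nrg_true ps0_71 (by omega) (by omega)
  rcases Nat.lt_or_ge i 124 with h | h
  · exact nrg_true ps0_101 (by omega) (by omega)
  rcases Nat.lt_or_ge i 143 with h | h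
  · exact nrg_true ps0_124 (by omega) (by omega)
  rcases Nat.lt_or_ge i 160 with h | h
  · exact nrg_true ps0_143 (by omega) (by omega)
  rcases Nat.lt_or_ge i 175 with h | h
  · exact nrg_true ps0_160 (by omega) (by omega)
  rcases Nat.lt_or_ge i 189 with h | h
  · exact nrg_true ps0_175 (by omega) (by omega)
  rcases Nat.lt_or_ge i 202 with h | h
  · exact nrg_true ps0_189 (by omega) (by omega)
  rcases Nat.lt_or_ge i 214 with h | h
  · exact nrg_true ps0_202 (by omega) (by omega)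
  rcases Nat.lt_or_ge i 226 with h | h
  · exact nrg_true ps0_214 (by omega) (by omega)
  exact nrg_true ps0_226 (by omega) (by omega)

theorem sy_0 {i : ℕ} (hi : i < 237) : (nall (Nat.succ (nk 0)) fun j => gs 0 i j) = true := by
  rcases Nat.lt_or_ge i 15 with h | h
  · exact nrg_true sy0_0 (by omega) (by omega)
  rcases Nat.lt_or_ge i 30 with h | h
  · exact nrg_true sy0_15 (by omega) (by omega)
  rcases Nat.lt_or_ge i 45 with h | h
  · exact nrg_true sy0_30 (by omega) (by omega)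
  rcases Nat.lt_or_ge i 60 with h | h
  · exact nrg_true sy0_45 (by omega) (by omega)
  rcases Nat.lt_or_ge i 75 with h | h
  · exact nrg_true sy0_60 (by omega) (by omega)
  rcases Nat.lt_or_ge i 90 with h | h
  · exact nrg_true sy0_75 (by omega) (by omega)
  rcases Nat.lt_or_ge i 105 with h | h
  · exact nrg_true sy0_90 (by omega) (by omega)
  rcases Nat.lt_or_ge i 120 with h | h
  · exact nrg_true sy0_105 (by omega) (by omega)
  rcases Nat.lt_or_ge i 135 with h | h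
  · exact nrg_true sy0_120 (by omega) (by omega)
  rcases Nat.lt_or_ge i 150 with h | h
  · exact nrg_true sy0_135 (by omega) (by omega)
  rcases Nat.lt_or_ge i 165 with h | h
  · exact nrg_true sy0_150 (by omega) (by omega)
  rcases Nat.lt_or_ge i 180 with h | h
  · exact nrg_true sy0_165 (by omega) (by omega)
  rcases Nat.lt_or_ge i 195 with h | h
  · exact nrg_true sy0_180 (by omega) (by omega)
  rcases Nat.lt_or_ge i 210 with h | h
  · exact nrg_true sy0_195 (by omega) (by omega)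
  rcases Nat.lt_or_ge i 225 with h | h
  · exact nrg_true sy0_210 (by omega) (by omega)
  exact nrg_true sy0_225 (by omega) (by omega)

theorem ps_1 {i : ℕ} (hi : i < 192) : (nall (Nat.succ i) fun j => g3 1 i j) = true := by
  rcases Nat.lt_or_ge i 71 with h | h
  · exact nrg_true ps1_0 (by omega) (by omega)
  rcases Nat.lt_or_ge i 101 with h | h
  · exact nrg_true ps1_71 (by omega) (by omega)
  rcases Nat.lt_or_ge i 124 with h | h
  · exact nrg_true ps1_101 (by omega) (by omega)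
  rcases Nat.lt_or_ge i 143 with h | h
  · exact nrg_true ps1_124 (by omega) (by omega)
  rcases Nat.lt_or_ge i 160 with h | h
  · exact nrg_true ps1_143 (by omega) (by omega)
  rcases Nat.lt_or_ge i 175 with h | h
  · exact nrg_true ps1_160 (by omega) (by omega)
  rcases Nat.lt_or_ge i 189 with h | h
  · exact nrg_true ps1_175 (by omega) (by omega)
  exact nrg_true ps1_189 (by omega) (by omega)

theorem sy_1 {i : ℕ} (hi : i < 192) : (nall (Nat.succ (nk 1)) fun j => gs 1 i j) = true := by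
  rcases Nat.lt_or_ge i 15 with h | h
  · exact nrg_true sy1_0 (by omega) (by omega)
  rcases Nat.lt_or_ge i 30 with h | h
  · exact nrg_true sy1_15 (by omega) (by omega)
  rcases Nat.lt_or_ge i 45 with h | h
  · exact nrg_true sy1_30 (by omega) (by omega)
  rcases Nat.lt_or_ge i 60 with h | h
  · exact nrg_true sy1_45 (by omega) (by omega)
  rcases Nat.lt_or_ge i 75 with h | h
  · exact nrg_true sy1_60 (by omega) (by omega)
  rcases Nat.lt_or_ge i 90 with h | h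
  · exact nrg_true sy1_75 (by omega) (by omega)
  rcases Nat.lt_or_ge i 105 with h | h
  · exact nrg_true sy1_90 (by omega) (by omega)
  rcases Nat.lt_or_ge i 120 with h | h
  · exact nrg_true sy1_105 (by omega) (by omega)
  rcases Nat.lt_or_ge i 135 with h | h
  · exact nrg_true sy1_120 (by omega) (by omega)
  rcases Nat.lt_or_ge i 150 with h | h
  · exact nrg_true sy1_135 (by omega) (by omega)
  rcases Nat.lt_or_ge i 165 with h | h
  · exact nrg_true sy1_150 (by omega) (by omega)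
  rcases Nat.lt_or_ge i 180 with h | h
  · exact nrg_true sy1_165 (by omega) (by omega)
  exact nrg_true sy1_180 (by omega) (by omega)

theorem kd_0 : kdb 0 = true := by decide +kernel
theorem kd_1 : kdb 1 = true := by decide +kernel

theorem nk_eq {t : ℕ} (ht : Bt t) {i : ℕ} (hi : i ≤ nk t) : (t = 0 ∧ i < 237) ∨ (t = 1 ∧ i < 192) := by
  rcases ht with rfl | rfl
  · left; exact ⟨rfl, Nat.lt_succ_of_le hi⟩
  · right; exact ⟨rfl, Nat.lt_succ_of_le hi⟩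

theorem gs_all {t : ℕ} (ht : Bt t) {i j : ℕ} (hi : i ≤ nk t) (hj : j ≤ nk t) : gs t i j = true := by
  rcases nk_eq ht hi with ⟨rfl, h⟩ | ⟨rfl, h⟩
  · exact nall_true (sy_0 h) j (Nat.lt_succ_of_le hj)
  · exact nall_true (sy_1 h) j (Nat.lt_succ_of_le hj)

theorem g3_all {t : ℕ} (ht : Bt t) {i j : ℕ} (hi : i ≤ nk t) (hji : j ≤ i) : g3 t i j = true := by
  rcases nk_eq ht hi with ⟨rfl, h⟩ | ⟨rfl, h⟩
  · exact nall_true (ps_0 h) j (Nat.lt_succ_of_le hji)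
  · exact nall_true (ps_1 h) j (Nat.lt_succ_of_le hji)

theorem kdb_at {t x0 x1 x2 y0 y1 y2 s0 s1 s2 : ℕ} (ht : Bt t) (h0 : Bt x0) (h1 : Bt x1) (h2 : Bt x2)
    (h3 : Bt y0) (h4 : Bt y1) (h5 : Bt y2) (h6 : Bt s0) (h7 : Bt s1) (h8 : Bt s2) :
    kd t (cd9 x0 x1 x2 y0 y1 y2 s0 s1 s2) ≤ nk t ∧
    kd t (cd9 x0 x2 x1 y0 y2 y1 s1 s0 s2) = actA t (kd t (cd9 x0 x1 x2 y0 y1 y2 s0 s1 s2)) ∧
    kd t (cd9 x1 x0 x2 y1 y0 y2 s0 s2 s1) = actD t (kd t (cd9 x0 x1 x2 y0 y1 y2 s0 s1 s2)) ∧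
    kd t (cd9 y0 y1 y2 x0 x1 x2 s0 s1 s2) = kd t (cd9 x0 x1 x2 y0 y1 y2 s0 s1 s2) := by
  have h : kdb t = true := by
    rcases ht with rfl | rfl
    exacts [kd_0, kd_1]
  have h' := B2_true (B2_true (B2_true (B2_true (B2_true (B2_true (B2_true (B2_true (B2_true h h0) h1) h2) h3) h4)
    h5) h6) h7) h8
  rw [Bool.and_eq_true, Bool.and_eq_true, Bool.and_eq_true] at h'
  exact ⟨Nat.le_of_ble_eq_true h'.1, Nat.eq_of_beq_eq_true h'.2.1, Nat.eq_of_beq_eq_true h'.2.2.1,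
    Nat.eq_of_beq_eq_true h'.2.2.2⟩

theorem gs_at {t : ℕ} (ht : Bt t) {i j : ℕ} (hi : i ≤ nk t) (hj : j ≤ nk t) :
    cq t (actA t i) (actA t j) = cq t i j ∧ cq t (actD t i) (actD t j) = cq t i j ∧ cq t j i = cq t i j ∧
      cq t i j ≤ MQ := by
  have h := gs_all ht hi hj
  unfold gs at h
  rw [Bool.and_eq_true, Bool.and_eq_true, Bool.and_eq_true] at h
  exact ⟨Nat.eq_of_beq_eq_true h.1, Nat.eq_of_beq_eq_true h.2.1, Nat.eq_of_beq_eq_true h.2.2.1,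
    Nat.le_of_ble_eq_true h.2.2.2⟩

theorem hS3 : Sym3 q3 where
  s1 := by
    intro t x0 x1 x2 y0 y1 y2 s0 s1 s2 z0 z1 z2 w0 w1 w2 r0 r1 r2 ht h0 h1 h2 h3 h4 h5 h6 h7 h8 g0 g1 g2 g3 g4 g5 g6 g7 g8
    have a := kdb_at ht h0 h1 h2 h3 h4 h5 h6 h7 h8
    have b := kdb_at ht g0 g1 g2 g3 g4 g5 g6 g7 g8
    unfold q3
    rw [a.2.1, b.2.1]
    exact (gs_at ht a.1 b.1).1
  s2 := by
    intro t x0 x1 x2 y0 y1 y2 s0 s1 s2 z0 z1 z2 w0 w1 w2 r0 r1 r2 ht h0 h1 h2 h3 h4 h5 h6 h7 h8 g0 g1 g2 g3 g4 g5 g6 g7 g8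
    have a := kdb_at ht h0 h1 h2 h3 h4 h5 h6 h7 h8
    have b := kdb_at ht g0 g1 g2 g3 g4 g5 g6 g7 g8
    unfold q3
    rw [a.2.2.1, b.2.2.1]
    exact (gs_at ht a.1 b.1).2.1
  s3 := by
    intro t x0 x1 x2 y0 y1 y2 s0 s1 s2 z0 z1 z2 w0 w1 w2 r0 r1 r2 ht h0 h1 h2 h3 h4 h5 h6 h7 h8 g0 g1 g2 g3 g4 g5 g6 g7 g8
    have a := kdb_at ht h0 h1 h2 h3 h4 h5 h6 h7 h8
    unfold q3
    rw [a.2.2.2]
  s4 := by
    intro t x0 x1 x2 y0 y1 y2 s0 s1 s2 z0 z1 z2 w0 w1 w2 r0 r1 r2 ht h0 h1 h2 h3 h4 h5 h6 h7 h8 g0 g1 g2 g3 g4 g5 g6 g7 g8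
    have a := kdb_at ht h0 h1 h2 h3 h4 h5 h6 h7 h8
    have b := kdb_at ht g0 g1 g2 g3 g4 g5 g6 g7 g8
    unfold q3
    exact (gs_at ht a.1 b.1).2.2.1

theorem q3_le {t x0 x1 x2 y0 y1 y2 s0 s1 s2 z0 z1 z2 w0 w1 w2 r0 r1 r2 : ℕ} (ht : Bt t) (h0 : Bt x0) (h1 : Bt x1)
    (h2 : Bt x2) (h3 : Bt y0) (h4 : Bt y1) (h5 : Bt y2) (h6 : Bt s0) (h7 : Bt s1) (h8 : Bt s2)
    (g0 : Bt z0) (g1 : Bt z1) (g2 : Bt z2) (g3 : Bt w0) (g4 : Bt w1) (g5 : Bt w2) (g6 : Bt r0) (g7 : Bt r1)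
    (g8 : Bt r2) : q3 t (cd9 x0 x1 x2 y0 y1 y2 s0 s1 s2) (cd9 z0 z1 z2 w0 w1 w2 r0 r1 r2) ≤ MQ :=
  (gs_at ht (kdb_at ht h0 h1 h2 h3 h4 h5 h6 h7 h8).1 (kdb_at ht g0 g1 g2 g3 g4 g5 g6 g7 g8).1).2.2.2

/-- every number below 512 is a code -/
theorem cd9_surj {i : ℕ} (hi : i < 512) : ∃ x0 x1 x2 y0 y1 y2 s0 s1 s2 : ℕ, Bt x0 ∧ Bt x1 ∧ Bt x2 ∧ Bt y0 ∧
    Bt y1 ∧ Bt y2 ∧ Bt s0 ∧ Bt s1 ∧ Bt s2 ∧ i = cd9 x0 x1 x2 y0 y1 y2 s0 s1 s2 := by
  have hb : ∀ n : ℕ, Bt (n % 2) := fun n => Nat.mod_two_eq_zero_or_one n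
  refine ⟨i % 2, i / 2 % 2, i / 4 % 2, i / 8 % 2, i / 16 % 2, i / 32 % 2, i / 64 % 2, i / 128 % 2,
    i / 256 % 2, hb _, hb _, hb _, hb _, hb _, hb _, hb _, hb _, hb _, ?_⟩
  change i = (i % 2 + (2 * (i / 2 % 2) + 4 * (i / 4 % 2))) + (8 * (i / 8 % 2 + (2 * (i / 16 % 2) +
    4 * (i / 32 % 2))) + 64 * (i / 64 % 2 + (2 * (i / 128 % 2) + 4 * (i / 256 % 2))))
  omega

theorem kd_le {t i : ℕ} (ht : Bt t) (hi : i < 512) : kd t i ≤ nk t := by
  obtain ⟨x0, x1, x2, y0, y1, y2, s0, s1, s2, h0, h1, h2, h3, h4, h5, h6, h7, h8, rfl⟩ := cd9_surj hi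
  exact (kdb_at ht h0 h1 h2 h3 h4 h5 h6 h7 h8).1

theorem hq3 (t i j : ℕ) (ht : t < 2) (hi : i < 512) (hj : j < 512) :
    ∑ k ∈ range 37, ((l3 t i k : ℤ) - ((2147483648 : ℕ) : ℤ)) * ((l3 t j k : ℤ) - ((2147483648 : ℕ) : ℤ)) ≤
      ((4294967296 : ℕ) : ℤ) * ((q3 t i j : ℤ) - ((cO3 : ℕ) : ℤ)) := by
  have hb : Bt t := by
    rcases t with _ | _ | t
    · exact Or.inl rfl
    · exact Or.inr rfl
    · omega
  have h1 := kd_le hb hi
  have h2 := kd_le hb hj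
  unfold l3 q3
  rcases le_total (kd t j) (kd t i) with h | h
  · exact g3_ineq (g3_all hb h1 h)
  · have a := g3_ineq (g3_all hb h2 h)
    rw [(gs_at hb h2 h1).2.2.1]
    refine le_trans (le_of_eq ?_) a
    exact sum_congr rfl fun k _ => mul_comm _ _

end Pool.Agent.K3h90.T34
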