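import Pool.Agent.K3h90.T34.T3
import Pool.Agent.K3h90.T34.Ineq

/-! Checks for flags with three labelled vertices: definitions. -/

set_option autoImplicit false
set_option maxRecDepth 100000
set_option maxHeartbeats 4000000
set_option linter.unusedVariables false

namespace Pool.Agent.K3h90.T34
open Finset
open Pool.Agent.H122R2.N6


def ll3 (t i j : ℕ) : ℕ := nsum 37 fun k => Nat.mul (lc t i k) (lc t j k)
def sl3 (t i : ℕ) : ℕ := nsum 37 fun k => lc t i k
def g3 (t i j : ℕ) : Bool :=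
  Nat.ble (Nat.add (ll3 t i j) 170663386607614164992) (Nat.add (Nat.mul 4294967296 (cq t i j))
    (Nat.mul 2147483648 (Nat.add (sl3 t i) (sl3 t j))))
/-- all entries of the rows `lo ≤ i < lo + n` up to the diagonal -/
def psb (t lo n : ℕ) : Bool := nrg lo n fun i => nall (Nat.succ i) fun j => g3 t i j
/-- symmetries of the table and a bound for its entries -/
def gs (t i j : ℕ) : Bool := and (Nat.beq (cq t (actA t i) (actA t j)) (cq t i j))
  (and (Nat.beq (cq t (actD t i) (actD t j)) (cq t i j))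
  (and (Nat.beq (cq t j i) (cq t i j)) (Nat.ble (cq t i j) MQ)))
def syb (t lo n : ℕ) : Bool := nrg lo n fun i => nall (Nat.succ (nk t)) fun j => gs t i j
def kdb (t : ℕ) : Bool := B2 fun x0 => B2 fun x1 => B2 fun x2 => B2 fun y0 => B2 fun y1 => B2 fun y2 =>
  B2 fun s0 => B2 fun s1 => B2 fun s2 =>
    and (Nat.ble (kd t (cd9 x0 x1 x2 y0 y1 y2 s0 s1 s2)) (nk t))
    (and (Nat.beq (kd t (cd9 x0 x2 x1 y0 y2 y1 s1 s0 s2)) (actA t (kd t (cd9 x0 x1 x2 y0 y1 y2 s0 s1 s2))))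
    (and (Nat.beq (kd t (cd9 x1 x0 x2 y1 y0 y2 s0 s2 s1)) (actD t (kd t (cd9 x0 x1 x2 y0 y1 y2 s0 s1 s2))))
    (Nat.beq (kd t (cd9 y0 y1 y2 x0 x1 x2 s0 s1 s2)) (kd t (cd9 x0 x1 x2 y0 y1 y2 s0 s1 s2)))))

theorem g3_ineq {t i j : ℕ} (h : g3 t i j = true) :
    ∑ k ∈ range 37, ((lc t i k : ℤ) - ((2147483648 : ℕ) : ℤ)) * ((lc t j k : ℤ) - ((2147483648 : ℕ) : ℤ)) ≤
      ((4294967296 : ℕ) : ℤ) * ((cq t i j : ℤ) - ((cO3 : ℕ) : ℤ)) := by
  have h1 := Nat.le_of_ble_eq_true h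
  refine ineq_of 37 (fun k => lc t i k) (fun k => lc t j k) 2147483648 4294967296 (cq t i j) cO3 ?_
  have e : 37 * 2147483648 ^ 2 + 4294967296 * cO3 = 170663386607614164992 := by unfold cO3; norm_num
  rw [e]
  exact h1

end Pool.Agent.K3h90.T34
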