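import Pool.Agent.K3h90.T34.T4
import Pool.Agent.K3h90.T34.Ineq
import Pool.Agent.H122R2.N6.SymDefs
import Pool.Agent.H122R2.N6.KK

/-! Checks of the tables for flags with four and with two labelled vertices. -/

set_option autoImplicit false
set_option maxRecDepth 100000
set_option maxHeartbeats 4000000
set_option linter.unusedVariables false

namespace Pool.Agent.K3h90.T34
open Finset
open Pool.Agent.H122R2.N6


def ll4 (r i j : ℕ) : ℕ := nsum 7 fun k => Nat.mul (l4 r i k) (l4 r j k)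
def sl4 (r i : ℕ) : ℕ := nsum 7 fun k => l4 r i k
def g4 (r i j : ℕ) : Bool :=
  Nat.ble (Nat.add (ll4 r i j) 32292493488992288768) (Nat.add (Nat.mul 16777216 (tq r i j))
    (Nat.mul 2147483648 (Nat.add (sl4 r i) (sl4 r j))))
def ll2 (i j : ℕ) : ℕ := nsum 0 fun k => Nat.mul (l2 i k) (l2 j k)
def sl2 (i : ℕ) : ℕ := nsum 0 fun k => l2 i k
def g2 (i j : ℕ) : Bool :=
  Nat.ble (Nat.add (ll2 i j) (Nat.add 0 (Nat.mul 16777216 (Nat.add cO2 (Nat.mul tau (kk i j))))))
    (Nat.add (Nat.mul 16777216 (q2 i j)) (Nat.mul 2147483648 (Nat.add (sl2 i) (sl2 j))))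
def chk4 (r : ℕ) : Bool := nall 64 fun i => nall 64 fun j => g4 r i j
def chk2 : Bool := nall 16 fun i => nall 16 fun j => g2 i j

theorem cs4 : sym4 q4 = true := by decide +kernel
theorem cs2 : sym2 q2 = true := by decide +kernel
theorem cp0 : chk4 0 = true := by decide +kernel
theorem cp1 : chk4 1 = true := by decide +kernel
theorem cp2 : chk4 2 = true := by decide +kernel
theorem cp3 : chk4 3 = true := by decide +kernel
theorem cpb : chk2 = true := by decide +kernel

theorem rng : (nall 16 fun c => and (Nat.blt (rho c) 4) (nall 64 fun i => Nat.blt (pc c i) 64)) = true := by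
  decide +kernel

theorem rho_lt {c : ℕ} (h : c < 16) : rho c < 4 := by
  have := nall_true rng c h
  rw [Bool.and_eq_true] at this
  exact Nat.le_of_ble_eq_true this.1

theorem pc_lt {c i : ℕ} (h : c < 16) (hi : i < 64) : pc c i < 64 := by
  have := nall_true rng c h
  rw [Bool.and_eq_true] at this
  exact Nat.le_of_ble_eq_true (nall_true this.2 i hi)

theorem g4_all {r i j : ℕ} (hr : r < 4) (hi : i < 64) (hj : j < 64) : g4 r i j = true := by
  have h : chk4 r = true := by
    interval_cases r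
    exacts [cp0, cp1, cp2, cp3]
  exact nall_true (nall_true h i hi) j hj

theorem hq4 (c i j : ℕ) (hc : c < 16) (hi : i < 64) (hj : j < 64) :
    ∑ k ∈ range 7, (((fun c i k => l4 (rho c) (pc c i) k) c i k : ℤ) - ((2147483648 : ℕ) : ℤ)) *
      (((fun c i k => l4 (rho c) (pc c i) k) c j k : ℤ) - ((2147483648 : ℕ) : ℤ)) ≤
      ((16777216 : ℕ) : ℤ) * ((q4 c i j : ℤ) - ((cO4 : ℕ) : ℤ)) := by
  have h := Nat.le_of_ble_eq_true (g4_all (rho_lt hc) (pc_lt hc hi) (pc_lt hc hj))
  refine ineq_of 7 (fun k => l4 (rho c) (pc c i) k) (fun k => l4 (rho c) (pc c j) k) 2147483648 16777216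
    (q4 c i j) cO4 ?_
  have e : 7 * 2147483648 ^ 2 + 16777216 * cO4 = 32292493488992288768 := by unfold cO4; norm_num
  rw [e]
  exact h

theorem hq2 (i j : ℕ) (hi : i < 16) (hj : j < 16) :
    ∑ k ∈ range 0, ((l2 i k : ℤ) - ((2147483648 : ℕ) : ℤ)) * ((l2 j k : ℤ) - ((2147483648 : ℕ) : ℤ)) ≤
      ((16777216 : ℕ) : ℤ) * ((q2 i j : ℤ) - (((cO2 : ℕ) : ℤ) + ((tau : ℕ) : ℤ) * (kk i j : ℕ))) := by
  have h := Nat.le_of_ble_eq_true (nall_true (nall_true cpb i hi) j hj)
  have h2 := ineq_of 0 (fun k => l2 i k) (fun k => l2 j k) 2147483648 16777216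
    (q2 i j) (cO2 + tau * kk i j) (by
      have e : 0 * 2147483648 ^ 2 = 0 := by norm_num
      rw [e]
      exact h)
  push_cast at h2
  exact h2

end Pool.Agent.K3h90.T34
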