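import Pool.Agent.K3h90.T34.KQdef

/-! Pairs of flags. -/

set_option autoImplicit false
set_option maxRecDepth 100000
set_option maxHeartbeats 4000000
set_option linter.unusedVariables false

namespace Pool.Agent.K3h90.T34
open Finset
open Pool.Agent.H122R2.N6

theorem qc4 : qck 0 0 1 0 = true := by decide +kernel
theorem qc5 : qck 1 0 1 0 = true := by decide +kernel
theorem qc6 : qck 0 1 1 0 = true := by decide +kernel
theorem qc7 : qck 1 1 1 0 = true := by decide +kernel

end Pool.Agent.K3h90.T34
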