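import Pool.Agent.K3h90.T34.KRdef

/-! Rows of the table of flags. -/

set_option autoImplicit false
set_option maxRecDepth 100000
set_option maxHeartbeats 4000000
set_option linter.unusedVariables false

namespace Pool.Agent.K3h90.T34
open Finset
open Pool.Agent.H122R2.N6

theorem rw1_0 : rck 1 0 40 = true := by decide +kernel
theorem rw1_40 : rck 1 40 40 = true := by decide +kernel
theorem rw1_80 : rck 1 80 40 = true := by decide +kernel
theorem rw1_120 : rck 1 120 40 = true := by decide +kernel
theorem rw1_160 : rck 1 160 32 = true := by decide +kernel
end Pool.Agent.K3h90.T34
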