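import Pool.Agent.K3h90.T34.F3
import Pool.Agent.TH983.FC.Orb

/-! The seven-vertex functional does not depend on the order of the first six vertices; reduction to
representatives. -/

set_option autoImplicit false
set_option maxRecDepth 100000
set_option maxHeartbeats 4000000
open Finset

namespace Pool.Agent.K3h90.T34
open Pool.Agent.H122R2.N6 Pool.Agent.H37R3.Pen Pool.Agent.H37R3.Cop Pool.Agent.H37R3.CopL Pool.Agent.TH983.FC

section
variable {V : Type} {E : V → V → V → ℕ}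

def G7x (E : V → V → V → ℕ) (q4 : ℕ → ℕ → ℕ → ℕ) (q2 : ℕ → ℕ → ℕ) (q3 : ℕ → ℕ → ℕ → ℕ) (s : ℕ)
    (x : Fin 6 → V) (v : V) : ℕ := G7 E q4 q2 q3 s (x 0) (x 1) (x 2) (x 3) (x 4) (x 5) v

theorem G7x_perm (hE : Sy E) {q4 : ℕ → ℕ → ℕ → ℕ} {q2 : ℕ → ℕ → ℕ} {q3 : ℕ → ℕ → ℕ → ℕ}
    (h3 : Sym3 q3) (h4 : sym4 q4 = true) (h2 : sym2 q2 = true) (s : ℕ) (v : V)
    (π : Equiv.Perm (Fin 6)) : ∀ x : Fin 6 → V, G7x E q4 q2 q3 s (x ∘ π) v = G7x E q4 q2 q3 s x v := by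
  have hm : π ∈ Submonoid.closure (Set.range fun i : Fin 5 ↦ Equiv.swap i.castSucc i.succ) := by
    rw [Equiv.Perm.mclosure_swap_castSucc_succ]; trivial
  induction hm using Submonoid.closure_induction with
  | mem τ hτ =>
    obtain ⟨i, rfl⟩ := hτ
    intro x
    fin_cases i
    · exact G7_sw0 hE h3 h4 h2 s (x 0) (x 1) (x 2) (x 3) (x 4) (x 5) v
    · exact G7_sw1 hE h3 h4 h2 s (x 0) (x 1) (x 2) (x 3) (x 4) (x 5) v
    · exact G7_sw2 hE h3 h4 h2 s (x 0) (x 1) (x 2) (x 3) (x 4) (x 5) v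
    · exact G7_sw3 hE h3 h4 h2 s (x 0) (x 1) (x 2) (x 3) (x 4) (x 5) v
    · exact G7_sw4 hE h3 h4 h2 s (x 0) (x 1) (x 2) (x 3) (x 4) (x 5) v
  | one => intro x; rfl
  | mul a b _ _ ha hb =>
    intro x
    have e : x ∘ ⇑(a * b) = (x ∘ a) ∘ b := rfl
    rw [e, hb, ha]

/-- the bound holds for all copies of the pattern `m` -/
def Gd (E : V → V → V → ℕ) (q4 : ℕ → ℕ → ℕ → ℕ) (q2 : ℕ → ℕ → ℕ) (q3 : ℕ → ℕ → ℕ → ℕ) (s C m : ℕ) : Prop :=
  ∀ (x : Fin 6 → V) (v : V), Copy E m x → G7x E q4 q2 q3 s x v ≤ C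

/-- digit `i` of `p` in base 8 -/
def dg (p i : ℕ) : ℕ := Nat.mod (Nat.shiftRight p (Nat.mul 3 i)) 8

/-- `p` codes a permutation of `0, …, 5` which turns the pattern `m` into `c` -/
def isoP (m c p : ℕ) : Bool :=
  and (nall 6 fun i => Nat.blt (dg p i) 6)
    (and (nall 6 fun b => or (Nat.beq (dg p 0) b) (or (Nat.beq (dg p 1) b) (or (Nat.beq (dg p 2) b)
      (or (Nat.beq (dg p 3) b) (or (Nat.beq (dg p 4) b) (Nat.beq (dg p 5) b))))))
    (and (Nat.beq (pb m (dg p 0) (dg p 1) (dg p 2)) (bt c 0))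
    (and (Nat.beq (pb m (dg p 0) (dg p 1) (dg p 3)) (bt c 1))
    (and (Nat.beq (pb m (dg p 0) (dg p 2) (dg p 3)) (bt c 2))
    (and (Nat.beq (pb m (dg p 1) (dg p 2) (dg p 3)) (bt c 3))
    (and (Nat.beq (pb m (dg p 0) (dg p 1) (dg p 4)) (bt c 4))
    (and (Nat.beq (pb m (dg p 0) (dg p 2) (dg p 4)) (bt c 5))
    (and (Nat.beq (pb m (dg p 1) (dg p 2) (dg p 4)) (bt c 6))
    (and (Nat.beq (pb m (dg p 0) (dg p 3) (dg p 4)) (bt c 7))
    (and (Nat.beq (pb m (dg p 1) (dg p 3) (dg p 4)) (bt c 8))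
    (and (Nat.beq (pb m (dg p 2) (dg p 3) (dg p 4)) (bt c 9))
    (and (Nat.beq (pb m (dg p 0) (dg p 1) (dg p 5)) (bt c 10))
    (and (Nat.beq (pb m (dg p 0) (dg p 2) (dg p 5)) (bt c 11))
    (and (Nat.beq (pb m (dg p 1) (dg p 2) (dg p 5)) (bt c 12))
    (and (Nat.beq (pb m (dg p 0) (dg p 3) (dg p 5)) (bt c 13))
    (and (Nat.beq (pb m (dg p 1) (dg p 3) (dg p 5)) (bt c 14))
    (and (Nat.beq (pb m (dg p 2) (dg p 3) (dg p 5)) (bt c 15))
    (and (Nat.beq (pb m (dg p 0) (dg p 4) (dg p 5)) (bt c 16))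
    (and (Nat.beq (pb m (dg p 1) (dg p 4) (dg p 5)) (bt c 17))
    (and (Nat.beq (pb m (dg p 2) (dg p 4) (dg p 5)) (bt c 18))
    (Nat.beq (pb m (dg p 3) (dg p 4) (dg p 5)) (bt c 19))))))))))))))))))))))

theorem Gd_of_iso (hE : Sy E) {q4 : ℕ → ℕ → ℕ → ℕ} {q2 : ℕ → ℕ → ℕ} {q3 : ℕ → ℕ → ℕ → ℕ}
    (h3 : Sym3 q3) (h4 : sym4 q4 = true) (h2 : sym2 q2 = true) {s C m c p : ℕ}
    (hp : isoP m c p = true) (hc : Gd E q4 q2 q3 s C c) : Gd E q4 q2 q3 s C m := by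
  intro x v hx
  unfold isoP at hp
  simp only [Bool.and_eq_true] at hp
  obtain ⟨hl, hsum, b0, b1, b2, b3, b4, b5, b6, b7, b8, b9, b10, b11, b12, b13, b14, b15, b16, b17, b18, b19⟩ := hp
  have hlt : ∀ i, i < 6 → dg p i < 6 := fun i hi => Nat.le_of_ble_eq_true (nall_true hl i hi)
  set g : Fin 6 → Fin 6 := fun i => ⟨dg p i.val, hlt _ i.isLt⟩ with hg
  have hsurj : Function.Surjective g := by
    intro b
    have h := nall_true hsum b.val b.isLt
    simp only [Bool.or_eq_true] at h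
    rcases h with h | h | h | h | h | h
    · exact ⟨0, Fin.ext (Nat.eq_of_beq_eq_true h)⟩
    · exact ⟨1, Fin.ext (Nat.eq_of_beq_eq_true h)⟩
    · exact ⟨2, Fin.ext (Nat.eq_of_beq_eq_true h)⟩
    · exact ⟨3, Fin.ext (Nat.eq_of_beq_eq_true h)⟩
    · exact ⟨4, Fin.ext (Nat.eq_of_beq_eq_true h)⟩
    · exact ⟨5, Fin.ext (Nat.eq_of_beq_eq_true h)⟩
  have hinj : Function.Injective g := Finite.injective_iff_surjective.mpr hsurj
  set π : Equiv.Perm (Fin 6) := Equiv.ofBijective g ⟨hinj, hsurj⟩ with hπ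
  have hcopy : Copy E c (x ∘ π) := by
    have key : ∀ i j k : Fin 6, i ≠ j → i ≠ k → j ≠ k →
        E ((x ∘ π) i) ((x ∘ π) j) ((x ∘ π) k) = pb m (dg p i.val) (dg p j.val) (dg p k.val) := by
      intro i j k hij hik hjk
      have h1 := hx.full hE (g i) (g j) (g k) (fun e => hij (hinj e)) (fun e => hik (hinj e))
        (fun e => hjk (hinj e))
      rw [← tin_eq] at h1
      exact h1
    intro i j k hij hjk
    rw [key i j k hij.ne (hij.trans hjk).ne hjk.ne]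
    fin_cases i <;> fin_cases j <;> first | exact absurd hij (by decide) | skip
    all_goals fin_cases k <;> first
      | exact absurd hjk (by decide)
      | exact Nat.eq_of_beq_eq_true b0
      | exact Nat.eq_of_beq_eq_true b1
      | exact Nat.eq_of_beq_eq_true b2
      | exact Nat.eq_of_beq_eq_true b3
      | exact Nat.eq_of_beq_eq_true b4
      | exact Nat.eq_of_beq_eq_true b5
      | exact Nat.eq_of_beq_eq_true b6
      | exact Nat.eq_of_beq_eq_true b7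
      | exact Nat.eq_of_beq_eq_true b8
      | exact Nat.eq_of_beq_eq_true b9
      | exact Nat.eq_of_beq_eq_true b10
      | exact Nat.eq_of_beq_eq_true b11
      | exact Nat.eq_of_beq_eq_true b12
      | exact Nat.eq_of_beq_eq_true b13
      | exact Nat.eq_of_beq_eq_true b14
      | exact Nat.eq_of_beq_eq_true b15
      | exact Nat.eq_of_beq_eq_true b16
      | exact Nat.eq_of_beq_eq_true b17
      | exact Nat.eq_of_beq_eq_true b18
      | exact Nat.eq_of_beq_eq_true b19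
  have h := hc (x ∘ π) v hcopy
  rwa [G7x_perm hE h3 h4 h2] at h

end
end Pool.Agent.K3h90.T34
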