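import Pool.Agent.K3h90.T34.Ops
import Pool.Agent.K3h90.T34.Perm

/-! Packed upper bounds for the six-vertex functional and for the flags, as functions of the link of
the last vertex. -/

set_option autoImplicit false
set_option maxRecDepth 100000
set_option maxHeartbeats 4000000

namespace Pool.Agent.K3h90.T34
open Pool.Agent.H122R2.N6

section
variable {V : Type} (E : V → V → V → ℕ)

/-- the six-vertex functional, rounded up -/
def gS (q4 : ℕ → ℕ → ℕ → ℕ) (q2 : ℕ → ℕ → ℕ) (s OF : ℕ) (a b c d e f : V) : ℕ :=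
  (S6 E q4 q2 a b c d e f - OF + (s - 1)) / s

variable {E} {q4 : ℕ → ℕ → ℕ → ℕ} {q2 : ℕ → ℕ → ℕ} {s OF : ℕ}

theorem S6_le_gS (hs : 0 < s) (a b c d e f : V) :
    S6 E q4 q2 a b c d e f ≤ s * gS E q4 q2 s OF a b c d e f + OF := by
  unfold gS
  set y := S6 E q4 q2 a b c d e f
  have h := Nat.div_add_mod (y - OF + (s - 1)) s
  have h2 := Nat.mod_lt (y - OF + (s - 1)) hs
  omega

theorem gS_le (hs : 0 < s) {x : ℕ} {a b c d e f : V} (h : S6 E q4 q2 a b c d e f ≤ s * x + OF) :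
    gS E q4 q2 s OF a b c d e f ≤ x := by
  unfold gS
  have h1 : S6 E q4 q2 a b c d e f - OF + (s - 1) < s * (x + 1) := by
    rw [Nat.mul_add, Nat.mul_one]; omega
  exact Nat.lt_succ_iff.mp ((Nat.div_lt_iff_lt_mul hs).mpr (by rwa [Nat.mul_comm] at h1))

/-- `x` is a packed upper bound for all copies of the given five-vertex structure -/
def TG (E : V → V → V → ℕ) (q4 : ℕ → ℕ → ℕ → ℕ) (q2 : ℕ → ℕ → ℕ) (s OF MT x : ℕ) (b012 b013 b023 b123 b014 b024 b124 b034 b134 b234 : ℕ) : Prop :=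
  ∀ a b c d e v : V, E a b c = b012 → E a b d = b013 → E a c d = b023 → E b c d = b123 → E a b e = b014 → E a c e = b024 → E b c e = b124 → E a d e = b034 → E b d e = b134 → E c d e = b234 →
    W 10 x [E a b v, E a c v, E b c v, E a d v, E b d v, E c d v, E a e v, E b e v, E c e v, E d e v] (gS E q4 q2 s OF a b c d e v) MT

def cd10 (b012 b013 b023 b123 b014 b024 b124 b034 b134 b234 : ℕ) : ℕ := Nat.add b012 (Nat.add (Nat.mul 2 b013) (Nat.add (Nat.mul 4 b023) (Nat.add (Nat.mul 8 b123) (Nat.add (Nat.mul 16 b014) (Nat.add (Nat.mul 32 b024) (Nat.add (Nat.mul 64 b124) (Nat.add (Nat.mul 128 b034) (Nat.add (Nat.mul 256 b134) (Nat.mul 512 b234)))))))))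

def TVr (TR : ℕ → ℕ) (n : ℕ) : ℕ → ℕ → ℕ → ℕ → ℕ → ℕ → ℕ → ℕ → ℕ → ℕ → ℕ :=
  Nat.rec (fun b012 b013 b023 b123 b014 b024 b124 b034 b134 b234 => TR (cd10 b012 b013 b023 b123 b014 b024 b124 b034 b134 b234))
    (fun _ ih b012 b013 b023 b123 b014 b024 b124 b034 b134 b234 => cond (Nat.beq (tg b012 b013 b023 b123 b014 b024 b124 b034 b134 b234) 4) (TR (cd10 b012 b013 b023 b123 b014 b024 b124 b034 b134 b234))
      (cond (Nat.beq (tg b012 b013 b023 b123 b014 b024 b124 b034 b134 b234) 0) (SW0 (ih b012 b013 b123 b023 b014 b124 b024 b134 b034 b234))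
      (cond (Nat.beq (tg b012 b013 b023 b123 b014 b024 b124 b034 b134 b234) 1) (SW1 (ih b012 b023 b013 b123 b024 b014 b124 b034 b234 b134))
      (cond (Nat.beq (tg b012 b013 b023 b123 b014 b024 b124 b034 b134 b234) 2) (SW2 (ih b013 b012 b023 b123 b014 b034 b134 b024 b124 b234))
        (SW3 (ih b012 b014 b024 b124 b013 b023 b123 b034 b134 b234)))))) n

theorem TG_sw0 (hE : Sy E) (s4 : sym4 q4 = true) (s2 : sym2 q2 = true) {MT x b012 b013 b023 b123 b014 b024 b124 b034 b134 b234 : ℕ}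
    (h : TG E q4 q2 s OF MT x b012 b013 b123 b023 b014 b124 b024 b134 b034 b234) : TG E q4 q2 s OF MT (SW0 x) b012 b013 b023 b123 b014 b024 b124 b034 b134 b234 := by
  intro a b c d e v h0 h1 h2 h3 h4 h5 h6 h7 h8 h9
  have h' := h b a c d e v ((hE.h213 _ _ _).trans h0) ((hE.h213 _ _ _).trans h1) h3 h2 ((hE.h213 _ _ _).trans h4) h6 h5 h8 h7 h9
  have eq : gS E q4 q2 s OF b a c d e v = gS E q4 q2 s OF a b c d e v := by
    unfold gS
    rw [S6_sw0 hE s4 s2]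
  rw [eq, hE.h213 a b v] at h'
  exact SW0_W h'

theorem TG_sw1 (hE : Sy E) (s4 : sym4 q4 = true) (s2 : sym2 q2 = true) {MT x b012 b013 b023 b123 b014 b024 b124 b034 b134 b234 : ℕ}
    (h : TG E q4 q2 s OF MT x b012 b023 b013 b123 b024 b014 b124 b034 b234 b134) : TG E q4 q2 s OF MT (SW1 x) b012 b013 b023 b123 b014 b024 b124 b034 b134 b234 := by
  intro a b c d e v h0 h1 h2 h3 h4 h5 h6 h7 h8 h9
  have h' := h a c b d e v ((hE.h132 _ _ _).trans h0) h2 h1 ((hE.h213 _ _ _).trans h3) h5 h4 ((hE.h213 _ _ _).trans h6) h7 h9 h8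
  have eq : gS E q4 q2 s OF a c b d e v = gS E q4 q2 s OF a b c d e v := by
    unfold gS
    rw [S6_sw1 hE s4 s2]
  rw [eq, hE.h213 b c v] at h'
  exact SW1_W h'

theorem TG_sw2 (hE : Sy E) (s4 : sym4 q4 = true) (s2 : sym2 q2 = true) {MT x b012 b013 b023 b123 b014 b024 b124 b034 b134 b234 : ℕ}
    (h : TG E q4 q2 s OF MT x b013 b012 b023 b123 b014 b034 b134 b024 b124 b234) : TG E q4 q2 s OF MT (SW2 x) b012 b013 b023 b123 b014 b024 b124 b034 b134 b234 := by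
  intro a b c d e v h0 h1 h2 h3 h4 h5 h6 h7 h8 h9
  have h' := h a b d c e v h1 h0 ((hE.h132 _ _ _).trans h2) ((hE.h132 _ _ _).trans h3) h4 h7 h8 h5 h6 ((hE.h213 _ _ _).trans h9)
  have eq : gS E q4 q2 s OF a b d c e v = gS E q4 q2 s OF a b c d e v := by
    unfold gS
    rw [S6_sw2 hE s4 s2]
  rw [eq, hE.h213 c d v] at h'
  exact SW2_W h'

theorem TG_sw3 (hE : Sy E) (s4 : sym4 q4 = true) (s2 : sym2 q2 = true) {MT x b012 b013 b023 b123 b014 b024 b124 b034 b134 b234 : ℕ}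
    (h : TG E q4 q2 s OF MT x b012 b014 b024 b124 b013 b023 b123 b034 b134 b234) : TG E q4 q2 s OF MT (SW3 x) b012 b013 b023 b123 b014 b024 b124 b034 b134 b234 := by
  intro a b c d e v h0 h1 h2 h3 h4 h5 h6 h7 h8 h9
  have h' := h a b c e d v h0 h4 h5 h6 h1 h2 h3 ((hE.h132 _ _ _).trans h7) ((hE.h132 _ _ _).trans h8) ((hE.h132 _ _ _).trans h9)
  have eq : gS E q4 q2 s OF a b c e d v = gS E q4 q2 s OF a b c d e v := by
    unfold gS
    rw [S6_sw3 hE s4 s2]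
  rw [eq, hE.h213 d e v] at h'
  exact SW3_W h'

theorem walk_TG (hE : Sy E) (h4 : sym4 q4 = true) (h2 : sym2 q2 = true) {TR : ℕ → ℕ} {MT : ℕ}
    (hr : ∀ b012 b013 b023 b123 b014 b024 b124 b034 b134 b234 : ℕ, tg b012 b013 b023 b123 b014 b024 b124 b034 b134 b234 = 4 → TG E q4 q2 s OF MT (TR (cd10 b012 b013 b023 b123 b014 b024 b124 b034 b134 b234)) b012 b013 b023 b123 b014 b024 b124 b034 b134 b234) (n : ℕ) :
    ∀ b012 b013 b023 b123 b014 b024 b124 b034 b134 b234 : ℕ, walk n b012 b013 b023 b123 b014 b024 b124 b034 b134 b234 = true → TG E q4 q2 s OF MT (TVr TR n b012 b013 b023 b123 b014 b024 b124 b034 b134 b234) b012 b013 b023 b123 b014 b024 b124 b034 b134 b234 := by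
  induction n with
  | zero =>
    intro b012 b013 b023 b123 b014 b024 b124 b034 b134 b234 h
    exact hr _ _ _ _ _ _ _ _ _ _ (Nat.eq_of_beq_eq_true h)
  | succ n ih =>
    intro b012 b013 b023 b123 b014 b024 b124 b034 b134 b234 h
    change (cond (Nat.beq (tg b012 b013 b023 b123 b014 b024 b124 b034 b134 b234) 4) true
      (cond (Nat.beq (tg b012 b013 b023 b123 b014 b024 b124 b034 b134 b234) 0) (walk n b012 b013 b123 b023 b014 b124 b024 b134 b034 b234)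
      (cond (Nat.beq (tg b012 b013 b023 b123 b014 b024 b124 b034 b134 b234) 1) (walk n b012 b023 b013 b123 b024 b014 b124 b034 b234 b134)
      (cond (Nat.beq (tg b012 b013 b023 b123 b014 b024 b124 b034 b134 b234) 2) (walk n b013 b012 b023 b123 b014 b034 b134 b024 b124 b234)
      (cond (Nat.beq (tg b012 b013 b023 b123 b014 b024 b124 b034 b134 b234) 3) (walk n b012 b014 b024 b124 b013 b023 b123 b034 b134 b234) false))))) = true at h
    change TG E q4 q2 s OF MT (cond (Nat.beq (tg b012 b013 b023 b123 b014 b024 b124 b034 b134 b234) 4) (TR (cd10 b012 b013 b023 b123 b014 b024 b124 b034 b134 b234))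
      (cond (Nat.beq (tg b012 b013 b023 b123 b014 b024 b124 b034 b134 b234) 0) (SW0 (TVr TR n b012 b013 b123 b023 b014 b124 b024 b134 b034 b234))
      (cond (Nat.beq (tg b012 b013 b023 b123 b014 b024 b124 b034 b134 b234) 1) (SW1 (TVr TR n b012 b023 b013 b123 b024 b014 b124 b034 b234 b134))
      (cond (Nat.beq (tg b012 b013 b023 b123 b014 b024 b124 b034 b134 b234) 2) (SW2 (TVr TR n b013 b012 b023 b123 b014 b034 b134 b024 b124 b234))
        (SW3 (TVr TR n b012 b014 b024 b124 b013 b023 b123 b034 b134 b234)))))) b012 b013 b023 b123 b014 b024 b124 b034 b134 b234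
    cases c4 : Nat.beq (tg b012 b013 b023 b123 b014 b024 b124 b034 b134 b234) 4 with
    | true => exact hr _ _ _ _ _ _ _ _ _ _ (Nat.eq_of_beq_eq_true c4)
    | false =>
    rw [c4] at h
    cases c0 : Nat.beq (tg b012 b013 b023 b123 b014 b024 b124 b034 b134 b234) 0 with
    | true => rw [c0] at h; exact TG_sw0 hE h4 h2 (ih _ _ _ _ _ _ _ _ _ _ h)
    | false =>
    rw [c0] at h
    cases c1 : Nat.beq (tg b012 b013 b023 b123 b014 b024 b124 b034 b134 b234) 1 with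
    | true => rw [c1] at h; exact TG_sw1 hE h4 h2 (ih _ _ _ _ _ _ _ _ _ _ h)
    | false =>
    rw [c1] at h
    cases c2 : Nat.beq (tg b012 b013 b023 b123 b014 b024 b124 b034 b134 b234) 2 with
    | true => rw [c2] at h; exact TG_sw2 hE h4 h2 (ih _ _ _ _ _ _ _ _ _ _ h)
    | false =>
    rw [c2] at h
    cases c3 : Nat.beq (tg b012 b013 b023 b123 b014 b024 b124 b034 b134 b234) 3 with
    | true => rw [c3] at h; exact TG_sw3 hE h4 h2 (ih _ _ _ _ _ _ _ _ _ _ h)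
    | false => rw [c3] at h; simp at h

def TV (TR : ℕ → ℕ) (b012 b013 b023 b123 b014 b024 b124 b034 b134 b234 : ℕ) : ℕ := TVr TR 9 b012 b013 b023 b123 b014 b024 b124 b034 b134 b234

theorem TV_W (hE : Sy E) (hK : NoK4 E) (h4 : sym4 q4 = true) (h2 : sym2 q2 = true) {TR : ℕ → ℕ} {MT : ℕ}
    (hr : ∀ b012 b013 b023 b123 b014 b024 b124 b034 b134 b234 : ℕ, tg b012 b013 b023 b123 b014 b024 b124 b034 b134 b234 = 4 → TG E q4 q2 s OF MT (TR (cd10 b012 b013 b023 b123 b014 b024 b124 b034 b134 b234)) b012 b013 b023 b123 b014 b024 b124 b034 b134 b234)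
    (a b c d e v : V) : W 10 (TV TR (E a b c) (E a b d) (E a c d) (E b c d) (E a b e) (E a c e) (E b c e) (E a d e) (E b d e) (E c d e))
      [E a b v, E a c v, E b c v, E a d v, E b d v, E c d v, E a e v, E b e v, E c e v, E d e v] (gS E q4 q2 s OF a b c d e v) MT := by
  have h := (B2_true (B2_true (B2_true (B2_true (B2_true (B2_true (B2_true (B2_true (B2_true (B2_true walk_all (hE.b a b c)) (hE.b a b d)) (hE.b a c d)) (hE.b b c d)) (hE.b a b e)) (hE.b a c e)) (hE.b b c e)) (hE.b a d e)) (hE.b b d e)) (hE.b c d e))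
  have h5 : five (E a b c) (E a b d) (E a c d) (E b c d) (E a b e) (E a c e) (E b c e) (E a d e) (E b d e) (E c d e) = false := by
    unfold five
    rw [hK a b c d, hK a b c e, hK a b d e, hK a c d e, hK b c d e]
    rfl
  have hw := or_false_left h h5
  exact walk_TG hE h4 h2 hr 9 _ _ _ _ _ _ _ _ _ _ hw a b c d e v rfl rfl rfl rfl rfl rfl rfl rfl rfl rfl

end

/-- specification of the table of pairs of flags with labelled vertices `a b v` -/
def QFok (q3 : ℕ → ℕ → ℕ → ℕ) (QF : ℕ → ℕ → ℕ) (MQ : ℕ) : Prop :=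
  ∀ p0 p1 p2 p3 r0 r1 r2 r3 l0 l1 l2 l3 l4 l5 l6 l7 l8 l9 l10 : ℕ, Bt p0 → Bt p1 → Bt p2 → Bt p3 →
    Bt r0 → Bt r1 → Bt r2 → Bt r3 → Bt l0 → Bt l1 → Bt l2 → Bt l3 → Bt l4 → Bt l5 → Bt l6 → Bt l7 →
    Bt l8 → Bt l9 → Bt l10 →
    W 11 (QF (cd4 p0 p1 p2 p3) (cd4 r0 r1 r2 r3)) [l0, l1, l2, l3, l4, l5, l6, l7, l8, l9, l10]
      (q3 l10 (cd9 p0 l5 l6 p1 l7 l8 p2 p3 l9) (cd9 r0 l3 l4 r1 l0 l1 r2 r3 l2)) MQ

/-- specification of the rows of the table of flags -/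
def RWok (q3 : ℕ → ℕ → ℕ → ℕ) (RW : ℕ → ℕ → ℕ) (MQ : ℕ) : Prop :=
  ∀ t x0 x1 x2 y0 y1 y2 s0 s1 s2 z0 z1 z2 w0 w1 w2 r0 r1 r2 : ℕ, Bt t → Bt x0 → Bt x1 → Bt x2 →
    Bt y0 → Bt y1 → Bt y2 → Bt s0 → Bt s1 → Bt s2 → Bt z0 → Bt z1 → Bt z2 → Bt w0 → Bt w1 → Bt w2 →
    Bt r0 → Bt r1 → Bt r2 →
    W 9 (RW t (cd9 x0 x1 x2 y0 y1 y2 s0 s1 s2)) [w0, w1, w2, r0, r1, r2, z0, z1, z2]
      (q3 t (cd9 x0 x1 x2 y0 y1 y2 s0 s1 s2) (cd9 z0 z1 z2 w0 w1 w2 r0 r1 r2)) MQ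

def FL (QF : ℕ → ℕ → ℕ) (abx aby abz abw axy bxy azw bzw axz bxz ayw byw axw bxw ayz byz : ℕ) : ℕ :=
  F1 (QF (cd4 abx aby axy bxy) (cd4 abz abw azw bzw)) (QF (cd4 abx abz axz bxz) (cd4 aby abw ayw byw))
    (QF (cd4 abx abw axw bxw) (cd4 abz aby ayz byz))

/-- cut out the part of a row where the last three bits are given -/
def cut (r x0 x1 x2 : ℕ) : ℕ := hf 6 x0 (hf 7 x1 (hf 8 x2 r))

theorem cut_W {r g M l0 l1 l2 l3 l4 l5 x0 x1 x2 : ℕ} (h : W 9 r [l0, l1, l2, l3, l4, l5, x0, x1, x2] g M)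
    (h0 : Bt x0) (h1 : Bt x1) (h2 : Bt x2) : W 6 (cut r x0 x1 x2) [l0, l1, l2, l3, l4, l5] g M :=
  W.hf (W.hf (W.hf (l := [l0, l1, l2, l3, l4, l5, x0, x1]) h rfl h2 : W 8 _ ([l0, l1, l2, l3, l4, l5, x0] ++ [x1]) g M)
    rfl h1 : W 7 _ ([l0, l1, l2, l3, l4, l5] ++ [x0]) g M) rfl h0

/-- the four terms in which the last vertex meets `a b c z` -/
def V6 (RW : ℕ → ℕ → ℕ) (abc abz acz bcz abx acx bcx azx bzx czx aby acy bcy azy bzy czy axy bxy cxy zxy : ℕ) : ℕ :=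
  Nat.add (cut (RW abc (cd9 abx acx bcx aby acy bcy axy bxy cxy)) abz acz bcz)
    (Nat.add (VP0 (cut (RW abz (cd9 abx azx bzx aby azy bzy axy bxy zxy)) abc acz bcz))
    (Nat.add (VP1 (cut (RW acz (cd9 acx azx czx acy azy czy axy cxy zxy)) abc abz bcz))
      (VP2 (cut (RW bcz (cd9 bcx bzx czx bcy bzy czy bxy cxy zxy)) abc abz acz))))

section
variable {V : Type} {E : V → V → V → ℕ} {q3 : ℕ → ℕ → ℕ → ℕ}

theorem FL_W (hE : Sy E) {QF : ℕ → ℕ → ℕ} {MQ : ℕ} (hQ : QFok q3 QF MQ) (hM : 3 * MQ < 2 ^ 32)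
    (a b x y z w v : V) :
    W 15 (FL QF (E a b x) (E a b y) (E a b z) (E a b w) (E a x y) (E b x y) (E a z w) (E b z w)
        (E a x z) (E b x z) (E a y w) (E b y w) (E a x w) (E b x w) (E a y z) (E b y z))
      [E a w v, E b w v, E z w v, E a z v, E b z v, E a x v, E b x v, E a y v, E b y v, E x y v,
        E a b v, E x z v, E y w v, E x w v, E y z v] (R3 E q3 a b x y z w v) (3 * MQ) := by
  have t1 := hQ (E a b x) (E a b y) (E a x y) (E b x y) (E a b z) (E a b w) (E a z w) (E b z w)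
    (E a w v) (E b w v) (E z w v) (E a z v) (E b z v) (E a x v) (E b x v) (E a y v) (E b y v) (E x y v)
    (E a b v) (hE.b _ _ _) (hE.b _ _ _) (hE.b _ _ _) (hE.b _ _ _) (hE.b _ _ _) (hE.b _ _ _) (hE.b _ _ _)
    (hE.b _ _ _) (hE.b _ _ _) (hE.b _ _ _) (hE.b _ _ _) (hE.b _ _ _) (hE.b _ _ _) (hE.b _ _ _)
    (hE.b _ _ _) (hE.b _ _ _) (hE.b _ _ _) (hE.b _ _ _) (hE.b _ _ _)
  have t2 := hQ (E a b x) (E a b z) (E a x z) (E b x z) (E a b y) (E a b w) (E a y w) (E b y w)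
    (E a w v) (E b w v) (E y w v) (E a y v) (E b y v) (E a x v) (E b x v) (E a z v) (E b z v) (E x z v)
    (E a b v) (hE.b _ _ _) (hE.b _ _ _) (hE.b _ _ _) (hE.b _ _ _) (hE.b _ _ _) (hE.b _ _ _) (hE.b _ _ _)
    (hE.b _ _ _) (hE.b _ _ _) (hE.b _ _ _) (hE.b _ _ _) (hE.b _ _ _) (hE.b _ _ _) (hE.b _ _ _)
    (hE.b _ _ _) (hE.b _ _ _) (hE.b _ _ _) (hE.b _ _ _) (hE.b _ _ _)
  have t3 := hQ (E a b x) (E a b w) (E a x w) (E b x w) (E a b z) (E a b y) (E a y z) (E b y z)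
    (E a y v) (E b y v) (E y z v) (E a z v) (E b z v) (E a x v) (E b x v) (E a w v) (E b w v) (E x w v)
    (E a b v) (hE.b _ _ _) (hE.b _ _ _) (hE.b _ _ _) (hE.b _ _ _) (hE.b _ _ _) (hE.b _ _ _) (hE.b _ _ _)
    (hE.b _ _ _) (hE.b _ _ _) (hE.b _ _ _) (hE.b _ _ _) (hE.b _ _ _) (hE.b _ _ _) (hE.b _ _ _)
    (hE.b _ _ _) (hE.b _ _ _) (hE.b _ _ _) (hE.b _ _ _) (hE.b _ _ _)
  have h := F1_W hM t1 t2 t3
  have f1 : F3 E q3 a b v x y z w = q3 (E a b v)
      (cd9 (E a b x) (E a x v) (E b x v) (E a b y) (E a y v) (E b y v) (E a x y) (E b x y) (E x y v))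
      (cd9 (E a b z) (E a z v) (E b z v) (E a b w) (E a w v) (E b w v) (E a z w) (E b z w) (E z w v)) := by
    unfold F3
    rw [hE.h132 a x v, hE.h132 b x v, hE.h132 a y v, hE.h132 b y v, hE.h132 a z v, hE.h132 b z v,
      hE.h132 a w v, hE.h132 b w v, hE.h231 v x y, hE.h231 v z w]
  have f2 : F3 E q3 a b v x z y w = q3 (E a b v)
      (cd9 (E a b x) (E a x v) (E b x v) (E a b z) (E a z v) (E b z v) (E a x z) (E b x z) (E x z v))
      (cd9 (E a b y) (E a y v) (E b y v) (E a b w) (E a w v) (E b w v) (E a y w) (E b y w) (E y w v)) := by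
    unfold F3
    rw [hE.h132 a x v, hE.h132 b x v, hE.h132 a y v, hE.h132 b y v, hE.h132 a z v, hE.h132 b z v,
      hE.h132 a w v, hE.h132 b w v, hE.h231 v x z, hE.h231 v y w]
  have f3 : F3 E q3 a b v x w z y = q3 (E a b v)
      (cd9 (E a b x) (E a x v) (E b x v) (E a b w) (E a w v) (E b w v) (E a x w) (E b x w) (E x w v))
      (cd9 (E a b z) (E a z v) (E b z v) (E a b y) (E a y v) (E b y v) (E a y z) (E b y z) (E y z v)) := by
    unfold F3
    rw [hE.h132 a x v, hE.h132 b x v, hE.h132 a y v, hE.h132 b y v, hE.h132 a z v, hE.h132 b z v,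
      hE.h132 a w v, hE.h132 b w v, hE.h231 v x w, hE.h132 a y z, hE.h132 b y z, hE.h132 v y z, hE.h231 v y z]
  unfold R3
  rw [f1, f2, f3]
  exact h

theorem V6_W (hE : Sy E) {RW : ℕ → ℕ → ℕ} {MQ : ℕ} (hR : RWok q3 RW MQ) (hM : 4 * MQ < 2 ^ 32)
    (a b c z x y v : V) :
    W 6 (V6 RW (E a b c) (E a b z) (E a c z) (E b c z) (E a b x) (E a c x) (E b c x) (E a z x) (E b z x)
        (E c z x) (E a b y) (E a c y) (E b c y) (E a z y) (E b z y) (E c z y) (E a x y) (E b x y)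
        (E c x y) (E z x y))
      [E a b v, E a c v, E b c v, E a z v, E b z v, E c z v] (P3 E q3 a b c z x y v) (4 * MQ) := by
  have t1 := cut_W (hR (E a b c) (E a b x) (E a c x) (E b c x) (E a b y) (E a c y) (E b c y) (E a x y)
    (E b x y) (E c x y) (E a b z) (E a c z) (E b c z) (E a b v) (E a c v) (E b c v) (E a z v) (E b z v)
    (E c z v) (hE.b _ _ _) (hE.b _ _ _) (hE.b _ _ _) (hE.b _ _ _) (hE.b _ _ _) (hE.b _ _ _) (hE.b _ _ _)
    (hE.b _ _ _) (hE.b _ _ _) (hE.b _ _ _) (hE.b _ _ _) (hE.b _ _ _) (hE.b _ _ _) (hE.b _ _ _)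
    (hE.b _ _ _) (hE.b _ _ _) (hE.b _ _ _) (hE.b _ _ _) (hE.b _ _ _)) (hE.b _ _ _) (hE.b _ _ _) (hE.b _ _ _)
  have t2 := cut_W (hR (E a b z) (E a b x) (E a z x) (E b z x) (E a b y) (E a z y) (E b z y) (E a x y)
    (E b x y) (E z x y) (E a b c) (E a c z) (E b c z) (E a b v) (E a z v) (E b z v) (E a c v) (E b c v)
    (E c z v) (hE.b _ _ _) (hE.b _ _ _) (hE.b _ _ _) (hE.b _ _ _) (hE.b _ _ _) (hE.b _ _ _) (hE.b _ _ _)
    (hE.b _ _ _) (hE.b _ _ _) (hE.b _ _ _) (hE.b _ _ _) (hE.b _ _ _) (hE.b _ _ _) (hE.b _ _ _)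
    (hE.b _ _ _) (hE.b _ _ _) (hE.b _ _ _) (hE.b _ _ _) (hE.b _ _ _)) (hE.b _ _ _) (hE.b _ _ _) (hE.b _ _ _)
  have t3 := cut_W (hR (E a c z) (E a c x) (E a z x) (E c z x) (E a c y) (E a z y) (E c z y) (E a x y)
    (E c x y) (E z x y) (E a b c) (E a b z) (E b c z) (E a c v) (E a z v) (E c z v) (E a b v) (E b c v)
    (E b z v) (hE.b _ _ _) (hE.b _ _ _) (hE.b _ _ _) (hE.b _ _ _) (hE.b _ _ _) (hE.b _ _ _) (hE.b _ _ _)
    (hE.b _ _ _) (hE.b _ _ _) (hE.b _ _ _) (hE.b _ _ _) (hE.b _ _ _) (hE.b _ _ _) (hE.b _ _ _)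
    (hE.b _ _ _) (hE.b _ _ _) (hE.b _ _ _) (hE.b _ _ _) (hE.b _ _ _)) (hE.b _ _ _) (hE.b _ _ _) (hE.b _ _ _)
  have t4 := cut_W (hR (E b c z) (E b c x) (E b z x) (E c z x) (E b c y) (E b z y) (E c z y) (E b x y)
    (E c x y) (E z x y) (E a b c) (E a b z) (E a c z) (E b c v) (E b z v) (E c z v) (E a b v) (E a c v)
    (E a z v) (hE.b _ _ _) (hE.b _ _ _) (hE.b _ _ _) (hE.b _ _ _) (hE.b _ _ _) (hE.b _ _ _) (hE.b _ _ _)
    (hE.b _ _ _) (hE.b _ _ _) (hE.b _ _ _) (hE.b _ _ _) (hE.b _ _ _) (hE.b _ _ _) (hE.b _ _ _)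
    (hE.b _ _ _) (hE.b _ _ _) (hE.b _ _ _) (hE.b _ _ _) (hE.b _ _ _)) (hE.b _ _ _) (hE.b _ _ _) (hE.b _ _ _)
  have f1 : F3 E q3 a b c x y z v = q3 (E a b c)
      (cd9 (E a b x) (E a c x) (E b c x) (E a b y) (E a c y) (E b c y) (E a x y) (E b x y) (E c x y))
      (cd9 (E a b z) (E a c z) (E b c z) (E a b v) (E a c v) (E b c v) (E a z v) (E b z v) (E c z v)) := rfl
  have f2 : F3 E q3 a b z x y c v = q3 (E a b z)
      (cd9 (E a b x) (E a z x) (E b z x) (E a b y) (E a z y) (E b z y) (E a x y) (E b x y) (E z x y))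
      (cd9 (E a b c) (E a c z) (E b c z) (E a b v) (E a z v) (E b z v) (E a c v) (E b c v) (E c z v)) := by
    unfold F3
    rw [hE.h132 a c z, hE.h132 b c z, hE.h213 c z v]
  have f3 : F3 E q3 a c z x y b v = q3 (E a c z)
      (cd9 (E a c x) (E a z x) (E c z x) (E a c y) (E a z y) (E c z y) (E a x y) (E c x y) (E z x y))
      (cd9 (E a b c) (E a b z) (E b c z) (E a c v) (E a z v) (E c z v) (E a b v) (E b c v) (E b z v)) := by
    unfold F3
    rw [hE.h132 a b c, hE.h132 a b z, hE.h231 b c z, hE.h213 b c v, hE.h213 b z v]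
  have f4 : F3 E q3 b c z x y a v = q3 (E b c z)
      (cd9 (E b c x) (E b z x) (E c z x) (E b c y) (E b z y) (E c z y) (E b x y) (E c x y) (E z x y))
      (cd9 (E a b c) (E a b z) (E a c z) (E b c v) (E b z v) (E c z v) (E a b v) (E a c v) (E a z v)) := by
    unfold F3
    rw [hE.h231 a b c, hE.h231 a b z, hE.h231 a c z, hE.h213 a b v, hE.h213 a c v, hE.h213 a z v]
  unfold P3
  rw [f1, f2, f3, f4]
  have h := W.add t1 (W.add (VP0_W t2) (W.add (VP1_W t3) (VP2_W t4) (by omega)) (by omega)) (by omega)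
  have e : MQ + (MQ + (MQ + MQ)) = 4 * MQ := by ring
  rw [e] at h
  exact h

end
end Pool.Agent.K3h90.T34
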