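import Pool.Agent.K3h90.T34.KRdef
import Pool.Agent.K3h90.T34.K3
import Pool.Agent.K3h90.T34.Loc
import Pool.Agent.K3h90.T34.KR0
import Pool.Agent.K3h90.T34.KR1

/-! Rows of the table of flags. -/

set_option autoImplicit false
set_option maxRecDepth 100000
set_option maxHeartbeats 4000000
set_option linter.unusedVariables false

namespace Pool.Agent.K3h90.T34
open Finset
open Pool.Agent.H122R2.N6

theorem rw_0 {i : ℕ} (hi : i < 237) : Nat.beq (rwc 0 i) (RT 0 i) = true := by
  rcases Nat.lt_or_ge i 40 with h | h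
  · exact nrg_true rw0_0 (by omega) (by omega)
  rcases Nat.lt_or_ge i 80 with h | h
  · exact nrg_true rw0_40 (by omega) (by omega)
  rcases Nat.lt_or_ge i 120 with h | h
  · exact nrg_true rw0_80 (by omega) (by omega)
  rcases Nat.lt_or_ge i 160 with h | h
  · exact nrg_true rw0_120 (by omega) (by omega)
  rcases Nat.lt_or_ge i 200 with h | h
  · exact nrg_true rw0_160 (by omega) (by omega)
  exact nrg_true rw0_200 (by omega) (by omega)

theorem rw_1 {i : ℕ} (hi : i < 192) : Nat.beq (rwc 1 i) (RT 1 i) = true := by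
  rcases Nat.lt_or_ge i 40 with h | h
  · exact nrg_true rw1_0 (by omega) (by omega)
  rcases Nat.lt_or_ge i 80 with h | h
  · exact nrg_true rw1_40 (by omega) (by omega)
  rcases Nat.lt_or_ge i 120 with h | h
  · exact nrg_true rw1_80 (by omega) (by omega)
  rcases Nat.lt_or_ge i 160 with h | h
  · exact nrg_true rw1_120 (by omega) (by omega)
  exact nrg_true rw1_160 (by omega) (by omega)

theorem RT_eq {t : ℕ} (ht : Bt t) {i : ℕ} (hi : i ≤ nk t) : RT t i = rwc t i := by
  rcases nk_eq ht hi with ⟨rfl, h⟩ | ⟨rfl, h⟩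
  · exact (Nat.eq_of_beq_eq_true (rw_0 h)).symm
  · exact (Nat.eq_of_beq_eq_true (rw_1 h)).symm

theorem MQ_lt : MQ < 2 ^ 32 := by unfold MQ; norm_num

theorem rwc_W {t i : ℕ} (ht : Bt t) (hi : i ≤ nk t) {y0 y1 y2 s0 s1 s2 x0 x1 x2 : ℕ} (g0 : Bt y0) (g1 : Bt y1)
    (g2 : Bt y2) (g3 : Bt s0) (g4 : Bt s1) (g5 : Bt s2) (g6 : Bt x0) (g7 : Bt x1) (g8 : Bt x2) :
    W 9 (rwc t i) [y0, y1, y2, s0, s1, s2, x0, x1, x2] (cq t i (kd t (cd9 x0 x1 x2 y0 y1 y2 s0 s1 s2))) MQ := by
  have hq : ∀ {x0 x1 x2 y0 y1 y2 s0 s1 s2 : ℕ}, Bt x0 → Bt x1 → Bt x2 → Bt y0 → Bt y1 → Bt y2 → Bt s0 → Bt s1 →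
      Bt s2 → cq t i (kd t (cd9 x0 x1 x2 y0 y1 y2 s0 s1 s2)) ≤ MQ := by
    intro x0 x1 x2 y0 y1 y2 s0 s1 s2 h0 h1 h2 h3 h4 h5 h6 h7 h8
    exact (gs_at ht hi (kdb_at ht h0 h1 h2 h3 h4 h5 h6 h7 h8).1).2.2.2
  unfold rwc
  refine W.C2 (l := [y0, y1, y2, s0, s1, s2, x0, x1]) ?_ g8 ?_
  · intro b8 hb8
    repeat (refine Wb.C2 fun _ _ => ?_)
    exact Wb.leaf (hq (by assumption) (by assumption) (by assumption) (by assumption) (by assumption)
      (by assumption) (by assumption) (by assumption) (by assumption)) MQ_lt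
  refine W.C2 (l := [y0, y1, y2, s0, s1, s2, x0]) ?_ g7 ?_
  · intro b7 hb7
    repeat (refine Wb.C2 fun _ _ => ?_)
    exact Wb.leaf (hq (by assumption) (by assumption) (by assumption) (by assumption) (by assumption)
      (by assumption) (by assumption) (by assumption) (by assumption)) MQ_lt
  refine W.C2 (l := [y0, y1, y2, s0, s1, s2]) ?_ g6 ?_
  · intro b6 hb6
    repeat (refine Wb.C2 fun _ _ => ?_)
    exact Wb.leaf (hq (by assumption) (by assumption) (by assumption) (by assumption) (by assumption)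
      (by assumption) (by assumption) (by assumption) (by assumption)) MQ_lt
  refine W.C2 (l := [y0, y1, y2, s0, s1]) ?_ g5 ?_
  · intro b5 hb5
    repeat (refine Wb.C2 fun _ _ => ?_)
    exact Wb.leaf (hq (by assumption) (by assumption) (by assumption) (by assumption) (by assumption)
      (by assumption) (by assumption) (by assumption) (by assumption)) MQ_lt
  refine W.C2 (l := [y0, y1, y2, s0]) ?_ g4 ?_
  · intro b4 hb4
    repeat (refine Wb.C2 fun _ _ => ?_)
    exact Wb.leaf (hq (by assumption) (by assumption) (by assumption) (by assumption) (by assumption)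
      (by assumption) (by assumption) (by assumption) (by assumption)) MQ_lt
  refine W.C2 (l := [y0, y1, y2]) ?_ g3 ?_
  · intro b3 hb3
    repeat (refine Wb.C2 fun _ _ => ?_)
    exact Wb.leaf (hq (by assumption) (by assumption) (by assumption) (by assumption) (by assumption)
      (by assumption) (by assumption) (by assumption) (by assumption)) MQ_lt
  refine W.C2 (l := [y0, y1]) ?_ g2 ?_
  · intro b2 hb2
    repeat (refine Wb.C2 fun _ _ => ?_)
    exact Wb.leaf (hq (by assumption) (by assumption) (by assumption) (by assumption) (by assumption)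
      (by assumption) (by assumption) (by assumption) (by assumption)) MQ_lt
  refine W.C2 (l := [y0]) ?_ g1 ?_
  · intro b1 hb1
    repeat (refine Wb.C2 fun _ _ => ?_)
    exact Wb.leaf (hq (by assumption) (by assumption) (by assumption) (by assumption) (by assumption)
      (by assumption) (by assumption) (by assumption) (by assumption)) MQ_lt
  refine W.C2 (l := []) ?_ g0 ?_
  · intro b0 hb0
    repeat (refine Wb.C2 fun _ _ => ?_)
    exact Wb.leaf (hq (by assumption) (by assumption) (by assumption) (by assumption) (by assumption)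
      (by assumption) (by assumption) (by assumption) (by assumption)) MQ_lt
  exact W.leaf (hq (by assumption) (by assumption) (by assumption) (by assumption) (by assumption)
      (by assumption) (by assumption) (by assumption) (by assumption)) MQ_lt

theorem hRW : RWok q3 RW MQ := by
  intro t x0 x1 x2 y0 y1 y2 s0 s1 s2 z0 z1 z2 w0 w1 w2 r0 r1 r2 ht h0 h1 h2 h3 h4 h5 h6 h7 h8 g0 g1 g2 g3 g4 g5 g6 g7 g8
  have a := (kdb_at ht h0 h1 h2 h3 h4 h5 h6 h7 h8).1
  unfold RW q3
  rw [RT_eq ht a]
  exact rwc_W ht a g3 g4 g5 g6 g7 g8 g0 g1 g2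

end Pool.Agent.K3h90.T34
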