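import Pool.Agent.K3h90.T34.KQdef
import Pool.Agent.K3h90.T34.KR
import Pool.Agent.K3h90.T34.KQ0
import Pool.Agent.K3h90.T34.KQ1
import Pool.Agent.K3h90.T34.KQ2
import Pool.Agent.K3h90.T34.KQ3

/-! Pairs of flags. -/

set_option autoImplicit false
set_option maxRecDepth 100000
set_option maxHeartbeats 4000000
set_option linter.unusedVariables false

namespace Pool.Agent.K3h90.T34
open Finset
open Pool.Agent.H122R2.N6

theorem qck_all {p0 p1 p2 p3 : ℕ} (h0 : Bt p0) (h1 : Bt p1) (h2 : Bt p2) (h3 : Bt p3) : qck p0 p1 p2 p3 = true := by
  rcases h0 with rfl | rfl <;> rcases h1 with rfl | rfl <;> rcases h2 with rfl | rfl <;> rcases h3 with rfl | rfl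
  exacts [qc0, qc8, qc4, qc12, qc2, qc10, qc6, qc14, qc1, qc9, qc5, qc13, qc3, qc11, qc7, qc15]

theorem qfc_W {p0 p1 p2 p3 r0 r1 r2 r3 : ℕ} (hp0 : Bt p0) (hp1 : Bt p1) (hp2 : Bt p2) (hp3 : Bt p3)
    (hr0 : Bt r0) (hr1 : Bt r1) (hr2 : Bt r2) (hr3 : Bt r3) {l0 l1 l2 l3 l4 l5 l6 l7 l8 l9 l10 : ℕ}
    (g0 : Bt l0) (g1 : Bt l1) (g2 : Bt l2) (g3 : Bt l3) (g4 : Bt l4) (g5 : Bt l5) (g6 : Bt l6) (g7 : Bt l7)
    (g8 : Bt l8) (g9 : Bt l9) (g10 : Bt l10) :
    W 11 (qfc p0 p1 p2 p3 r0 r1 r2 r3) [l0, l1, l2, l3, l4, l5, l6, l7, l8, l9, l10]
      (q3 l10 (cd9 p0 l5 l6 p1 l7 l8 p2 p3 l9) (cd9 r0 l3 l4 r1 l0 l1 r2 r3 l2)) MQ := by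
  unfold qfc
  refine W.C2 (l := [l0, l1, l2, l3, l4, l5, l6, l7, l8, l9]) ?_ g10 ?_
  · intro b10 hb10
    repeat (refine Wb.C2 fun _ _ => ?_)
    exact Wb.leaf (q3_le (by assumption) (by assumption) (by assumption) (by assumption) (by assumption) (by assumption) (by assumption) (by assumption) (by assumption) (by assumption) (by assumption) (by assumption) (by assumption) (by assumption) (by assumption) (by assumption) (by assumption) (by assumption) (by assumption) ) MQ_lt
  refine W.C2 (l := [l0, l1, l2, l3, l4, l5, l6, l7, l8]) ?_ g9 ?_
  · intro b9 hb9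
    repeat (refine Wb.C2 fun _ _ => ?_)
    exact Wb.leaf (q3_le (by assumption) (by assumption) (by assumption) (by assumption) (by assumption) (by assumption) (by assumption) (by assumption) (by assumption) (by assumption) (by assumption) (by assumption) (by assumption) (by assumption) (by assumption) (by assumption) (by assumption) (by assumption) (by assumption) ) MQ_lt
  refine W.C2 (l := [l0, l1, l2, l3, l4, l5, l6, l7]) ?_ g8 ?_
  · intro b8 hb8
    repeat (refine Wb.C2 fun _ _ => ?_)
    exact Wb.leaf (q3_le (by assumption) (by assumption) (by assumption) (by assumption) (by assumption) (by assumption) (by assumption) (by assumption) (by assumption) (by assumption) (by assumption) (by assumption) (by assumption) (by assumption) (by assumption) (by assumption) (by assumption) (by assumption) (by assumption) ) MQ_lt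
  refine W.C2 (l := [l0, l1, l2, l3, l4, l5, l6]) ?_ g7 ?_
  · intro b7 hb7
    repeat (refine Wb.C2 fun _ _ => ?_)
    exact Wb.leaf (q3_le (by assumption) (by assumption) (by assumption) (by assumption) (by assumption) (by assumption) (by assumption) (by assumption) (by assumption) (by assumption) (by assumption) (by assumption) (by assumption) (by assumption) (by assumption) (by assumption) (by assumption) (by assumption) (by assumption) ) MQ_lt
  refine W.C2 (l := [l0, l1, l2, l3, l4, l5]) ?_ g6 ?_
  · intro b6 hb6
    repeat (refine Wb.C2 fun _ _ => ?_)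
    exact Wb.leaf (q3_le (by assumption) (by assumption) (by assumption) (by assumption) (by assumption) (by assumption) (by assumption) (by assumption) (by assumption) (by assumption) (by assumption) (by assumption) (by assumption) (by assumption) (by assumption) (by assumption) (by assumption) (by assumption) (by assumption) ) MQ_lt
  refine W.C2 (l := [l0, l1, l2, l3, l4]) ?_ g5 ?_
  · intro b5 hb5
    repeat (refine Wb.C2 fun _ _ => ?_)
    exact Wb.leaf (q3_le (by assumption) (by assumption) (by assumption) (by assumption) (by assumption) (by assumption) (by assumption) (by assumption) (by assumption) (by assumption) (by assumption) (by assumption) (by assumption) (by assumption) (by assumption) (by assumption) (by assumption) (by assumption) (by assumption) ) MQ_lt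
  refine W.C2 (l := [l0, l1, l2, l3]) ?_ g4 ?_
  · intro b4 hb4
    repeat (refine Wb.C2 fun _ _ => ?_)
    exact Wb.leaf (q3_le (by assumption) (by assumption) (by assumption) (by assumption) (by assumption) (by assumption) (by assumption) (by assumption) (by assumption) (by assumption) (by assumption) (by assumption) (by assumption) (by assumption) (by assumption) (by assumption) (by assumption) (by assumption) (by assumption) ) MQ_lt
  refine W.C2 (l := [l0, l1, l2]) ?_ g3 ?_
  · intro b3 hb3
    repeat (refine Wb.C2 fun _ _ => ?_)
    exact Wb.leaf (q3_le (by assumption) (by assumption) (by assumption) (by assumption) (by assumption) (by assumption) (by assumption) (by assumption) (by assumption) (by assumption) (by assumption) (by assumption) (by assumption) (by assumption) (by assumption) (by assumption) (by assumption) (by assumption) (by assumption) ) MQ_lt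
  refine W.C2 (l := [l0, l1]) ?_ g2 ?_
  · intro b2 hb2
    repeat (refine Wb.C2 fun _ _ => ?_)
    exact Wb.leaf (q3_le (by assumption) (by assumption) (by assumption) (by assumption) (by assumption) (by assumption) (by assumption) (by assumption) (by assumption) (by assumption) (by assumption) (by assumption) (by assumption) (by assumption) (by assumption) (by assumption) (by assumption) (by assumption) (by assumption) ) MQ_lt
  refine W.C2 (l := [l0]) ?_ g1 ?_
  · intro b1 hb1
    repeat (refine Wb.C2 fun _ _ => ?_)
    exact Wb.leaf (q3_le (by assumption) (by assumption) (by assumption) (by assumption) (by assumption) (by assumption) (by assumption) (by assumption) (by assumption) (by assumption) (by assumption) (by assumption) (by assumption) (by assumption) (by assumption) (by assumption) (by assumption) (by assumption) (by assumption) ) MQ_lt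
  refine W.C2 (l := []) ?_ g0 ?_
  · intro b0 hb0
    repeat (refine Wb.C2 fun _ _ => ?_)
    exact Wb.leaf (q3_le (by assumption) (by assumption) (by assumption) (by assumption) (by assumption) (by assumption) (by assumption) (by assumption) (by assumption) (by assumption) (by assumption) (by assumption) (by assumption) (by assumption) (by assumption) (by assumption) (by assumption) (by assumption) (by assumption) ) MQ_lt
  exact W.leaf (q3_le (by assumption) (by assumption) (by assumption) (by assumption) (by assumption) (by assumption) (by assumption) (by assumption) (by assumption) (by assumption) (by assumption) (by assumption) (by assumption) (by assumption) (by assumption) (by assumption) (by assumption) (by assumption) (by assumption) ) MQ_lt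

theorem hQF : QFok q3 QF MQ := by
  intro p0 p1 p2 p3 r0 r1 r2 r3 l0 l1 l2 l3 l4 l5 l6 l7 l8 l9 l10 hp0 hp1 hp2 hp3 hr0 hr1 hr2 hr3 g0 g1 g2 g3 g4 g5 g6 g7 g8 g9 g10
  have h := B2_true (B2_true (B2_true (B2_true (qck_all hp0 hp1 hp2 hp3) hr0) hr1) hr2) hr3
  rw [← Nat.eq_of_beq_eq_true h]
  exact qfc_W hp0 hp1 hp2 hp3 hr0 hr1 hr2 hr3 g0 g1 g2 g3 g4 g5 g6 g7 g8 g9 g10

end Pool.Agent.K3h90.T34
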