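import Pool.Agent.K3h90.T34.Qfs
import Pool.Agent.K3h90.T34.Ineq

/-! Pairs of flags. -/

set_option autoImplicit false
set_option maxRecDepth 100000
set_option maxHeartbeats 4000000
set_option linter.unusedVariables false

namespace Pool.Agent.K3h90.T34
open Finset
open Pool.Agent.H122R2.N6


def qck (p0 p1 p2 p3 : ℕ) : Bool := B2 fun r0 => B2 fun r1 => B2 fun r2 => B2 fun r3 =>
  Nat.beq (qfc p0 p1 p2 p3 r0 r1 r2 r3) (QF (cd4 p0 p1 p2 p3) (cd4 r0 r1 r2 r3))

end Pool.Agent.K3h90.T34
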