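import Pool.Agent.K3h90.T34.Rows
import Pool.Agent.K3h90.T34.Ineq

/-! Rows of the table of flags. -/

set_option autoImplicit false
set_option maxRecDepth 100000
set_option maxHeartbeats 4000000
set_option linter.unusedVariables false

namespace Pool.Agent.K3h90.T34
open Finset
open Pool.Agent.H122R2.N6


def rck (t lo n : ℕ) : Bool := nrg lo n fun i => Nat.beq (rwc t i) (RT t i)

end Pool.Agent.K3h90.T34
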