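import Pool.Agent.K3h90.T34.KTdef

/-! The packed values of the six-vertex functional. -/

set_option autoImplicit false
set_option maxRecDepth 100000
set_option maxHeartbeats 4000000
set_option linter.unusedVariables false

namespace Pool.Agent.K3h90.T34
open Finset
open Pool.Agent.H122R2.N6

theorem tr8 : trp 0 0 0 1 = true := by decide +kernel
theorem tr9 : trp 1 0 0 1 = true := by decide +kernel
theorem tr10 : trp 0 1 0 1 = true := by decide +kernel
theorem tr11 : trp 1 1 0 1 = true := by decide +kernel

end Pool.Agent.K3h90.T34
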