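import Pool.Agent.K3h90.T34.KTdef
import Pool.Agent.K3h90.T34.KT0
import Pool.Agent.K3h90.T34.KT1
import Pool.Agent.K3h90.T34.KT2
import Pool.Agent.K3h90.T34.KT3

/-! The packed values of the six-vertex functional. -/

set_option autoImplicit false
set_option maxRecDepth 100000
set_option maxHeartbeats 4000000
set_option linter.unusedVariables false

namespace Pool.Agent.K3h90.T34
open Finset
open Pool.Agent.H122R2.N6

theorem tr_all {b012 b013 b023 b123 b014 b024 b124 b034 b134 b234 : ℕ} (h0 : Bt b012) (h1 : Bt b013) (h2 : Bt b023) (h3 : Bt b123) (h4 : Bt b014)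
    (h5 : Bt b024) (h6 : Bt b124) (h7 : Bt b034) (h8 : Bt b134) (h9 : Bt b234) : trc b012 b013 b023 b123 b014 b024 b124 b034 b134 b234 = true := by
  have h : trp b012 b013 b023 b123 = true := by
    rcases h0 with rfl | rfl <;> rcases h1 with rfl | rfl <;> rcases h2 with rfl | rfl <;> rcases h3 with rfl | rfl
    exacts [tr0, tr8, tr4, tr12, tr2, tr10, tr6, tr14, tr1, tr9, tr5, tr13, tr3, tr11, tr7, tr15]
  exact B2_true (B2_true (B2_true (B2_true (B2_true (B2_true h h4) h5) h6) h7) h8) h9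

theorem hTR {V : Type} {E : V → V → V → ℕ} (hE : Sy E) (hK : NoK4 E) (b012 b013 b023 b123 b014 b024 b124 b034 b134 b234 : ℕ)
    (h0 : Bt b012) (h1 : Bt b013) (h2 : Bt b023) (h3 : Bt b123) (h4 : Bt b014)
    (h5 : Bt b024) (h6 : Bt b124) (h7 : Bt b034) (h8 : Bt b134) (h9 : Bt b234) (ht : tg b012 b013 b023 b123 b014 b024 b124 b034 b134 b234 = 4) :
    TG E q4 q2 sc OF MT (TR (cd10 b012 b013 b023 b123 b014 b024 b124 b034 b134 b234)) b012 b013 b023 b123 b014 b024 b124 b034 b134 b234 := by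
  have h := tr_all h0 h1 h2 h3 h4 h5 h6 h7 h8 h9
  unfold trc at h
  rw [ht] at h
  have h' := or_false_left h rfl
  rw [Bool.and_eq_true, Bool.and_eq_true] at h'
  have hx : Wb 10 (TR (cd10 b012 b013 b023 b123 b014 b024 b124 b034 b134 b234)) MT := Wb_of (k := 26) (by norm_num) h'.1.1 h'.1.2
  exact chkR_TG hE hK (by unfold sc; norm_num) hx h'.2

end Pool.Agent.K3h90.T34
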