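import Pool.Agent.K3h90.T34.Loc

/-! Loops over the links of a five-vertex structure, together with the lanes of a packed vector. -/

set_option autoImplicit false
set_option maxRecDepth 100000
set_option maxHeartbeats 4000000

namespace Pool.Agent.K3h90.T34
open Pool.Agent.H122R2.N6

/-- `P` holds for all links without a complete 3-graph on four vertices, with the lanes of `x` -/
def nest (P : ℕ → ℕ → ℕ → ℕ → ℕ → ℕ → ℕ → ℕ → ℕ → ℕ → ℕ → Bool) (x b012 b013 b023 b123 b014 b024 b124 b034 b134 b234 : ℕ) : Bool :=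
  B2 fun b345 => B2 fun b245 => B2 fun b145 => B2 fun b045 => B2 fun b235 => or (k4b b234 b235 b245 b345) (B2 fun b135 => or (k4b b134 b135 b145 b345) (B2 fun b035 => or (k4b b034 b035 b045 b345) (B2 fun b125 => or (k4b b123 b125 b135 b235) (or (k4b b124 b125 b145 b245) (B2 fun b025 => or (k4b b023 b025 b035 b235) (or (k4b b024 b025 b045 b245) (B2 fun b015 => or (k4b b012 b015 b025 b125) (or (k4b b013 b015 b035 b135) (or (k4b b014 b015 b045 b145) (P (hf 0 b015 (hf 1 b025 (hf 2 b125 (hf 3 b035 (hf 4 b135 (hf 5 b235 (hf 6 b045 (hf 7 b145 (hf 8 b245 (hf 9 b345 x)))))))))) b015 b025 b125 b035 b135 b235 b045 b145 b245 b345))))))))))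

def lane (x b015 b025 b125 b035 b135 b235 b045 b145 b245 b345 : ℕ) : ℕ := (hf 0 b015 (hf 1 b025 (hf 2 b125 (hf 3 b035 (hf 4 b135 (hf 5 b235 (hf 6 b045 (hf 7 b145 (hf 8 b245 (hf 9 b345 x))))))))))

section
variable {V : Type} {E : V → V → V → ℕ}

theorem nest_at (hE : Sy E) (hK : NoK4 E) {P : ℕ → ℕ → ℕ → ℕ → ℕ → ℕ → ℕ → ℕ → ℕ → ℕ → ℕ → Bool} {x : ℕ}
    (a b c d e f : V) (h : nest P x (E a b c) (E a b d) (E a c d) (E b c d) (E a b e) (E a c e) (E b c e) (E a d e) (E b d e) (E c d e) = true) :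
    P (lane x (E a b f) (E a c f) (E b c f) (E a d f) (E b d f) (E c d f) (E a e f) (E b e f) (E c e f) (E d e f)) (E a b f) (E a c f) (E b c f) (E a d f) (E b d f) (E c d f) (E a e f) (E b e f) (E c e f) (E d e f) = true :=
  (or_false_left (or_false_left (or_false_left (B2_true (or_false_left (or_false_left (B2_true (or_false_left (or_false_left (B2_true (or_false_left (B2_true (or_false_left (B2_true (or_false_left (B2_true (B2_true (B2_true (B2_true (B2_true h (hE.b d e f)) (hE.b c e f)) (hE.b b e f)) (hE.b a e f)) (hE.b c d f)) (hK c d e f)) (hE.b b d f)) (hK b d e f)) (hE.b a d f)) (hK a d e f)) (hE.b b c f)) (hK b c d f)) (hK b c e f)) (hE.b a c f)) (hK a c d f)) (hK a c e f)) (hE.b a b f)) (hK a b c f)) (hK a b d f)) (hK a b e f))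

end

theorem lane_W {x g M l0 l1 l2 l3 l4 l5 l6 l7 l8 l9 : ℕ} (hx : Wb 10 x M) (h0 : Bt l0) (h1 : Bt l1) (h2 : Bt l2) (h3 : Bt l3) (h4 : Bt l4) (h5 : Bt l5) (h6 : Bt l6) (h7 : Bt l7) (h8 : Bt l8) (h9 : Bt l9)
    (h : g ≤ lane x l0 l1 l2 l3 l4 l5 l6 l7 l8 l9) : W 10 x [l0, l1, l2, l3, l4, l5, l6, l7, l8, l9] g M := by
  have w9 : Wb 9 (hf 9 l9 x) M := Wb.hf hx h9
  have w8 : Wb 8 (hf 8 l8 (hf 9 l9 x)) M := Wb.hf w9 h8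
  have w7 : Wb 7 (hf 7 l7 (hf 8 l8 (hf 9 l9 x))) M := Wb.hf w8 h7
  have w6 : Wb 6 (hf 6 l6 (hf 7 l7 (hf 8 l8 (hf 9 l9 x)))) M := Wb.hf w7 h6
  have w5 : Wb 5 (hf 5 l5 (hf 6 l6 (hf 7 l7 (hf 8 l8 (hf 9 l9 x))))) M := Wb.hf w6 h5
  have w4 : Wb 4 (hf 4 l4 (hf 5 l5 (hf 6 l6 (hf 7 l7 (hf 8 l8 (hf 9 l9 x)))))) M := Wb.hf w5 h4
  have w3 : Wb 3 (hf 3 l3 (hf 4 l4 (hf 5 l5 (hf 6 l6 (hf 7 l7 (hf 8 l8 (hf 9 l9 x))))))) M := Wb.hf w4 h3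
  have w2 : Wb 2 (hf 2 l2 (hf 3 l3 (hf 4 l4 (hf 5 l5 (hf 6 l6 (hf 7 l7 (hf 8 l8 (hf 9 l9 x)))))))) M := Wb.hf w3 h2
  have w1 : Wb 1 (hf 1 l1 (hf 2 l2 (hf 3 l3 (hf 4 l4 (hf 5 l5 (hf 6 l6 (hf 7 l7 (hf 8 l8 (hf 9 l9 x))))))))) M := Wb.hf w2 h1
  have w0 : Wb 0 (hf 0 l0 (hf 1 l1 (hf 2 l2 (hf 3 l3 (hf 4 l4 (hf 5 l5 (hf 6 l6 (hf 7 l7 (hf 8 l8 (hf 9 l9 x)))))))))) M := Wb.hf w1 h0
  have v0 : W 0 (hf 0 l0 (hf 1 l1 (hf 2 l2 (hf 3 l3 (hf 4 l4 (hf 5 l5 (hf 6 l6 (hf 7 l7 (hf 8 l8 (hf 9 l9 x)))))))))) [] g M := W.zero w0 h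
  have v1 : W 1 (hf 1 l1 (hf 2 l2 (hf 3 l3 (hf 4 l4 (hf 5 l5 (hf 6 l6 (hf 7 l7 (hf 8 l8 (hf 9 l9 x))))))))) [l0] g M := W.of_hf w1 h0 v0
  have v2 : W 2 (hf 2 l2 (hf 3 l3 (hf 4 l4 (hf 5 l5 (hf 6 l6 (hf 7 l7 (hf 8 l8 (hf 9 l9 x)))))))) [l0, l1] g M := W.of_hf w2 h1 v1
  have v3 : W 3 (hf 3 l3 (hf 4 l4 (hf 5 l5 (hf 6 l6 (hf 7 l7 (hf 8 l8 (hf 9 l9 x))))))) [l0, l1, l2] g M := W.of_hf w3 h2 v2
  have v4 : W 4 (hf 4 l4 (hf 5 l5 (hf 6 l6 (hf 7 l7 (hf 8 l8 (hf 9 l9 x)))))) [l0, l1, l2, l3] g M := W.of_hf w4 h3 v3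
  have v5 : W 5 (hf 5 l5 (hf 6 l6 (hf 7 l7 (hf 8 l8 (hf 9 l9 x))))) [l0, l1, l2, l3, l4] g M := W.of_hf w5 h4 v4
  have v6 : W 6 (hf 6 l6 (hf 7 l7 (hf 8 l8 (hf 9 l9 x)))) [l0, l1, l2, l3, l4, l5] g M := W.of_hf w6 h5 v5
  have v7 : W 7 (hf 7 l7 (hf 8 l8 (hf 9 l9 x))) [l0, l1, l2, l3, l4, l5, l6] g M := W.of_hf w7 h6 v6
  have v8 : W 8 (hf 8 l8 (hf 9 l9 x)) [l0, l1, l2, l3, l4, l5, l6, l7] g M := W.of_hf w8 h7 v7
  have v9 : W 9 (hf 9 l9 x) [l0, l1, l2, l3, l4, l5, l6, l7, l8] g M := W.of_hf w9 h8 v8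
  have v10 : W 10 x [l0, l1, l2, l3, l4, l5, l6, l7, l8, l9] g M := W.of_hf hx h9 v9
  exact v10

/-- the six-vertex inequality for all links -/
def chkR (q4 : ℕ → ℕ → ℕ → ℕ) (q2 : ℕ → ℕ → ℕ) (s OF x b012 b013 b023 b123 b014 b024 b124 b034 b134 b234 : ℕ) : Bool :=
  nest (fun y b015 b025 b125 b035 b135 b235 b045 b145 b245 b345 => Nat.ble (Nat.add (leaf4 q4 b012 b013 b023 b123 b014 b024 b124 b034 b134 b234 b015 b025 b125 b035 b135 b235 b045 b145 b245 b345)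
    (leaf2 q2 b012 b013 b023 b123 b014 b024 b124 b034 b134 b234 b015 b025 b125 b035 b135 b235 b045 b145 b245 b345)) (Nat.add (Nat.mul s y) OF)) x b012 b013 b023 b123 b014 b024 b124 b034 b134 b234

theorem chkR_TG {V : Type} {E : V → V → V → ℕ} (hE : Sy E) (hK : NoK4 E) {q4 : ℕ → ℕ → ℕ → ℕ} {q2 : ℕ → ℕ → ℕ}
    {s OF MT x b012 b013 b023 b123 b014 b024 b124 b034 b134 b234 : ℕ} (hs : 0 < s) (hx : Wb 10 x MT)
    (h : chkR q4 q2 s OF x b012 b013 b023 b123 b014 b024 b124 b034 b134 b234 = true) : TG E q4 q2 s OF MT x b012 b013 b023 b123 b014 b024 b124 b034 b134 b234 := by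
  intro a b c d e f h0 h1 h2 h3 h4 h5 h6 h7 h8 h9
  subst h0 h1 h2 h3 h4 h5 h6 h7 h8 h9
  have h1 := nest_at hE hK a b c d e f h
  have h2 := Nat.le_of_ble_eq_true h1
  change K4l E q4 a b c d e f + K2l E q2 a b c d e f ≤ s * (lane x (E a b f) (E a c f) (E b c f) (E a d f) (E b d f) (E c d f) (E a e f) (E b e f) (E c e f) (E d e f)) + OF at h2
  rw [K4l_eq E q4 hE.h132 hE.h231 hE.h213 hE.h312, K2l_eq E q2 hE.h132 hE.h231 hE.h213 hE.h312] at h2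
  exact lane_W hx (hE.b _ _ _) (hE.b _ _ _) (hE.b _ _ _) (hE.b _ _ _) (hE.b _ _ _) (hE.b _ _ _)
    (hE.b _ _ _) (hE.b _ _ _) (hE.b _ _ _) (hE.b _ _ _) (gS_le hs h2)

/-- a packed vector with lanes at most `2 ^ k - 1` -/
theorem Wb_of {n x k : ℕ} (hk : k ≤ 32) (hx : Nat.blt x (Nat.pow 2 (Nat.mul 32 (Nat.pow 2 n))) = true)
    (h : Nat.beq (Nat.land x (T34.rep (2 ^ 32 - 2 ^ k) n)) 0 = true) : Wb n x (2 ^ k - 1) := by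
  have h1 : x < 2 ^ (32 * 2 ^ n) := Nat.le_of_ble_eq_true hx
  exact ⟨h1, fun i => lanes_lt hk h1 (Nat.eq_of_beq_eq_true h) i⟩

end Pool.Agent.K3h90.T34

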