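import Pool.Agent.K3h90.T34.Tr
import Pool.Agent.K3h90.T34.T4
import Pool.Agent.K3h90.T34.Nest

/-! The packed values of the six-vertex functional. -/

set_option autoImplicit false
set_option maxRecDepth 100000
set_option maxHeartbeats 4000000
set_option linter.unusedVariables false

namespace Pool.Agent.K3h90.T34
open Finset
open Pool.Agent.H122R2.N6


def trc (b012 b013 b023 b123 b014 b024 b124 b034 b134 b234 : ℕ) : Bool := or (not (Nat.beq (tg b012 b013 b023 b123 b014 b024 b124 b034 b134 b234) 4))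
  (and (and (Nat.blt (TR (cd10 b012 b013 b023 b123 b014 b024 b124 b034 b134 b234)) (Nat.pow 2 (Nat.mul 32 (Nat.pow 2 10))))
      (Nat.beq (Nat.land (TR (cd10 b012 b013 b023 b123 b014 b024 b124 b034 b134 b234)) (T34.rep (2 ^ 32 - 2 ^ 26) 10)) 0))
    (chkR q4 q2 sc OF (TR (cd10 b012 b013 b023 b123 b014 b024 b124 b034 b134 b234)) b012 b013 b023 b123 b014 b024 b124 b034 b134 b234))

def trp (b012 b013 b023 b123 : ℕ) : Bool := B2 fun b014 => B2 fun b024 => B2 fun b124 => B2 fun b034 =>
  B2 fun b134 => B2 fun b234 => trc b012 b013 b023 b123 b014 b024 b124 b034 b134 b234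

end Pool.Agent.K3h90.T34
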