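import Mathlib

/-! Vectors of 32-bit lanes packed into one natural number. -/

set_option autoImplicit false

namespace Pool.Agent.K3h90.T34

/-- lane `i` of a packed vector with 32-bit lanes -/
def ln (x i : ℕ) : ℕ := Nat.mod (Nat.shiftRight x (Nat.mul 32 i)) 4294967296

/-- concatenation: the lanes of `y` follow the `2 ^ n` lanes of `x` -/
def cat (n x y : ℕ) : ℕ := Nat.add x (Nat.shiftLeft y (Nat.mul 32 (Nat.pow 2 n)))

/-- all `2 ^ n` lanes equal to `c` -/
def rep (c n : ℕ) : ℕ := Nat.rec c (fun k r => cat k r r) n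

/-- lanes with bit `p` set and bit `q` not set are full, the others empty -/
def msk (p q n : ℕ) : ℕ :=
  Nat.rec 4294967295 (fun k r => cond (Nat.beq k p) (cat k 0 r)
    (cond (Nat.beq k q) (cat k r 0) (cat k r r))) n

def ds (p q : ℕ) : ℕ := Nat.sub (Nat.pow 2 q) (Nat.pow 2 p)

def swy (n p q x : ℕ) : ℕ :=
  Nat.land (Nat.xor (Nat.shiftRight x (Nat.mul 32 (ds p q))) x) (msk p q n)

/-- exchange of the index bits `p < q` -/
def sw (n p q x : ℕ) : ℕ :=
  Nat.xor (Nat.xor x (swy n p q x)) (Nat.shiftLeft (swy n p q x) (Nat.mul 32 (ds p q)))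

def tr (p q t : ℕ) : ℕ := cond (Nat.beq t p) q (cond (Nat.beq t q) p t)

def idx (b : ℕ → Bool) : ℕ → ℕ
  | 0 => 0
  | n + 1 => idx b n + cond (b n) (2 ^ n) 0

theorem ln_eq (x i : ℕ) : ln x i = (x >>> (32 * i)) % 2 ^ 32 := rfl

theorem ln_eq' (x i : ℕ) : ln x i = x / 2 ^ (32 * i) % 2 ^ 32 := by
  rw [ln_eq, Nat.shiftRight_eq_div_pow]

theorem ln_lt (x i : ℕ) : ln x i < 2 ^ 32 := Nat.mod_lt _ (by norm_num)

theorem ln_zero (i : ℕ) : ln 0 i = 0 := by rw [ln_eq']; simp

theorem ln_and (x y i : ℕ) : ln (x &&& y) i = ln x i &&& ln y i := by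
  rw [ln_eq, ln_eq, ln_eq, Nat.shiftRight_and_distrib, Nat.and_mod_two_pow]

theorem ln_xor (x y i : ℕ) : ln (x ^^^ y) i = ln x i ^^^ ln y i := by
  rw [ln_eq, ln_eq, ln_eq, Nat.shiftRight_xor_distrib, Nat.xor_mod_two_pow]

theorem ln_shr (x k i : ℕ) : ln (x >>> (32 * k)) i = ln x (i + k) := by
  rw [ln_eq, ln_eq, ← Nat.shiftRight_add]
  congr 2
  ring

theorem ln_shl_lt (x k i : ℕ) (h : i < k) : ln (x <<< (32 * k)) i = 0 := by
  rw [ln_eq', Nat.shiftLeft_eq]
  obtain ⟨m, rfl⟩ := Nat.exists_eq_add_of_lt h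
  have : x * 2 ^ (32 * (i + m + 1)) = (x * 2 ^ (32 * m) * 2 ^ 32) * 2 ^ (32 * i) := by ring
  rw [this, Nat.mul_div_cancel _ (by positivity)]
  simp

theorem ln_shl_ge (x k i : ℕ) (h : k ≤ i) : ln (x <<< (32 * k)) i = ln x (i - k) := by
  rw [ln_eq', ln_eq', Nat.shiftLeft_eq]
  obtain ⟨m, rfl⟩ := Nat.exists_eq_add_of_le h
  rw [Nat.add_sub_cancel_left]
  have : 2 ^ (32 * (k + m)) = 2 ^ (32 * k) * 2 ^ (32 * m) := by ring
  rw [this, ← Nat.div_div_eq_div_mul, Nat.mul_div_cancel _ (by positivity)]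

theorem ln_of_lt {x m i : ℕ} (h : x < 2 ^ (32 * m)) (hi : m ≤ i) : ln x i = 0 := by
  rw [ln_eq', Nat.div_eq_of_lt, Nat.zero_mod]
  exact lt_of_lt_of_le h (Nat.pow_le_pow_right (by norm_num) (by omega))

theorem eq_zero_of_ln (z : ℕ) (h : ∀ i, ln z i = 0) : z = 0 := by
  induction z using Nat.strong_induction_on with
  | _ z ih =>
    by_contra hz
    have h0 := h 0
    rw [ln_eq'] at h0
    simp only [mul_zero, pow_zero, Nat.div_one] at h0
    have h1 : z / 2 ^ 32 < z := Nat.div_lt_self (Nat.pos_of_ne_zero hz) (by norm_num)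
    have h2 := ih (z / 2 ^ 32) h1 (fun i => by
      have := ln_shr z 1 i
      rw [mul_one, Nat.shiftRight_eq_div_pow] at this
      rw [this, h])
    have h3 := Nat.div_add_mod z (2 ^ 32)
    rw [h2, h0] at h3
    omega

theorem lt_of_ln {y m : ℕ} (h : ∀ i, m ≤ i → ln y i = 0) : y < 2 ^ (32 * m) := by
  have h1 : y >>> (32 * m) = 0 := eq_zero_of_ln _ (fun i => by
    rw [ln_shr]; exact h _ (by omega))
  rw [Nat.shiftRight_eq_div_pow] at h1
  exact (Nat.div_eq_zero_iff_lt (by positivity)).mp h1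

theorem shr_add_one {x y : ℕ} (h : ln x 0 + ln y 0 < 2 ^ 32) :
    (x + y) >>> 32 = x >>> 32 + y >>> 32 := by
  rw [ln_eq', ln_eq'] at h
  simp only [mul_zero, pow_zero, Nat.div_one] at h
  simp only [Nat.shiftRight_eq_div_pow]
  omega

theorem shr_add (k : ℕ) : ∀ {x y : ℕ}, (∀ i, i < k → ln x i + ln y i < 2 ^ 32) →
    (x + y) >>> (32 * k) = x >>> (32 * k) + y >>> (32 * k) := by
  induction k with
  | zero => intro x y _; simp
  | succ k ih =>
    intro x y h
    have e : 32 * (k + 1) = 32 + 32 * k := by ring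
    rw [e, Nat.shiftRight_add, Nat.shiftRight_add, Nat.shiftRight_add, shr_add_one (h 0 (by omega))]
    apply ih
    intro i hi
    have h1 := ln_shr x 1 i
    have h2 := ln_shr y 1 i
    rw [mul_one] at h1 h2
    rw [h1, h2]
    exact h _ (by omega)

theorem ln_add {x y i : ℕ} (h : ∀ j, j ≤ i → ln x j + ln y j < 2 ^ 32) :
    ln (x + y) i = ln x i + ln y i := by
  have h1 := shr_add i (x := x) (y := y) (fun j hj => h j (by omega))
  rw [ln_eq, h1, Nat.add_mod]
  exact Nat.mod_eq_of_lt (h i le_rfl)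

theorem cat_eq (n x y : ℕ) : cat n x y = x + y <<< (32 * 2 ^ n) := rfl

theorem ln_cat_lt {n x y i : ℕ} (hi : i < 2 ^ n) : ln (cat n x y) i = ln x i := by
  rw [cat_eq, ln_add, ln_shl_lt _ _ _ hi, add_zero]
  intro j hj
  rw [ln_shl_lt _ _ _ (by omega), add_zero]
  exact ln_lt _ _

theorem ln_cat_ge {n x y i : ℕ} (hx : x < 2 ^ (32 * 2 ^ n)) (hi : 2 ^ n ≤ i) :
    ln (cat n x y) i = ln y (i - 2 ^ n) := by
  rw [cat_eq, ln_add, ln_shl_ge _ _ _ hi, ln_of_lt hx hi, zero_add]
  intro j hj
  by_cases hj2 : j < 2 ^ n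
  · rw [ln_shl_lt _ _ _ hj2, add_zero]
    exact ln_lt _ _
  · rw [ln_of_lt hx (by omega), zero_add]
    exact ln_lt _ _

theorem cat_lt {n x y : ℕ} (hx : x < 2 ^ (32 * 2 ^ n)) (hy : y < 2 ^ (32 * 2 ^ n)) :
    cat n x y < 2 ^ (32 * 2 ^ (n + 1)) := by
  rw [cat_eq, Nat.shiftLeft_eq]
  have e : 2 ^ (32 * 2 ^ (n + 1)) = 2 ^ (32 * 2 ^ n) * 2 ^ (32 * 2 ^ n) := by
    rw [← pow_add]; congr 1; ring
  rw [e]
  calc x + y * 2 ^ (32 * 2 ^ n) < 2 ^ (32 * 2 ^ n) + y * 2 ^ (32 * 2 ^ n) := by omega
    _ = (y + 1) * 2 ^ (32 * 2 ^ n) := by ring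
    _ ≤ _ := Nat.mul_le_mul_right _ hy

theorem idx_lt (b : ℕ → Bool) (n : ℕ) : idx b n < 2 ^ n := by
  induction n with
  | zero => simp [idx]
  | succ n ih =>
    rw [idx, pow_succ]
    cases b n <;> simp <;> omega

theorem idx_congr {b c : ℕ → Bool} {n : ℕ} (h : ∀ t, t < n → b t = c t) : idx b n = idx c n := by
  induction n with
  | zero => rfl
  | succ n ih =>
    rw [idx, idx, ih (fun t ht => h t (by omega)), h n (by omega)]

theorem idx_inj {b c : ℕ → Bool} {n : ℕ} (h : idx b n = idx c n) : ∀ t, t < n → b t = c t := by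
  induction n with
  | zero => intro t ht; omega
  | succ n ih =>
    rw [idx, idx] at h
    have h1 := idx_lt b n
    have h2 := idx_lt c n
    have h3 : b n = c n := by
      cases hb : b n <;> cases hc : c n <;> simp only [hb, hc, cond_true, cond_false] at h <;>
        first | rfl | omega
    rw [h3] at h
    intro t ht
    rcases Nat.lt_succ_iff_lt_or_eq.mp ht with h4 | h4
    · exact ih (by omega) t h4
    · rw [h4, h3]

theorem idx_surj (n : ℕ) : ∀ j, j < 2 ^ n → ∃ b : ℕ → Bool, idx b n = j := by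
  induction n with
  | zero => intro j hj; exact ⟨fun _ => false, by simp at hj; simp [idx, hj]⟩
  | succ n ih =>
    intro j hj
    rw [pow_succ] at hj
    by_cases h : j < 2 ^ n
    · obtain ⟨b, hb⟩ := ih j h
      refine ⟨fun t => if t = n then false else b t, ?_⟩
      rw [idx]
      simp only [if_true, cond_false, add_zero]
      rw [← hb]
      exact idx_congr fun t ht => by simp [ht.ne]
    · obtain ⟨b, hb⟩ := ih (j - 2 ^ n) (by omega)
      refine ⟨fun t => if t = n then true else b t, ?_⟩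
      rw [idx]
      simp only [if_true, cond_true]
      have : idx (fun t => if t = n then true else b t) n = idx b n :=
        idx_congr fun t ht => by simp [ht.ne]
      rw [this, hb]
      omega

theorem tr_p (p q : ℕ) : tr p q p = q := by simp [tr]
theorem tr_q (p q : ℕ) : tr p q q = p := by
  unfold tr
  by_cases h : q = p
  · subst h; simp
  · have : Nat.beq q p = false := by
      rw [Bool.eq_false_iff]; intro h2; exact h (Nat.eq_of_beq_eq_true h2)
    rw [this]; simp
theorem tr_ne {p q t : ℕ} (h1 : t ≠ p) (h2 : t ≠ q) : tr p q t = t := by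
  unfold tr
  have e1 : Nat.beq t p = false := by
    rw [Bool.eq_false_iff]; intro h; exact h1 (Nat.eq_of_beq_eq_true h)
  have e2 : Nat.beq t q = false := by
    rw [Bool.eq_false_iff]; intro h; exact h2 (Nat.eq_of_beq_eq_true h)
  rw [e1, e2]; rfl

theorem tr_tr (p q t : ℕ) : tr p q (tr p q t) = t := by
  by_cases h1 : t = p
  · subst h1; rw [tr_p, tr_q]
  · by_cases h2 : t = q
    · subst h2; rw [tr_q, tr_p]
    · rw [tr_ne h1 h2, tr_ne h1 h2]

theorem idx_tr_eq {b : ℕ → Bool} {p q n : ℕ} (h : b p = b q) :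
    idx (fun t => b (tr p q t)) n = idx b n := by
  apply idx_congr
  intro t _
  by_cases h1 : t = p
  · subst h1; rw [tr_p, h]
  · by_cases h2 : t = q
    · subst h2; rw [tr_q, h]
    · rw [tr_ne h1 h2]

theorem idx_tr {b : ℕ → Bool} {p q n : ℕ} (hpq : p < q) (hq : q < n) (h1 : b p = true)
    (h2 : b q = false) : idx (fun t => b (tr p q t)) n = idx b n + ds p q := by
  have hds : ds p q + 2 ^ p = 2 ^ q := by
    change 2 ^ q - 2 ^ p + 2 ^ p = 2 ^ q
    exact Nat.sub_add_cancel (Nat.pow_le_pow_right (by norm_num) hpq.le)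
  have a1 : idx (fun t => b (tr p q t)) p = idx b p :=
    idx_congr fun t ht => by rw [tr_ne (by omega) (by omega)]
  have a2 : ∀ m, p + 1 ≤ m → m ≤ q → idx (fun t => b (tr p q t)) m + 2 ^ p = idx b m := by
    intro m hm
    induction m, hm using Nat.le_induction with
    | base =>
      intro _
      rw [idx, idx, a1, tr_p, h1, h2]; simp
    | succ m hm ih =>
      intro hm2
      rw [idx, idx, tr_ne (by omega) (by omega)]
      have := ih (by omega)
      omega
  have a3 : ∀ m, q + 1 ≤ m → idx (fun t => b (tr p q t)) m = idx b m + ds p q := by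
    intro m hm
    induction m, hm using Nat.le_induction with
    | base =>
      rw [idx, idx, tr_q, h1, h2]
      have := a2 q (by omega) le_rfl
      simp only [cond_true, cond_false]
      omega
    | succ m hm ih =>
      rw [idx, idx, tr_ne (by omega) (by omega), ih]
      omega
  exact a3 n hq

theorem rep_lt {c n : ℕ} (hc : c < 2 ^ 32) : rep c n < 2 ^ (32 * 2 ^ n) := by
  induction n with
  | zero => exact hc
  | succ n ih => exact cat_lt ih ih

theorem ln_zero_of_lt {c : ℕ} (hc : c < 2 ^ 32) : ln c 0 = c := by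
  rw [ln_eq']; simp only [mul_zero, pow_zero, Nat.div_one]; exact Nat.mod_eq_of_lt hc

theorem ln_rep {c n : ℕ} (hc : c < 2 ^ 32) (b : ℕ → Bool) : ln (rep c n) (idx b n) = c := by
  induction n with
  | zero => exact ln_zero_of_lt hc
  | succ n ih =>
    change ln (cat n (rep c n) (rep c n)) (idx b n + cond (b n) (2 ^ n) 0) = c
    have h1 := idx_lt b n
    cases hb : b n
    · rw [cond_false, add_zero, ln_cat_lt h1, ih]
    · rw [cond_true, ln_cat_ge (rep_lt hc) (by omega), Nat.add_sub_cancel, ih]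

theorem msk_succ (p q n : ℕ) : msk p q (n + 1) = cond (Nat.beq n p) (cat n 0 (msk p q n))
    (cond (Nat.beq n q) (cat n (msk p q n) 0) (cat n (msk p q n) (msk p q n))) := rfl

theorem msk_lt {p q n : ℕ} : msk p q n < 2 ^ (32 * 2 ^ n) := by
  induction n with
  | zero => exact (by norm_num : (4294967295 : ℕ) < 2 ^ (32 * 2 ^ 0))
  | succ n ih =>
    rw [msk_succ]
    have h0 : 0 < 2 ^ (32 * 2 ^ n) := by positivity
    cases Nat.beq n p
    · cases Nat.beq n q
      · exact cat_lt ih ih
      · exact cat_lt ih h0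
    · exact cat_lt h0 ih

theorem ln_msk {p q n : ℕ} (b : ℕ → Bool) : ln (msk p q n) (idx b n) =
    if (p < n → b p = true) ∧ (q < n → q ≠ p → b q = false) then 4294967295 else 0 := by
  induction n with
  | zero =>
    rw [if_pos ⟨fun h => absurd h (by omega), fun h => absurd h (by omega)⟩]
    rfl
  | succ n ih =>
    rw [msk_succ]
    have h1 := idx_lt b n
    have h0 : 0 < 2 ^ (32 * 2 ^ n) := by positivity
    change ln _ (idx b n + cond (b n) (2 ^ n) 0) = _
    by_cases hp : n = p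
    · subst hp
      have : Nat.beq n n = true := Nat.beq_refl n
      rw [this, cond_true]
      cases hb : b n
      · rw [cond_false, add_zero, ln_cat_lt h1, ln_zero, if_neg]
        rintro ⟨h2, _⟩
        have := h2 (by omega)
        simp at this
      · rw [cond_true, ln_cat_ge h0 (by omega), Nat.add_sub_cancel, ih]
        congr 1
        apply propext
        constructor
        · rintro ⟨_, h3⟩
          exact ⟨fun _ => rfl, fun h4 h5 => h3 (by omega) h5⟩
        · rintro ⟨_, h3⟩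
          exact ⟨fun h => absurd h (by omega), fun h4 h5 => h3 (by omega) h5⟩
    · have e1 : Nat.beq n p = false := by
        rw [Bool.eq_false_iff]; intro h; exact hp (Nat.eq_of_beq_eq_true h)
      rw [e1, cond_false]
      by_cases hq : n = q
      · subst hq
        have : Nat.beq n n = true := Nat.beq_refl n
        rw [this, cond_true]
        cases hb : b n
        · rw [cond_false, add_zero, ln_cat_lt h1, ih]
          congr 1
          apply propext
          constructor
          · rintro ⟨h2, _⟩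
            exact ⟨fun h => h2 (by omega), fun _ _ => rfl⟩
          · rintro ⟨h2, _⟩
            exact ⟨fun h => h2 (by omega), fun h => absurd h (by omega)⟩
        · rw [cond_true, ln_cat_ge msk_lt (by omega), Nat.add_sub_cancel, ln_zero, if_neg]
          rintro ⟨_, h3⟩
          have := h3 (by omega) hp
          simp at this
      · have e2 : Nat.beq n q = false := by
          rw [Bool.eq_false_iff]; intro h; exact hq (Nat.eq_of_beq_eq_true h)
        rw [e2, cond_false]
        have e3 : ln (cat n (msk p q n) (msk p q n)) (idx b n + cond (b n) (2 ^ n) 0) =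
            ln (msk p q n) (idx b n) := by
          cases hb : b n
          · rw [cond_false, add_zero, ln_cat_lt h1]
          · rw [cond_true, ln_cat_ge msk_lt (by omega), Nat.add_sub_cancel]
        rw [e3, ih]
        congr 1
        apply propext
        constructor
        · rintro ⟨h2, h3⟩
          exact ⟨fun h => h2 (by omega), fun h h' => h3 (by omega) h'⟩
        · rintro ⟨h2, h3⟩
          exact ⟨fun h => h2 (by omega), fun h h' => h3 (by omega) h'⟩

theorem and_full {x : ℕ} (h : x < 2 ^ 32) : x &&& 4294967295 = x := by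
  have := Nat.and_two_pow_sub_one_eq_mod x 32
  norm_num at this
  rw [this]
  exact Nat.mod_eq_of_lt h

section sw
variable {n p q x : ℕ}

theorem ln_swy_t (_hpq : p < q) (_hq : q < n) (b : ℕ → Bool) (h1 : b p = true) (h2 : b q = false) :
    ln (swy n p q x) (idx b n) = ln x (idx b n + ds p q) ^^^ ln x (idx b n) := by
  have e : swy n p q x = ((x >>> (32 * ds p q)) ^^^ x) &&& msk p q n := rfl
  rw [e, ln_and, ln_xor, ln_shr, ln_msk, if_pos ⟨fun _ => h1, fun _ _ => h2⟩, and_full]
  exact Nat.xor_lt_two_pow (ln_lt _ _) (ln_lt _ _)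

theorem ln_swy_f (_hpq : p < q) (hq : q < n) (b : ℕ → Bool) (h : b p = false ∨ b q = true) :
    ln (swy n p q x) (idx b n) = 0 := by
  have e : swy n p q x = ((x >>> (32 * ds p q)) ^^^ x) &&& msk p q n := rfl
  rw [e, ln_and, ln_msk, if_neg, Nat.and_zero]
  rintro ⟨h1, h2⟩
  have h1 := h1 (by omega)
  have h2 := h2 hq (by omega)
  rcases h with h | h
  · rw [h] at h1; exact absurd h1 (by decide)
  · rw [h] at h2; exact absurd h2 (by decide)

theorem swy_lt : swy n p q x < 2 ^ (32 * 2 ^ n) :=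
  lt_of_le_of_lt Nat.and_le_right msk_lt

/-- lanes of the shifted difference -/
theorem ln_swys (hpq : p < q) (hq : q < n) (b : ℕ → Bool) (h : b p = true ∨ b q = false) :
    ln ((swy n p q x) <<< (32 * ds p q)) (idx b n) = 0 := by
  by_cases hk : idx b n < ds p q
  · exact ln_shl_lt _ _ _ hk
  · rw [ln_shl_ge _ _ _ (by omega)]
    have hlt := idx_lt b n
    obtain ⟨c, hc⟩ := idx_surj n (idx b n - ds p q) (by omega)
    rw [← hc]
    by_cases hcc : c p = true ∧ c q = false
    · have h3 := idx_tr hpq hq hcc.1 hcc.2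
      rw [hc, Nat.sub_add_cancel (by omega)] at h3
      have h4 := idx_inj h3
      have h5 := h4 p (by omega)
      have h6 := h4 q hq
      simp only [tr_p, tr_q] at h5 h6
      rcases h with h | h
      · rw [hcc.2, h] at h5; exact absurd h5 (by decide)
      · rw [hcc.1, h] at h6; exact absurd h6 (by decide)
    · apply ln_swy_f hpq hq
      by_cases h1 : c p = false
      · exact Or.inl h1
      · refine Or.inr ?_
        by_contra h2
        exact hcc ⟨by simpa using h1, by simpa using h2⟩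

theorem ln_swys_t (hpq : p < q) (hq : q < n) (b : ℕ → Bool) (h1 : b p = false) (h2 : b q = true) :
    ln ((swy n p q x) <<< (32 * ds p q)) (idx b n) =
      ln x (idx b n) ^^^ ln x (idx (fun t => b (tr p q t)) n) := by
  have h3 := idx_tr (b := fun t => b (tr p q t)) hpq hq (by simp only [tr_p]; exact h2)
    (by simp only [tr_q]; exact h1)
  simp only [tr_tr] at h3
  have h3' : idx b n = idx (fun t => b (tr p q t)) n + ds p q := h3
  rw [ln_shl_ge _ _ _ (by omega)]
  have h4 : idx b n - ds p q = idx (fun t => b (tr p q t)) n := by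
    rw [h3']; omega
  rw [h4, ln_swy_t hpq hq (fun t => b (tr p q t)) (by simp only [tr_p]; exact h2)
    (by simp only [tr_q]; exact h1), ← h3']

theorem ln_sw (hpq : p < q) (hq : q < n) (b : ℕ → Bool) :
    ln (sw n p q x) (idx b n) = ln x (idx (fun t => b (tr p q t)) n) := by
  have e : sw n p q x = (x ^^^ swy n p q x) ^^^ ((swy n p q x) <<< (32 * ds p q)) := rfl
  rw [e, ln_xor, ln_xor]
  cases h1 : b p <;> cases h2 : b q
  · rw [ln_swy_f hpq hq b (Or.inl h1), ln_swys hpq hq b (Or.inr h2),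
      idx_tr_eq (by rw [h1, h2]), Nat.xor_zero, Nat.xor_zero]
  · rw [ln_swy_f hpq hq b (Or.inl h1), ln_swys_t hpq hq b h1 h2, Nat.xor_zero,
      ← Nat.xor_assoc, Nat.xor_self, Nat.zero_xor]
  · rw [ln_swy_t hpq hq b h1 h2, ln_swys hpq hq b (Or.inl h1), Nat.xor_zero,
      idx_tr hpq hq h1 h2, Nat.xor_comm (ln x (idx b n + ds p q)), ← Nat.xor_assoc, Nat.xor_self,
      Nat.zero_xor]
  · rw [ln_swy_f hpq hq b (Or.inr h2), ln_swys hpq hq b (Or.inl h1),
      idx_tr_eq (by rw [h1, h2]), Nat.xor_zero, Nat.xor_zero]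

theorem sw_lt (hpq : p < q) (hq : q < n) (hx : x < 2 ^ (32 * 2 ^ n)) :
    sw n p q x < 2 ^ (32 * 2 ^ n) := by
  have e : sw n p q x = (x ^^^ swy n p q x) ^^^ ((swy n p q x) <<< (32 * ds p q)) := rfl
  rw [e]
  refine Nat.xor_lt_two_pow (Nat.xor_lt_two_pow hx swy_lt) ?_
  apply lt_of_ln
  intro i hi
  by_cases hk : i < ds p q
  · exact ln_shl_lt _ _ _ hk
  · rw [ln_shl_ge _ _ _ (by omega)]
    by_cases h3 : i - ds p q < 2 ^ n
    · obtain ⟨c, hc⟩ := idx_surj n _ h3
      rw [← hc]
      by_cases hcc : c p = true ∧ c q = false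
      · have h3 := idx_tr hpq hq hcc.1 hcc.2
        have h4 := idx_lt (fun t => c (tr p q t)) n
        omega
      · apply ln_swy_f hpq hq
        by_cases h1 : c p = false
        · exact Or.inl h1
        · refine Or.inr ?_
          by_contra h2
          exact hcc ⟨by simpa using h1, by simpa using h2⟩
    · exact ln_of_lt swy_lt (by omega)

end sw

/-- `x` packs `2 ^ n` lanes, at most `M` each and at least `f` of the index bits -/
structure Vu (n x : ℕ) (f : (ℕ → Bool) → ℕ) (M : ℕ) : Prop where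
  lt : x < 2 ^ (32 * 2 ^ n)
  lo : ∀ b, f b ≤ ln x (idx b n)
  hi : ∀ b, ln x (idx b n) ≤ M

theorem Vu.cat {n x y M : ℕ} {f g : (ℕ → Bool) → ℕ} (hx : Vu n x f M) (hy : Vu n y g M) :
    Vu (n + 1) (cat n x y) (fun b => cond (b n) (g b) (f b)) M where
  lt := cat_lt hx.lt hy.lt
  lo b := by
    have h1 := idx_lt b n
    rw [idx]
    cases hb : b n
    · rw [cond_false, cond_false, add_zero, ln_cat_lt h1]; exact hx.lo b
    · rw [cond_true, cond_true, ln_cat_ge hx.lt (by omega), Nat.add_sub_cancel]; exact hy.lo b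
  hi b := by
    have h1 := idx_lt b n
    rw [idx]
    cases hb : b n
    · rw [cond_false, add_zero, ln_cat_lt h1]; exact hx.hi b
    · rw [cond_true, ln_cat_ge hx.lt (by omega), Nat.add_sub_cancel]; exact hy.hi b

theorem Vu.dup {n x M : ℕ} {f : (ℕ → Bool) → ℕ} (hx : Vu n x f M) :
    Vu (n + 1) (T34.cat n x x) f M := by
  have h := hx.cat hx
  refine ⟨h.lt, fun b => ?_, h.hi⟩
  have := h.lo b
  simp only [Bool.cond_self] at this
  exact this

theorem Vu.sw {n x M p q : ℕ} {f : (ℕ → Bool) → ℕ} (hx : Vu n x f M) (hpq : p < q) (hq : q < n) :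
    Vu n (sw n p q x) (fun b => f (fun t => b (tr p q t))) M where
  lt := sw_lt hpq hq hx.lt
  lo b := by rw [ln_sw hpq hq]; exact hx.lo _
  hi b := by rw [ln_sw hpq hq]; exact hx.hi _

theorem Vu.ln_le {n x M : ℕ} {f : (ℕ → Bool) → ℕ} (hx : Vu n x f M) (i : ℕ) : ln x i ≤ M := by
  by_cases h : i < 2 ^ n
  · obtain ⟨b, rfl⟩ := idx_surj n i h
    exact hx.hi b
  · rw [ln_of_lt hx.lt (by omega)]; exact Nat.zero_le _

theorem Vu.add {n x y M N : ℕ} {f g : (ℕ → Bool) → ℕ} (hx : Vu n x f M) (hy : Vu n y g N)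
    (h : M + N < 2 ^ 32) : Vu n (Nat.add x y) (fun b => f b + g b) (M + N) := by
  have h1 : ∀ i, ln x i + ln y i < 2 ^ 32 := fun i =>
    lt_of_le_of_lt (Nat.add_le_add (hx.ln_le i) (hy.ln_le i)) h
  have h2 : ∀ i, ln (Nat.add x y) i = ln x i + ln y i := fun i => ln_add (fun j _ => h1 j)
  refine ⟨lt_of_ln fun i hi => ?_, fun b => ?_, fun b => ?_⟩
  · rw [h2, ln_of_lt hx.lt hi, ln_of_lt hy.lt hi]
  · rw [h2]; exact Nat.add_le_add (hx.lo b) (hy.lo b)
  · rw [h2]; exact Nat.add_le_add (hx.hi b) (hy.hi b)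

theorem Vu.mono {n x M : ℕ} {f g : (ℕ → Bool) → ℕ} (hx : Vu n x f M) (h : ∀ b, g b ≤ f b) :
    Vu n x g M := ⟨hx.lt, fun b => (h b).trans (hx.lo b), hx.hi⟩

theorem Vu.rep {n c : ℕ} (hc : c < 2 ^ 32) : Vu n (T34.rep c n) (fun _ => c) c where
  lt := rep_lt hc
  lo b := (ln_rep hc b).ge
  hi b := (ln_rep hc b).le

/-- the final test: no lane reaches `2 ^ 31` -/
theorem Vu.test {n x M : ℕ} {f : (ℕ → Bool) → ℕ} (hx : Vu n x f M)
    (h : Nat.land x (T34.rep 2147483648 n) = 0) (b : ℕ → Bool) : f b < 2147483648 := by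
  have h1 : ln (x &&& T34.rep 2147483648 n) (idx b n) = 0 := by
    change ln (Nat.land x (T34.rep 2147483648 n)) _ = 0
    rw [h, ln_zero]
  rw [ln_and, ln_rep (by norm_num)] at h1
  refine lt_of_le_of_lt (hx.lo b) ?_
  by_contra h2
  have h3 := ln_lt x (idx b n)
  have h4 : (ln x (idx b n)).testBit 31 = true := by
    rw [Nat.testBit_eq_decide_div_mod_eq]
    have : ln x (idx b n) / 2 ^ 31 = 1 := by
      apply Nat.div_eq_of_lt_le <;> omega
    rw [this]; rfl
  have h5 : (ln x (idx b n) &&& 2147483648).testBit 31 = true := by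
    rw [Nat.testBit_and, h4]; rfl
  rw [h1] at h5
  simp at h5

end Pool.Agent.K3h90.T34
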