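import Pool.Agent.K3h90.T34.Lane
import Pool.Agent.H122R2.N6.Util

/-! Packed vectors: the value in the lane given by a list of bits. -/

set_option autoImplicit false

namespace Pool.Agent.K3h90.T34
open Pool.Agent.H122R2.N6

def cb (l : List ℕ) (t : ℕ) : Bool := Nat.beq (l.getD t 0) 1

/-- `x` has at most `2 ^ n` lanes, each at most `M` -/
structure Wb (n x M : ℕ) : Prop where
  lt : x < 2 ^ (32 * 2 ^ n)
  hi : ∀ i, ln x i ≤ M

/-- moreover the lane of index `l` is at least `g` -/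
structure W (n x : ℕ) (l : List ℕ) (g M : ℕ) : Prop extends Wb n x M where
  len : l.length = n
  lo : g ≤ ln x (idx (cb l) n)

theorem Wb.mono {n x M N : ℕ} (h : Wb n x M) (hMN : M ≤ N) : Wb n x N :=
  ⟨h.lt, fun i => (h.hi i).trans hMN⟩

theorem W.mono {n x M g g' : ℕ} {l : List ℕ} (h : W n x l g M) (hg : g' ≤ g) : W n x l g' M :=
  ⟨h.toWb, h.len, hg.trans h.lo⟩

theorem idx_cb_append {l : List ℕ} {n : ℕ} (hl : l.length = n) (c : ℕ) :
    idx (cb (l ++ [c])) n = idx (cb l) n := by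
  apply idx_congr
  intro t ht
  unfold cb
  rw [List.getD_append _ _ _ _ (by omega)]

theorem cb_append_last {l : List ℕ} {n : ℕ} (hl : l.length = n) (c : ℕ) :
    cb (l ++ [c]) n = Nat.beq c 1 := by
  unfold cb
  rw [List.getD_append_right _ _ _ _ (by omega)]
  simp [hl]

theorem Wb.cat {n x y M : ℕ} (hx : Wb n x M) (hy : Wb n y M) : Wb (n + 1) (cat n x y) M := by
  refine ⟨cat_lt hx.lt hy.lt, fun i => ?_⟩
  by_cases h : i < 2 ^ n
  · rw [ln_cat_lt h]; exact hx.hi _
  · rw [ln_cat_ge hx.lt (by omega)]; exact hy.hi _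

theorem W.cat0 {n x y M g : ℕ} {l : List ℕ} (hx : W n x l g M) (hy : Wb n y M) :
    W (n + 1) (cat n x y) (l ++ [0]) g M := by
  refine ⟨hx.toWb.cat hy, by simp [hx.len], ?_⟩
  rw [idx, idx_cb_append hx.len, cb_append_last hx.len]
  change g ≤ ln _ (idx (cb l) n + cond false _ 0)
  rw [cond_false, add_zero, ln_cat_lt (idx_lt _ _)]
  exact hx.lo

theorem W.cat1 {n x y M g : ℕ} {l : List ℕ} (hx : Wb n x M) (hy : W n y l g M) :
    W (n + 1) (cat n x y) (l ++ [1]) g M := by
  refine ⟨hx.cat hy.toWb, by simp [hy.len], ?_⟩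
  rw [idx, idx_cb_append hy.len, cb_append_last hy.len]
  change g ≤ ln _ (idx (cb l) n + cond true _ 0)
  rw [cond_true, ln_cat_ge hx.lt (by omega), Nat.add_sub_cancel]
  exact hy.lo

theorem W.dup {n x M g : ℕ} {l : List ℕ} (hx : W n x l g M) (c : ℕ) :
    W (n + 1) (cat n x x) (l ++ [c]) g M := by
  refine ⟨hx.toWb.cat hx.toWb, by simp [hx.len], ?_⟩
  rw [idx, idx_cb_append hx.len, cb_append_last hx.len]
  have h1 := idx_lt (cb l) n
  cases hc : Nat.beq c 1
  · rw [cond_false, add_zero, ln_cat_lt h1]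
    exact hx.lo
  · rw [cond_true, ln_cat_ge hx.lt (by omega), Nat.add_sub_cancel]
    exact hx.lo

theorem Wb.add {n x y M N : ℕ} (hx : Wb n x M) (hy : Wb n y N) (h : M + N < 2 ^ 32) :
    Wb n (Nat.add x y) (M + N) := by
  have h1 : ∀ i, ln x i + ln y i < 2 ^ 32 := fun i =>
    lt_of_le_of_lt (Nat.add_le_add (hx.hi i) (hy.hi i)) h
  have h2 : ∀ i, ln (Nat.add x y) i = ln x i + ln y i := fun i => ln_add (fun j _ => h1 j)
  refine ⟨lt_of_ln fun i hi => ?_, fun i => ?_⟩
  · rw [h2, ln_of_lt hx.lt hi, ln_of_lt hy.lt hi]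
  · rw [h2]; exact Nat.add_le_add (hx.hi i) (hy.hi i)

theorem W.add {n x y M N g g' : ℕ} {l : List ℕ} (hx : W n x l g M) (hy : W n y l g' N)
    (h : M + N < 2 ^ 32) : W n (Nat.add x y) l (g + g') (M + N) := by
  refine ⟨hx.toWb.add hy.toWb h, hx.len, ?_⟩
  have h1 : ∀ i, ln x i + ln y i < 2 ^ 32 := fun i =>
    lt_of_le_of_lt (Nat.add_le_add (hx.hi i) (hy.hi i)) h
  have h2 : ∀ i, ln (Nat.add x y) i = ln x i + ln y i := fun i => ln_add (fun j _ => h1 j)
  rw [h2]
  exact Nat.add_le_add hx.lo hy.lo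

/-- a test for the masks used in exchanges -/
theorem W.rep {n c : ℕ} (hc : c < 2 ^ 32) (l : List ℕ) (hl : l.length = n) :
    W n (T34.rep c n) l c c := by
  refine ⟨⟨rep_lt hc, fun i => ?_⟩, hl, (ln_rep hc _).ge⟩
  by_cases h : i < 2 ^ n
  · obtain ⟨b, rfl⟩ := idx_surj n i h
    exact (ln_rep hc _).le
  · rw [ln_of_lt (rep_lt hc) (by omega)]; exact Nat.zero_le _

/-- `m` is a mask for the exchange of the index bits `p < q` -/
def Mk (p q m : ℕ) : Prop :=
  ∀ b : ℕ → Bool, ln m (idx b 15) = if b p = true ∧ b q = false then 4294967295 else 0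

theorem Mk.ln_of {p q m : ℕ} (hm : Mk p q m) {n : ℕ} (hn : n ≤ 15) (hp : p < n) (hq : q < n)
    (b : ℕ → Bool) : ln m (idx b n) = if b p = true ∧ b q = false then 4294967295 else 0 := by
  have e : idx b n = idx (fun t => if t < n then b t else false) 15 := by
    have h : ∀ k, n ≤ k → idx (fun t => if t < n then b t else false) k = idx b n := by
      intro k hk
      induction k, hk using Nat.le_induction with
      | base => exact idx_congr fun t ht => by simp [ht]
      | succ k hk ih =>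
        rw [idx, ih]
        simp [Nat.not_lt.mpr hk]
    exact (h 15 hn).symm
  rw [e, hm]
  simp [hp, hq]

/-- the difference word -/
def sy (m s x : ℕ) : ℕ := Nat.land (Nat.xor (Nat.shiftRight x s) x) m

/-- exchange of two index bits, with given mask and shift -/
def sx (m s x : ℕ) : ℕ := Nat.xor (Nat.xor x (sy m s x)) (Nat.shiftLeft (sy m s x) s)

section
variable {n p q m x : ℕ}

theorem and_msk_eq (hm : Mk p q m) (hn : n ≤ 15) (hpq : p < q) (hq : q < n) (z : ℕ)
    (hz : z < 2 ^ (32 * 2 ^ n)) : z &&& m = z &&& msk p q n := by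
  have h : (z &&& m) ^^^ (z &&& msk p q n) = 0 := by
    apply eq_zero_of_ln
    intro i
    rw [ln_xor, ln_and, ln_and]
    by_cases hi : i < 2 ^ n
    · obtain ⟨b, rfl⟩ := idx_surj n i hi
      rw [hm.ln_of hn (by omega) hq, ln_msk]
      have e : ((p < n → b p = true) ∧ (q < n → q ≠ p → b q = false)) ↔
          (b p = true ∧ b q = false) := by
        constructor
        · rintro ⟨h1, h2⟩; exact ⟨h1 (by omega), h2 hq (by omega)⟩
        · rintro ⟨h1, h2⟩; exact ⟨fun _ => h1, fun _ _ => h2⟩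
      simp only [e]
      exact Nat.xor_self _
    · rw [ln_of_lt hz (by omega)]; simp
  exact Nat.xor_eq_zero_iff.mp h

theorem sx_eq (hm : Mk p q m) (hn : n ≤ 15) (hpq : p < q) (hq : q < n)
    (hx : x < 2 ^ (32 * 2 ^ n)) : sx m (32 * ds p q) x = sw n p q x := by
  have hz : (x >>> (32 * ds p q)) ^^^ x < 2 ^ (32 * 2 ^ n) :=
    Nat.xor_lt_two_pow (lt_of_le_of_lt (Nat.shiftRight_le _ _) hx) hx
  have e : sy m (32 * ds p q) x = swy n p q x := and_msk_eq hm hn hpq hq _ hz
  change (x ^^^ sy m (32 * ds p q) x) ^^^ (sy m (32 * ds p q) x) <<< (32 * ds p q) = _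
  rw [e]
  rfl

end

/-- exchange of two entries of a list -/
def sl (p q : ℕ) (l : List ℕ) : List ℕ := (l.set p (l.getD q 0)).set q (l.getD p 0)

theorem cb_sl {l : List ℕ} {n p q : ℕ} (hl : l.length = n) (hp : p < n) (hq : q < n) (hpq : p < q)
    {t : ℕ} (ht : t < n) : cb (sl p q l) (tr p q t) = cb l t := by
  unfold cb sl
  congr 1
  by_cases h1 : t = p
  · subst h1
    rw [tr_p, List.getD_eq_getElem _ _ (by simp; omega), List.getElem_set_self]
  · by_cases h2 : t = q
    · subst h2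
      rw [tr_q, List.getD_eq_getElem _ _ (by simp; omega), List.getElem_set_ne (by omega),
        List.getElem_set_self]
    · rw [tr_ne h1 h2, List.getD_eq_getElem _ _ (by simp; omega),
        List.getElem_set_ne (by omega), List.getElem_set_ne (by omega)]
      exact (List.getD_eq_getElem _ _ (by omega)).symm

theorem W.sx {n p q m s x g M : ℕ} {l l' : List ℕ} (h : W n x l g M) (hm : Mk p q m)
    (hs : s = 32 * ds p q) (hn : n ≤ 15) (hpq : p < q) (hq : q < n) (hl' : sl p q l = l') :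
    W n (sx m s x) l' g M := by
  subst hs hl'
  rw [sx_eq hm hn hpq hq h.lt]
  refine ⟨⟨sw_lt hpq hq h.lt, fun i => ?_⟩, by simp [sl, h.len], ?_⟩
  · by_cases hi : i < 2 ^ n
    · obtain ⟨b, rfl⟩ := idx_surj n i hi
      rw [ln_sw hpq hq]; exact h.hi _
    · rw [ln_of_lt (sw_lt hpq hq h.lt) (by omega)]; exact Nat.zero_le _
  · rw [ln_sw hpq hq]
    have e : idx (fun t => cb (sl p q l) (tr p q t)) n = idx (cb l) n :=
      idx_congr fun t ht => cb_sl h.len (by omega) hq hpq ht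
    rw [e]
    exact h.lo

theorem W.test {n x M g : ℕ} {l : List ℕ} (hx : W n x l g M)
    (h : Nat.land x (T34.rep 2147483648 n) = 0) : g < 2147483648 := by
  have h1 := Vu.test (n := n) (x := x) (f := fun b => ln x (idx b n)) (M := M)
    ⟨hx.lt, fun _ => le_rfl, fun _ => hx.hi _⟩ h (cb l)
  exact lt_of_le_of_lt hx.lo h1

theorem bt_cond {b : ℕ} (hb : Bt b) (k : ℕ) : cond (Nat.beq b 1) k 0 = k * b := by
  rcases hb with rfl | rfl
  · rfl
  · change cond true k 0 = k * 1
    simp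

/-- all lanes are below `2 ^ k` -/
theorem lanes_lt {n x k : ℕ} (hk : k ≤ 32) (hx : x < 2 ^ (32 * 2 ^ n))
    (h : Nat.land x (T34.rep (2 ^ 32 - 2 ^ k) n) = 0) (i : ℕ) : ln x i ≤ 2 ^ k - 1 := by
  by_cases hi : i < 2 ^ n
  · obtain ⟨b, rfl⟩ := idx_surj n i hi
    have hk2 : 0 < 2 ^ k := by positivity
    have h1 : ln (x &&& T34.rep (2 ^ 32 - 2 ^ k) n) (idx b n) = 0 := by
      change ln (Nat.land x (T34.rep (2 ^ 32 - 2 ^ k) n)) _ = 0
      rw [h, ln_zero]
    rw [ln_and, ln_rep (by omega)] at h1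
    have h3 := ln_lt x (idx b n)
    set y := ln x (idx b n) with hy
    have e : (2 ^ 32 - 2 ^ k : ℕ) >>> k = 2 ^ (32 - k) - 1 := by
      rw [Nat.shiftRight_eq_div_pow]
      have : (2 ^ 32 : ℕ) = 2 ^ (32 - k) * 2 ^ k := by
        rw [← pow_add]; congr 1; omega
      rw [this, ← Nat.sub_one_mul, Nat.mul_div_cancel _ hk2]
    have h4 : (y >>> k) &&& (2 ^ (32 - k) - 1) = 0 := by
      rw [← e, ← Nat.shiftRight_and_distrib, h1]; simp
    rw [Nat.and_two_pow_sub_one_eq_mod, Nat.shiftRight_eq_div_pow] at h4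
    have h5 : y / 2 ^ k < 2 ^ (32 - k) := by
      rw [Nat.div_lt_iff_lt_mul hk2, ← pow_add]
      have : 32 - k + k = 32 := by omega
      rw [this]; exact h3
    rw [Nat.mod_eq_of_lt h5] at h4
    have h6 := (Nat.div_eq_zero_iff_lt hk2).mp h4
    omega
  · rw [ln_of_lt hx (by omega)]; exact Nat.zero_le _

end Pool.Agent.K3h90.T34
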