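import Pool.Agent.K3h90.T34.RedC

/-! Reduction to representatives. -/

set_option autoImplicit false
set_option maxRecDepth 100000
set_option maxHeartbeats 4000000
set_option linter.unusedVariables false

namespace Pool.Agent.K3h90.T34
open Pool.Agent.H122R2.N6 Pool.Agent.H37R3.Pen Pool.Agent.H37R3.Cop Pool.Agent.H37R3.CopL Pool.Agent.TH983.FC

theorem ch8 : chJ 0 0 0 1 = true := by decide +kernel
theorem ch9 : chJ 1 0 0 1 = true := by decide +kernel
theorem ch10 : chJ 0 1 0 1 = true := by decide +kernel
theorem ch11 : chJ 1 1 0 1 = true := by decide +kernel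

end Pool.Agent.K3h90.T34
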