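import Pool.Agent.K3h90.T34.G5
import Pool.Agent.K3h90.T34.Bases
import Pool.Agent.K3h90.T34.K4
import Pool.Agent.K3h90.T34.KQ
import Pool.Agent.K3h90.T34.KT
import Pool.Agent.K3h90.T34.RC0
import Pool.Agent.K3h90.T34.RC1
import Pool.Agent.K3h90.T34.RC2
import Pool.Agent.K3h90.T34.RC3

/-! The seven-vertex inequality. -/

set_option autoImplicit false
set_option maxRecDepth 100000
set_option maxHeartbeats 4000000
set_option linter.unusedVariables false

namespace Pool.Agent.K3h90.T34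
open Pool.Agent.H122R2.N6 Pool.Agent.H37R3.Pen Pool.Agent.H37R3.Cop Pool.Agent.H37R3.CopL Pool.Agent.TH983.FC


theorem chI_all {b012 b013 b023 b123 b014 b024 b124 b034 b134 b234 : ℕ} (h0 : Bt b012) (h1 : Bt b013) (h2 : Bt b023) (h3 : Bt b123) (h4 : Bt b014)
    (h5 : Bt b024) (h6 : Bt b124) (h7 : Bt b034) (h8 : Bt b134) (h9 : Bt b234) : chI b012 b013 b023 b123 b014 b024 b124 b034 b134 b234 = true := by
  have h : chJ b012 b013 b023 b123 = true := by
    rcases h0 with rfl | rfl <;> rcases h1 with rfl | rfl <;> rcases h2 with rfl | rfl <;> rcases h3 with rfl | rfl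
    exacts [ch0, ch8, ch4, ch12, ch2, ch10, ch6, ch14, ch1, ch9, ch5, ch13, ch3, ch11, ch7, ch15]
  exact B2_true (B2_true (B2_true (B2_true (B2_true (B2_true h h4) h5) h6) h7) h8) h9

section
variable {V : Type} {E : V → V → V → ℕ}

/-- the bound -/
def CC : ℕ := sc * KB + 7 * OF

theorem hTR' (hE : Sy E) (hK : NoK4 E) (b012 b013 b023 b123 b014 b024 b124 b034 b134 b234 : ℕ) (ht : tg b012 b013 b023 b123 b014 b024 b124 b034 b134 b234 = 4) :
    TG E q4 q2 sc OF MT (TR (cd10 b012 b013 b023 b123 b014 b024 b124 b034 b134 b234)) b012 b013 b023 b123 b014 b024 b124 b034 b134 b234 := by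
  intro a b c d e v h0 h1 h2 h3 h4 h5 h6 h7 h8 h9
  subst h0 h1 h2 h3 h4 h5 h6 h7 h8 h9
  exact hTR hE hK _ _ _ _ _ _ _ _ _ _ (hE.b _ _ _) (hE.b _ _ _) (hE.b _ _ _) (hE.b _ _ _) (hE.b _ _ _)
    (hE.b _ _ _) (hE.b _ _ _) (hE.b _ _ _) (hE.b _ _ _) (hE.b _ _ _) ht a b c d e v rfl rfl rfl rfl rfl rfl
    rfl rfl rfl rfl

theorem Gd_BL (hE : Sy E) (hK : NoK4 E) {k : ℕ} (hk : k < 964) : Gd E q4 q2 q3 sc CC (BL k) := by
  intro x v hx
  have h := gb_all hk
  unfold gb chm at h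
  rw [show bt (BL k) 0 = E (x 0) (x 1) (x 2) from (hx 0 1 2 (by decide) (by decide)).symm] at h
  rw [show bt (BL k) 1 = E (x 0) (x 1) (x 3) from (hx 0 1 3 (by decide) (by decide)).symm] at h
  rw [show bt (BL k) 2 = E (x 0) (x 2) (x 3) from (hx 0 2 3 (by decide) (by decide)).symm] at h
  rw [show bt (BL k) 3 = E (x 1) (x 2) (x 3) from (hx 1 2 3 (by decide) (by decide)).symm] at h
  rw [show bt (BL k) 4 = E (x 0) (x 1) (x 4) from (hx 0 1 4 (by decide) (by decide)).symm] at h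
  rw [show bt (BL k) 5 = E (x 0) (x 2) (x 4) from (hx 0 2 4 (by decide) (by decide)).symm] at h
  rw [show bt (BL k) 6 = E (x 1) (x 2) (x 4) from (hx 1 2 4 (by decide) (by decide)).symm] at h
  rw [show bt (BL k) 7 = E (x 0) (x 3) (x 4) from (hx 0 3 4 (by decide) (by decide)).symm] at h
  rw [show bt (BL k) 8 = E (x 1) (x 3) (x 4) from (hx 1 3 4 (by decide) (by decide)).symm] at h
  rw [show bt (BL k) 9 = E (x 2) (x 3) (x 4) from (hx 2 3 4 (by decide) (by decide)).symm] at h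
  rw [show bt (BL k) 10 = E (x 0) (x 1) (x 5) from (hx 0 1 5 (by decide) (by decide)).symm] at h
  rw [show bt (BL k) 11 = E (x 0) (x 2) (x 5) from (hx 0 2 5 (by decide) (by decide)).symm] at h
  rw [show bt (BL k) 12 = E (x 1) (x 2) (x 5) from (hx 1 2 5 (by decide) (by decide)).symm] at h
  rw [show bt (BL k) 13 = E (x 0) (x 3) (x 5) from (hx 0 3 5 (by decide) (by decide)).symm] at h
  rw [show bt (BL k) 14 = E (x 1) (x 3) (x 5) from (hx 1 3 5 (by decide) (by decide)).symm] at h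
  rw [show bt (BL k) 15 = E (x 2) (x 3) (x 5) from (hx 2 3 5 (by decide) (by decide)).symm] at h
  rw [show bt (BL k) 16 = E (x 0) (x 4) (x 5) from (hx 0 4 5 (by decide) (by decide)).symm] at h
  rw [show bt (BL k) 17 = E (x 1) (x 4) (x 5) from (hx 1 4 5 (by decide) (by decide)).symm] at h
  rw [show bt (BL k) 18 = E (x 2) (x 4) (x 5) from (hx 2 4 5 (by decide) (by decide)).symm] at h
  rw [show bt (BL k) 19 = E (x 3) (x 4) (x 5) from (hx 3 4 5 (by decide) (by decide)).symm] at h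
  exact chk7_sound hE hK cs4 cs2 hS3 (hTR' hE hK) hRW hQF (by unfold MT MQ; norm_num) (by unfold sc; norm_num)
    (by unfold DD KB; norm_num) (by unfold MT MQ DD; norm_num) _ _ _ _ _ _ v h

theorem G5_rep (hE : Sy E) (hK : NoK4 E) (b012 b013 b023 b123 b014 b024 b124 b034 b134 b234 : ℕ) (ht : tg b012 b013 b023 b123 b014 b024 b124 b034 b134 b234 = 4) : G5 E q4 q2 q3 sc CC b012 b013 b023 b123 b014 b024 b124 b034 b134 b234 := by
  intro a b c d e f v h0 h1 h2 h3 h4 h5 h6 h7 h8 h9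
  subst h0 h1 h2 h3 h4 h5 h6 h7 h8 h9
  have h := chI_all (hE.b a b c) (hE.b a b d) (hE.b a c d) (hE.b b c d) (hE.b a b e) (hE.b a c e) (hE.b b c e)
    (hE.b a d e) (hE.b b d e) (hE.b c d e)
  unfold chI at h
  rw [ht] at h
  have h2 := nest_at hE hK a b c d e f (or_false_left h rfl)
  set y := lane (TP (cd10 (E a b c) (E a b d) (E a c d) (E b c d) (E a b e) (E a c e) (E b c e) (E a d e) (E b d e) (E c d e))) (E a b f) (E a c f) (E b c f) (E a d f) (E b d f) (E c d f) (E a e f) (E b e f) (E c e f) (E d e f) with hy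
  have h3 : isoB y (E a b c) (E a b d) (E a c d) (E b c d) (E a b e) (E a c e) (E b c e) (E a d e) (E b d e) (E c d e) (E a b f) (E a c f) (E b c f) (E a d f) (E b d f) (E c d f) (E a e f) (E b e f) (E c e f) (E d e f) = true := h2
  unfold isoB at h3
  rw [Bool.and_eq_true] at h3
  have hk : Nat.shiftRight y 18 < 964 := Nat.le_of_ble_eq_true h3.1
  exact Gd_of_iso hE hS3 cs4 cs2 h3.2 (Gd_BL hE hK hk) ![a, b, c, d, e, f] v (copy_mk20 hE a b c d e f)

/-- the seven-vertex inequality -/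
theorem leaf7 (hE : Sy E) (hK : NoK4 E) (a b c d e f v : V) : G7 E q4 q2 q3 sc a b c d e f v ≤ CC := by
  have h := (B2_true (B2_true (B2_true (B2_true (B2_true (B2_true (B2_true (B2_true (B2_true (B2_true walk_all (hE.b a b c)) (hE.b a b d)) (hE.b a c d)) (hE.b b c d)) (hE.b a b e)) (hE.b a c e)) (hE.b b c e)) (hE.b a d e)) (hE.b b d e)) (hE.b c d e))
  have h5 : five (E a b c) (E a b d) (E a c d) (E b c d) (E a b e) (E a c e) (E b c e) (E a d e) (E b d e) (E c d e) = false := by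
    unfold five
    rw [hK a b c d, hK a b c e, hK a b d e, hK a c d e, hK b c d e]
    rfl
  have hw := or_false_left h h5
  exact walk_G5 hE hS3 cs4 cs2 (G5_rep hE hK) 9 _ _ _ _ _ _ _ _ _ _ hw a b c d e f v rfl rfl rfl rfl rfl rfl rfl
    rfl rfl rfl

end

end Pool.Agent.K3h90.T34
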