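import Pool.Agent.K3h90.T34.C2

/-! Exchange of vertices in packed vectors indexed by the pairs of five or six vertices. -/

set_option autoImplicit false
set_option maxRecDepth 100000
set_option maxHeartbeats 4000000

namespace Pool.Agent.K3h90.T34
open Pool.Agent.H122R2.N6

def SW0 (x : ℕ) : ℕ := X6_7 (X3_4 (X1_2 x))

theorem SW0_W {x g M l0 l1 l2 l3 l4 l5 l6 l7 l8 l9 : ℕ} (h : W 10 x [l0, l1, l2, l3, l4, l5, l6, l7, l8, l9] g M) :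
    W 10 (SW0 x) [l0, l2, l1, l4, l3, l5, l7, l6, l8, l9] g M :=
  (X6_7_W (X3_4_W (X1_2_W h (by norm_num) (by norm_num)) (by norm_num) (by norm_num)) (by norm_num) (by norm_num))

def SW1 (x : ℕ) : ℕ := X7_8 (X4_5 (X0_1 x))

theorem SW1_W {x g M l0 l1 l2 l3 l4 l5 l6 l7 l8 l9 : ℕ} (h : W 10 x [l0, l1, l2, l3, l4, l5, l6, l7, l8, l9] g M) :
    W 10 (SW1 x) [l1, l0, l2, l3, l5, l4, l6, l8, l7, l9] g M :=
  (X7_8_W (X4_5_W (X0_1_W h (by norm_num) (by norm_num)) (by norm_num) (by norm_num)) (by norm_num) (by norm_num))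

def SW2 (x : ℕ) : ℕ := X8_9 (X2_4 (X1_3 x))

theorem SW2_W {x g M l0 l1 l2 l3 l4 l5 l6 l7 l8 l9 : ℕ} (h : W 10 x [l0, l1, l2, l3, l4, l5, l6, l7, l8, l9] g M) :
    W 10 (SW2 x) [l0, l3, l4, l1, l2, l5, l6, l7, l9, l8] g M :=
  (X8_9_W (X2_4_W (X1_3_W h (by norm_num) (by norm_num)) (by norm_num) (by norm_num)) (by norm_num) (by norm_num))

def SW3 (x : ℕ) : ℕ := X5_8 (X4_7 (X3_6 x))

theorem SW3_W {x g M l0 l1 l2 l3 l4 l5 l6 l7 l8 l9 : ℕ} (h : W 10 x [l0, l1, l2, l3, l4, l5, l6, l7, l8, l9] g M) :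
    W 10 (SW3 x) [l0, l1, l2, l6, l7, l8, l3, l4, l5, l9] g M :=
  (X5_8_W (X4_7_W (X3_6_W h (by norm_num) (by norm_num)) (by norm_num) (by norm_num)) (by norm_num) (by norm_num))

def VP0 (x : ℕ) : ℕ := X2_4 (X1_3 x)

theorem VP0_W {x g M l0 l1 l2 l3 l4 l5 : ℕ} (h : W 6 x [l0, l1, l2, l3, l4, l5] g M) :
    W 6 (VP0 x) [l0, l3, l4, l1, l2, l5] g M :=
  (X2_4_W (X1_3_W h (by norm_num) (by norm_num)) (by norm_num) (by norm_num))

def VP1 (x : ℕ) : ℕ := X4_5 (X2_4 (X1_3 (X0_3 x)))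

theorem VP1_W {x g M l0 l1 l2 l3 l4 l5 : ℕ} (h : W 6 x [l0, l1, l2, l3, l4, l5] g M) :
    W 6 (VP1 x) [l3, l0, l4, l1, l5, l2] g M :=
  (X4_5_W (X2_4_W (X1_3_W (X0_3_W h (by norm_num) (by norm_num)) (by norm_num) (by norm_num)) (by norm_num) (by norm_num)) (by norm_num) (by norm_num))

def VP2 (x : ℕ) : ℕ := X3_5 (X2_3 (X1_4 (X0_3 x)))

theorem VP2_W {x g M l0 l1 l2 l3 l4 l5 : ℕ} (h : W 6 x [l0, l1, l2, l3, l4, l5] g M) :
    W 6 (VP2 x) [l3, l4, l0, l5, l1, l2] g M :=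
  (X3_5_W (X2_3_W (X1_4_W (X0_3_W h (by norm_num) (by norm_num)) (by norm_num) (by norm_num)) (by norm_num) (by norm_num)) (by norm_num) (by norm_num))

def e34 (x : ℕ) : ℕ := X5_8 (X4_7 (X3_6 x))

theorem e34_W {x g M l0 l1 l2 l3 l4 l5 l6 l7 l8 l9 : ℕ} (h : W 10 x [l0, l1, l2, l3, l4, l5, l6, l7, l8, l9] g M) :
    W 10 (e34 x) [l0, l1, l2, l6, l7, l8, l3, l4, l5, l9] g M :=
  (X5_8_W (X4_7_W (X3_6_W h (by norm_num) (by norm_num)) (by norm_num) (by norm_num)) (by norm_num) (by norm_num))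

def e24 (x : ℕ) : ℕ := X5_9 (X2_7 (X1_6 x))

theorem e24_W {x g M l0 l1 l2 l3 l4 l5 l6 l7 l8 l9 : ℕ} (h : W 10 x [l0, l1, l2, l3, l4, l5, l6, l7, l8, l9] g M) :
    W 10 (e24 x) [l0, l6, l7, l3, l4, l9, l1, l2, l8, l5] g M :=
  (X5_9_W (X2_7_W (X1_6_W h (by norm_num) (by norm_num)) (by norm_num) (by norm_num)) (by norm_num) (by norm_num))

def e14 (x : ℕ) : ℕ := X4_9 (X2_8 (X0_6 x))

theorem e14_W {x g M l0 l1 l2 l3 l4 l5 l6 l7 l8 l9 : ℕ} (h : W 10 x [l0, l1, l2, l3, l4, l5, l6, l7, l8, l9] g M) :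
    W 10 (e14 x) [l6, l1, l8, l3, l9, l5, l0, l7, l2, l4] g M :=
  (X4_9_W (X2_8_W (X0_6_W h (by norm_num) (by norm_num)) (by norm_num) (by norm_num)) (by norm_num) (by norm_num))

def e04 (x : ℕ) : ℕ := X3_9 (X1_8 (X0_7 x))

theorem e04_W {x g M l0 l1 l2 l3 l4 l5 l6 l7 l8 l9 : ℕ} (h : W 10 x [l0, l1, l2, l3, l4, l5, l6, l7, l8, l9] g M) :
    W 10 (e04 x) [l7, l8, l2, l9, l4, l5, l6, l0, l1, l3] g M :=
  (X3_9_W (X1_8_W (X0_7_W h (by norm_num) (by norm_num)) (by norm_num) (by norm_num)) (by norm_num) (by norm_num))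

def g35 (x : ℕ) : ℕ := X9_14 (X5_12 (X4_11 (X3_10 x)))

theorem g35_W {x g M l0 l1 l2 l3 l4 l5 l6 l7 l8 l9 l10 l11 l12 l13 l14 : ℕ} (h : W 15 x [l0, l1, l2, l3, l4, l5, l6, l7, l8, l9, l10, l11, l12, l13, l14] g M) :
    W 15 (g35 x) [l0, l1, l2, l10, l11, l12, l6, l7, l8, l14, l3, l4, l5, l13, l9] g M :=
  (X9_14_W (X5_12_W (X4_11_W (X3_10_W h (by norm_num) (by norm_num)) (by norm_num) (by norm_num)) (by norm_num) (by norm_num)) (by norm_num) (by norm_num))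

def g25 (x : ℕ) : ℕ := X8_14 (X5_13 (X2_11 (X1_10 x)))

theorem g25_W {x g M l0 l1 l2 l3 l4 l5 l6 l7 l8 l9 l10 l11 l12 l13 l14 : ℕ} (h : W 15 x [l0, l1, l2, l3, l4, l5, l6, l7, l8, l9, l10, l11, l12, l13, l14] g M) :
    W 15 (g25 x) [l0, l10, l11, l3, l4, l13, l6, l7, l14, l9, l1, l2, l12, l5, l8] g M :=
  (X8_14_W (X5_13_W (X2_11_W (X1_10_W h (by norm_num) (by norm_num)) (by norm_num) (by norm_num)) (by norm_num) (by norm_num)) (by norm_num) (by norm_num))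

def g15 (x : ℕ) : ℕ := X7_14 (X4_13 (X2_12 (X0_10 x)))

theorem g15_W {x g M l0 l1 l2 l3 l4 l5 l6 l7 l8 l9 l10 l11 l12 l13 l14 : ℕ} (h : W 15 x [l0, l1, l2, l3, l4, l5, l6, l7, l8, l9, l10, l11, l12, l13, l14] g M) :
    W 15 (g15 x) [l10, l1, l12, l3, l13, l5, l6, l14, l8, l9, l0, l11, l2, l4, l7] g M :=
  (X7_14_W (X4_13_W (X2_12_W (X0_10_W h (by norm_num) (by norm_num)) (by norm_num) (by norm_num)) (by norm_num) (by norm_num)) (by norm_num) (by norm_num))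

def g05 (x : ℕ) : ℕ := X6_14 (X3_13 (X1_12 (X0_11 x)))

theorem g05_W {x g M l0 l1 l2 l3 l4 l5 l6 l7 l8 l9 l10 l11 l12 l13 l14 : ℕ} (h : W 15 x [l0, l1, l2, l3, l4, l5, l6, l7, l8, l9, l10, l11, l12, l13, l14] g M) :
    W 15 (g05 x) [l11, l12, l2, l13, l4, l5, l14, l7, l8, l9, l10, l0, l1, l3, l6] g M :=
  (X6_14_W (X3_13_W (X1_12_W (X0_11_W h (by norm_num) (by norm_num)) (by norm_num) (by norm_num)) (by norm_num) (by norm_num)) (by norm_num) (by norm_num))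

def g45 (x : ℕ) : ℕ := X9_13 (X8_12 (X7_11 (X6_10 x)))

theorem g45_W {x g M l0 l1 l2 l3 l4 l5 l6 l7 l8 l9 l10 l11 l12 l13 l14 : ℕ} (h : W 15 x [l0, l1, l2, l3, l4, l5, l6, l7, l8, l9, l10, l11, l12, l13, l14] g M) :
    W 15 (g45 x) [l0, l1, l2, l3, l4, l5, l10, l11, l12, l13, l6, l7, l8, l9, l14] g M :=
  (X9_13_W (X8_12_W (X7_11_W (X6_10_W h (by norm_num) (by norm_num)) (by norm_num) (by norm_num)) (by norm_num) (by norm_num)) (by norm_num) (by norm_num))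

def cvl (x : ℕ) : ℕ := X11_13 (X6_12 (X5_12 (X4_12 (X3_11 (X2_10 x)))))

theorem cvl_W {x g M l0 l1 l2 l3 l4 l5 l6 l7 l8 l9 l10 l11 l12 l13 l14 : ℕ} (h : W 15 x [l0, l1, l2, l3, l4, l5, l6, l7, l8, l9, l10, l11, l12, l13, l14] g M) :
    W 15 (cvl x) [l0, l1, l10, l11, l12, l4, l5, l7, l8, l9, l2, l13, l6, l3, l14] g M :=
  (X11_13_W (X6_12_W (X5_12_W (X4_12_W (X3_11_W (X2_10_W h (by norm_num) (by norm_num)) (by norm_num) (by norm_num)) (by norm_num) (by norm_num)) (by norm_num) (by norm_num)) (by norm_num) (by norm_num)) (by norm_num) (by norm_num))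

def p02 (x : ℕ) : ℕ := X7_9 (X6_10 (X3_11 (X0_13 x)))

theorem p02_W {x g M l0 l1 l2 l3 l4 l5 l6 l7 l8 l9 l10 l11 l12 l13 l14 : ℕ} (h : W 15 x [l0, l1, l2, l3, l4, l5, l6, l7, l8, l9, l10, l11, l12, l13, l14] g M) :
    W 15 (p02 x) [l13, l1, l2, l11, l4, l5, l10, l9, l8, l7, l6, l3, l12, l0, l14] g M :=
  (X7_9_W (X6_10_W (X3_11_W (X0_13_W h (by norm_num) (by norm_num)) (by norm_num) (by norm_num)) (by norm_num) (by norm_num)) (by norm_num) (by norm_num))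

def p03 (x : ℕ) : ℕ := X8_10 (X5_9 (X3_14 (X0_12 x)))

theorem p03_W {x g M l0 l1 l2 l3 l4 l5 l6 l7 l8 l9 l10 l11 l12 l13 l14 : ℕ} (h : W 15 x [l0, l1, l2, l3, l4, l5, l6, l7, l8, l9, l10, l11, l12, l13, l14] g M) :
    W 15 (p03 x) [l12, l1, l2, l14, l4, l9, l6, l7, l10, l5, l8, l11, l0, l13, l3] g M :=
  (X8_10_W (X5_9_W (X3_14_W (X0_12_W h (by norm_num) (by norm_num)) (by norm_num) (by norm_num)) (by norm_num) (by norm_num)) (by norm_num) (by norm_num))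

def p04 (x : ℕ) : ℕ := X7_14 (X5_11 (X4_10 (X0_2 x)))

theorem p04_W {x g M l0 l1 l2 l3 l4 l5 l6 l7 l8 l9 l10 l11 l12 l13 l14 : ℕ} (h : W 15 x [l0, l1, l2, l3, l4, l5, l6, l7, l8, l9, l10, l11, l12, l13, l14] g M) :
    W 15 (p04 x) [l2, l1, l0, l3, l10, l11, l6, l14, l8, l9, l4, l5, l12, l13, l7] g M :=
  (X7_14_W (X5_11_W (X4_10_W (X0_2_W h (by norm_num) (by norm_num)) (by norm_num) (by norm_num)) (by norm_num) (by norm_num)) (by norm_num) (by norm_num))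

def p12 (x : ℕ) : ℕ := X8_9 (X5_10 (X4_11 (X1_13 x)))

theorem p12_W {x g M l0 l1 l2 l3 l4 l5 l6 l7 l8 l9 l10 l11 l12 l13 l14 : ℕ} (h : W 15 x [l0, l1, l2, l3, l4, l5, l6, l7, l8, l9, l10, l11, l12, l13, l14] g M) :
    W 15 (p12 x) [l0, l13, l2, l3, l11, l10, l6, l7, l9, l8, l5, l4, l12, l1, l14] g M :=
  (X8_9_W (X5_10_W (X4_11_W (X1_13_W h (by norm_num) (by norm_num)) (by norm_num) (by norm_num)) (by norm_num) (by norm_num)) (by norm_num) (by norm_num))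

def p15 (x : ℕ) : ℕ := X8_12 (X6_13 (X2_4 (X0_10 x)))

theorem p15_W {x g M l0 l1 l2 l3 l4 l5 l6 l7 l8 l9 l10 l11 l12 l13 l14 : ℕ} (h : W 15 x [l0, l1, l2, l3, l4, l5, l6, l7, l8, l9, l10, l11, l12, l13, l14] g M) :
    W 15 (p15 x) [l10, l1, l4, l3, l2, l5, l13, l7, l12, l9, l0, l11, l8, l6, l14] g M :=
  (X8_12_W (X6_13_W (X2_4_W (X0_10_W h (by norm_num) (by norm_num)) (by norm_num) (by norm_num)) (by norm_num) (by norm_num)) (by norm_num) (by norm_num))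

def d4 (x : ℕ) : ℕ := du 9 (du 8 (du 7 (du 6 x)))

theorem d4_W {x g M l0 l1 l2 l3 l4 l5 : ℕ} (h : W 6 x [l0, l1, l2, l3, l4, l5] g M) (l6 l7 l8 l9 : ℕ) :
    W 10 (d4 x) [l0, l1, l2, l3, l4, l5, l6, l7, l8, l9] g M :=
  (((h.du l6).du l7).du l8).du l9

def d5 (x : ℕ) : ℕ := du 14 (du 13 (du 12 (du 11 (du 10 x))))

theorem d5_W {x g M l0 l1 l2 l3 l4 l5 l6 l7 l8 l9 : ℕ} (h : W 10 x [l0, l1, l2, l3, l4, l5, l6, l7, l8, l9] g M) (l10 l11 l12 l13 l14 : ℕ) :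
    W 15 (d5 x) [l0, l1, l2, l3, l4, l5, l6, l7, l8, l9, l10, l11, l12, l13, l14] g M :=
  ((((h.du l10).du l11).du l12).du l13).du l14

/-- the three pairings, brought to a common order of the index bits -/
def F1 (t1 t2 t3 : ℕ) : ℕ :=
  Nat.add (du 14 (du 13 (Nat.add (du 12 (du 11 t1)) (X2_12 (du 12 (X9_11 (du 11 (X4_8 (X3_7 t2)))))))))
    (X2_14 (du 14 (X9_13 (du 13 (du 12 (du 11 (X1_8 (X0_7 t3))))))))

theorem F1_W {t1 t2 t3 g1 g2 g3 M kaw kbw kzw kaz kbz kax kbx kay kby kxy kab kxz kyw kxw kyz : ℕ} (hM : 3 * M < 2 ^ 32)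
    (h1 : W 11 t1 [kaw, kbw, kzw, kaz, kbz, kax, kbx, kay, kby, kxy, kab] g1 M) (h2 : W 11 t2 [kaw, kbw, kyw, kay, kby, kax, kbx, kaz, kbz, kxz, kab] g2 M)
    (h3 : W 11 t3 [kay, kby, kyz, kaz, kbz, kax, kbx, kaw, kbw, kxw, kab] g3 M) :
    W 15 (F1 t1 t2 t3) [kaw, kbw, kzw, kaz, kbz, kax, kbx, kay, kby, kxy, kab, kxz, kyw, kxw, kyz] (g1 + (g2 + g3)) (3 * M) := by
  have a1 : W 13 (du 12 (du 11 t1)) [kaw, kbw, kzw, kaz, kbz, kax, kbx, kay, kby, kxy, kab, kxz, kyw] g1 M := (h1.du kxz).du kyw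
  have a2 : W 13 (X2_12 (du 12 (X9_11 (du 11 (X4_8 (X3_7 t2)))))) [kaw, kbw, kzw, kaz, kbz, kax, kbx, kay, kby, kxy, kab, kxz, kyw] g2 M :=
    X2_12_W ((X9_11_W ((X4_8_W (X3_7_W h2 (by norm_num) (by norm_num)) (by norm_num) (by norm_num)).du kxy)
      (by norm_num) (by norm_num)).du kzw) (by norm_num) (by norm_num)
  have a3 : W 15 (X2_14 (du 14 (X9_13 (du 13 (du 12 (du 11 (X1_8 (X0_7 t3)))))))) [kaw, kbw, kzw, kaz, kbz, kax, kbx, kay, kby, kxy, kab, kxz, kyw, kxw, kyz] g3 M :=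
    X2_14_W ((X9_13_W ((((X1_8_W (X0_7_W h3 (by norm_num) (by norm_num)) (by norm_num) (by norm_num)).du kxz).du kyw).du kxy)
      (by norm_num) (by norm_num)).du kzw) (by norm_num) (by norm_num)
  have b := W.add (((W.add a1 a2 (by omega)).du kxw).du kyz) a3 (by omega)
  have e : M + M + M = 3 * M := by ring
  have e2 : g1 + g2 + g3 = g1 + (g2 + g3) := by ring
  rw [e, e2] at b
  exact b

end Pool.Agent.K3h90.T34
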