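import Pool.Agent.K3h90.T34.Red
import Pool.Agent.K3h90.T34.Nest

/-! Reduction to representatives. -/

set_option autoImplicit false
set_option maxRecDepth 100000
set_option maxHeartbeats 4000000
set_option linter.unusedVariables false

namespace Pool.Agent.K3h90.T34
open Pool.Agent.H122R2.N6 Pool.Agent.H37R3.Pen Pool.Agent.H37R3.Cop Pool.Agent.H37R3.CopL Pool.Agent.TH983.FC


def mk20 (b012 b013 b023 b123 b014 b024 b124 b034 b134 b234 b015 b025 b125 b035 b135 b235 b045 b145 b245 b345 : ℕ) : ℕ := (Nat.add b012 (Nat.mul 2 (Nat.add b013 (Nat.mul 2 (Nat.add b023 (Nat.mul 2 (Nat.add b123 (Nat.mul 2 (Nat.add b014 (Nat.mul 2 (Nat.add b024 (Nat.mul 2 (Nat.add b124 (Nat.mul 2 (Nat.add b034 (Nat.mul 2 (Nat.add b134 (Nat.mul 2 (Nat.add b234 (Nat.mul 2 (Nat.add b015 (Nat.mul 2 (Nat.add b025 (Nat.mul 2 (Nat.add b125 (Nat.mul 2 (Nat.add b035 (Nat.mul 2 (Nat.add b135 (Nat.mul 2 (Nat.add b235 (Nat.mul 2 (Nat.add b045 (Nat.mul 2 (Nat.add b145 (Nat.mul 2 (Nat.add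 b245 (Nat.mul 2 b345))))))))))))))))))))))))))))))))))))))

/-- the pattern is a relabelling of a representative -/
def isoB (y b012 b013 b023 b123 b014 b024 b124 b034 b134 b234 b015 b025 b125 b035 b135 b235 b045 b145 b245 b345 : ℕ) : Bool := and (Nat.blt (Nat.shiftRight y 18) 964)
  (isoP (mk20 b012 b013 b023 b123 b014 b024 b124 b034 b134 b234 b015 b025 b125 b035 b135 b235 b045 b145 b245 b345) (BL (Nat.shiftRight y 18)) (Nat.mod y 262144))

def chI (b012 b013 b023 b123 b014 b024 b124 b034 b134 b234 : ℕ) : Bool := or (not (Nat.beq (tg b012 b013 b023 b123 b014 b024 b124 b034 b134 b234) 4))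
  (nest (fun y b015 b025 b125 b035 b135 b235 b045 b145 b245 b345 => isoB y b012 b013 b023 b123 b014 b024 b124 b034 b134 b234 b015 b025 b125 b035 b135 b235 b045 b145 b245 b345) (TP (cd10 b012 b013 b023 b123 b014 b024 b124 b034 b134 b234)) b012 b013 b023 b123 b014 b024 b124 b034 b134 b234)

def chJ (b012 b013 b023 b123 : ℕ) : Bool := B2 fun b014 => B2 fun b024 => B2 fun b124 => B2 fun b034 =>
  B2 fun b134 => B2 fun b234 => chI b012 b013 b023 b123 b014 b024 b124 b034 b134 b234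

end Pool.Agent.K3h90.T34
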