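import Pool.Agent.K3h90.T34.F3
import Pool.Agent.H37R3.Pen

/-! Summation of the seven-vertex functional. -/

set_option autoImplicit false
set_option maxRecDepth 100000
set_option maxHeartbeats 4000000
open Finset

namespace Pool.Agent.K3h90.T34
open Pool.Agent.H122R2.N6

theorem cd3_lt {x y z : ℕ} (hx : Bt x) (hy : Bt y) (hz : Bt z) : cd3 x y z < 8 := by
  have := Bt_lt hx; have := Bt_lt hy; have := Bt_lt hz
  show x + (2 * y + 4 * z) < 8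
  omega

theorem cd9_lt {x0 x1 x2 y0 y1 y2 s0 s1 s2 : ℕ} (h0 : Bt x0) (h1 : Bt x1) (h2 : Bt x2) (h3 : Bt y0)
    (h4 : Bt y1) (h5 : Bt y2) (h6 : Bt s0) (h7 : Bt s1) (h8 : Bt s2) :
    cd9 x0 x1 x2 y0 y1 y2 s0 s1 s2 < 512 := by
  have a1 := cd3_lt h0 h1 h2
  have a2 := cd3_lt h3 h4 h5
  have a3 := cd3_lt h6 h7 h8
  show cd3 x0 x1 x2 + (8 * cd3 y0 y1 y2 + 64 * cd3 s0 s1 s2) < 512
  omega

section
variable {V : Type} [Fintype V]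

theorem psum7 (F : V → V → V → V → V → V → V → ℤ) (g : Fin 7 → Fin 7) (hg : Function.Bijective g) :
    ∑ x : Fin 7 → V, F (x (g 0)) (x (g 1)) (x (g 2)) (x (g 3)) (x (g 4)) (x (g 5)) (x (g 6))
      = ∑ x : Fin 7 → V, F (x 0) (x 1) (x 2) (x 3) (x 4) (x 5) (x 6) := by
  have h := Equiv.sum_comp (Equiv.arrowCongr (Equiv.ofBijective g hg).symm (Equiv.refl V))
    (fun x => F (x 0) (x 1) (x 2) (x 3) (x 4) (x 5) (x 6))
  rw [← h]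
  rfl

def e7 (V : Type) : (Fin 7 → V) ≃ V × V × V × V × V × V × V where
  toFun x := (x 0, x 1, x 2, x 3, x 4, x 5, x 6)
  invFun p := ![p.1, p.2.1, p.2.2.1, p.2.2.2.1, p.2.2.2.2.1, p.2.2.2.2.2.1, p.2.2.2.2.2.2]
  left_inv x := by funext i; fin_cases i <;> rfl
  right_inv p := rfl

theorem conv7 (F : V → V → V → V → V → V → V → ℤ) :
    ∑ x : Fin 7 → V, F (x 0) (x 1) (x 2) (x 3) (x 4) (x 5) (x 6)
      = ∑ a, ∑ b, ∑ c, ∑ d, ∑ e, ∑ f, ∑ g, F a b c d e f g := by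
  rw [← Equiv.sum_comp (e7 V).symm]
  simp only [Fintype.sum_prod_type]
  rfl

theorem sum7_six (F : V → V → V → V → V → V → ℤ) :
    ∑ x : Fin 7 → V, F (x 0) (x 1) (x 2) (x 3) (x 4) (x 5)
      = (Fintype.card V : ℤ) * ∑ x : Fin 6 → V, F (x 0) (x 1) (x 2) (x 3) (x 4) (x 5) := by
  rw [conv7 (fun a b c d e f _ => F a b c d e f), conv6]
  simp only [sum_const, card_univ, nsmul_eq_mul, mul_sum]

variable (E : V → V → V → ℕ)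

theorem sumP3 (q3 : ℕ → ℕ → ℕ → ℕ) :
    ∑ x : Fin 7 → V, (P3 E q3 (x 0) (x 1) (x 2) (x 3) (x 4) (x 5) (x 6) : ℤ)
      = 4 * ∑ x : Fin 7 → V, (F3 E q3 (x 0) (x 1) (x 2) (x 3) (x 4) (x 5) (x 6) : ℤ) := by
  have f : ∀ i0 i1 i2 i3 i4 i5 i6 : Fin 7, Function.Injective ![i0, i1, i2, i3, i4, i5, i6] →
      ∑ x : Fin 7 → V, (F3 E q3 (x i0) (x i1) (x i2) (x i3) (x i4) (x i5) (x i6) : ℤ)
      = ∑ x : Fin 7 → V, (F3 E q3 (x 0) (x 1) (x 2) (x 3) (x 4) (x 5) (x 6) : ℤ) :=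
    fun i0 i1 i2 i3 i4 i5 i6 hg =>
      psum7 (fun a b c d e f g => (F3 E q3 a b c d e f g : ℤ)) ![i0, i1, i2, i3, i4, i5, i6]
        (Finite.injective_iff_bijective.mp hg)
  simp only [P3, Nat.cast_add, sum_add_distrib]
  rw [f 0 1 2 4 5 3 6 (by decide), f 0 1 3 4 5 2 6 (by decide), f 0 2 3 4 5 1 6 (by decide),
    f 1 2 3 4 5 0 6 (by decide)]
  ring

theorem sumR3 (q3 : ℕ → ℕ → ℕ → ℕ) :
    ∑ x : Fin 7 → V, (R3 E q3 (x 0) (x 1) (x 2) (x 3) (x 4) (x 5) (x 6) : ℤ)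
      = 3 * ∑ x : Fin 7 → V, (F3 E q3 (x 0) (x 1) (x 2) (x 3) (x 4) (x 5) (x 6) : ℤ) := by
  have f : ∀ i0 i1 i2 i3 i4 i5 i6 : Fin 7, Function.Injective ![i0, i1, i2, i3, i4, i5, i6] →
      ∑ x : Fin 7 → V, (F3 E q3 (x i0) (x i1) (x i2) (x i3) (x i4) (x i5) (x i6) : ℤ)
      = ∑ x : Fin 7 → V, (F3 E q3 (x 0) (x 1) (x 2) (x 3) (x 4) (x 5) (x 6) : ℤ) :=
    fun i0 i1 i2 i3 i4 i5 i6 hg =>
      psum7 (fun a b c d e f g => (F3 E q3 a b c d e f g : ℤ)) ![i0, i1, i2, i3, i4, i5, i6]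
        (Finite.injective_iff_bijective.mp hg)
  simp only [R3, Nat.cast_add, sum_add_distrib]
  rw [f 0 1 6 2 3 4 5 (by decide), f 0 1 6 2 4 3 5 (by decide), f 0 1 6 2 5 4 3 (by decide)]
  ring

theorem sumL3 (q3 : ℕ → ℕ → ℕ → ℕ) :
    ∑ x : Fin 7 → V, (L3 E q3 (x 0) (x 1) (x 2) (x 3) (x 4) (x 5) (x 6) : ℤ)
      = 105 * ∑ x : Fin 7 → V, (F3 E q3 (x 0) (x 1) (x 2) (x 3) (x 4) (x 5) (x 6) : ℤ) := by
  have p : ∀ i0 i1 i2 i3 i4 i5 i6 : Fin 7, Function.Injective ![i0, i1, i2, i3, i4, i5, i6] →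
      ∑ x : Fin 7 → V, (P3 E q3 (x i0) (x i1) (x i2) (x i3) (x i4) (x i5) (x i6) : ℤ)
      = ∑ x : Fin 7 → V, (P3 E q3 (x 0) (x 1) (x 2) (x 3) (x 4) (x 5) (x 6) : ℤ) :=
    fun i0 i1 i2 i3 i4 i5 i6 hg =>
      psum7 (fun a b c d e f g => (P3 E q3 a b c d e f g : ℤ)) ![i0, i1, i2, i3, i4, i5, i6]
        (Finite.injective_iff_bijective.mp hg)
  have r : ∀ i0 i1 i2 i3 i4 i5 i6 : Fin 7, Function.Injective ![i0, i1, i2, i3, i4, i5, i6] →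
      ∑ x : Fin 7 → V, (R3 E q3 (x i0) (x i1) (x i2) (x i3) (x i4) (x i5) (x i6) : ℤ)
      = ∑ x : Fin 7 → V, (R3 E q3 (x 0) (x 1) (x 2) (x 3) (x 4) (x 5) (x 6) : ℤ) :=
    fun i0 i1 i2 i3 i4 i5 i6 hg =>
      psum7 (fun a b c d e f g => (R3 E q3 a b c d e f g : ℤ)) ![i0, i1, i2, i3, i4, i5, i6]
        (Finite.injective_iff_bijective.mp hg)
  unfold L3
  simp only [Nat.cast_add, sum_add_distrib]
  refine (congrArg₂ (· + ·) (p 2 3 4 5 0 1 6 (by decide))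
    (congrArg₂ (· + ·) (r 0 1 2 3 4 5 6 (by decide))
    (congrArg₂ (· + ·) (p 1 3 4 5 0 2 6 (by decide))
    (congrArg₂ (· + ·) (r 0 2 1 3 4 5 6 (by decide))
    (congrArg₂ (· + ·) (p 1 2 4 5 0 3 6 (by decide))
    (congrArg₂ (· + ·) (r 0 3 1 2 4 5 6 (by decide))
    (congrArg₂ (· + ·) (p 1 2 3 5 0 4 6 (by decide))
    (congrArg₂ (· + ·) (r 0 4 1 2 3 5 6 (by decide))
    (congrArg₂ (· + ·) (p 1 2 3 4 0 5 6 (by decide))
    (congrArg₂ (· + ·) (r 0 5 1 2 3 4 6 (by decide))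
    (congrArg₂ (· + ·) (p 0 3 4 5 1 2 6 (by decide))
    (congrArg₂ (· + ·) (r 1 2 0 3 4 5 6 (by decide))
    (congrArg₂ (· + ·) (p 0 2 4 5 1 3 6 (by decide))
    (congrArg₂ (· + ·) (r 1 3 0 2 4 5 6 (by decide))
    (congrArg₂ (· + ·) (p 0 2 3 5 1 4 6 (by decide))
    (congrArg₂ (· + ·) (r 1 4 0 2 3 5 6 (by decide))
    (congrArg₂ (· + ·) (p 0 2 3 4 1 5 6 (by decide))
    (congrArg₂ (· + ·) (r 1 5 0 2 3 4 6 (by decide))
    (congrArg₂ (· + ·) (p 0 1 4 5 2 3 6 (by decide))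
    (congrArg₂ (· + ·) (r 2 3 0 1 4 5 6 (by decide))
    (congrArg₂ (· + ·) (p 0 1 3 5 2 4 6 (by decide))
    (congrArg₂ (· + ·) (r 2 4 0 1 3 5 6 (by decide))
    (congrArg₂ (· + ·) (p 0 1 3 4 2 5 6 (by decide))
    (congrArg₂ (· + ·) (r 2 5 0 1 3 4 6 (by decide))
    (congrArg₂ (· + ·) (p 0 1 2 5 3 4 6 (by decide))
    (congrArg₂ (· + ·) (r 3 4 0 1 2 5 6 (by decide))
    (congrArg₂ (· + ·) (p 0 1 2 4 3 5 6 (by decide))
    (congrArg₂ (· + ·) (r 3 5 0 1 2 4 6 (by decide))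
    (congrArg₂ (· + ·) (p 0 1 2 3 4 5 6 (by decide))
    ((r 4 5 0 1 2 3 6 (by decide)))))))))))))))))))))))))))))))).trans ?_
  rw [sumP3, sumR3]
  ring

theorem sumG7 (q4 : ℕ → ℕ → ℕ → ℕ) (q2 : ℕ → ℕ → ℕ) (q3 : ℕ → ℕ → ℕ → ℕ) (s : ℕ) :
    ∑ x : Fin 7 → V, (G7 E q4 q2 q3 s (x 0) (x 1) (x 2) (x 3) (x 4) (x 5) (x 6) : ℤ)
      = 7 * ((Fintype.card V : ℤ) * ∑ x : Fin 6 → V, (S6 E q4 q2 (x 0) (x 1) (x 2) (x 3) (x 4) (x 5) : ℤ))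
      + s * (105 * ∑ x : Fin 7 → V, (F3 E q3 (x 0) (x 1) (x 2) (x 3) (x 4) (x 5) (x 6) : ℤ)) := by
  have f : ∀ i0 i1 i2 i3 i4 i5 i6 : Fin 7, Function.Injective ![i0, i1, i2, i3, i4, i5, i6] →
      ∑ x : Fin 7 → V, (S6 E q4 q2 (x i0) (x i1) (x i2) (x i3) (x i4) (x i5) : ℤ)
      = ∑ x : Fin 7 → V, (S6 E q4 q2 (x 0) (x 1) (x 2) (x 3) (x 4) (x 5) : ℤ) :=
    fun i0 i1 i2 i3 i4 i5 i6 hg =>
      psum7 (fun a b c d e f _ => (S6 E q4 q2 a b c d e f : ℤ)) ![i0, i1, i2, i3, i4, i5, i6]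
        (Finite.injective_iff_bijective.mp hg)
  unfold G7
  simp only [Nat.cast_add, Nat.cast_mul, sum_add_distrib, ← mul_sum]
  rw [f 1 2 3 4 5 6 0 (by decide), f 0 2 3 4 5 6 1 (by decide), f 0 1 3 4 5 6 2 (by decide),
    f 0 1 2 4 5 6 3 (by decide), f 0 1 2 3 5 6 4 (by decide), f 0 1 2 3 4 6 5 (by decide),
    sumL3, sum7_six (fun a b c d e f => (S6 E q4 q2 a b c d e f : ℤ))]
  ring

theorem sumS6 (q4 : ℕ → ℕ → ℕ → ℕ) (q2 : ℕ → ℕ → ℕ) :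
    ∑ x : Fin 6 → V, (S6 E q4 q2 (x 0) (x 1) (x 2) (x 3) (x 4) (x 5) : ℤ)
      = 15 * ∑ x : Fin 6 → V, (F4 E q4 (x 0) (x 1) (x 2) (x 3) (x 4) (x 5) : ℤ)
      + 45 * ∑ x : Fin 6 → V, (F2 E q2 (x 0) (x 1) (x 2) (x 3) (x 4) (x 5) : ℤ) := by
  simp only [S6, Nat.cast_add, sum_add_distrib]
  rw [sumL4, sumL2]

theorem lower3 {E : V → V → V → ℕ} (hE : Sy E) (K : ℕ) (q3 : ℕ → ℕ → ℕ → ℕ) (l : ℕ → ℕ → ℕ → ℕ)
    (M B O3 : ℤ) (hM : 0 < M)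
    (hq3 : ∀ t i j, t < 2 → i < 512 → j < 512 →
      ∑ k ∈ range K, ((l t i k : ℤ) - B) * ((l t j k : ℤ) - B) ≤ M * ((q3 t i j : ℤ) - O3)) :
    O3 * (Fintype.card V : ℤ) ^ 7
      ≤ ∑ x : Fin 7 → V, (F3 E q3 (x 0) (x 1) (x 2) (x 3) (x 4) (x 5) (x 6) : ℤ) := by
  have key : 0 ≤ ∑ x : Fin 7 → V, M * ((F3 E q3 (x 0) (x 1) (x 2) (x 3) (x 4) (x 5) (x 6) : ℤ) - O3) := by
    rw [conv7 (fun a b c d e f g => M * ((F3 E q3 a b c d e f g : ℤ) - O3))]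
    refine sum_nonneg fun a _ => sum_nonneg fun b _ => sum_nonneg fun c _ => ?_
    have p := psd (ι := V × V) K (fun _ => 1)
      (fun k q => (l (E a b c) (cd9 (E a b q.1) (E a c q.1) (E b c q.1) (E a b q.2) (E a c q.2)
        (E b c q.2) (E a q.1 q.2) (E b q.1 q.2) (E c q.1 q.2)) k : ℤ) - B)
    simp only [Fintype.sum_prod_type] at p
    refine p.trans (sum_le_sum fun x _ => sum_le_sum fun y _ => sum_le_sum fun z _ =>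
      sum_le_sum fun w _ => ?_)
    have h := hq3 (E a b c) _ _ (Bt_lt (hE.b a b c))
      (cd9_lt (hE.b a b x) (hE.b a c x) (hE.b b c x) (hE.b a b y) (hE.b a c y) (hE.b b c y)
        (hE.b a x y) (hE.b b x y) (hE.b c x y))
      (cd9_lt (hE.b a b z) (hE.b a c z) (hE.b b c z) (hE.b a b w) (hE.b a c w) (hE.b b c w)
        (hE.b a z w) (hE.b b z w) (hE.b c z w))
    simp only [Nat.cast_one, one_mul]
    exact h
  rw [← mul_sum, sum_sub_distrib] at key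
  have h2 := (mul_nonneg_iff_of_pos_left hM).mp key
  rw [sum_const, card_univ, Fintype.card_fun, Fintype.card_fin, nsmul_eq_mul] at h2
  push_cast at h2
  linarith

theorem lower4' {E : V → V → V → ℕ} (hE : Sy E) (K : ℕ) (q4 : ℕ → ℕ → ℕ → ℕ) (l : ℕ → ℕ → ℕ → ℕ)
    (M B O4 : ℤ) (hM : 0 < M)
    (hq4 : ∀ c i j, c < 16 → i < 64 → j < 64 →
      ∑ k ∈ range K, ((l c i k : ℤ) - B) * ((l c j k : ℤ) - B) ≤ M * ((q4 c i j : ℤ) - O4)) :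
    O4 * (Fintype.card V : ℤ) ^ 6
      ≤ ∑ x : Fin 6 → V, (F4 E q4 (x 0) (x 1) (x 2) (x 3) (x 4) (x 5) : ℤ) := by
  have key : 0 ≤ ∑ x : Fin 6 → V, M * ((F4 E q4 (x 0) (x 1) (x 2) (x 3) (x 4) (x 5) : ℤ) - O4) := by
    rw [conv6 (fun a b c d e f => M * ((F4 E q4 a b c d e f : ℤ) - O4))]
    refine sum_nonneg fun a _ => sum_nonneg fun b _ => sum_nonneg fun c _ => sum_nonneg fun d _ => ?_
    have p := psd K (fun _ => 1)
      (fun k e => (l (cd4 (E a b c) (E a b d) (E a c d) (E b c d))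
        (cd6 (E a b e) (E a c e) (E b c e) (E a d e) (E b d e) (E c d e)) k : ℤ) - B)
    refine p.trans (sum_le_sum fun e _ => sum_le_sum fun f _ => ?_)
    have h := hq4 _ _ _ (cd4_lt (hE.b a b c) (hE.b a b d) (hE.b a c d) (hE.b b c d))
      (cd6_lt (hE.b a b e) (hE.b a c e) (hE.b b c e) (hE.b a d e) (hE.b b d e) (hE.b c d e))
      (cd6_lt (hE.b a b f) (hE.b a c f) (hE.b b c f) (hE.b a d f) (hE.b b d f) (hE.b c d f))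
    simp only [Nat.cast_one, one_mul]
    exact h
  rw [← mul_sum, sum_sub_distrib] at key
  have h2 := (mul_nonneg_iff_of_pos_left hM).mp key
  rw [sum_const, card_univ, Fintype.card_fun, Fintype.card_fin, nsmul_eq_mul] at h2
  push_cast at h2
  linarith

theorem lower2' {E : V → V → V → ℕ} (hE : Sy E) (K : ℕ) (q2 : ℕ → ℕ → ℕ) (l : ℕ → ℕ → ℕ)
    (M B O2 τ : ℤ) (hM : 0 < M)
    (hq2 : ∀ i j, i < 16 → j < 16 →
      ∑ k ∈ range K, ((l i k : ℤ) - B) * ((l j k : ℤ) - B) ≤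
        M * ((q2 i j : ℤ) - (O2 + τ * (kk i j : ℕ)))) :
    O2 * (Fintype.card V : ℤ) ^ 6 + T2 E (fun k => τ * (k : ℤ))
      ≤ ∑ x : Fin 6 → V, (F2 E q2 (x 0) (x 1) (x 2) (x 3) (x 4) (x 5) : ℤ) := by
  rw [conv6 (fun a b c d e f => (F2 E q2 a b c d e f : ℤ))]
  have e1 : O2 * (Fintype.card V : ℤ) ^ 6 + T2 E (fun k => τ * (k : ℤ))
      = ∑ a : V, ∑ b : V, ∑ c : V, ∑ d : V, ∑ e : V, ∑ f : V,
        (O2 + τ * ((E a b c + E a b d + (E a b e + E a b f) : ℕ) : ℤ)) := by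
    unfold T2
    simp only [sum_add_distrib, sum_const, card_univ, nsmul_eq_mul]
    ring
  rw [e1]
  refine sum_le_sum fun a _ => sum_le_sum fun b _ => ?_
  have p := psd (ι := V × V) K (fun _ => 1)
    (fun k q => (l (cd4 (E a b q.1) (E a b q.2) (E a q.1 q.2) (E b q.1 q.2)) k : ℤ) - B)
  simp only [Fintype.sum_prod_type] at p
  have p2 : 0 ≤ ∑ c : V, ∑ d : V, ∑ e : V, ∑ f : V, M * ((F2 E q2 a b c d e f : ℤ) -
      (O2 + τ * ((E a b c + E a b d + (E a b e + E a b f) : ℕ) : ℤ))) := by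
    refine p.trans (sum_le_sum fun c _ => sum_le_sum fun d _ => sum_le_sum fun e _ =>
      sum_le_sum fun f _ => ?_)
    have h := hq2 _ _ (cd4_lt (hE.b a b c) (hE.b a b d) (hE.b a c d) (hE.b b c d))
      (cd4_lt (hE.b a b e) (hE.b a b f) (hE.b a e f) (hE.b b e f))
    have hk : kk (cd4 (E a b c) (E a b d) (E a c d) (E b c d))
        (cd4 (E a b e) (E a b f) (E a e f) (E b e f)) = E a b c + E a b d + (E a b e + E a b f) := by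
      unfold kk
      rw [half_cd (hE.b a b c) (hE.b a b d) (hE.b a c d) (hE.b b c d),
        half_cd (hE.b a b e) (hE.b a b f) (hE.b a e f) (hE.b b e f)]
      rfl
    rw [hk] at h
    simp only [Nat.cast_one, one_mul]
    exact h
  simp only [← mul_sum, sum_sub_distrib] at p2
  have h2 := (mul_nonneg_iff_of_pos_left hM).mp p2
  linarith

theorem bound7 {E : V → V → V → ℕ} (hE : Sy E) (q4 : ℕ → ℕ → ℕ → ℕ) (q2 : ℕ → ℕ → ℕ)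
    (q3 : ℕ → ℕ → ℕ → ℕ) (s : ℕ) (O4 O2 O3 τ C : ℤ)
    (h4 : O4 * (Fintype.card V : ℤ) ^ 6
      ≤ ∑ x : Fin 6 → V, (F4 E q4 (x 0) (x 1) (x 2) (x 3) (x 4) (x 5) : ℤ))
    (h2 : O2 * (Fintype.card V : ℤ) ^ 6 + T2 E (fun k => τ * (k : ℤ))
      ≤ ∑ x : Fin 6 → V, (F2 E q2 (x 0) (x 1) (x 2) (x 3) (x 4) (x 5) : ℤ))
    (h3 : O3 * (Fintype.card V : ℤ) ^ 7
      ≤ ∑ x : Fin 7 → V, (F3 E q3 (x 0) (x 1) (x 2) (x 3) (x 4) (x 5) (x 6) : ℤ))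
    (hleaf : ∀ a b c d e f v : V, (G7 E q4 q2 q3 s a b c d e f v : ℤ) ≤ C) :
    1260 * τ * (Fintype.card V : ℤ) ^ 4 * (∑ a, ∑ b, ∑ c, (E a b c : ℤ)) +
      (105 * O4 + 315 * O2 + 105 * s * O3) * (Fintype.card V : ℤ) ^ 7 ≤
      C * (Fintype.card V : ℤ) ^ 7 := by
  have key : ∑ x : Fin 7 → V, (G7 E q4 q2 q3 s (x 0) (x 1) (x 2) (x 3) (x 4) (x 5) (x 6) : ℤ) ≤
      C * (Fintype.card V : ℤ) ^ 7 := by
    calc _ ≤ ∑ x : Fin 7 → V, C := sum_le_sum fun x _ => hleaf _ _ _ _ _ _ _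
      _ = C * (Fintype.card V : ℤ) ^ 7 := by
          rw [sum_const, card_univ, Fintype.card_fun, Fintype.card_fin, nsmul_eq_mul]
          push_cast
          ring
  rw [sumG7, sumS6] at key
  rw [Pool.Agent.H37R3.Pen.T2_lin E hE] at h2
  have hn : (0 : ℤ) ≤ (Fintype.card V : ℤ) := by positivity
  have a4 := mul_le_mul_of_nonneg_left h4 hn
  have a2 := mul_le_mul_of_nonneg_left h2 hn
  have a3 := mul_le_mul_of_nonneg_left h3 (by positivity : (0 : ℤ) ≤ (s : ℤ))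
  have e1 : (Fintype.card V : ℤ) * (O4 * (Fintype.card V : ℤ) ^ 6) = O4 * (Fintype.card V : ℤ) ^ 7 := by
    ring
  have e2 : (Fintype.card V : ℤ) * (O2 * (Fintype.card V : ℤ) ^ 6 +
      4 * τ * (Fintype.card V : ℤ) ^ 3 * ∑ a, ∑ b, ∑ c, (E a b c : ℤ)) =
      O2 * (Fintype.card V : ℤ) ^ 7 +
      4 * (τ * (Fintype.card V : ℤ) ^ 4 * ∑ a, ∑ b, ∑ c, (E a b c : ℤ)) := by ring
  rw [e1] at a4
  rw [e2] at a2
  have e3 : (s : ℤ) * (O3 * (Fintype.card V : ℤ) ^ 7) = s * O3 * (Fintype.card V : ℤ) ^ 7 := by ring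
  rw [e3] at a3
  have e4 : 1260 * τ * (Fintype.card V : ℤ) ^ 4 * (∑ a, ∑ b, ∑ c, (E a b c : ℤ)) =
    1260 * (τ * (Fintype.card V : ℤ) ^ 4 * ∑ a, ∑ b, ∑ c, (E a b c : ℤ)) := by ring
  rw [e4]
  nlinarith [key, a4, a2, a3]

end
end Pool.Agent.K3h90.T34
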